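import Pool.Agent.Lib.LU2_base.Rep
import Pool.Agent.Lib.LU2_PI.CStep

/-! # LU2: definitions for the real case

`k` perfect, `Ω` algebraically closed, `v` a real valuation of `Ω`, trivial on `k`; all fields are
intermediate fields of `Ω/k`.  A C-frame is a frame over a coefficient field. -/

set_option autoImplicit false

open Polynomial

namespace Pool.Agent.LU1

open Pool.Agent.H15JM (RVal)

universe u

variable {k Ω : Type u} [Field k] [Field Ω] [Algebra k Ω] {v : RVal Ω} {r : ℕ}

/-- `z_1, …, z_d` are units of `v` with algebraically independent residues. -/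
def ResInd (k : Type u) {Ω : Type u} [Field k] [Field Ω] [Algebra k Ω] (v : RVal Ω) {d : ℕ}
    (z : Fin d → Ω) : Prop :=
  ∀ P : MvPolynomial (Fin d) k, P ≠ 0 →
    MvPolynomial.aeval z P ≠ 0 ∧ v (MvPolynomial.aeval z P) = 0

/-- The standing assumptions on the real valuation `v` of the big field `Ω`: rational rank `r ≥ 1`,
residue field of transcendence degree `d` over `k`, `Ω` of transcendence degree `r + 1 + d`. -/
structure CtxD (k : Type u) {Ω : Type u} [Field k] [Field Ω] [Algebra k Ω] (v : RVal Ω)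
    (r d : ℕ) : Prop where
  rpos : 0 < r
  trdeg : Algebra.trdeg k Ω = r + 1 + d
  rank : ∃ X : Fin r → Ω, (∀ i, X i ≠ 0) ∧ LinearIndependent ℚ (fun i => v (X i)) ∧
    ∀ g : Ω, g ≠ 0 → v g ∈ Submodule.span ℚ (Set.range fun i => v (X i))
  res : ∃ z : Fin d → Ω, ResInd k v z ∧ ∀ g : Ω, g ≠ 0 → v g = 0 →
    ∃ P : (IntermediateField.adjoin k (Set.range z))[X], P.Monic ∧ VPos v (aeval g P)

/-- `v` is trivial on the field `C`. -/
def TrivOn (v : RVal Ω) (C : IntermediateField k Ω) : Prop := ∀ c ∈ C, c ≠ 0 → v c = 0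

/-- The field of fractions of `R`, as a field over `k`. -/
def quoK {C : IntermediateField k Ω} (R : Subalgebra C Ω) : IntermediateField k Ω :=
  (quo R).restrictScalars k

theorem mem_quoK {C : IntermediateField k Ω} {R : Subalgebra C Ω} {g : Ω} :
    g ∈ quoK R ↔ ∃ a ∈ R, ∃ b ∈ R, b ≠ 0 ∧ g = a / b := by
  rw [quoK, IntermediateField.mem_restrictScalars, mem_quo]

/-- A C-frame: a frame over a coefficient field. -/
structure CF (k : Type u) {Ω : Type u} [Field k] [Field Ω] [Algebra k Ω] (v : RVal Ω)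
    (r : ℕ) where
  /-- the coefficient field -/
  C : IntermediateField k Ω
  fg : C.FG
  ctx : Ctx2 C v r
  /-- the frame -/
  B : BF C v
  res : B.Res

/-- The field of a C-frame. -/
def CF.E (X : CF k v r) : IntermediateField k Ω := quoK X.B.R

/-- `B ⊆ B'`: an extension of frames over possibly different base fields and with possibly
different fields of fractions. -/
structure ExtK {C C' : IntermediateField k Ω} (B : BF C v) (B' : BF C' v) : Prop where
  le : ∀ f ∈ B.R, f ∈ B'.R
  Γ_le : ∀ γ ∈ B.Γ, γ ∈ B'.Γ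
  χ_un : ∀ γ ∈ B.Γ, B'.Un (B.χ γ / B'.χ γ)

/-- `Y` is the C-frame obtained from the frame `B` (over `C`) by adjoining `θ`, separable algebraic
over a subfield `C₁` of `B.R`, with residue in the residue field of `B.R`. -/
structure IsEStep {C : IntermediateField k Ω} (B : BF C v) (Y : CF k v r)
    (C₁ : IntermediateField k Ω) (θ : Ω) : Prop where
  C₁_le : ∀ c ∈ C₁, c ∈ B.R
  sep : IsSeparable C₁ θ
  C_eq : Y.C = adj C₁ θ
  near : ∃ c ∈ B.R, VPos v (θ - c)
  Γ_eq : Y.B.Γ = B.Γ
  χ_eq : Y.B.χ = B.χ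
  y_eq : Y.B.y = B.y
  R_eq : ∀ f, f ∈ Y.B.R ↔ f ∈ locv v (Algebra.adjoin C ((B.R : Set Ω) ∪ {θ}))

/-- A growth step of C-frames: a G-step inside the field, then `θ` is adjoined. -/
structure IsGrow (X Y : CF k v r) (B : BF X.C v) (C₁ : IntermediateField k Ω) (θ : Ω) :
    Prop where
  gstep : ∃ q M s, IsGStep X.B B q M s
  estep : IsEStep B Y C₁ θ

/-- A growth step. -/
def Grow (X Y : CF k v r) : Prop := ∃ B C₁ θ, IsGrow X Y B C₁ θ

/-- `θ` is étale over the valuation ring of `E` and has its residue in the residue field of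
`E`. -/
structure NearGen (v : RVal Ω) (E : IntermediateField k Ω) (θ : Ω) : Prop where
  int : IsIntegral E θ
  coeff : ∀ i, v.Ge 0 ((minpoly E θ).coeff i : Ω)
  der_ne : aeval θ (derivative (minpoly E θ)) ≠ 0
  der : v (aeval θ (derivative (minpoly E θ))) = 0
  near : ∃ c ∈ E, VPos v (θ - c)

/-- `E' = E(θ)`. -/
def NearEt (v : RVal Ω) (E E' : IntermediateField k Ω) : Prop :=
  ∃ θ, NearGen v E θ ∧ E' = adj E θ

/-- Towers of such extensions. -/
def NearTow (v : RVal Ω) : IntermediateField k Ω → IntermediateField k Ω → Prop :=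
  Relation.ReflTransGen (NearEt v)

/-- `f` is a quotient of elements of `A` with denominator in `M`. -/
def QR (A : Subalgebra k Ω) (M : Set Ω) (f : Ω) : Prop := ∃ a ∈ A, ∃ b ∈ A, b ≠ 0 ∧ b ∈ M ∧ f = a / b

/-- `A[θ]`. -/
def adjA (A : Subalgebra k Ω) (θ : Ω) : Subalgebra k Ω := A ⊔ Algebra.adjoin k {θ}

end Pool.Agent.LU1
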