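import Pool.Agent.Lib.LU2_h80.ST_3

/-! # LU2, CE: extension of constants -/

set_option autoImplicit false

open Polynomial

namespace Pool.Agent.LU1

open Pool.Agent.H15JM (RVal)

universe u

variable {k Ω : Type u} [Field k] [Field Ω] [Algebra k Ω] {v : RVal Ω} {r d : ℕ}

/-- `B'` is obtained from `B` by extending the constants from `C` to `C'`. -/
structure IsCE {C C' : IntermediateField k Ω} (B : BF C v) (B' : BF C' v) : Prop where
  Γ_eq : B'.Γ = B.Γ
  χ_eq : B'.χ = B.χ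
  y_eq : B'.y = B.y
  R_eq : ∀ f, f ∈ B'.R ↔ f ∈ locv v (Algebra.adjoin C' (B.R : Set Ω))

namespace CE_1Aux

theorem adjoin_lift {C C' : IntermediateField k Ω} (hle : C ≤ C') {S : Set Ω} {f : Ω}
    (hf : f ∈ Algebra.adjoin C S) : f ∈ Algebra.adjoin C' S := by
  induction hf using Algebra.adjoin_induction with
  | mem x hx => exact Algebra.subset_adjoin hx
  | algebraMap c => exact Subalgebra.algebraMap_mem _ (⟨c.1, hle c.2⟩ : C')
  | add x y _ _ hx hy => exact add_mem hx hy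
  | mul x y _ _ hx hy => exact mul_mem hx hy

theorem locv_lift {C C' : IntermediateField k Ω} (hle : C ≤ C') {S : Set Ω} {f : Ω}
    (hf : f ∈ locv v (Algebra.adjoin C S)) : f ∈ locv v (Algebra.adjoin C' S) := by
  obtain ⟨a, ha, b, hb, h0, h1, rfl⟩ := hf
  exact ⟨a, adjoin_lift hle ha, b, adjoin_lift hle hb, h0, h1, rfl⟩

end CE_1Aux

/-- CE1. -/
theorem BF.exists_ce {C C' : IntermediateField k Ω} (hle : C ≤ C')
    (halg : ∀ c ∈ C', IsAlgebraic C c) (h : Ctx2 C v r) (B : BF C v) (hB : B.Res) :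
    ∃ B' : BF C' v, IsCE B B' ∧ B'.Res := by
  have h' : Ctx2 C' v r := h.of_alg hle halg
  have hRR : ∀ f ∈ B.R, f ∈ locv v (Algebra.adjoin C' (B.R : Set Ω)) :=
    fun f hf => le_locv _ (Algebra.subset_adjoin hf)
  have H : Pre v B.Γ B.χ B.y (locv v (Algebra.adjoin C' (B.R : Set Ω))) :=
    { full := B.full
      χ_ne := B.χ_ne
      χ_add := B.χ_add
      χ_val := B.χ_val
      y_ne := B.y_ne
      y_pos := B.y_pos
      nonneg := locv_nonneg (adjoin_nonneg2 h' B.nonneg)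
      loc := fun f hf h0 h1 => locv_inv hf h0 h1
      χ_mem := fun γ hγ h0 => hRR _ (B.χ_mem γ hγ h0)
      y_mem := hRR _ B.y_mem }
  have hres : ∀ f ∈ (B.R : Set Ω),
      Pre.Res B.Γ B.χ B.y (locv v (Algebra.adjoin C' (B.R : Set Ω))) f := by
    intro f hf
    obtain ⟨c, hc⟩ := hB f hf
    obtain ⟨γ, hγ, h0, a, ha, b, hb, h1⟩ := B.gen _ (B.R.sub_mem hf (B.R.algebraMap_mem c)) hc
    exact ⟨⟨c.1, hle c.2⟩, γ, hγ, h0, a, hRR a ha, b, hRR b hb, h1⟩
  have hall := H.res_all rfl hres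
  have hgen : ∀ f ∈ locv v (Algebra.adjoin C' (B.R : Set Ω)), VPos v f →
      MM B.Γ B.χ B.y (locv v (Algebra.adjoin C' (B.R : Set Ω))) f := by
    intro f hf hv
    obtain ⟨c, hc⟩ := hall f hf
    have h1 : VPos v (algebraMap C' Ω c) := by
      have := hv.sub (H.mm_vpos hc)
      rwa [sub_sub_cancel] at this
    rw [h'.const_eq_zero h1, map_zero, sub_zero] at hc
    exact hc
  refine ⟨mkBF2 H B.fg hgen ?_ ?_, ⟨rfl, rfl, rfl, fun f => Iff.rfl⟩, ?_⟩
  · obtain ⟨F, hF⟩ := B.fgen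
    refine ⟨F, le_antisymm ?_ ?_⟩
    · refine locv_adjoin_le ?_
      intro f hf
      have h1 : f ∈ locv v (Algebra.adjoin C ((F : Set Ω) ∪ B.χ '' {γ | γ ∈ B.Γ ∧ 0 ≤ γ})) := by
        rw [← hF]; exact hf
      exact CE_1Aux.locv_lift hle h1
    · refine locv_adjoin_le ?_
      intro f hf
      refine hRR f ?_
      rw [hF]
      exact le_locv _ (Algebra.subset_adjoin hf)
  · intro g
    exact isAlgebraic_of_set_eq B.R _ hRR (B.alg g)
  · intro f hf
    obtain ⟨c, hc⟩ := hall f hf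
    exact ⟨c, H.mm_vpos hc⟩

theorem IsCE.extK {C C' : IntermediateField k Ω} {B : BF C v} {B' : BF C' v} (h : IsCE B B') :
    ExtK B B' where
  le := fun f hf => (h.R_eq f).2 (le_locv _ (Algebra.subset_adjoin hf))
  Γ_le := fun γ hγ => by rw [h.Γ_eq]; exact hγ
  χ_un := fun γ hγ => by
    rw [h.χ_eq, div_self (B.χ_ne γ hγ)]
    exact BF.Un.one

theorem IsCE.quoK_eq {C C' : IntermediateField k Ω} {B : BF C v} {B' : BF C' v}
    (_hle : C ≤ C') (h : IsCE B B') : quoK B'.R = quoK B.R ⊔ C' := by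
  have hB : ∀ f ∈ B.R, f ∈ quoK B.R := fun f hf =>
    mem_quoK.2 ⟨f, hf, 1, B.R.one_mem, one_ne_zero, by rw [div_one]⟩
  apply le_antisymm
  · have h1 : ∀ s ∈ Algebra.adjoin C' (B.R : Set Ω), s ∈ quoK B.R ⊔ C' := by
      intro s hs
      induction hs using Algebra.adjoin_induction with
      | mem x hx => exact (le_sup_left : quoK B.R ≤ quoK B.R ⊔ C') (hB x hx)
      | algebraMap c => exact (le_sup_right : C' ≤ quoK B.R ⊔ C') c.2
      | add x y _ _ hx hy => exact add_mem hx hy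
      | mul x y _ _ hx hy => exact mul_mem hx hy
    have h2 : ∀ f ∈ B'.R, f ∈ quoK B.R ⊔ C' := by
      intro f hf
      obtain ⟨s, hs, t, ht, -, -, rfl⟩ := (h.R_eq f).1 hf
      exact div_mem (h1 s hs) (h1 t ht)
    intro g hg
    obtain ⟨a, ha, b, hb, -, rfl⟩ := mem_quoK.1 hg
    exact div_mem (h2 a ha) (h2 b hb)
  · refine sup_le ?_ ?_
    · intro g hg
      obtain ⟨a, ha, b, hb, h0, rfl⟩ := mem_quoK.1 hg
      exact mem_quoK.2 ⟨a, h.extK.le a ha, b, h.extK.le b hb, h0, rfl⟩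
    · intro c hc
      exact mem_quoK.2 ⟨c, B'.R.algebraMap_mem (⟨c, hc⟩ : C'), 1, B'.R.one_mem, one_ne_zero,
        by rw [div_one]⟩

namespace CE_2Aux

open RepAux

theorem Hi.lift {C C' : IntermediateField k Ω} {B : BF C v} {B' : BF C' v} (hE : IsCE B B')
    {κ : ℝ} {z : Ω} (hz : Hi B κ z) : Hi B' κ z := by
  obtain ⟨γ, hγ, h1, a, ha, rfl⟩ := hz
  exact ⟨γ, by rw [hE.Γ_eq]; exact hγ, h1, a, hE.extK.le a ha, by rw [hE.χ_eq]⟩

/-- One term of the relation. -/
theorem term {C C' : IntermediateField k Ω} {B : BF C v} (hB : B.Res)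
    {B' : BF C' v} (hE : IsCE B B') {κ₀ : ℝ} {D₀ : ℕ} {a e : Ω}
    (he : e ∈ B'.R) {κ : ℝ} {D : ℕ} (hrep : B.Rep a κ D)
    (hle : κ₀ < κ ∨ κ₀ = κ ∧ D₀ ≤ D) :
    ∃ w ∈ B'.R, ∃ c : C, Hi B' κ₀ (a * e - B'.χ κ₀ * (w * B'.y ^ D₀)) ∧
      VPos v (w - algebraMap C Ω c * e) ∧ (κ₀ = κ → D₀ = D → c ≠ 0) := by
  have hκ := hrep.1
  obtain ⟨u, hu, hz⟩ := (rep_iff hκ).1 hrep
  have hz' : Hi B' κ ((a - B.χ κ * (u * B.y ^ D)) * e) := by
    rw [mul_comm]; exact (Hi.lift hE hz).mul he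
  have huR : u ∈ B'.R := hE.extK.le u hu.1
  have hyR : ∀ n : ℕ, B.y ^ n ∈ B'.R := fun n =>
    B'.R.pow_mem (hE.extK.le _ B.y_mem) n
  rcases hle with h1 | ⟨rfl, h1⟩
  · refine ⟨0, B'.R.zero_mem, 0, ?_, ?_, fun h2 => absurd h2 h1.ne⟩
    · have h2 : a * e - B'.χ κ₀ * (0 * B'.y ^ D₀) =
          (a - B.χ κ * (u * B.y ^ D)) * e + B.χ κ * (u * B.y ^ D * e) := by ring
      rw [h2]
      refine (hz'.mono h1.le).add ⟨κ, by rw [hE.Γ_eq]; exact hκ, h1, _,
        B'.R.mul_mem (B'.R.mul_mem huR (hyR D)) he, by rw [hE.χ_eq]⟩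
    · rw [map_zero, zero_mul, sub_zero]; exact VPos.zero
  · obtain ⟨n, rfl⟩ : ∃ n, D = D₀ + n := ⟨D - D₀, by omega⟩
    have hHi : Hi B' κ₀ (a * e - B'.χ κ₀ * (u * B.y ^ n * e * B'.y ^ D₀)) := by
      have h2 : a * e - B'.χ κ₀ * (u * B.y ^ n * e * B'.y ^ D₀) =
          (a - B.χ κ₀ * (u * B.y ^ (D₀ + n))) * e := by
        rw [hE.χ_eq, hE.y_eq, pow_add]; ring
      rw [h2]
      exact hz'
    have hwR : u * B.y ^ n * e ∈ B'.R := B'.R.mul_mem (B'.R.mul_mem huR (hyR n)) he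
    by_cases hn : n = 0
    · subst hn
      obtain ⟨c, hc⟩ := hB u hu.1
      refine ⟨_, hwR, c, hHi, ?_, fun _ _ hc0 => ?_⟩
      · have h2 : u * B.y ^ 0 * e - algebraMap C Ω c * e = (u - algebraMap C Ω c) * e := by ring
        rw [h2]
        exact hc.mul (B'.nonneg e he)
      · rw [hc0, map_zero, sub_zero] at hc
        have := hc hu.2.1
        rw [hu.2.2] at this
        exact lt_irrefl _ this
    · refine ⟨_, hwR, 0, hHi, ?_, fun _ h2 => absurd h2 (by omega)⟩
      rw [map_zero, zero_mul, sub_zero, mul_assoc, mul_comm (B.y ^ n), ← mul_assoc]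
      refine VPos.mul' (B'.nonneg _ (B'.R.mul_mem huR he)) ?_
      intro _
      rw [v.map_pow B.y_ne]
      exact mul_pos (by exact_mod_cast Nat.pos_of_ne_zero hn) B.y_pos

/-- The integral case. -/
theorem integral {C C' : IntermediateField k Ω} (hle : C ≤ C')
    (halg : ∀ c ∈ C', IsAlgebraic C c) (h : Ctx2 C v r) (B : BF C v) (hB : B.Res) {n : ℕ}
    (e : Fin n → Ω) (he : ∀ i, e i ∈ C') (hind : LinearIndependent C e)
    (a : Fin n → Ω) (ha : ∀ i, a i ∈ B.R) (hsum : ∑ i, a i * e i = 0) : ∀ i, a i = 0 := by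
  classical
  obtain ⟨B', hE, -⟩ := BF.exists_ce hle halg h B hB
  have h' : Ctx2 C' v r := h.of_alg hle halg
  have heR : ∀ i, e i ∈ B'.R := fun i => B'.R.algebraMap_mem (⟨e i, he i⟩ : C')
  by_contra hcon
  push Not at hcon
  obtain ⟨i0, hi0⟩ := hcon
  have hrep : ∀ i, ∃ (κ : ℝ) (D : ℕ), a i ≠ 0 → B.Rep (a i) κ D := by
    intro i
    by_cases h0 : a i = 0
    · exact ⟨0, 0, fun h1 => absurd h0 h1⟩
    · obtain ⟨κ, D, -, h1⟩ := B.rep_exists2 h (ha i) h0
      exact ⟨κ, D, fun _ => h1⟩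
  choose κ D hκD using hrep
  obtain ⟨j, hj, hmin⟩ := (Finset.univ.filter fun i => a i ≠ 0).exists_min_image
    (fun i => toLex (κ i, D i)) ⟨i0, Finset.mem_filter.2 ⟨Finset.mem_univ _, hi0⟩⟩
  have hj0 : a j ≠ 0 := (Finset.mem_filter.1 hj).2
  have hκj : κ j ∈ B.Γ := (hκD j hj0).1
  have hκj' : κ j ∈ B'.Γ := by rw [hE.Γ_eq]; exact hκj
  have hterm : ∀ i, ∃ w ∈ B'.R, ∃ c : C,
      Hi B' (κ j) (a i * e i - B'.χ (κ j) * (w * B'.y ^ (D j))) ∧
      VPos v (w - algebraMap C Ω c * e i) ∧ (i = j → c ≠ 0) := by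
    intro i
    by_cases h0 : a i = 0
    · refine ⟨0, B'.R.zero_mem, 0, ?_, ?_, fun h1 => ?_⟩
      · rw [h0, zero_mul, zero_mul, mul_zero, sub_zero]
        exact Hi.zero B' hκj'
      · rw [map_zero, zero_mul, sub_zero]; exact VPos.zero
      · rw [h1] at h0
        exact absurd h0 hj0
    · have h1 := hmin i (Finset.mem_filter.2 ⟨Finset.mem_univ _, h0⟩)
      rw [Prod.Lex.toLex_le_toLex] at h1
      obtain ⟨w, hw, c, h2, h3, h4⟩ := term hB hE (κ₀ := κ j) (D₀ := D j) (heR i) (hκD i h0) h1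
      refine ⟨w, hw, c, h2, h3, fun h5 => ?_⟩
      subst h5
      exact h4 rfl rfl
  choose w hw c hHi hwc hc0 using hterm
  have hE0 : (∑ i, algebraMap C Ω (c i) * e i) ≠ 0 := by
    intro h0
    have h1 := Fintype.linearIndependent_iff.1 hind c (by
      rw [← h0]
      exact Finset.sum_congr rfl fun i _ => Algebra.smul_def _ _)
    exact hc0 j rfl (h1 j)
  have hEC : (∑ i, algebraMap C Ω (c i) * e i) ∈ C' :=
    sum_mem fun i _ => mul_mem (hle (c i).2) (he i)
  have hEv : v (∑ i, algebraMap C Ω (c i) * e i) = 0 := by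
    have := h'.triv ⟨_, hEC⟩ (fun h0 => hE0 (congrArg Subtype.val h0))
    exact this
  have hsumv : VPos v (∑ i, w i - ∑ i, algebraMap C Ω (c i) * e i) := by
    rw [← Finset.sum_sub_distrib]
    have : ∀ s : Finset (Fin n), VPos v (∑ i ∈ s, (w i - algebraMap C Ω (c i) * e i)) := by
      intro s
      induction s using Finset.induction_on with
      | empty => rw [Finset.sum_empty]; exact VPos.zero
      | insert i s hi ih => rw [Finset.sum_insert hi]; exact (hwc i).add ih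
    exact this _
  have hWun : B'.Un (∑ i, w i) := by
    have h1 := val_add_vpos hE0 hEv hsumv
    rw [add_sub_cancel] at h1
    exact ⟨sum_mem fun i _ => hw i, h1.1, h1.2⟩
  have hHis : Hi B' (κ j) (∑ i, a i * e i - B'.χ (κ j) * ((∑ i, w i) * B'.y ^ (D j))) := by
    have h1 : ∑ i, a i * e i - B'.χ (κ j) * ((∑ i, w i) * B'.y ^ (D j)) =
        ∑ i, (a i * e i - B'.χ (κ j) * (w i * B'.y ^ (D j))) := by
      rw [Finset.sum_sub_distrib, Finset.sum_mul, Finset.mul_sum]
    rw [h1]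
    have : ∀ s : Finset (Fin n),
        Hi B' (κ j) (∑ i ∈ s, (a i * e i - B'.χ (κ j) * (w i * B'.y ^ (D j)))) := by
      intro s
      induction s using Finset.induction_on with
      | empty => rw [Finset.sum_empty]; exact Hi.zero B' hκj'
      | insert i s hi ih => rw [Finset.sum_insert hi]; exact (hHi i).add ih
    exact this _
  exact ((rep_iff hκj').2 ⟨_, hWun, hHis⟩).ne_zero2 h' hsum

/-- The elements of `C'[R]` are combinations of elements of `C'`. -/
theorem mem_span {C C' : IntermediateField k Ω} (R : Subalgebra C Ω) {s : Ω}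
    (hs : s ∈ Algebra.adjoin C' (R : Set Ω)) : s ∈ Submodule.span R (C' : Set Ω) := by
  induction hs using Algebra.adjoin_induction with
  | mem x hx =>
    have h1 : x = (⟨x, hx⟩ : R) • (1 : Ω) := by
      rw [Subalgebra.smul_def, smul_eq_mul, mul_one]
    rw [h1]
    exact Submodule.smul_mem _ _ (Submodule.subset_span C'.one_mem)
  | algebraMap c => exact Submodule.subset_span c.2
  | add x y _ _ hx hy => exact add_mem hx hy
  | mul x y _ _ hx hy =>
    have h1 := Submodule.mul_mem_mul hx hy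
    rw [Submodule.span_mul_span] at h1
    refine Submodule.span_mono ?_ h1
    rintro _ ⟨p, hp, q, hq, rfl⟩
    exact mul_mem hp hq

end CE_2Aux

/-- CE2. The field of a C-frame is linearly disjoint from the algebraic extensions of the
coefficient field.  [Divide a relation by the smallest leading term of the coefficients.] -/
theorem BF.linInd_of_res {C C' : IntermediateField k Ω} (hle : C ≤ C')
    (halg : ∀ c ∈ C', IsAlgebraic C c) (h : Ctx2 C v r) (B : BF C v) (hB : B.Res) {n : ℕ}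
    (e : Fin n → Ω) (he : ∀ i, e i ∈ C') (hind : LinearIndependent C e) :
    ∀ a : Fin n → Ω, (∀ i, a i ∈ quoK B.R) → ∑ i, a i * e i = 0 → ∀ i, a i = 0 := by
  classical
  intro a ha hsum
  have ha' : ∀ i, ∃ p ∈ B.R, ∃ q ∈ B.R, q ≠ 0 ∧ a i = p / q := fun i => mem_quoK.1 (ha i)
  choose p hp q hq hq0 hpq using ha'
  have hQ0 : ∏ i, q i ≠ 0 := Finset.prod_ne_zero_iff.2 fun i _ => hq0 i
  have h1 : ∀ i, a i * ∏ j, q j ∈ B.R := by
    intro i
    rw [← Finset.mul_prod_erase Finset.univ q (Finset.mem_univ i), ← mul_assoc, hpq i,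
      div_mul_cancel₀ _ (hq0 i)]
    exact B.R.mul_mem (hp i) (prod_mem fun j _ => hq j)
  have h2 : ∑ i, (a i * ∏ j, q j) * e i = 0 := by
    have h3 : ∑ i, (a i * ∏ j, q j) * e i = (∑ i, a i * e i) * ∏ j, q j := by
      rw [Finset.sum_mul]
      exact Finset.sum_congr rfl fun i _ => by ring
    rw [h3, hsum, zero_mul]
  intro i
  have h3 := CE_2Aux.integral hle halg h B hB e he hind _ h1 h2 i
  exact (mul_eq_zero.1 h3).resolve_right hQ0

/-- CE3 (INT). -/
theorem IsCE.mem_of_mem {C C' : IntermediateField k Ω} (hle : C ≤ C')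
    (halg : ∀ c ∈ C', IsAlgebraic C c) (h : Ctx2 C v r) {B : BF C v} (hB : B.Res)
    {B' : BF C' v} (hE : IsCE B B') {f : Ω} (hf : f ∈ B'.R) (hf' : f ∈ quoK B.R) : f ∈ B.R := by
  classical
  obtain ⟨s, hs, t, ht, ht0, hvt, rfl⟩ := (hE.R_eq f).1 hf
  obtain ⟨T₁, hT₁, hs'⟩ := Submodule.mem_span_finite_of_mem_span (CE_2Aux.mem_span B.R hs)
  obtain ⟨T₂, hT₂, ht'⟩ := Submodule.mem_span_finite_of_mem_span (CE_2Aux.mem_span B.R ht)
  let W : Submodule C Ω := Submodule.span C ((T₁ ∪ T₂ : Finset Ω) : Set Ω)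
  have hWfin : FiniteDimensional C W := FiniteDimensional.span_finset C _
  have hWC : ∀ w ∈ W, w ∈ C' := by
    intro w hw
    induction hw using Submodule.span_induction with
    | mem x hx =>
      rw [Finset.mem_coe, Finset.mem_union] at hx
      rcases hx with hx | hx
      · exact hT₁ hx
      · exact hT₂ hx
    | zero => exact zero_mem _
    | add x y _ _ hx hy => exact add_mem hx hy
    | smul c x _ hx =>
      rw [Algebra.smul_def]
      exact mul_mem (hle c.2) hx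
  let b := Module.finBasis C W
  have hbind : LinearIndependent C (fun i => (b i : Ω)) :=
    b.linearIndependent.map' W.subtype (Submodule.ker_subtype W)
  have hsub : ∀ x ∈ ((T₁ ∪ T₂ : Finset Ω) : Set Ω),
      x ∈ Submodule.span B.R (Set.range fun i => (b i : Ω)) := by
    intro x hx
    have hxW : x ∈ W := Submodule.subset_span hx
    have h1 := b.sum_repr ⟨x, hxW⟩
    have h2 : x = ∑ i, (b.repr ⟨x, hxW⟩ i) • (b i : Ω) := by
      have h4 := congrArg W.subtype h1
      rw [map_sum] at h4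
      exact h4.symm
    rw [h2]
    refine sum_mem fun i _ => ?_
    have h3 : (b.repr ⟨x, hxW⟩ i) • (b i : Ω) =
        (algebraMap C B.R (b.repr ⟨x, hxW⟩ i)) • (b i : Ω) := by
      rw [Algebra.smul_def, Subalgebra.smul_def, smul_eq_mul]
      rfl
    rw [h3]
    exact Submodule.smul_mem _ _ (Submodule.subset_span ⟨i, rfl⟩)
  have hs2 : s ∈ Submodule.span B.R (Set.range fun i => (b i : Ω)) := by
    refine Submodule.span_le.2 ?_ hs'
    intro x hx
    exact hsub x (by rw [Finset.coe_union]; exact Or.inl hx)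
  have ht2 : t ∈ Submodule.span B.R (Set.range fun i => (b i : Ω)) := by
    refine Submodule.span_le.2 ?_ ht'
    intro x hx
    exact hsub x (by rw [Finset.coe_union]; exact Or.inr hx)
  obtain ⟨cs, hcs⟩ := (Submodule.mem_span_range_iff_exists_fun _).1 hs2
  obtain ⟨ct, hct⟩ := (Submodule.mem_span_range_iff_exists_fun _).1 ht2
  have hB0 : ∀ g ∈ B.R, g ∈ quoK B.R := fun g hg =>
    mem_quoK.2 ⟨g, hg, 1, B.R.one_mem, one_ne_zero, by rw [div_one]⟩
  have hrel : ∀ i, (s / t) * (ct i : Ω) - (cs i : Ω) = 0 := by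
    refine BF.linInd_of_res hle halg h B hB (fun i => (b i : Ω)) (fun i => hWC _ (b i).2) hbind
      (fun i => (s / t) * (ct i : Ω) - (cs i : Ω))
      (fun i => sub_mem (mul_mem hf' (hB0 _ (ct i).2)) (hB0 _ (cs i).2)) ?_
    have h1 : ∑ i, ((s / t) * (ct i : Ω) - (cs i : Ω)) * (b i : Ω) =
        (s / t) * ∑ i, (ct i) • (b i : Ω) - ∑ i, (cs i) • (b i : Ω) := by
      rw [Finset.mul_sum, ← Finset.sum_sub_distrib]
      refine Finset.sum_congr rfl fun i _ => ?_
      rw [Subalgebra.smul_def, Subalgebra.smul_def, smul_eq_mul, smul_eq_mul]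
      ring
    rw [h1, hct, hcs, div_mul_cancel₀ _ ht0, sub_self]
  have hex : ∃ i, (ct i : Ω) ≠ 0 ∧ v (ct i : Ω) = 0 := by
    by_contra hcon
    push Not at hcon
    have hv : ∀ i, VPos v (ct i : Ω) := by
      intro i h0
      exact lt_of_le_of_ne (B.nonneg _ (ct i).2 h0) (Ne.symm (hcon i h0))
    have hC'R : ∀ c ∈ C', v.Ge 0 c := fun c hc =>
      B'.nonneg c (B'.R.algebraMap_mem (⟨c, hc⟩ : C'))
    have htv : VPos v t := by
      rw [← hct]
      have : ∀ S : Finset (Fin (Module.finrank C W)),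
          VPos v (∑ i ∈ S, (ct i) • (b i : Ω)) := by
        intro S
        induction S using Finset.induction_on with
        | empty => rw [Finset.sum_empty]; exact VPos.zero
        | insert i S hi ih =>
          rw [Finset.sum_insert hi]
          refine VPos.add ?_ ih
          rw [Subalgebra.smul_def, smul_eq_mul]
          exact (hv i).mul (hC'R _ (hWC _ (b i).2))
      exact this _
    have := htv ht0
    rw [hvt] at this
    exact lt_irrefl _ this
  obtain ⟨i, hi0, hvi⟩ := hex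
  have h1 : s / t = (cs i : Ω) * (ct i : Ω)⁻¹ := by
    rw [← sub_eq_zero.1 (hrel i), mul_inv_cancel_right₀ hi0]
  rw [h1]
  exact B.R.mul_mem (cs i).2 (B.loc _ (ct i).2 hi0 hvi)

end Pool.Agent.LU1
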