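import Pool.Agent.Lib.LU2_h80.CE_1
import Pool.Agent.Lib.LU2_base.Mk

/-! # LU2, CE4: spreading out -/

set_option autoImplicit false

open Polynomial

namespace Pool.Agent.LU1

open Pool.Agent.H15JM (RVal)

universe u

variable {k Ω : Type u} [Field k] [Field Ω] [Algebra k Ω] {v : RVal Ω} {r d : ℕ}

namespace CE4Aux

/-- `P` holds for all sufficiently large fields between `C₀` and `Cb`. -/
def Ev (C₀ Cb : IntermediateField k Ω) (P : IntermediateField k Ω → Prop) : Prop :=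
  ∃ S : Finset Ω, (∀ c ∈ S, c ∈ Cb) ∧ ∀ C : IntermediateField k Ω, C₀ ≤ C → C ≤ Cb →
    (∀ c ∈ S, c ∈ C) → P C

variable {C₀ Cb : IntermediateField k Ω}

theorem Ev.and {P Q : IntermediateField k Ω → Prop} (hP : Ev C₀ Cb P) (hQ : Ev C₀ Cb Q) :
    Ev C₀ Cb fun C => P C ∧ Q C := by
  classical
  obtain ⟨S, hS, h1⟩ := hP
  obtain ⟨T, hT, h2⟩ := hQ
  refine ⟨S ∪ T, fun c hc => ?_, fun C h0 hb hC => ⟨h1 C h0 hb fun c hc => ?_,
    h2 C h0 hb fun c hc => ?_⟩⟩
  · rcases Finset.mem_union.1 hc with h | h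
    · exact hS c h
    · exact hT c h
  · exact hC c (Finset.mem_union_left _ hc)
  · exact hC c (Finset.mem_union_right _ hc)

theorem Ev.imp {P Q : IntermediateField k Ω → Prop} (hP : Ev C₀ Cb P) (h : ∀ C, P C → Q C) :
    Ev C₀ Cb Q := by
  obtain ⟨S, hS, h1⟩ := hP
  exact ⟨S, hS, fun C h0 hb hC => h C (h1 C h0 hb hC)⟩

theorem Ev.of {P : IntermediateField k Ω → Prop} (h : ∀ C, P C) : Ev C₀ Cb P :=
  ⟨∅, by simp, fun C _ _ _ => h C⟩

theorem Ev.forall_mem {ι : Type*} (F : Finset ι) {P : ι → IntermediateField k Ω → Prop}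
    (h : ∀ i ∈ F, Ev C₀ Cb (P i)) : Ev C₀ Cb fun C => ∀ i ∈ F, P i C := by
  classical
  induction F using Finset.induction_on with
  | empty => exact Ev.of fun C i hi => absurd hi (Finset.notMem_empty i)
  | insert a F _ ih =>
    refine ((h a (Finset.mem_insert_self _ _)).and
      (ih fun i hi => h i (Finset.mem_insert_of_mem hi))).imp ?_
    rintro C ⟨h1, h2⟩ i hi
    rcases Finset.mem_insert.1 hi with rfl | hi
    · exact h1
    · exact h2 i hi

theorem Ev.mem {c : Ω} (hc : c ∈ Cb) : Ev C₀ Cb fun C => c ∈ C :=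
  ⟨{c}, by simpa using hc, fun C _ _ h => h c (Finset.mem_singleton_self c)⟩

/-- Elements of `Cb[X]` are elements of `C[X]`. -/
theorem Ev.adjoin {X : Set Ω} {a : Ω} (ha : a ∈ Algebra.adjoin Cb X) :
    Ev C₀ Cb fun C => a ∈ Algebra.adjoin C X := by
  induction ha using Algebra.adjoin_induction with
  | mem x hx => exact Ev.of fun C => Algebra.subset_adjoin hx
  | algebraMap c =>
    exact (Ev.mem c.2).imp fun C hC =>
      (Algebra.adjoin C X).algebraMap_mem (⟨c, hC⟩ : C)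
  | add x y _ _ hx hy => exact (hx.and hy).imp fun C h => Subalgebra.add_mem _ h.1 h.2
  | mul x y _ _ hx hy => exact (hx.and hy).imp fun C h => Subalgebra.mul_mem _ h.1 h.2

theorem Ev.locv {X : Set Ω} {a : Ω} (ha : a ∈ locv v (Algebra.adjoin Cb X)) :
    Ev C₀ Cb fun C => a ∈ locv v (Algebra.adjoin C X) := by
  obtain ⟨b, hb, c, hc, h0, h1, rfl⟩ := ha
  exact ((Ev.adjoin hb).and (Ev.adjoin hc)).imp fun C h => ⟨b, h.1, c, h.2, h0, h1, rfl⟩

/-- Elements of `K Cb` are elements of `K C`. -/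
theorem Ev.sup {K : IntermediateField k Ω} {a : Ω} (ha : a ∈ K ⊔ Cb) :
    Ev C₀ Cb fun C => a ∈ K ⊔ C := by
  have h1 : a ∈ IntermediateField.adjoin k ((K : Set Ω) ∪ (Cb : Set Ω)) := by
    rw [IntermediateField.adjoin_union, IntermediateField.adjoin_self,
      IntermediateField.adjoin_self]
    exact ha
  induction h1 using IntermediateField.adjoin_induction with
  | mem x hx =>
    rcases hx with hx | hx
    · exact Ev.of fun C => (le_sup_left : K ≤ K ⊔ C) hx
    · exact (Ev.mem hx).imp fun C hC => (le_sup_right : C ≤ K ⊔ C) hC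
  | algebraMap c => exact Ev.of fun C => (K ⊔ C).algebraMap_mem c
  | add x y hx' hy' hx hy =>
    have e := fun z : Ω => (show z ∈ K ⊔ Cb ↔
      z ∈ IntermediateField.adjoin k ((K : Set Ω) ∪ (Cb : Set Ω)) by
        rw [IntermediateField.adjoin_union, IntermediateField.adjoin_self,
          IntermediateField.adjoin_self])
    exact ((hx ((e x).2 hx')).and (hy ((e y).2 hy'))).imp fun C h => add_mem h.1 h.2
  | inv x hx' hx =>
    have e := fun z : Ω => (show z ∈ K ⊔ Cb ↔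
      z ∈ IntermediateField.adjoin k ((K : Set Ω) ∪ (Cb : Set Ω)) by
        rw [IntermediateField.adjoin_union, IntermediateField.adjoin_self,
          IntermediateField.adjoin_self])
    exact (hx ((e x).2 hx')).imp fun C h => inv_mem h
  | mul x y hx' hy' hx hy =>
    have e := fun z : Ω => (show z ∈ K ⊔ Cb ↔
      z ∈ IntermediateField.adjoin k ((K : Set Ω) ∪ (Cb : Set Ω)) by
        rw [IntermediateField.adjoin_union, IntermediateField.adjoin_self,
          IntermediateField.adjoin_self])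
    exact ((hx ((e x).2 hx')).and (hy ((e y).2 hy'))).imp fun C h => mul_mem h.1 h.2

/-- Algebraic elements over a larger ring. -/
theorem isAlgebraic_of_hom {A B : Type*} [CommRing A] [CommRing B] [Algebra A Ω] [Algebra B Ω]
    (φ : A →+* B) (hφ : Function.Injective φ)
    (hc : ∀ a, algebraMap B Ω (φ a) = algebraMap A Ω a) {g : Ω} (hg : IsAlgebraic A g) :
    IsAlgebraic B g := by
  obtain ⟨P, hP, h0⟩ := hg
  refine ⟨P.map φ, ?_, ?_⟩
  · intro h
    exact hP ((Polynomial.map_eq_zero_iff hφ).1 h)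
  · rw [aeval_def, eval₂_map]
    have h1 : (algebraMap B Ω).comp φ = algebraMap A Ω := RingHom.ext hc
    rw [h1]
    exact h0

end CE4Aux

open CE4Aux

theorem BF.spread {C₀ Cb : IntermediateField k Ω} (hle : C₀ ≤ Cb)
    (halg : ∀ c ∈ Cb, IsAlgebraic C₀ c) (h : Ctx2 Cb v r) (B : BF Cb v) (hB : B.Res)
    {K : IntermediateField k Ω} (hK : K.FG) (hKC : C₀ ≤ K) (hq : quoK B.R = K ⊔ Cb) :
    ∃ S : Finset Ω, (∀ c ∈ S, c ∈ Cb) ∧ ∀ C : IntermediateField k Ω, C₀ ≤ C → C ≤ Cb →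
      (∀ c ∈ S, c ∈ C) → ∃ B₀ : BF C v, IsCE B₀ B ∧ B₀.Res ∧ quoK B₀.R = K ⊔ C := by
  classical
  obtain ⟨F, hF⟩ := B.fgen
  obtain ⟨U, hU⟩ := B.fg
  obtain ⟨G, hG⟩ := hK
  set X : Set Ω := (F : Set Ω) ∪ B.χ '' {γ | γ ∈ B.Γ ∧ 0 ≤ γ} with hX
  have hFR : ∀ f ∈ F, f ∈ B.R := fun f hf => by
    rw [hF]
    exact le_locv _ (Algebra.subset_adjoin (Or.inl hf))
  have hXR : ∀ f ∈ X, f ∈ B.R := by
    rintro f (hf | ⟨γ, ⟨hγ, h0⟩, rfl⟩)
    · exact hFR f hf
    · exact B.χ_mem γ hγ h0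
  have hRq : ∀ f ∈ B.R, f ∈ K ⊔ Cb := fun f hf => by
    rw [← hq, mem_quoK]
    exact ⟨f, hf, 1, B.R.one_mem, one_ne_zero, by rw [div_one]⟩
  -- the conditions on `C`
  have evR : ∀ f ∈ B.R, Ev C₀ Cb fun C => f ∈ LU1.locv v (Algebra.adjoin C X) := fun f hf =>
    Ev.locv (hF ▸ hf)
  have ev1 := evR B.y B.y_mem
  have ev2 : ∀ f ∈ F, Ev C₀ Cb fun C => ∃ c : C, MM B.Γ B.χ B.y (LU1.locv v (Algebra.adjoin C X))
      (f - algebraMap C Ω c) := by
    intro f hf
    obtain ⟨c, hc1, hc2⟩ := hB.exists_const (hFR f hf)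
    obtain ⟨γ, hγ, h0, a, ha, b, hb, hab⟩ := B.gen _ hc2 hc1
    refine (((Ev.mem (C₀ := C₀) c.2).and (evR a ha)).and (evR b hb)).imp ?_
    rintro C ⟨⟨h1, h2⟩, h3⟩
    exact ⟨⟨c, h1⟩, γ, hγ, h0, a, h2, b, h3, hab⟩
  have ev3 : ∀ f ∈ F, Ev C₀ Cb fun C => f ∈ K ⊔ C := fun f hf => Ev.sup (hRq f (hFR f hf))
  have hχq : ∀ γ ∈ B.Γ, B.χ γ ∈ K ⊔ Cb := by
    intro γ hγ
    rcases le_total 0 γ with h0 | h0
    · exact hRq _ (B.χ_mem γ hγ h0)
    · have h1 := hRq _ (B.χ_mem (-γ) (B.Γ.neg_mem hγ) (by linarith))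
      rw [B.χ_neg hγ] at h1
      have h2 := inv_mem h1
      rwa [inv_inv] at h2
  have hUΓ : ∀ u ∈ U, u ∈ B.Γ := fun u hu => by
    rw [← hU]
    exact AddSubgroup.subset_closure hu
  have ev4 : ∀ u ∈ U, Ev C₀ Cb fun C => B.χ u ∈ K ⊔ C := fun u hu => Ev.sup (hχq u (hUΓ u hu))
  have ev5 : ∀ g ∈ G, Ev C₀ Cb fun C => g ∈ quoK (LU1.locv v (Algebra.adjoin C X)) := by
    intro g hg
    have h1 : g ∈ K ⊔ Cb := by
      refine (le_sup_left : K ≤ K ⊔ Cb) ?_
      rw [← hG]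
      exact IntermediateField.subset_adjoin k _ hg
    rw [← hq, mem_quoK] at h1
    obtain ⟨a, ha, b, hb, hb0, hab⟩ := h1
    refine ((evR a ha).and (evR b hb)).imp ?_
    rintro C ⟨h1, h2⟩
    exact mem_quoK.2 ⟨a, h1, b, h2, hb0, hab⟩
  have evAll := (((ev1.and (Ev.forall_mem F ev2)).and (Ev.forall_mem F ev3)).and
    (Ev.forall_mem U ev4)).and (Ev.forall_mem G ev5)
  obtain ⟨S, hS, hSC⟩ := evAll
  refine ⟨S, hS, fun C hC0 hCb hC => ?_⟩
  obtain ⟨⟨⟨⟨hy, hres⟩, hFK⟩, hUK⟩, hGq⟩ := hSC C hC0 hCb hC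
  clear hSC ev1 ev2 ev3 ev4 ev5 evR
  set R₀ : Subalgebra C Ω := LU1.locv v (Algebra.adjoin C X) with hR₀
  have hXR₀ : ∀ f ∈ X, f ∈ R₀ := fun f hf => le_locv _ (Algebra.subset_adjoin hf)
  have hR₀R : ∀ f ∈ R₀, f ∈ B.R := by
    have h1 : ∀ a ∈ Algebra.adjoin C X, a ∈ B.R := by
      intro a ha
      induction ha using Algebra.adjoin_induction with
      | mem x hx => exact hXR x hx
      | algebraMap c => exact B.R.algebraMap_mem (⟨c, hCb c.2⟩ : Cb)
      | add x y _ _ hx hy => exact B.R.add_mem hx hy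
      | mul x y _ _ hx hy => exact B.R.mul_mem hx hy
    rintro f ⟨a, ha, b, hb, hb0, hb1, rfl⟩
    rw [div_eq_mul_inv]
    exact B.R.mul_mem (h1 a ha) (B.loc b (h1 b hb) hb0 hb1)
  have htriv : ∀ c : C, c ≠ 0 → v (algebraMap C Ω c) = 0 := by
    intro c hc
    refine h.triv (⟨c, hCb c.2⟩ : Cb) fun h0 => hc ?_
    exact Subtype.ext (congrArg (fun z : Cb => (z : Ω)) h0)
  have H : Pre v B.Γ B.χ B.y R₀ :=
    { full := B.full
      χ_ne := B.χ_ne
      χ_add := B.χ_add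
      χ_val := B.χ_val
      y_ne := B.y_ne
      y_pos := B.y_pos
      nonneg := fun f hf => B.nonneg f (hR₀R f hf)
      loc := fun f hf h0 h1 => locv_inv hf h0 h1
      χ_mem := fun γ hγ h0 => hXR₀ _ (Or.inr ⟨γ, ⟨hγ, h0⟩, rfl⟩)
      y_mem := hy }
  have hcR : ∀ c : C, algebraMap C Ω c ∈ R₀ := fun c => R₀.algebraMap_mem c
  have hS0 : ∀ f ∈ X, ∃ c : C, MM B.Γ B.χ B.y R₀ (f - algebraMap C Ω c) := by
    rintro f (hf | ⟨γ, ⟨hγ, h0⟩, rfl⟩)
    · exact hres f hf
    · rcases h0.lt_or_eq with h1 | h1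
      · refine ⟨0, ?_⟩
        have := H.mm_χ hγ h1 R₀.one_mem
        rwa [mul_one, ← sub_zero (B.χ γ), ← _root_.map_zero (algebraMap C Ω)] at this
      · refine ⟨1, ?_⟩
        rw [← h1, B.χ_zero, _root_.map_one, sub_self]
        exact H.mm_zero
  have hkey : ∀ f ∈ Algebra.adjoin C X, ∃ c : C, MM B.Γ B.χ B.y R₀ (f - algebraMap C Ω c) := by
    intro f hf
    induction hf using Algebra.adjoin_induction with
    | mem x hx => exact hS0 x hx
    | algebraMap c => exact ⟨c, by rw [sub_self]; exact H.mm_zero⟩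
    | add x z _ _ hx hz =>
      obtain ⟨c, hc⟩ := hx
      obtain ⟨d, hd⟩ := hz
      refine ⟨c + d, ?_⟩
      have := H.mm_add hc hd
      rw [_root_.map_add]
      convert this using 1
      ring
    | mul x z hx' hz' hx hz =>
      obtain ⟨c, hc⟩ := hx
      obtain ⟨d, hd⟩ := hz
      refine ⟨c * d, ?_⟩
      have := H.mm_add (H.mm_mul hc (le_locv _ hz')) (H.mm_mul hd (hcR c))
      rw [_root_.map_mul]
      convert this using 1
      ring
  have hgen : ∀ f ∈ R₀, VPos v f → MM B.Γ B.χ B.y R₀ f := by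
    refine H.gen2 (T := ⊥) (S := X) rfl bot_le ?_ ?_
    · intro c hc hv
      rw [Algebra.mem_bot] at hc
      obtain ⟨c, rfl⟩ := hc
      by_cases h0 : c = 0
      · rw [h0, _root_.map_zero]
        exact H.mm_zero
      · have h1 := hv (by simpa using h0)
        rw [htriv c h0] at h1
        exact absurd h1 (lt_irrefl _)
    · intro f hf
      obtain ⟨c, hc⟩ := hS0 f hf
      exact ⟨_, Algebra.mem_bot.2 ⟨c, rfl⟩, hc⟩
  have halg' : ∀ g : Ω, IsAlgebraic R₀ g := by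
    let W : Subalgebra R₀ Ω := Subalgebra.algebraicClosure R₀ Ω
    have hW : ∀ g, g ∈ W ↔ IsAlgebraic R₀ g := fun g => Iff.rfl
    have hR₀W : ∀ f ∈ R₀, f ∈ W := fun f hf => by
      rw [hW]
      exact isAlgebraic_algebraMap (⟨f, hf⟩ : R₀)
    have hCbW : ∀ c ∈ Cb, c ∈ W := by
      intro c hc
      rw [hW]
      refine isAlgebraic_of_hom (A := C₀) (B := R₀)
        { toFun := fun c => ⟨c, hcR ⟨c, hC0 c.2⟩⟩
          map_one' := rfl
          map_zero' := rfl
          map_add' := fun _ _ => rfl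
          map_mul' := fun _ _ => rfl } ?_ (fun _ => rfl) (halg c hc)
      intro a b hab
      exact Subtype.ext (congrArg (fun z : R₀ => (z : Ω)) hab)
    have hBW : ∀ f ∈ B.R, f ∈ W := by
      have h1 : ∀ a ∈ Algebra.adjoin Cb X, a ∈ W := by
        intro a ha
        induction ha using Algebra.adjoin_induction with
        | mem x hx => exact hR₀W x (hXR₀ x hx)
        | algebraMap c => exact hCbW c c.2
        | add x y _ _ hx hy => exact W.add_mem hx hy
        | mul x y _ _ hx hy => exact W.mul_mem hx hy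
      intro f hf
      rw [hF] at hf
      obtain ⟨a, ha, b, hb, -, -, rfl⟩ := hf
      rw [div_eq_mul_inv]
      exact W.mul_mem (h1 a ha) (IsAlgebraic.inv (h1 b hb))
    intro g
    have h2 : IsAlgebraic W g := by
      refine isAlgebraic_of_hom (A := B.R) (B := W)
        { toFun := fun c => ⟨c, hBW c c.2⟩
          map_one' := rfl
          map_zero' := rfl
          map_add' := fun _ _ => rfl
          map_mul' := fun _ _ => rfl } ?_ (fun _ => rfl) (B.alg g)
      intro a b hab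
      exact Subtype.ext (congrArg (fun z : W => (z : Ω)) hab)
    exact h2.restrictScalars R₀
  refine ⟨mkBF2 H B.fg hgen ⟨F, rfl⟩ halg', ⟨rfl, rfl, rfl, ?_⟩, ?_, ?_⟩
  · -- the larger ring
    intro f
    change f ∈ B.R ↔ f ∈ LU1.locv v (Algebra.adjoin Cb (R₀ : Set Ω))
    constructor
    · intro hf
      rw [hF] at hf
      exact locv_mono (Algebra.adjoin_mono hXR₀) hf
    · intro hf
      have h1 : Algebra.adjoin Cb (R₀ : Set Ω) ≤ B.R := Algebra.adjoin_le hR₀R
      exact locv_le h1 B.loc hf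
  · -- residues
    intro f hf
    change f ∈ R₀ at hf
    obtain ⟨a, ha, b, hb, hb0, hvb, rfl⟩ := hf
    obtain ⟨c, hc⟩ := hkey a ha
    obtain ⟨e, he⟩ := hkey b hb
    have hc' := H.mm_vpos hc
    have he' := H.mm_vpos he
    have he0 : e ≠ 0 := by
      rintro rfl
      rw [_root_.map_zero, sub_zero] at he'
      have := he' hb0
      rw [hvb] at this
      exact lt_irrefl _ this
    have he1 : algebraMap C Ω e ≠ 0 := by simpa using he0
    refine ⟨c / e, ?_⟩
    have hge : ∀ x : C, v.Ge 0 (algebraMap C Ω x) := fun x => B.nonneg _ (hR₀R _ (hcR x))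
    have h1 : a / b - algebraMap C Ω (c / e) = ((a - algebraMap C Ω c) * algebraMap C Ω e -
        (b - algebraMap C Ω e) * algebraMap C Ω c) * (b⁻¹ * (algebraMap C Ω e)⁻¹) := by
      rw [map_div₀]
      field_simp
      ring
    rw [h1]
    refine VPos.mul ((hc'.mul (hge e)).sub (he'.mul (hge c))) ?_
    intro _
    rw [v.map_mul (inv_ne_zero hb0) (inv_ne_zero he1), v.map_inv hb0, v.map_inv he1, hvb,
      htriv e he0, neg_zero, add_zero]
  · -- the field
    have hΓK : ∀ γ ∈ B.Γ, B.χ γ ∈ K ⊔ C := by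
      intro γ hγ
      have hγ' := hγ
      rw [← hU] at hγ
      have : γ ∈ B.Γ ∧ B.χ γ ∈ K ⊔ C := by
        clear hγ'
        induction hγ using AddSubgroup.closure_induction with
        | mem u hu => exact ⟨hUΓ u hu, hUK u hu⟩
        | zero => exact ⟨B.Γ.zero_mem, by rw [B.χ_zero]; exact one_mem _⟩
        | add a b _ _ ha hb =>
          exact ⟨B.Γ.add_mem ha.1 hb.1, by
            rw [B.χ_add a ha.1 b hb.1]; exact mul_mem ha.2 hb.2⟩
        | neg a _ ha => exact ⟨B.Γ.neg_mem ha.1, by rw [B.χ_neg ha.1]; exact inv_mem ha.2⟩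
      exact this.2
    have hR₀K : ∀ f ∈ R₀, f ∈ K ⊔ C := by
      have h1 : ∀ a ∈ Algebra.adjoin C X, a ∈ K ⊔ C := by
        intro a ha
        induction ha using Algebra.adjoin_induction with
        | mem x hx =>
          rcases hx with hx | ⟨γ, ⟨hγ, -⟩, rfl⟩
          · exact hFK x hx
          · exact hΓK γ hγ
        | algebraMap c => exact (le_sup_right : C ≤ K ⊔ C) c.2
        | add x y _ _ hx hy => exact add_mem hx hy
        | mul x y _ _ hx hy => exact mul_mem hx hy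
      rintro f ⟨a, ha, b, hb, -, -, rfl⟩
      exact div_mem (h1 a ha) (h1 b hb)
    change quoK R₀ = K ⊔ C
    refine le_antisymm ?_ (sup_le ?_ ?_)
    · intro g hg
      obtain ⟨a, ha, b, hb, -, rfl⟩ := mem_quoK.1 hg
      exact div_mem (hR₀K a ha) (hR₀K b hb)
    · rw [← hG, IntermediateField.adjoin_le_iff]
      intro g hg
      exact hGq g hg
    · intro c hc
      exact mem_quoK.2 ⟨c, hcR ⟨c, hc⟩, 1, R₀.one_mem, one_ne_zero, by rw [div_one]⟩

end Pool.Agent.LU1
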