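import Pool.Agent.Lib.LU2_h80.Defs
import Pool.Agent.Lib.LU2_base.BaseChange

/-! # LU2, CB: change of the base field -/

set_option autoImplicit false

open Polynomial

namespace Pool.Agent.LU1

open Pool.Agent.H15JM (RVal)

universe u

variable {k Ω : Type u} [Field k] [Field Ω] [Algebra k Ω] {v : RVal Ω} {r d : ℕ}

namespace CoefFAux

/-! ### the residue field of a real valuation -/

/-- The valuation ring. -/
def OV (v : RVal Ω) : ValuationSubring Ω where
  carrier := {f | v.Ge 0 f}
  mul_mem' := fun {a b} ha hb => by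
    have h := RVal.Ge.mul ha hb
    rwa [add_zero] at h
  one_mem' := fun _ => by rw [v.map_one]
  add_mem' := fun {a b} ha hb => RVal.Ge.add ha hb
  zero_mem' := fun h => absurd rfl h
  neg_mem' := fun {a} ha => RVal.Ge.neg ha
  mem_or_inv_mem' := fun x => by
    by_cases hx : x = 0
    · left; exact fun h => absurd hx h
    · rcases le_total 0 (v x) with h | h
      · left; exact fun _ => h
      · right
        intro _
        rw [v.map_inv hx]
        linarith

theorem mem_OV {f : Ω} : f ∈ OV v ↔ v.Ge 0 f := Iff.rfl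

/-- The residue field. -/
abbrev KV (v : RVal Ω) : Type u := IsLocalRing.ResidueField (OV v)

theorem residue_eq_zero (f : OV v) : IsLocalRing.residue (OV v) f = 0 ↔ VPos v (f : Ω) := by
  rw [IsLocalRing.residue_eq_zero_iff, IsLocalRing.mem_maximalIdeal, mem_nonunits_iff]
  constructor
  · intro h h0
    have h1 : (0 : ℝ) ≤ v (f : Ω) := f.2 h0
    rcases h1.lt_or_eq with h2 | h2
    · exact h2
    · exfalso
      apply h
      have h3 : (f : Ω)⁻¹ ∈ OV v := fun _ => by rw [v.map_inv h0, ← h2, neg_zero]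
      refine ⟨⟨f, ⟨(f : Ω)⁻¹, h3⟩, ?_, ?_⟩, rfl⟩
      · exact Subtype.ext (mul_inv_cancel₀ h0)
      · exact Subtype.ext (inv_mul_cancel₀ h0)
  · rintro h ⟨u, hu⟩
    have h0 : (f : Ω) ≠ 0 := by
      intro h0
      have h1 : f = 0 := Subtype.ext h0
      have h2 : (u : OV v) * (↑u⁻¹ : OV v) = 1 := u.mul_inv
      rw [hu, h1, zero_mul] at h2
      exact zero_ne_one h2
    have h1 := h h0
    have h2 : (f : Ω) * ((↑u⁻¹ : OV v) : Ω) = 1 := by
      have h3 : (u : OV v) * (↑u⁻¹ : OV v) = 1 := u.mul_inv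
      rw [hu] at h3
      exact congrArg Subtype.val h3
    have h3 : ((↑u⁻¹ : OV v) : Ω) ≠ 0 := right_ne_zero_of_mul_eq_one h2
    have h4 : (0 : ℝ) ≤ v ((↑u⁻¹ : OV v) : Ω) := (↑u⁻¹ : OV v).2 h3
    have h5 := v.map_mul h0 h3
    rw [h2, v.map_one] at h5
    linarith

/-- The base field maps to the valuation ring. -/
def toOV (K : Type u) [Field K] [Algebra K Ω] (h : ∀ c : K, v.Ge 0 (algebraMap K Ω c)) :
    K →+* OV v where
  toFun c := ⟨algebraMap K Ω c, h c⟩
  map_one' := Subtype.ext (map_one _)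
  map_mul' a b := Subtype.ext (map_mul _ a b)
  map_zero' := Subtype.ext (map_zero _)
  map_add' a b := Subtype.ext (map_add _ a b)

/-- The base field maps to the residue field. -/
noncomputable def toKV (K : Type u) [Field K] [Algebra K Ω]
    (h : ∀ c : K, v.Ge 0 (algebraMap K Ω c)) : K →+* KV v :=
  (IsLocalRing.residue (OV v)).comp (toOV K h)

theorem eval_OV (K : Type u) [Field K] [Algebra K Ω] (h : ∀ c : K, v.Ge 0 (algebraMap K Ω c))
    (P : K[X]) (g : OV v) : ((eval₂ (toOV K h) g P : OV v) : Ω) = aeval (g : Ω) P := by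
  have h1 := Polynomial.hom_eval₂ P (toOV K h) (OV v).subtype g
  rw [aeval_def]
  exact h1

theorem eval_KV (K : Type u) [Field K] [Algebra K Ω] (h : ∀ c : K, v.Ge 0 (algebraMap K Ω c))
    (P : K[X]) (g : OV v) : eval₂ (toKV K h) (IsLocalRing.residue (OV v) g) P = 0 ↔
      VPos v (aeval (g : Ω) P) := by
  have h1 := Polynomial.hom_eval₂ P (toOV K h) (IsLocalRing.residue (OV v)) g
  rw [← eval_OV K h P g, ← residue_eq_zero, h1]
  rfl

/-- The residue field is algebraic over the base field. -/
def ResAlg (K : Type u) [Field K] [Algebra K Ω] (h : ∀ c : K, v.Ge 0 (algebraMap K Ω c)) :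
    Prop :=
  letI := (toKV K h).toAlgebra
  Algebra.IsAlgebraic K (KV v)

theorem resAlg_iff (K : Type u) [Field K] [Algebra K Ω] (h : ∀ c : K, v.Ge 0 (algebraMap K Ω c)) :
    ResAlg K h ↔ ∀ g : Ω, g ≠ 0 → v g = 0 → ∃ P : K[X], P.Monic ∧ VPos v (aeval g P) := by
  let := (toKV K h).toAlgebra
  constructor
  · intro hA g h0 h1
    have hA' : Algebra.IsAlgebraic K (KV v) := hA
    have hg : g ∈ OV v := fun _ => h1.symm.le
    have h2 := (hA'.isAlgebraic (IsLocalRing.residue (OV v) ⟨g, hg⟩)).isIntegral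
    obtain ⟨P, hP, hP2⟩ := h2
    exact ⟨P, hP, (eval_KV K h P ⟨g, hg⟩).1 hP2⟩
  · intro hA
    refine ⟨fun x => ?_⟩
    obtain ⟨g, rfl⟩ := IsLocalRing.residue_surjective x
    by_cases h0 : VPos v (g : Ω)
    · rw [(residue_eq_zero g).2 h0]
      exact isAlgebraic_zero
    · have h1 : (g : Ω) ≠ 0 := by
        intro h1; exact h0 (fun h2 => absurd h1 h2)
      have h2 : v (g : Ω) = 0 := by
        refine le_antisymm ?_ (g.2 h1)
        by_contra h3
        exact h0 (fun _ => not_le.1 h3)
      obtain ⟨P, hP, hP2⟩ := hA g h1 h2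
      refine IsIntegral.isAlgebraic ⟨P, hP, ?_⟩
      exact (eval_KV K h P g).2 hP2

/-- Subfields on which the valuation is trivial. -/
theorem ge_of_triv {C : IntermediateField k Ω} (hC : TrivOn v C) (c : C) :
    v.Ge 0 (algebraMap C Ω c) := by
  intro h0
  exact (hC c.1 c.2 h0).symm.le

theorem trdeg_tower {C : IntermediateField k Ω} (hC : TrivOn v C)
    (hk : ∀ c : k, v.Ge 0 (algebraMap k Ω c)) :
    Algebra.trdeg k C + @Algebra.trdeg C (KV v) _ _ (toKV C (ge_of_triv hC)).toAlgebra =
      @Algebra.trdeg k (KV v) _ _ (toKV k hk).toAlgebra := by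
  let i1 := (toKV C (ge_of_triv hC)).toAlgebra
  let i2 := (toKV k hk).toAlgebra
  have : IsScalarTower k C (KV v) := IsScalarTower.of_algebraMap_eq (fun c => rfl)
  exact trdeg_add_eq k C (A := KV v)

theorem trdeg_adjoin_of_algInd {z : Fin d → Ω} (hz : AlgebraicIndependent k z) :
    Algebra.trdeg k (IntermediateField.adjoin k (Set.range z)) = d := by
  open scoped IntermediateField.algebraAdjoinAdjoin in
  have h1 : Algebra.trdeg k (Algebra.adjoin k (Set.range z)) = d := by
    rw [← hz.aevalEquiv.trdeg_eq, MvPolynomial.trdeg_of_isDomain]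
    simp
  open scoped IntermediateField.algebraAdjoinAdjoin in
  have h2 := trdeg_add_eq k (Algebra.adjoin k (Set.range z))
    (A := IntermediateField.adjoin k (Set.range z))
  open scoped IntermediateField.algebraAdjoinAdjoin in
  rw [← h2, h1, trdeg_eq_zero, add_zero]

theorem ResInd.algInd {z : Fin d → Ω} (hz : ResInd k v z) : AlgebraicIndependent k z := by
  rw [algebraicIndependent_iff]
  intro P hP
  by_contra h0
  exact (hz P h0).1 hP

theorem ResInd.triv {z : Fin d → Ω} (hz : ResInd k v z) :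
    TrivOn v (IntermediateField.adjoin k (Set.range z)) := by
  intro c hc h0
  rw [IntermediateField.mem_adjoin_range_iff] at hc
  obtain ⟨P, Q, rfl⟩ := hc
  have hP : P ≠ 0 := by rintro rfl; simp at h0
  have hQ : Q ≠ 0 := by rintro rfl; simp at h0
  rw [v.map_div (hz P hP).1 (hz Q hQ).1, (hz P hP).2, (hz Q hQ).2, sub_zero]

end CoefFAux

open CoefFAux

theorem CtxD.triv (h : CtxD k v r d) (c : k) (hc : c ≠ 0) : v (algebraMap k Ω c) = 0 := by
  obtain ⟨z, hz, -⟩ := h.res
  have h1 := (hz (MvPolynomial.C c) (by simpa using hc)).2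
  rwa [MvPolynomial.aeval_C] at h1

theorem CoefFAux.CtxD.ge (h : CtxD k v r d) (c : k) : v.Ge 0 (algebraMap k Ω c) := by
  intro h0
  have : c ≠ 0 := by rintro rfl; simp at h0
  rw [h.triv c this]

theorem CoefFAux.CtxD.trdeg_KV (h : CtxD k v r d) :
    @Algebra.trdeg k (KV v) _ _ (toKV k (CoefFAux.CtxD.ge h)).toAlgebra = d := by
  obtain ⟨z, hz, hres⟩ := h.res
  have h1 := trdeg_tower (CoefFAux.ResInd.triv hz) (CoefFAux.CtxD.ge h)
  rw [trdeg_adjoin_of_algInd (CoefFAux.ResInd.algInd hz)] at h1
  have h2 : ResAlg (IntermediateField.adjoin k (Set.range z))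
      (ge_of_triv (CoefFAux.ResInd.triv hz)) := (resAlg_iff _ _).2 hres
  let := (toKV (IntermediateField.adjoin k (Set.range z))
    (ge_of_triv (CoefFAux.ResInd.triv hz))).toAlgebra
  have : Algebra.IsAlgebraic (IntermediateField.adjoin k (Set.range z)) (KV v) := h2
  rw [← h1, trdeg_eq_zero, add_zero]

/-- CB1. A field on which `v` is trivial, of the right transcendence degree, can be used as base
field.  [Additivity of the transcendence degree; the residue field of `v` has transcendence degree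
`d` over `k` and contains a copy of `C`, so it is algebraic over that copy.] -/
theorem CtxD.ctx2 (h : CtxD k v r d) (C : IntermediateField k Ω) (hC : TrivOn v C)
    (htr : Algebra.trdeg k C = d) : Ctx2 C v r := by
  refine ⟨fun c hc => hC c.1 c.2 (fun h0 => hc (Subtype.ext h0)), ?_, h.rpos, ?_, h.rank⟩
  · rw [← resAlg_iff C (ge_of_triv hC)]
    have h1 := trdeg_tower hC (CoefFAux.CtxD.ge h)
    rw [CoefFAux.CtxD.trdeg_KV h, htr] at h1
    let := (toKV C (ge_of_triv hC)).toAlgebra
    have h2 : Algebra.trdeg C (KV v) = 0 := by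
      have h3 : Algebra.trdeg C (KV v) + ((d : ℕ) : Cardinal) = 0 + (d : ℕ) := by
        rw [add_comm, h1, zero_add]
      exact (Cardinal.add_right_inj_of_lt_aleph0 Cardinal.natCast_lt_aleph0).1 h3
    exact trdeg_eq_zero_iff.1 h2
  · have h1 := trdeg_add_eq k C (A := Ω)
    rw [htr, h.trdeg] at h1
    have h3 : Algebra.trdeg C Ω + ((d : ℕ) : Cardinal) = ((r : Cardinal) + 1) + (d : ℕ) := by
      rw [add_comm, h1]
    exact (Cardinal.add_right_inj_of_lt_aleph0 Cardinal.natCast_lt_aleph0).1 h3

/-- CB2. -/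
theorem CtxD.trdeg_eq (h : CtxD k v r d) (C : IntermediateField k Ω) (hC : Ctx2 C v r) :
    Algebra.trdeg k C = d := by
  have h1 := trdeg_add_eq k C (A := Ω)
  rw [hC.trdeg, h.trdeg] at h1
  have h3 : Algebra.trdeg k C + ((r + 1 : ℕ) : Cardinal) = (d : Cardinal) + ((r + 1 : ℕ) : Cardinal) := by
    push_cast
    rw [h1, add_comm]
  exact (Cardinal.add_right_inj_of_lt_aleph0 Cardinal.natCast_lt_aleph0).1 h3

theorem Ctx2.trivOn {C : IntermediateField k Ω} (hC : Ctx2 C v r) : TrivOn v C := by
  intro c hc h0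
  exact hC.triv ⟨c, hc⟩ (fun h => h0 (congrArg Subtype.val h))

/-- `v` is trivial on the fields that are algebraic over a field on which it is trivial. -/
theorem TrivOn.alg {C C' : IntermediateField k Ω} (hC : TrivOn v C)
    (halg : ∀ c ∈ C', IsAlgebraic C c) : TrivOn v C' := by
  -- no positive values
  have key : ∀ c : Ω, IsAlgebraic C c → c ≠ 0 → ¬ 0 < v c := by
    intro c hc h0 hpos
    have hint : IsIntegral C c := hc.isIntegral
    have hge : c ∈ OV v := fun _ => hpos.le
    have h1 := (eval_KV C (ge_of_triv hC) (minpoly C c) ⟨c, hge⟩).2 (by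
      change VPos v (aeval c (minpoly C c))
      rw [minpoly.aeval]
      exact VPos.zero)
    have h2 : IsLocalRing.residue (OV v) ⟨c, hge⟩ = 0 := (residue_eq_zero _).2 (fun _ => hpos)
    rw [h2, eval₂_at_zero] at h1
    have h3 : (minpoly C c).coeff 0 = 0 := by
      exact (map_eq_zero_iff _ (toKV C (ge_of_triv hC)).injective).1 h1
    exact minpoly.coeff_zero_ne_zero hint h0 h3
  intro c hc h0
  have h1 := key c (halg c hc) h0
  have h2 := key c⁻¹ (halg c⁻¹ (C'.inv_mem hc)) (inv_ne_zero h0)
  rw [v.map_inv h0] at h2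
  rw [not_lt] at h1 h2
  linarith

theorem CoefFAux.trdeg_eq_of_alg {C C' : IntermediateField k Ω} (hle : C ≤ C')
    (halg : ∀ c ∈ C', IsAlgebraic C c) : Algebra.trdeg C' Ω = Algebra.trdeg C Ω := by
  let := (IntermediateField.inclusion hle).toRingHom.toAlgebra
  have : IsScalarTower C C' Ω := IsScalarTower.of_algebraMap_eq (fun c => rfl)
  have : Algebra.IsAlgebraic C C' := ⟨fun c => by
    have h1 := halg c.1 c.2
    exact (isAlgebraic_algebraMap_iff (R := C) (A := Ω) (S := C')
      (FaithfulSMul.algebraMap_injective C' Ω)).1 h1⟩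
  have h1 := trdeg_add_eq C C' (A := Ω)
  rw [trdeg_eq_zero, zero_add] at h1
  exact h1

/-- CB3. -/
theorem Ctx2.of_alg {C C' : IntermediateField k Ω} (h : Ctx2 C v r) (hle : C ≤ C')
    (halg : ∀ c ∈ C', IsAlgebraic C c) : Ctx2 C' v r := by
  have htriv : TrivOn v C' := h.trivOn.alg halg
  refine ⟨fun c hc => htriv c.1 c.2 (fun h0 => hc (Subtype.ext h0)), ?_, h.rpos, ?_, h.rank⟩
  · intro g h0 h1
    obtain ⟨P, hP, hP2⟩ := h.res g h0 h1
    refine ⟨P.map (IntermediateField.inclusion hle).toRingHom, hP.map _, ?_⟩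
    have h2 : aeval g (P.map (IntermediateField.inclusion hle).toRingHom) = aeval g P := by
      rw [aeval_def, aeval_def, eval₂_map]
      rfl
    rw [h2]
    exact hP2
  · rw [CoefFAux.trdeg_eq_of_alg hle halg]
    exact h.trdeg

/-- CB3'. -/
theorem Ctx2.of_alg_down {C C' : IntermediateField k Ω} (h : Ctx2 C' v r) (hle : C ≤ C')
    (halg : ∀ c ∈ C', IsAlgebraic C c) : Ctx2 C v r := by
  have htriv : TrivOn v C := fun c hc h0 => h.trivOn c (hle hc) h0
  refine ⟨fun c hc => htriv c.1 c.2 (fun h0 => hc (Subtype.ext h0)), ?_, h.rpos, ?_, h.rank⟩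
  · rw [← resAlg_iff C (ge_of_triv htriv)]
    have h1 : ResAlg C' (ge_of_triv h.trivOn) := (resAlg_iff _ _).2 h.res
    let i0 := (IntermediateField.inclusion hle).toRingHom.toAlgebra
    have i0' : IsScalarTower C C' Ω := IsScalarTower.of_algebraMap_eq (fun c => rfl)
    have i3 : Algebra.IsAlgebraic C C' := ⟨fun c => by
      have h1 := halg c.1 c.2
      exact (isAlgebraic_algebraMap_iff (R := C) (A := Ω) (S := C')
        (FaithfulSMul.algebraMap_injective C' Ω)).1 h1⟩
    let i1 := (toKV C' (ge_of_triv h.trivOn)).toAlgebra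
    let i2 := (toKV C (ge_of_triv htriv)).toAlgebra
    have : IsScalarTower C C' (KV v) := IsScalarTower.of_algebraMap_eq (fun c => rfl)
    have : Algebra.IsAlgebraic C' (KV v) := h1
    exact Algebra.IsAlgebraic.trans C C' (KV v)
  · rw [← CoefFAux.trdeg_eq_of_alg hle halg]
    exact h.trdeg

/-- CB4. -/
theorem Ctx2.ctx_of_isAlgClosed {C : IntermediateField k Ω} [IsAlgClosed C] (h : Ctx2 C v r) :
    Ctx C v r := by
  refine ⟨h.triv, ?_, h.rpos, h.trdeg, h.rank⟩
  intro g h0 h1
  have h2 : ResAlg C (ge_of_triv h.trivOn) := (resAlg_iff _ _).2 h.res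
  let i1 := (toKV C (ge_of_triv h.trivOn)).toAlgebra
  have : Algebra.IsAlgebraic C (KV v) := h2
  have hg : g ∈ OV v := fun _ => h1.symm.le
  obtain ⟨c, hc⟩ := (IsAlgClosed.algebraMap_bijective_of_isIntegral (k := C) (K := KV v)).2
    (IsLocalRing.residue (OV v) ⟨g, hg⟩)
  have h3 : VPos v (g - algebraMap C Ω c) := by
    have h4 : IsLocalRing.residue (OV v) (⟨g, hg⟩ - toOV C (ge_of_triv h.trivOn) c) = 0 := by
      rw [map_sub, sub_eq_zero]
      exact hc.symm
    exact (residue_eq_zero _).1 h4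
  refine ⟨c, ?_, h3⟩
  rintro rfl
  rw [map_zero, sub_zero] at h3
  exact absurd (h3 h0) (by rw [h1]; exact lt_irrefl _)

/-- `E(θ)` is algebraic over `E` if `θ` is. -/
theorem adj_algebraic {E : IntermediateField k Ω} {θ : Ω} (h : IsAlgebraic E θ) :
    ∀ c ∈ adj E θ, IsAlgebraic E c := by
  have hle : adj E θ ≤ (IntermediateField.adjoin E {θ}).restrictScalars k := by
    refine sup_le ?_ ?_
    · intro x hx
      exact (IntermediateField.adjoin E {θ}).algebraMap_mem ⟨x, hx⟩
    · rw [IntermediateField.adjoin_simple_le_iff]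
      exact IntermediateField.mem_adjoin_simple_self E θ
  intro c hc
  have h1 : c ∈ IntermediateField.adjoin E {θ} := hle hc
  have h2 : Algebra.IsAlgebraic E (IntermediateField.adjoin E {θ}) :=
    IntermediateField.isAlgebraic_adjoin (fun x hx => by
      rw [Set.mem_singleton_iff] at hx
      rw [hx]; exact h.isIntegral)
  have h3 := h2.isAlgebraic ⟨c, h1⟩
  exact h3.algebraMap (A := Ω)

/-- A finite extension of a finitely generated field is finitely generated. -/
theorem adj_fg {E : IntermediateField k Ω} (θ : Ω) (h : E.FG) : (adj E θ).FG := by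
  refine IntermediateField.fg_sup h ?_
  exact ⟨{θ}, by rw [Finset.coe_singleton]⟩

/-- Intermediate fields of a finite extension of a finitely generated field are finitely
generated. -/
theorem fg_of_le_adj {E F : IntermediateField k Ω} {θ : Ω} (hE : E.FG) (hθ : IsAlgebraic E θ)
    (h1 : E ≤ F) (h2 : F ≤ adj E θ) : F.FG := by
  have hle : adj E θ ≤ (IntermediateField.adjoin E {θ}).restrictScalars k := by
    refine sup_le ?_ ?_
    · intro x hx
      exact (IntermediateField.adjoin E {θ}).algebraMap_mem ⟨x, hx⟩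
    · rw [IntermediateField.adjoin_simple_le_iff]
      exact IntermediateField.mem_adjoin_simple_self E θ
  have hfin : FiniteDimensional E (IntermediateField.adjoin E {θ}) :=
    IntermediateField.adjoin.finiteDimensional hθ.isIntegral
  let i0 := (IntermediateField.inclusion h1).toRingHom.toAlgebra
  have : IsScalarTower E F Ω := IsScalarTower.of_algebraMap_eq (fun c => rfl)
  have : IsScalarTower k E F := IsScalarTower.of_algebraMap_eq (fun c => rfl)
  let j : F →ₗ[E] IntermediateField.adjoin E {θ} :=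
    { toFun := fun x => ⟨x.1, hle (h2 x.2)⟩
      map_add' := fun x y => rfl
      map_smul' := fun c x => by
        apply Subtype.ext
        change ((c • x : F) : Ω) = c • (x : Ω)
        rw [Algebra.smul_def, Algebra.smul_def]
        rfl }
  have : FiniteDimensional E F := FiniteDimensional.of_injective j (fun x y hxy =>
    Subtype.ext (congrArg (fun z : IntermediateField.adjoin E {θ} => (z : Ω)) hxy))
  rw [← IntermediateField.essFiniteType_iff] at hE ⊢
  exact Algebra.EssFiniteType.comp k E F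

end Pool.Agent.LU1
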