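import Pool.Agent.Lib.LU2_h80.Struct
import Pool.Agent.Lib.LU2_h80.CE_1
import Pool.Agent.Lib.LU2_h80.CE_4

/-! # LU2, CE: extension of constants -/
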