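import Pool.Agent.Lib.LU2_h80.EDB

/-! # LU2, ED: étale descent -/

set_option autoImplicit false

open Polynomial

namespace Pool.Agent.LU1

open Pool.Agent.H15JM (RVal)

universe u

variable {k Ω : Type u} [Field k] [Field Ω] [Algebra k Ω] {v : RVal Ω}

/-- The set of elements that are monomial in `B`. -/
def BF.MonoS (B : BF k v) : Set Ω := {f | B.Mono f}

theorem BF.mulSet' (B : BF k v) : MulSet B.MonoS where
  one := BF.Mono.un BF.Un.one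
  mul _ hf _ hg := BF.Mono.mul hf hg
  inv _ hf := BF.Mono.inv hf

/-- `k[A, Z]`. -/
def adjZ (A : Subalgebra k Ω) (Z : Finset Ω) : Subalgebra k Ω :=
  A ⊔ Algebra.adjoin k (Z : Set Ω)

/-- The data for one étale descent from `E(θ)` to `E`. -/
structure EDData (B : BF k v) (E : IntermediateField k Ω) (A : Subalgebra k Ω) (θ : Ω)
    (Z : Finset Ω) : Prop where
  fg : A.FG
  A_le : ∀ f ∈ A, f ∈ E ∧ f ∈ B.R
  frac : ∀ g ∈ E, ∃ a ∈ A, ∃ b ∈ A, b ≠ 0 ∧ g = a / b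
  Z_mem : ∀ z ∈ Z, z ∈ E ∧ z ∈ B.R ∧ QR A B.MonoS z
  int : IsIntegral E θ
  coeff : ∀ i, ((minpoly E θ).coeff i : Ω) ∈ adjZ A Z
  der_ne : aeval θ (derivative (minpoly E θ)) ≠ 0
  der : v (aeval θ (derivative (minpoly E θ))) = 0
  near : ∃ c ∈ adjZ A Z, VPos v (θ - c)
  θ_mem : θ ∈ B.R
  pos : ∀ s ∈ adjZ A Z, VPos v s → ∃ γ ∈ B.Γ, 0 < γ ∧ ∃ a ∈ B.R, s = B.χ γ * a

section Approx

variable {B : BF k v} {E : IntermediateField k Ω} {A : Subalgebra k Ω} {θ : Ω} {Z : Finset Ω}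

namespace EDData

theorem le_B (D : EDData B E A θ Z) : adjZ A Z ≤ B.R := by
  refine sup_le (fun f hf => (D.A_le f hf).2) ?_
  rw [Algebra.adjoin_le_iff]
  exact fun z hz => (D.Z_mem z hz).2.1

theorem le_E (D : EDData B E A θ Z) : ∀ f ∈ adjZ A Z, f ∈ E := by
  have h1 : adjZ A Z ≤ E.toSubalgebra := by
    refine sup_le (fun f hf => (D.A_le f hf).1) ?_
    rw [Algebra.adjoin_le_iff]
    exact fun z hz => (D.Z_mem z hz).1
  exact fun f hf => h1 hf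

theorem adj_le_B (D : EDData B E A θ Z) : adjA (adjZ A Z) θ ≤ B.R := by
  refine sup_le D.le_B ?_
  rw [Algebra.adjoin_le_iff]
  rintro f hf
  rw [Set.mem_singleton_iff.1 hf]
  exact D.θ_mem

theorem S1_le_B (D : EDData B E A θ Z) : locv v (adjA (adjZ A Z) θ) ≤ B.R :=
  locv_le D.adj_le_B B.loc

theorem noeth (D : EDData B E A θ Z) : IsNoetherianRing (adjZ A Z) := by
  classical
  obtain ⟨s, hs⟩ := D.fg
  have h1 : (adjZ A Z).FG := by
    refine ⟨s ∪ Z, ?_⟩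
    rw [Finset.coe_union, Algebra.adjoin_union, hs]
    rfl
  have : Algebra.FiniteType k (adjZ A Z) := (Subalgebra.fg_iff_finiteType _).1 h1
  exact Algebra.FiniteType.isNoetherianRing k (adjZ A Z)

end EDData

/-- ED1. Let `S = k[A, Z]`, `t` generators of the ideal of the elements of positive value of `S`.
Every element of `S[θ]` is an element of `locv S` plus an element of `(t)^n locv(S[θ])`. -/
theorem EDData.approx (htriv : ∀ c : k, c ≠ 0 → v (algebraMap k Ω c) = 0)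
    (D : EDData B E A θ Z) :
    ∃ (m : ℕ) (t : Fin m → Ω), (∀ j, t j ∈ adjZ A Z ∧ VPos v (t j)) ∧
      ∀ n : ℕ, ∀ f ∈ locv v (adjA (adjZ A Z) θ), ∃ g ∈ locv v (adjZ A Z),
        ∃ c : (Fin n → Fin m) → Ω, (∀ e, c e ∈ locv v (adjA (adjZ A Z) θ)) ∧
          f = g + ∑ e : Fin n → Fin m, (∏ i, t (e i)) * c e := by
  obtain ⟨S, hS⟩ : ∃ S, S = adjZ A Z := ⟨_, rfl⟩
  have hSB := D.le_B
  have hS1B := D.S1_le_B
  have hN := D.noeth
  rw [← hS] at hSB hS1B hN ⊢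
  let p : Ideal S :=
    { carrier := {s | VPos v (s : Ω)}
      add_mem' := fun {a b} ha hb => VPos.add ha hb
      zero_mem' := VPos.zero
      smul_mem' := fun c s hs => by
        change VPos v ((c : Ω) * (s : Ω))
        exact VPos.mul' (B.nonneg _ (hSB c.2)) hs }
  obtain ⟨m, t, ht⟩ := Submodule.fg_iff_exists_fin_generating_family.1 (hN.noetherian p)
  have htp : ∀ j, t j ∈ p := fun j => by
    rw [← ht]
    exact Submodule.subset_span (Set.mem_range_self j)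
  obtain ⟨S1, hS1⟩ : ∃ S1, S1 = locv v (adjA S θ) := ⟨_, rfl⟩
  rw [← hS1] at hS1B ⊢
  have hnn : ∀ f ∈ S1, v.Ge 0 f := fun f hf => B.nonneg f (hS1B hf)
  have hSS1 : ∀ f ∈ S, f ∈ S1 := by
    rw [hS1]
    exact fun f hf => le_locv _ ((le_sup_left : S ≤ adjA S θ) hf)
  have hJ : ∀ s ∈ S, VPos v s → EDA.J S1 (fun j => (t j : Ω)) s := by
    intro s hs hv
    have h1 : (⟨s, hs⟩ : S) ∈ p := hv
    rw [← ht] at h1
    obtain ⟨c, hc⟩ := (Submodule.mem_span_range_iff_exists_fun S).1 h1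
    refine ⟨fun j => (c j : Ω), fun j => hSS1 _ (c j).2, ?_⟩
    have h2 := congrArg (fun x : S => (x : Ω)) hc
    simp only [smul_eq_mul] at h2
    push_cast at h2
    rw [← h2]
    exact Finset.sum_congr rfl fun j _ => mul_comm _ _
  -- the minimal polynomial over `S`
  have hSE : ∀ f ∈ S, f ∈ E := by
    rw [hS]
    exact D.le_E
  set ι : S →+* E := (Subalgebra.inclusion (S := S) (T := E.toSubalgebra) hSE).toRingHom with hι
  obtain ⟨P, hP⟩ : ∃ P : S[X], P.map ι = minpoly E θ := by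
    have h3 : minpoly E θ ∈ Polynomial.lifts ι := by
      rw [Polynomial.lifts_iff_coeff_lifts]
      intro i
      have h4 := D.coeff i
      rw [← hS] at h4
      exact ⟨⟨_, h4⟩, Subtype.ext rfl⟩
    obtain ⟨P, hP⟩ := (Polynomial.mem_lifts _).1 h3
    exact ⟨P, hP⟩
  have hmap : ∀ Q : S[X], aeval θ (Q.map ι) = aeval θ Q := by
    intro Q
    rw [aeval_def, eval₂_map, aeval_def]
    rfl
  have hP0 : aeval θ P = 0 := by
    rw [← hmap, hP, minpoly.aeval]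
  have hP1 : aeval θ (derivative P) = aeval θ (derivative (minpoly E θ)) := by
    rw [← hmap, ← derivative_map, hP]
  obtain ⟨c, hc, hcv⟩ := D.near
  rw [← hS] at hc
  have hθJ : EDA.J S1 (fun j => (t j : Ω)) (θ - c) :=
    EDA.theta_J hS1 hc hnn hJ hcv P hP0 (by rw [hP1]; exact D.der_ne) (by rw [hP1]; exact D.der)
  have hone := EDA.approx_loc hS1 hc hθJ (fun j => htp j) hnn
  refine ⟨m, fun j => (t j : Ω), fun j => ⟨(t j).2, htp j⟩, fun n f hf => ?_⟩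
  obtain ⟨g, hg, e, he, hfg⟩ := EDA.iterate (S0 := locv v S)
    (fun j => le_locv _ (t j).2) hone n f hf
  exact ⟨g, hg, e, he, by rw [← hfg]; ring⟩

/-- ED2. Linear descent along the free extension `R₀[θ]`: see LU1 `descend_rel`. -/
theorem EDData.descend (htriv : ∀ c : k, c ≠ 0 → v (algebraMap k Ω c) = 0)
    (D : EDData B E A θ Z) (R : Subalgebra k Ω) (hR : adjZ A Z ≤ R) (hRE : ∀ f ∈ R, f ∈ E)
    (hRB : R ≤ B.R) (hloc : ∀ f ∈ R, f ≠ 0 → v f = 0 → f⁻¹ ∈ R) {n : ℕ} (w α : Fin n → Ω)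
    (hw : ∀ j, w j ∈ R) (hα : ∀ j, α j ∈ locv v (Algebra.adjoin k ((R : Set Ω) ∪ {θ})))
    (z : Ω) (hz : z ∈ R) (hzw : z = ∑ j, w j * α j) :
    ∃ β : Fin n → Ω, (∀ j, β j ∈ R) ∧ z = ∑ j, w j * β j :=
  descend_rel E θ D.int (B.nonneg _ D.θ_mem) R hRE (fun f hf => B.nonneg f (hRB hf)) hloc
    (fun i => hR (D.coeff i)) w α hw hα z hz hzw

/-- The elements that are quotients of elements of `A` with monomial denominators. -/
def qrs (A : Subalgebra k Ω) (B : BF k v) : Subalgebra k Ω where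
  carrier := {f | QR A B.MonoS f}
  mul_mem' := fun hf hg => QR.mul B.mulSet' hf hg
  add_mem' := fun hf hg => QR.add B.mulSet' hf hg
  algebraMap_mem' := fun c => ⟨_, A.algebraMap_mem c, 1, A.one_mem, one_ne_zero,
    BF.Mono.un BF.Un.one, by rw [div_one]⟩

theorem mem_qrs {f : Ω} : f ∈ qrs A B ↔ QR A B.MonoS f := Iff.rfl

theorem qrs_of_mem {f : Ω} (h : f ∈ A) : f ∈ qrs A B :=
  ⟨f, h, 1, A.one_mem, one_ne_zero, BF.Mono.un BF.Un.one, by rw [div_one]⟩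

theorem qrs_inv {f : Ω} (h : f ∈ qrs A B) (hf : B.Mono f) : f⁻¹ ∈ qrs A B :=
  QR.inv B.mulSet' h hf.ne hf

theorem EDData.le_qrs (D : EDData B E A θ Z) : adjZ A Z ≤ qrs A B := by
  refine sup_le (fun f hf => qrs_of_mem hf) ?_
  rw [Algebra.adjoin_le_iff]
  exact fun z hz => (D.Z_mem z hz).2.2

theorem EDData.loc_le_qrs (D : EDData B E A θ Z) : locv v (adjZ A Z) ≤ qrs A B := by
  refine fun f hf => ?_
  obtain ⟨a, ha, b, hb, hb0, hvb, rfl⟩ := hf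
  rw [div_eq_mul_inv]
  exact (qrs A B).mul_mem (D.le_qrs ha) (qrs_inv (D.le_qrs hb)
    (BF.Mono.un ⟨D.le_B hb, hb0, hvb⟩))

/-- Powers of an invertible element of a subalgebra. -/
theorem zpow_mem_of {R : Subalgebra k Ω} {f : Ω} (h : f ∈ R) (h' : f⁻¹ ∈ R) (n : ℤ) :
    f ^ n ∈ R := by
  obtain ⟨m, rfl | rfl⟩ := n.eq_nat_or_neg
  · rw [zpow_natCast]
    exact R.pow_mem h m
  · rw [zpow_neg, zpow_natCast, ← inv_pow]
    exact R.pow_mem h' m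

/-- ED3, with `y' ≠ 0`. There are a basis-compatible character with values in `E`, a parameter in
`E` and a finite set of generators in `E`. -/
theorem EDData.exists_gens_aux (htriv : ∀ c : k, c ≠ 0 → v (algebraMap k Ω c) = 0)
    (D : EDData B E A θ Z) 
    (hQR : ∀ f ∈ B.R, QR (adjA A θ) B.MonoS f) :
    ∃ (χ' : ℝ → Ω) (y' : Ω) (G : Finset Ω), y' ≠ 0 ∧
      (∀ γ ∈ B.Γ, χ' γ ∈ E ∧ B.Un (χ' γ / B.χ γ) ∧ QR A B.MonoS (χ' γ)) ∧
      (∀ γ ∈ B.Γ, ∀ δ ∈ B.Γ, χ' (γ + δ) = χ' γ * χ' δ) ∧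
      y' ∈ E ∧ QR A B.MonoS y' ∧
      (∃ u, B.Un u ∧ ∃ δ ∈ B.Γ, 0 < δ ∧ ∃ a ∈ B.R, y' = u * B.y + B.χ δ * a) ∧ v y' = v B.y ∧
      (∀ g ∈ G, g ∈ E ∧ g ∈ B.R ∧ QR A B.MonoS g) ∧ y' ∈ Algebra.adjoin k (G : Set Ω) ∧
      adjZ A Z ≤ Algebra.adjoin k (G : Set Ω) ∧
      B.R = locv v (Algebra.adjoin k
        (((locv v (Algebra.adjoin k ((G : Set Ω) ∪ χ' '' {γ | γ ∈ B.Γ ∧ 0 ≤ γ})) :
          Subalgebra k Ω) : Set Ω) ∪ {θ})) := by
  classical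
  obtain ⟨m, t, ht, happ⟩ := D.approx htriv
  have hSB := D.le_B
  have hSE := D.le_E
  have hS1B := D.S1_le_B
  have hSqr := D.le_qrs
  have hS0qr := D.loc_le_qrs
  have hpos := D.pos
  obtain ⟨S, hS⟩ : ∃ S, S = adjZ A Z := ⟨_, rfl⟩
  rw [← hS] at ht happ hSB hSE hS1B hSqr hS0qr hpos ⊢
  have hAS : A ≤ S := by
    rw [hS]
    exact le_sup_left
  obtain ⟨S0, hS0⟩ : ∃ S0, S0 = locv v S := ⟨_, rfl⟩
  obtain ⟨S1, hS1⟩ : ∃ S1, S1 = locv v (adjA S θ) := ⟨_, rfl⟩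
  rw [← hS1] at happ hS1B
  rw [← hS0] at happ hS0qr
  have hS0E : ∀ f ∈ S0, f ∈ E := by
    rw [hS0]
    rintro f ⟨a, ha, b, hb, -, -, rfl⟩
    exact E.div_mem (hSE a ha) (hSE b hb)
  have hθA : θ ∈ adjA A θ := (le_sup_right : Algebra.adjoin k {θ} ≤ adjA A θ)
    (Algebra.subset_adjoin rfl)
  have hAθ : adjA A θ ≤ S1 := by
    rw [hS1]
    exact (sup_le_sup hAS le_rfl).trans (le_locv _)
  -- the smallest exponent
  obtain ⟨γ0, hγ0, hγ0p, ht0⟩ : ∃ γ0 ∈ B.Γ, 0 < γ0 ∧ ∀ j, ∃ a ∈ B.R, t j = B.χ γ0 * a := by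
    choose γ hγ hγp a ha hta using fun j => hpos (t j) (ht j).1 (ht j).2
    obtain ⟨q, hq, hqy⟩ := B.full B.y B.y_ne
    have hqp : 0 < (q : ℝ) * v B.y := mul_pos (by exact_mod_cast hq) B.y_pos
    have key : ∀ s : Finset (Fin m), ∃ γ0 ∈ B.Γ, 0 < γ0 ∧ ∀ j ∈ s, γ0 ≤ γ j := by
      intro s
      induction s using Finset.induction_on with
      | empty => exact ⟨_, hqy, hqp, fun j hj => absurd hj (Finset.notMem_empty j)⟩
      | insert j s hj ih =>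
        obtain ⟨δ, hδ, hδp, h1⟩ := ih
        rcases le_total δ (γ j) with h2 | h2
        · exact ⟨δ, hδ, hδp, fun i hi => by
            rcases Finset.mem_insert.1 hi with rfl | hi
            · exact h2
            · exact h1 i hi⟩
        · exact ⟨γ j, hγ j, hγp j, fun i hi => by
            rcases Finset.mem_insert.1 hi with rfl | hi
            · exact le_rfl
            · exact h2.trans (h1 i hi)⟩
    obtain ⟨γ0, hγ0, hγ0p, h1⟩ := key Finset.univ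
    refine ⟨γ0, hγ0, hγ0p, fun j => ?_⟩
    obtain ⟨b, hb, h2⟩ := B.χ_dvd (hγ j) hγ0 (h1 j (Finset.mem_univ j))
    exact ⟨b * a j, B.R.mul_mem hb (ha j), by rw [hta, h2, mul_assoc]⟩
  -- quotients
  choose! a ha b hb hb0 hbM hab using hQR
  obtain ⟨l, u, ρ, hu, hρ, hρadd⟩ := EDB.exists_coords B
  obtain ⟨F, hF⟩ := B.fgen
  have hχu : ∀ j, B.χ (u j) ∈ B.R := fun j => B.χ_mem _ (hu j).1 (hu j).2.le
  obtain ⟨Λ, hΛ⟩ : ∃ Λ : Finset Ω, Λ = insert B.y (F ∪ Finset.univ.image fun j => B.χ (u j)) :=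
    ⟨_, rfl⟩
  have hFR : ∀ f ∈ F, f ∈ B.R := by
    intro f hf
    rw [hF]
    exact le_locv _ (Algebra.subset_adjoin (Or.inl hf))
  have hΛR : ∀ f ∈ Λ, f ∈ B.R := by
    intro f hf
    rw [hΛ, Finset.mem_insert, Finset.mem_union, Finset.mem_image] at hf
    rcases hf with rfl | hf | ⟨j, -, rfl⟩
    · exact B.y_mem
    · exact hFR f hf
    · exact hχu j
  have hyΛ : B.y ∈ Λ := by
    rw [hΛ]
    exact Finset.mem_insert_self _ _
  have hFΛ : ∀ f ∈ F, f ∈ Λ := by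
    intro f hf
    rw [hΛ]
    exact Finset.mem_insert_of_mem (Finset.mem_union_left _ hf)
  have hχΛ : ∀ j, B.χ (u j) ∈ Λ := by
    intro j
    rw [hΛ]
    exact Finset.mem_insert_of_mem (Finset.mem_union_right _
      (Finset.mem_image_of_mem _ (Finset.mem_univ j)))
  -- the precision
  obtain ⟨n, hn⟩ : ∃ n : ℕ, ∀ f ∈ Λ, 2 * v (b f) + v B.y < n * γ0 ∧ v (a f) < n * γ0 := by
    obtain ⟨n, hn⟩ := exists_nat_gt ((∑ f ∈ Λ, (2 * |v (b f)| + |v (a f)|) + v B.y) / γ0)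
    rw [div_lt_iff₀ hγ0p] at hn
    refine ⟨n, fun f hf => ?_⟩
    have h1 : 2 * |v (b f)| + |v (a f)| ≤ ∑ f ∈ Λ, (2 * |v (b f)| + |v (a f)|) :=
      Finset.single_le_sum (f := fun f => 2 * |v (b f)| + |v (a f)|)
        (fun i _ => by positivity) hf
    have h2 := le_abs_self (v (b f))
    have h3 := le_abs_self (v (a f))
    have h4 := abs_nonneg (v (b f))
    have h5 := abs_nonneg (v (a f))
    have h6 := B.y_pos
    constructor <;> linarith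
  obtain ⟨κ, hκ⟩ : ∃ κ : ℝ, κ = n * γ0 := ⟨_, rfl⟩
  rw [← hκ] at hn
  have hκΓ : κ ∈ B.Γ := by
    rw [hκ, ← nsmul_eq_mul]
    exact B.Γ.nsmul_mem hγ0 n
  -- the products
  obtain ⟨T, hT⟩ : ∃ T : (Fin n → Fin m) → Ω, T = fun e => ∏ i, t (e i) := ⟨_, rfl⟩
  have hTS : ∀ e, T e ∈ S := fun e => by
    rw [hT]
    exact S.prod_mem fun i _ => (ht _).1
  have hTκ : ∀ e, ∃ τ ∈ B.R, T e = B.χ κ * τ := by
    intro e
    choose a' ha' hta using ht0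
    refine ⟨∏ i, a' (e i), B.R.prod_mem fun i _ => ha' _, ?_⟩
    rw [hT, hκ, B.χ_nsmul hγ0]
    simp only [hta]
    rw [Finset.prod_mul_distrib, Finset.prod_const, Finset.card_univ, Fintype.card_fin]
  choose τ hτ hTτ using hTκ
  choose! g hg c hc hgc using happ n
  have hgc' : ∀ f ∈ S1, f = g f + ∑ e : Fin n → Fin m, T e * c f e := by
    intro f hf
    rw [hT]
    exact hgc f hf
  -- approximations
  have hgd : ∀ f ∈ S1, ∃ d ∈ B.R, g f = f - B.χ κ * d := by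
    intro f hf
    refine ⟨∑ e : Fin n → Fin m, τ e * c f e, B.R.sum_mem fun e _ =>
      B.R.mul_mem (hτ e) (hS1B (hc f hf e)), ?_⟩
    rw [Finset.mul_sum]
    have h1 : ∀ e, B.χ κ * (τ e * c f e) = T e * c f e := fun e => by
      rw [hTτ e]
      ring
    rw [Finset.sum_congr rfl fun e _ => h1 e]
    conv_rhs => rw [hgc' f hf]
    have h2 := hgc' f hf
    rw [← h2]
    linear_combination -h2
  have hbS1 : ∀ f ∈ Λ, b f ∈ S1 := fun f hf => hAθ (hb f (hΛR f hf))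
  have haS1 : ∀ f ∈ Λ, a f ∈ S1 := fun f hf => hAθ (ha f (hΛR f hf))
  have hvb : ∀ f ∈ Λ, 0 ≤ v (b f) := fun f hf =>
    B.nonneg _ (hS1B (hbS1 f hf)) (hb0 f (hΛR f hf))
  have hbM' : ∀ f ∈ Λ, B.Mono (b f) := fun f hf => hbM f (hΛR f hf)
  have hbκ : ∀ f ∈ Λ, v (b f) < κ := fun f hf => by
    have h1 := (hn f hf).1
    have h2 := hvb f hf
    have h3 := B.y_pos
    linarith
  -- the approximations of the denominators
  have hgb : ∀ f ∈ Λ, B.Mono (g (b f)) ∧ v (g (b f)) = v (b f) ∧ B.Un (g (b f) / b f) := by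
    intro f hf
    obtain ⟨d, hd, h1⟩ := hgd _ (hbS1 f hf)
    rw [h1]
    exact EDB.mono_sub B (hbM' f hf) hκΓ (hbκ f hf) hd
  -- the approximations of the quotients
  have hga : ∀ f ∈ Λ, κ - 2 * v (b f) ∈ B.Γ ∧ ∃ r ∈ B.R,
      g (a f) / g (b f) = f + B.χ (κ - 2 * v (b f)) * r := by
    intro f hf
    obtain ⟨d, hd, h1⟩ := hgd _ (hbS1 f hf)
    obtain ⟨d', hd', h1'⟩ := hgd _ (haS1 f hf)
    have h2 := EDB.quot_sub B (hbM' f hf) (hS1B (hbS1 f hf)) (hS1B (haS1 f hf)) hκΓ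
      (by have := (hn f hf).1; have := B.y_pos; linarith) hd' hd
    rw [← h1, ← h1', ← hab f (hΛR f hf)] at h2
    exact h2
  have hχκ : ∀ f ∈ Λ, v B.y < κ - 2 * v (b f) := fun f hf => by
    have := (hn f hf).1
    linarith
  -- the monomials
  have hχa : ∀ j, B.Mono (a (B.χ (u j))) := by
    intro j
    have h1 : a (B.χ (u j)) = B.χ (u j) * b (B.χ (u j)) := by
      rw [eq_comm, ← eq_div_iff (hb0 _ (hχu j))]
      exact hab _ (hχu j)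
    rw [h1]
    exact (BF.Mono.χ (hu j).1).mul (hbM' _ (hχΛ j))
  have hgχa : ∀ j, B.Mono (g (a (B.χ (u j)))) ∧ v (g (a (B.χ (u j)))) = v (a (B.χ (u j))) ∧
      B.Un (g (a (B.χ (u j))) / a (B.χ (u j))) := by
    intro j
    obtain ⟨d, hd, h1⟩ := hgd _ (haS1 _ (hχΛ j))
    rw [h1]
    exact EDB.mono_sub B (hχa j) hκΓ (hn _ (hχΛ j)).2 hd
  obtain ⟨X, hX⟩ : ∃ X : Fin l → Ω, X = fun j => g (a (B.χ (u j))) / g (b (B.χ (u j))) := ⟨_, rfl⟩
  have hXM : ∀ j, B.Mono (X j) := fun j => by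
    rw [hX]
    exact (hgχa j).1.div (hgb _ (hχΛ j)).1
  have hg0 : ∀ f ∈ S1, g f ∈ S0 := hg
  have hXE : ∀ j, X j ∈ E := fun j => by
    rw [hX]
    exact E.div_mem (hS0E _ (hg0 _ (haS1 _ (hχΛ j)))) (hS0E _ (hg0 _ (hbS1 _ (hχΛ j))))
  have hXq : ∀ j, X j ∈ qrs A B := fun j => by
    rw [hX]
    simp only [div_eq_mul_inv]
    exact (qrs A B).mul_mem (hS0qr (hg0 _ (haS1 _ (hχΛ j))))
      (qrs_inv (hS0qr (hg0 _ (hbS1 _ (hχΛ j)))) (hgb _ (hχΛ j)).1)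
  have hXu : ∀ j, B.Un (X j / B.χ (u j)) := by
    intro j
    have h1 := (hgχa j).2.2
    have h2 := (hgb _ (hχΛ j)).2.2
    have h3 : X j / B.χ (u j) = (g (a (B.χ (u j))) / a (B.χ (u j))) /
        (g (b (B.χ (u j))) / b (B.χ (u j))) := by
      rw [hX]
      exact EDB.div_aux (hab _ (hχu j)) (hχa j).ne (hb0 _ (hχu j)) (hgb _ (hχΛ j)).1.ne
    rw [h3]
    exact h1.div h2
  -- the new character and the new parameter
  obtain ⟨χ', hχ'⟩ : ∃ χ' : ℝ → Ω, χ' = fun γ => ∏ j, X j ^ ρ γ j := ⟨_, rfl⟩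
  obtain ⟨y', hy'⟩ : ∃ y', y' = g (a B.y) / g (b B.y) := ⟨_, rfl⟩
  obtain ⟨sA, hsA⟩ := D.fg
  obtain ⟨G, hG⟩ : ∃ G : Finset Ω, G = sA ∪ (Z ∪ (Λ.image (fun f => g (a f) / g (b f)) ∪
      ((Λ ×ˢ (Finset.univ : Finset (Fin n → Fin m))).image (fun p => T p.2 / g (b p.1)) ∪
      (Finset.univ : Finset (Fin l × (Fin n → Fin m))).image
        (fun p => T p.2 / g (a (B.χ (u p.1))))))) := ⟨_, rfl⟩
  have hχ'ratio : ∀ γ ∈ B.Γ, χ' γ / B.χ γ = ∏ j, (X j / B.χ (u j)) ^ ρ γ j := by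
    intro γ hγ
    have h1 : B.χ γ = ∏ j, B.χ (u j) ^ ρ γ j := by
      conv_lhs => rw [hρ γ hγ]
      exact (EDB.χ_sum B (fun j => (hu j).1) (ρ γ) Finset.univ).2
    rw [h1, hχ', ← Finset.prod_div_distrib]
    exact Finset.prod_congr rfl fun j _ => (div_zpow _ _ _).symm
  have hχ'un : ∀ γ ∈ B.Γ, B.Un (χ' γ / B.χ γ) := by
    intro γ hγ
    rw [hχ'ratio γ hγ]
    exact Finset.prod_induction _ B.Un (fun a b ha hb => ha.mul hb) BF.Un.one
      fun j _ => (hXu j).zpow _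
  have hχ'E : ∀ γ, χ' γ ∈ E := fun γ => by
    rw [hχ']
    exact E.prod_mem fun j _ => zpow_mem (hXE j) _
  have hχ'q : ∀ γ, χ' γ ∈ qrs A B := fun γ => by
    rw [hχ']
    exact (qrs A B).prod_mem fun j _ => zpow_mem_of (hXq j) (qrs_inv (hXq j) (hXM j)) _
  have hyq : g (a B.y) / g (b B.y) ∈ E ∧ g (a B.y) / g (b B.y) ∈ qrs A B := by
    refine ⟨E.div_mem (hS0E _ (hg0 _ (haS1 _ hyΛ))) (hS0E _ (hg0 _ (hbS1 _ hyΛ))), ?_⟩
    rw [div_eq_mul_inv]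
    exact (qrs A B).mul_mem (hS0qr (hg0 _ (haS1 _ hyΛ)))
      (qrs_inv (hS0qr (hg0 _ (hbS1 _ hyΛ))) (hgb _ hyΛ).1)
  obtain ⟨hyΓ, ry, hry, hyr⟩ := hga B.y hyΛ
  have hyp : 0 < κ - 2 * v (b B.y) := B.y_pos.trans (hχκ _ hyΛ)
  have hyv' : y' ≠ 0 ∧ v y' = v B.y := by
    rw [hy', hyr]
    by_cases hry0 : ry = 0
    · rw [hry0, mul_zero, add_zero]
      exact ⟨B.y_ne, rfl⟩
    · have h1 : B.χ (κ - 2 * v (b B.y)) * ry ≠ 0 := mul_ne_zero (B.χ_ne _ hyΓ) hry0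
      refine v.add_of_lt B.y_ne h1 ?_
      rw [v.map_mul (B.χ_ne _ hyΓ) hry0, B.χ_val _ hyΓ]
      have := B.nonneg ry hry hry0
      have := hχκ _ hyΛ
      linarith
  -- the generators
  have hTdiv : ∀ e, ∀ β : Ω, B.Mono β → v β < κ → T e / β ∈ B.R := by
    intro e β hβ hβκ
    rw [hTτ e, mul_comm, mul_div_assoc]
    refine B.R.mul_mem (hτ e) (((BF.Mono.χ hκΓ).div hβ).mem ?_)
    rw [v.map_div (B.χ_ne _ hκΓ) hβ.ne, B.χ_val _ hκΓ]
    linarith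
  have hTq : ∀ e, ∀ β ∈ S0, B.Mono β → T e / β ∈ E ∧ T e / β ∈ qrs A B := by
    intro e β hβ hβM
    refine ⟨E.div_mem (hSE _ (hTS e)) (hS0E _ hβ), ?_⟩
    rw [div_eq_mul_inv]
    exact (qrs A B).mul_mem (hSqr (hTS e)) (qrs_inv (hS0qr hβ) hβM)
  have hGm : ∀ x ∈ G, x ∈ E ∧ x ∈ B.R ∧ QR A B.MonoS x := by
    intro x hx
    rw [hG] at hx
    simp only [Finset.mem_union, Finset.mem_image, Finset.mem_product, Finset.mem_univ, true_and,
      and_true, Prod.exists] at hx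
    rcases hx with hx | hx | ⟨f, hf, rfl⟩ | ⟨f, e, hf, rfl⟩ | ⟨j, e, rfl⟩
    · have h1 : x ∈ A := by
        rw [← hsA]
        exact Algebra.subset_adjoin hx
      exact ⟨(D.A_le x h1).1, (D.A_le x h1).2, qrs_of_mem h1⟩
    · exact D.Z_mem x hx
    · refine ⟨E.div_mem (hS0E _ (hg0 _ (haS1 _ hf))) (hS0E _ (hg0 _ (hbS1 _ hf))), ?_, ?_⟩
      · obtain ⟨h1, r, hr, h2⟩ := hga f hf
        rw [h2]
        refine B.R.add_mem (hΛR f hf) (B.R.mul_mem (B.χ_mem _ h1 ?_) hr)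
        have := hχκ f hf
        have := B.y_pos
        linarith
      · rw [div_eq_mul_inv]
        exact (qrs A B).mul_mem (hS0qr (hg0 _ (haS1 _ hf)))
          (qrs_inv (hS0qr (hg0 _ (hbS1 _ hf))) (hgb _ hf).1)
    · have h1 := hTq e _ (hg0 _ (hbS1 _ hf)) (hgb _ hf).1
      exact ⟨h1.1, hTdiv e _ (hgb _ hf).1 (by rw [(hgb _ hf).2.1]; exact hbκ f hf), h1.2⟩
    · have h1 := hTq e _ (hg0 _ (haS1 _ (hχΛ j))) (hgχa j).1
      exact ⟨h1.1, hTdiv e _ (hgχa j).1 (by rw [(hgχa j).2.1]; exact (hn _ (hχΛ j)).2), h1.2⟩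
  have hSG : S ≤ Algebra.adjoin k (G : Set Ω) := by
    rw [hS]
    refine sup_le ?_ (Algebra.adjoin_mono fun z hz => ?_)
    · rw [← hsA]
      refine Algebra.adjoin_mono fun z hz => ?_
      rw [hG]
      exact Finset.mem_coe.2 (Finset.mem_union_left _ hz)
    · rw [hG]
      exact Finset.mem_coe.2 (Finset.mem_union_right _ (Finset.mem_union_left _ hz))
  have hGf : ∀ f ∈ Λ, g (a f) / g (b f) ∈ G := fun f hf => by
    rw [hG]
    exact Finset.mem_union_right _ (Finset.mem_union_right _ (Finset.mem_union_left _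
      (Finset.mem_image_of_mem (fun f => g (a f) / g (b f)) hf)))
  have hGb : ∀ f ∈ Λ, ∀ e, T e / g (b f) ∈ G := fun f hf e => by
    rw [hG]
    exact Finset.mem_union_right _ (Finset.mem_union_right _ (Finset.mem_union_right _
      (Finset.mem_union_left _ (Finset.mem_image.2 ⟨(f, e),
        Finset.mem_product.2 ⟨hf, Finset.mem_univ _⟩, rfl⟩))))
  have hGa : ∀ j e, T e / g (a (B.χ (u j))) ∈ G := fun j e => by
    rw [hG]
    exact Finset.mem_union_right _ (Finset.mem_union_right _ (Finset.mem_union_right _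
      (Finset.mem_union_right _ (Finset.mem_image.2 ⟨(j, e), Finset.mem_univ _, rfl⟩))))
  refine ⟨χ', y', G, hyv'.1, fun γ hγ => ⟨hχ'E γ, hχ'un γ hγ, hχ'q γ⟩, ?_,
    by rw [hy']; exact hyq.1,
    by rw [hy']; exact hyq.2, ⟨1, BF.Un.one, _, hyΓ, hyp, ry, hry, by rw [hy', hyr, one_mul]⟩,
    hyv'.2, hGm, ?_, hSG, ?_⟩
  · intro γ hγ δ hδ
    rw [hχ', ← Finset.prod_mul_distrib]
    refine Finset.prod_congr rfl fun j _ => ?_
    rw [hρadd γ hγ δ hδ, zpow_add₀ (hXM j).ne]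
  · rw [hy']
    exact Algebra.subset_adjoin (Finset.mem_coe.2 (hGf _ hyΛ))
  -- the ring
  obtain ⟨R', hR'⟩ : ∃ R', R' = locv v (Algebra.adjoin k
      ((G : Set Ω) ∪ χ' '' {γ | γ ∈ B.Γ ∧ 0 ≤ γ})) := ⟨_, rfl⟩
  rw [← hR']
  obtain ⟨R2, hR2⟩ : ∃ R2, R2 = locv v (Algebra.adjoin k ((R' : Set Ω) ∪ {θ})) := ⟨_, rfl⟩
  rw [← hR2]
  have hR'B : R' ≤ B.R := by
    rw [hR']
    refine locv_le ?_ B.loc
    rw [Algebra.adjoin_le_iff]
    rintro x (hx | ⟨γ, ⟨hγ, hγ0'⟩, rfl⟩)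
    · exact (hGm x hx).2.1
    · have h1 : χ' γ = χ' γ / B.χ γ * B.χ γ := by
        rw [div_mul_cancel₀ _ (B.χ_ne γ hγ)]
      rw [h1]
      exact B.R.mul_mem (hχ'un γ hγ).1 (B.χ_mem γ hγ hγ0')
  have hR2B : R2 ≤ B.R := by
    rw [hR2]
    refine locv_le ?_ B.loc
    rw [Algebra.adjoin_le_iff]
    rintro x (hx | hx)
    · exact hR'B hx
    · rw [Set.mem_singleton_iff.1 hx]
      exact D.θ_mem
  have hR2loc : ∀ f ∈ R2, f ≠ 0 → v f = 0 → f⁻¹ ∈ R2 := by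
    rw [hR2]
    exact fun f hf h0 h1 => locv_inv hf h0 h1
  have hR'R2 : R' ≤ R2 := by
    rw [hR2]
    exact fun f hf => le_locv _ (Algebra.subset_adjoin (Or.inl hf))
  have hGR2 : ∀ x ∈ G, x ∈ R2 := fun x hx => hR'R2 (by
    rw [hR']
    exact le_locv _ (Algebra.subset_adjoin (Or.inl hx)))
  have hSR2 : S ≤ R2 := hSG.trans (by
    rw [Algebra.adjoin_le_iff]
    exact fun x hx => hGR2 x hx)
  have hS1R2 : S1 ≤ R2 := by
    rw [hS1]
    refine locv_le (sup_le hSR2 ?_) hR2loc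
    rw [Algebra.adjoin_le_iff, Set.singleton_subset_iff, hR2]
    exact le_locv _ (Algebra.subset_adjoin (Or.inr rfl))
  -- division by approximations
  have hdiv : ∀ x ∈ S1, ∀ β : Ω, β ≠ 0 → g x / β ∈ R2 → (∀ e, T e / β ∈ R2) → x / β ∈ R2 := by
    intro x hx β hβ h1 h2
    have h3 : x / β = g x / β + ∑ e : Fin n → Fin m, T e / β * c x e := by
      conv_lhs => rw [hgc' x hx, add_div, Finset.sum_div]
      congr 1
      exact Finset.sum_congr rfl fun e _ => by ring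
    rw [h3]
    exact R2.add_mem h1 (R2.sum_mem fun e _ => R2.mul_mem (h2 e) (hS1R2 (hc x hx e)))
  have hb2 : ∀ f ∈ Λ, b f / g (b f) ∈ R2 ∧ g (b f) / b f ∈ R2 := by
    intro f hf
    have h0 := (hgb f hf).1.ne
    have h1 : b f / g (b f) ∈ R2 := hdiv _ (hbS1 f hf) _ h0 (by
      rw [div_self h0]
      exact R2.one_mem) fun e => hGR2 _ (hGb f hf e)
    refine ⟨h1, ?_⟩
    have h2 := (hgb f hf).2.2.inv
    rw [inv_div] at h2
    have h3 := hR2loc _ h1 h2.2.1 h2.2.2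
    rwa [inv_div] at h3
  have hf2 : ∀ f ∈ Λ, f ∈ R2 := by
    intro f hf
    have h0 := (hgb f hf).1.ne
    have h1 : a f / g (b f) ∈ R2 := hdiv _ (haS1 f hf) _ h0 (hGR2 _ (hGf f hf))
      fun e => hGR2 _ (hGb f hf e)
    have h2 : f = a f / g (b f) * (g (b f) / b f) := by
      rw [div_mul_div_cancel₀ h0]
      exact hab f (hΛR f hf)
    rw [h2]
    exact R2.mul_mem h1 (hb2 f hf).2
  have hX2 : ∀ j, X j / B.χ (u j) ∈ R2 ∧ (X j / B.χ (u j))⁻¹ ∈ R2 := by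
    intro j
    have h0 := (hgχa j).1.ne
    have h1 : a (B.χ (u j)) / g (a (B.χ (u j))) ∈ R2 := hdiv _ (haS1 _ (hχΛ j)) _ h0 (by
      rw [div_self h0]
      exact R2.one_mem) fun e => hGR2 _ (hGa j e)
    have h2 := (hgχa j).2.2.inv
    rw [inv_div] at h2
    have h3 := hR2loc _ h1 h2.2.1 h2.2.2
    rw [inv_div] at h3
    have h4 : X j / B.χ (u j) = (g (a (B.χ (u j))) / a (B.χ (u j))) /
        (g (b (B.χ (u j))) / b (B.χ (u j))) := by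
      rw [hX]
      exact EDB.div_aux (hab _ (hχu j)) (hχa j).ne (hb0 _ (hχu j)) (hgb _ (hχΛ j)).1.ne
    have h5 : X j / B.χ (u j) ∈ R2 := by
      rw [h4, div_eq_mul_inv, inv_div]
      exact R2.mul_mem h3 (hb2 _ (hχΛ j)).1
    exact ⟨h5, hR2loc _ h5 (hXu j).2.1 (hXu j).2.2⟩
  refine le_antisymm ?_ hR2B
  conv_lhs => rw [hF]
  refine locv_le ?_ hR2loc
  rw [Algebra.adjoin_le_iff]
  rintro x (hx | ⟨γ, ⟨hγ, hγ0'⟩, rfl⟩)
  · exact hf2 x (hFΛ x hx)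
  · have h1 : B.χ γ = χ' γ * (χ' γ / B.χ γ)⁻¹ := by
      have h2 := (hχ'un γ hγ).2.1
      have h3 : χ' γ ≠ 0 := fun h => h2 (by rw [h, zero_div])
      rw [inv_div, mul_div_cancel₀ _ h3]
    rw [h1]
    refine R2.mul_mem (hR'R2 ?_) ?_
    · rw [hR']
      exact le_locv _ (Algebra.subset_adjoin (Or.inr ⟨γ, ⟨hγ, hγ0'⟩, rfl⟩))
    · rw [hχ'ratio γ hγ, ← Finset.prod_inv_distrib]
      refine R2.prod_mem fun j _ => ?_
      rw [← zpow_neg]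
      exact zpow_mem_of (hX2 j).1 (hX2 j).2 _

/-- ED3. The generators. There are a basis-compatible character with values in `E`, a parameter in
`E` and a finite set of generators in `E`. -/
theorem EDData.exists_gens (htriv : ∀ c : k, c ≠ 0 → v (algebraMap k Ω c) = 0)
    (D : EDData B E A θ Z) (hB : FracIs B.R (adj E θ))
    (hQR : ∀ f ∈ B.R, QR (adjA A θ) B.MonoS f) :
    ∃ (χ' : ℝ → Ω) (y' : Ω) (G : Finset Ω),
      (∀ γ ∈ B.Γ, χ' γ ∈ E ∧ B.Un (χ' γ / B.χ γ) ∧ QR A B.MonoS (χ' γ)) ∧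
      (∀ γ ∈ B.Γ, ∀ δ ∈ B.Γ, χ' (γ + δ) = χ' γ * χ' δ) ∧
      y' ∈ E ∧ QR A B.MonoS y' ∧
      (∃ u, B.Un u ∧ ∃ δ ∈ B.Γ, 0 < δ ∧ ∃ a ∈ B.R, y' = u * B.y + B.χ δ * a) ∧ v y' = v B.y ∧
      (∀ g ∈ G, g ∈ E ∧ g ∈ B.R ∧ QR A B.MonoS g) ∧ y' ∈ Algebra.adjoin k (G : Set Ω) ∧
      adjZ A Z ≤ Algebra.adjoin k (G : Set Ω) ∧
      B.R = locv v (Algebra.adjoin k
        (((locv v (Algebra.adjoin k ((G : Set Ω) ∪ χ' '' {γ | γ ∈ B.Γ ∧ 0 ≤ γ})) :
          Subalgebra k Ω) : Set Ω) ∪ {θ})) := by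
  obtain ⟨χ', y', G, _, h⟩ := D.exists_gens_aux htriv hQR
  exact ⟨χ', y', G, h⟩

end Approx

/-- ED4. One descent. -/
theorem EDData.desc (htriv : ∀ c : k, c ≠ 0 → v (algebraMap k Ω c) = 0)
    {B : BF k v} {E : IntermediateField k Ω} {A : Subalgebra k Ω} {θ : Ω} {Z : Finset Ω}
    (D : EDData B E A θ Z) (hB : FracIs B.R (adj E θ))
    (hQR : ∀ f ∈ B.R, QR (adjA A θ) B.MonoS f) :
    ∃ C : BF k v, FracIs C.R E ∧ C.Γ = B.Γ ∧ (∀ f, f ∈ C.R ↔ f ∈ B.R ∧ f ∈ E) ∧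
      (∀ γ ∈ B.Γ, B.Un (C.χ γ / B.χ γ)) ∧ v C.y = v B.y ∧ ∀ f ∈ C.R, QR A C.MonoS f := by
  classical
  obtain ⟨χ', y', G, hy0, hχ', hχ'add, hyE, hyq, ⟨u, hu, δ, hδ, hδp, a', ha', hy'⟩, hyv, hG, hyG,
    hSG, hR2⟩ := D.exists_gens_aux htriv hQR
  obtain ⟨R, hR⟩ : ∃ R, R = locv v (Algebra.adjoin k
      ((G : Set Ω) ∪ χ' '' {γ | γ ∈ B.Γ ∧ 0 ≤ γ})) := ⟨_, rfl⟩
  rw [← hR] at hR2
  have hχ'0 : ∀ γ ∈ B.Γ, χ' γ ≠ 0 := fun γ hγ h => (hχ' γ hγ).2.1.2.1 (by rw [h, zero_div])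
  have hχ'v : ∀ γ ∈ B.Γ, v (χ' γ) = γ := by
    intro γ hγ
    have h1 := (hχ' γ hγ).2.1.2.2
    rw [v.map_div (hχ'0 γ hγ) (B.χ_ne γ hγ), B.χ_val γ hγ] at h1
    linarith
  have hχ'B : ∀ γ ∈ B.Γ, 0 ≤ γ → χ' γ ∈ B.R := by
    intro γ hγ h0
    have h1 : χ' γ = χ' γ / B.χ γ * B.χ γ := by
      rw [div_mul_cancel₀ _ (B.χ_ne γ hγ)]
    rw [h1]
    exact B.R.mul_mem (hχ' γ hγ).2.1.1 (B.χ_mem γ hγ h0)
  have hRB : R ≤ B.R := by
    rw [hR]
    refine locv_le ?_ B.loc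
    rw [Algebra.adjoin_le_iff]
    rintro x (hx | ⟨γ, ⟨hγ, hγ0⟩, rfl⟩)
    · exact (hG x hx).2.1
    · exact hχ'B γ hγ hγ0
  have hRloc : ∀ f ∈ R, f ≠ 0 → v f = 0 → f⁻¹ ∈ R := by
    rw [hR]
    exact fun f hf h0 h1 => locv_inv hf h0 h1
  have hRE : ∀ f ∈ R, f ∈ E := by
    have h1 : Algebra.adjoin k ((G : Set Ω) ∪ χ' '' {γ | γ ∈ B.Γ ∧ 0 ≤ γ}) ≤ E.toSubalgebra := by
      rw [Algebra.adjoin_le_iff]
      rintro x (hx | ⟨γ, ⟨hγ, hγ0⟩, rfl⟩)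
      · exact (hG x hx).1
      · exact (hχ' γ hγ).1
    rw [hR]
    rintro f ⟨a, ha, b, hb, -, -, rfl⟩
    exact E.div_mem (h1 ha) (h1 hb)
  have hGR : Algebra.adjoin k (G : Set Ω) ≤ R := by
    rw [hR]
    exact (Algebra.adjoin_mono Set.subset_union_left).trans (le_locv _)
  have hSR : adjZ A Z ≤ R := hSG.trans hGR
  have hAR : A ≤ R := (le_sup_left : A ≤ adjZ A Z).trans hSR
  have hfrac : FracIs R E := ⟨hRE, fun g hg => by
    obtain ⟨a, ha, b, hb, hb0, h⟩ := D.frac g hg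
    exact ⟨a, hAR ha, b, hAR hb, hb0, h⟩⟩
  have hBR2 : ∀ f ∈ B.R, f ∈ locv v (Algebra.adjoin k ((R : Set Ω) ∪ {θ})) := fun f hf => by
    rw [← hR2]
    exact hf
  -- the ring is the intersection
  have hint : ∀ f, f ∈ R ↔ f ∈ B.R ∧ f ∈ E := by
    intro f
    refine ⟨fun hf => ⟨hRB hf, hRE f hf⟩, ?_⟩
    rintro ⟨hf, hfE⟩
    obtain ⟨p, hp, q, hq, hq0, rfl⟩ := hfrac.2 f hfE
    obtain ⟨β, hβ, h1⟩ := D.descend htriv R hSR hRE hRB hRloc (n := 1) (fun _ => q)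
      (fun _ => p / q) (fun _ => hq) (fun _ => hBR2 _ hf) p hp (by
        rw [Finset.univ_unique, Finset.sum_singleton, mul_div_cancel₀ _ hq0])
    rw [Finset.univ_unique, Finset.sum_singleton] at h1
    rw [h1, mul_div_cancel_left₀ _ hq0]
    exact hβ _
  have hχ'zero : χ' 0 = 1 := by
    have h1 := hχ'add 0 B.Γ.zero_mem 0 B.Γ.zero_mem
    rw [add_zero] at h1
    have h2 := hχ'0 0 B.Γ.zero_mem
    exact (mul_eq_left₀ h2).1 h1.symm
  -- the parameters generate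
  have hgen : ∀ f ∈ R, VPos v f → ∃ γ ∈ B.Γ, 0 < γ ∧ ∃ a ∈ R, ∃ b ∈ R, f = χ' γ * a + y' * b := by
    intro f hf hfv
    obtain ⟨γ, hγ, hγp, a, ha, b, hb, hfe⟩ := B.gen f (hRB hf) hfv
    obtain ⟨γ0, hγ0⟩ : ∃ γ0, γ0 = min γ δ := ⟨_, rfl⟩
    have hγ0Γ : γ0 ∈ B.Γ := by
      rw [hγ0]
      rcases min_choice γ δ with h | h <;> rw [h] <;> assumption
    have hγ0p : 0 < γ0 := by
      rw [hγ0]
      exact lt_min hγp hδp
    obtain ⟨c1, hc1, h1⟩ := B.χ_dvd hγ hγ0Γ (by rw [hγ0]; exact min_le_left _ _)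
    obtain ⟨c2, hc2, h2⟩ := B.χ_dvd hδ hγ0Γ (by rw [hγ0]; exact min_le_right _ _)
    have hun := (hχ' γ0 hγ0Γ).2.1
    have huinv := hu.inv
    have hη : B.χ γ0 = χ' γ0 * (χ' γ0 / B.χ γ0)⁻¹ := by
      rw [inv_div, mul_div_cancel₀ _ (hχ'0 γ0 hγ0Γ)]
    obtain ⟨η, hη'⟩ : ∃ η, η = (χ' γ0 / B.χ γ0)⁻¹ := ⟨_, rfl⟩
    rw [← hη'] at hη
    have hηR : η ∈ B.R := by
      rw [hη']
      exact hun.inv.1
    have hyy : B.y = u⁻¹ * y' - u⁻¹ * (B.χ δ * a') := by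
      have := hu.2.1
      rw [hy']
      field_simp
      ring
    have hfe2 : f = χ' γ0 * (η * (c1 * a - u⁻¹ * c2 * a' * b)) + y' * (u⁻¹ * b) := by
      rw [hfe, hyy, h1, h2, hη]
      ring
    obtain ⟨β, hβ, h3⟩ := D.descend htriv R hSR hRE hRB hRloc (n := 2)
      ![χ' γ0, y'] ![η * (c1 * a - u⁻¹ * c2 * a' * b), u⁻¹ * b]
      (by
        intro j
        fin_cases j
        · exact (hint _).2 ⟨hχ'B γ0 hγ0Γ hγ0p.le, (hχ' γ0 hγ0Γ).1⟩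
        · exact hGR hyG)
      (by
        intro j
        fin_cases j
        · exact hBR2 _ (B.R.mul_mem hηR (B.R.sub_mem (B.R.mul_mem hc1 ha)
            (B.R.mul_mem (B.R.mul_mem (B.R.mul_mem huinv.1 hc2) ha') hb)))
        · exact hBR2 _ (B.R.mul_mem huinv.1 hb))
      f hf (by rw [Fin.sum_univ_two]; exact hfe2)
    rw [Fin.sum_univ_two] at h3
    exact ⟨γ0, hγ0Γ, hγ0p, β 0, hβ 0, β 1, hβ 1, h3⟩
  let C : BF k v :=
    { Γ := B.Γ
      fg := B.fg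
      full := B.full
      χ := χ'
      χ_ne := hχ'0
      χ_add := hχ'add
      χ_val := hχ'v
      y := y'
      y_ne := hy0
      y_pos := by rw [hyv]; exact B.y_pos
      R := R
      nonneg := fun f hf => B.nonneg f (hRB hf)
      loc := hRloc
      χ_mem := fun γ hγ h0 => (hint _).2 ⟨hχ'B γ hγ h0, (hχ' γ hγ).1⟩
      y_mem := hGR hyG
      fgen := ⟨G, hR⟩
      gen := hgen
      alg := fun g => EDB.alg_of_frac hfrac
        (EDB.alg_down D.int (fun f hf => hB.1 f hf) (B.alg g)) }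
  have hCM : ∀ f ∈ E, B.Mono f → C.Mono f := by
    intro f hfE hf
    have h1 := hf.2.1
    have h2 := hχ'0 _ h1
    have h3 : f / χ' (v f) = f / B.χ (v f) * (χ' (v f) / B.χ (v f))⁻¹ := by
      have := B.χ_ne _ h1
      field_simp
    have h4 : B.Un (f / χ' (v f)) := by
      rw [h3]
      exact hf.2.2.mul (hχ' _ h1).2.1.inv
    exact ⟨hf.1, h1, (hint _).2 ⟨h4.1, E.div_mem hfE (hχ' _ h1).1⟩, h4.2.1, h4.2.2⟩
  have hAE : ∀ f ∈ A, f ∈ E := fun f hf => (D.A_le f hf).1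
  have hq : ∀ f, QR A B.MonoS f → QR A C.MonoS f := by
    rintro f ⟨a, ha, b, hb, hb0, hbM, h⟩
    exact ⟨a, ha, b, hb, hb0, hCM b (hAE b hb) hbM, h⟩
  have hadj : Algebra.adjoin k ((G : Set Ω) ∪ χ' '' {γ | γ ∈ B.Γ ∧ 0 ≤ γ}) ≤ qrs A C := by
    rw [Algebra.adjoin_le_iff]
    rintro x (hx | ⟨γ, ⟨hγ, hγ0⟩, rfl⟩)
    · exact hq _ (hG x hx).2.2
    · exact hq _ (hχ' γ hγ).2.2
  refine ⟨C, hfrac, rfl, hint, fun γ hγ => (hχ' γ hγ).2.1, hyv, fun f hf => ?_⟩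
  change f ∈ R at hf
  rw [hR] at hf
  obtain ⟨a, ha, b, hb, hb0, hvb, rfl⟩ := hf
  rw [div_eq_mul_inv]
  refine (qrs A C).mul_mem (hadj ha) (qrs_inv (hadj hb) (BF.Mono.un ⟨?_, hb0, hvb⟩))
  change b ∈ R
  rw [hR]
  exact le_locv _ hb

/-- A chain of descent data below a fixed frame. -/
inductive EDChain (B : BF k v) : IntermediateField k Ω → Subalgebra k Ω →
    IntermediateField k Ω → Subalgebra k Ω → Prop
  | refl (E : IntermediateField k Ω) (A : Subalgebra k Ω) : EDChain B E A E A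
  | step {E E' : IntermediateField k Ω} {A A' : Subalgebra k Ω} (θ : Ω) (Z : Finset Ω) :
      EDData B E A θ Z → EDChain B (adj E θ) (adjA A θ) E' A' → EDChain B E A E' A'

theorem EDChain.trans {B : BF k v} {E E' E'' : IntermediateField k Ω}
    {A A' A'' : Subalgebra k Ω} (h : EDChain B E A E' A') (h' : EDChain B E' A' E'' A'') :
    EDChain B E A E'' A'' := by
  induction h with
  | refl => exact h'
  | step θ Z D _ ih => exact EDChain.step θ Z D (ih h')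

/-- The data for a descent hold for a frame whose ring is the intersection with `E(θ)`. -/
theorem EDData.transfer {B C : BF k v} {E : IntermediateField k Ω} {A : Subalgebra k Ω} {θ : Ω}
    {Z : Finset Ω} (D : EDData B E A θ Z) (hΓ : C.Γ = B.Γ)
    (hR : ∀ f, f ∈ C.R ↔ f ∈ B.R ∧ f ∈ adj E θ) (hχE : ∀ γ ∈ B.Γ, C.χ γ ∈ adj E θ)
    (hχ : ∀ γ ∈ B.Γ, B.Un (C.χ γ / B.χ γ)) : EDData C E A θ Z := by
  have hE : ∀ f ∈ E, f ∈ adj E θ := fun f hf => (le_sup_left : E ≤ adj E θ) hf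
  have hθ : θ ∈ adj E θ := (le_sup_right : IntermediateField.adjoin k {θ} ≤ adj E θ)
    (IntermediateField.subset_adjoin k _ rfl)
  have hC0 : ∀ γ ∈ B.Γ, C.χ γ ≠ 0 := fun γ hγ => C.χ_ne γ (by rw [hΓ]; exact hγ)
  have hM : ∀ f ∈ E, B.Mono f → C.Mono f := by
    intro f hfE hf
    have h1 := hf.2.1
    have h2 := hC0 _ h1
    have h3 : f / C.χ (v f) = f / B.χ (v f) * (C.χ (v f) / B.χ (v f))⁻¹ := by
      have := B.χ_ne _ h1
      field_simp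
    have h4 : B.Un (f / C.χ (v f)) := by
      rw [h3]
      exact hf.2.2.mul (hχ _ h1).inv
    exact ⟨hf.1, by rw [hΓ]; exact h1,
      (hR _).2 ⟨h4.1, (adj E θ).div_mem (hE f hfE) (hχE _ h1)⟩, h4.2.1, h4.2.2⟩
  exact
    { fg := D.fg
      A_le := fun f hf => ⟨(D.A_le f hf).1, (hR f).2 ⟨(D.A_le f hf).2, hE f (D.A_le f hf).1⟩⟩
      frac := D.frac
      Z_mem := fun z hz => by
        obtain ⟨h1, h2, a, ha, b, hb, hb0, hbM, h⟩ := D.Z_mem z hz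
        exact ⟨h1, (hR z).2 ⟨h2, hE z h1⟩, a, ha, b, hb, hb0, hM b (D.A_le b hb).1 hbM, h⟩
      int := D.int
      coeff := D.coeff
      der_ne := D.der_ne
      der := D.der
      near := D.near
      θ_mem := (hR θ).2 ⟨D.θ_mem, hθ⟩
      pos := fun s hs hsv => by
        obtain ⟨γ, hγ, hγp, a, ha, h⟩ := D.pos s hs hsv
        refine ⟨γ, by rw [hΓ]; exact hγ, hγp, s / C.χ γ, ?_, ?_⟩
        · refine (hR _).2 ⟨?_, (adj E θ).div_mem (hE s (D.le_E s hs)) (hχE γ hγ)⟩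
          have h1 : s / C.χ γ = (C.χ γ / B.χ γ)⁻¹ * a := by
            have := B.χ_ne _ hγ
            have := hC0 γ hγ
            rw [h]
            field_simp
          rw [h1]
          exact B.R.mul_mem (hχ γ hγ).inv.1 ha
        · rw [mul_div_cancel₀ _ (hC0 γ hγ)] }

/-- ED5. Iterated descent. -/
theorem EDChain.desc (htriv : ∀ c : k, c ≠ 0 → v (algebraMap k Ω c) = 0)
    {B : BF k v} {E E' : IntermediateField k Ω} {A A' : Subalgebra k Ω}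
    (h : EDChain B E A E' A') (hB : FracIs B.R E') (hQR : ∀ f ∈ B.R, QR A' B.MonoS f) :
    ∃ C : BF k v, FracIs C.R E ∧ C.Γ = B.Γ ∧ (∀ f, f ∈ C.R ↔ f ∈ B.R ∧ f ∈ E) ∧
      (∀ γ ∈ B.Γ, B.Un (C.χ γ / B.χ γ)) ∧ v C.y = v B.y ∧ ∀ f ∈ C.R, QR A C.MonoS f := by
  induction h with
  | refl E A =>
    exact ⟨B, hB, rfl, fun f => ⟨fun hf => ⟨hf, hB.1 f hf⟩, fun hf => hf.1⟩, fun γ hγ => by
      rw [div_self (B.χ_ne γ hγ)]
      exact BF.Un.one, rfl, hQR⟩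
  | @step E₀ E₁ A₀ A₁ θ Z D _ ih =>
    obtain ⟨C, hC1, hC2, hC3, hC4, hC5, hC6⟩ := ih hB hQR
    have hχE : ∀ γ ∈ B.Γ, C.χ γ ∈ adj E₀ θ := by
      intro γ hγ
      rcases le_total 0 γ with h0 | h0
      · exact hC1.1 _ (C.χ_mem γ (by rw [hC2]; exact hγ) h0)
      · have hγ' : γ ∈ C.Γ := by rw [hC2]; exact hγ
        have h1 := hC1.1 _ (C.χ_mem (-γ) (C.Γ.neg_mem hγ') (neg_nonneg.2 h0))
        rw [C.χ_neg hγ'] at h1
        simpa using inv_mem h1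
    have D' := D.transfer hC2 hC3 hχE hC4
    obtain ⟨C', h1, h2, h3, h4, h5, h6⟩ := D'.desc htriv hC1 hC6
    refine ⟨C', h1, h2.trans hC2, fun f => ?_, fun γ hγ => ?_, h5.trans hC5, h6⟩
    · rw [h3, hC3]
      exact ⟨fun h => ⟨h.1.1, h.2⟩, fun h => ⟨⟨h.1, (le_sup_left : E₀ ≤ adj E₀ θ) h.2⟩, h.2⟩⟩
    · have h7 := h4 γ (by rw [hC2]; exact hγ)
      have h8 := hC4 γ hγ
      have h9 : C'.χ γ / B.χ γ = C'.χ γ / C.χ γ * (C.χ γ / B.χ γ) := by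
        rw [div_mul_div_cancel₀ (C.χ_ne γ (by rw [hC2]; exact hγ))]
      rw [h9]
      exact BF.Un.mul ⟨((hC3 _).1 h7.1).1, h7.2.1, h7.2.2⟩ h8

end Pool.Agent.LU1
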