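import Pool.Agent.Lib.LU2_h80.GrowF
import Pool.Agent.Lib.LU1_h15.EtDescB
import Pool.Agent.Lib.LU1_h15.EtDescC

/-! # LU2, ED: étale descent, part A (approximation) -/

set_option autoImplicit false

open Polynomial

namespace Pool.Agent.LU1

open Pool.Agent.H15JM (RVal)

universe u

variable {k Ω : Type u} [Field k] [Field Ω] [Algebra k Ω] {v : RVal Ω}

namespace EDA

variable {S S1 : Subalgebra k Ω} {m : ℕ} {t : Fin m → Ω}

/-- `x` is in the ideal of `S1` generated by the products of `n` of the `t j`. -/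
def Q (S1 : Subalgebra k Ω) (t : Fin m → Ω) (n : ℕ) (x : Ω) : Prop :=
  ∃ c : (Fin n → Fin m) → Ω, (∀ e, c e ∈ S1) ∧ x = ∑ e : Fin n → Fin m, (∏ i, t (e i)) * c e

/-- `x` is in the ideal of `S1` generated by the `t j`. -/
def J (S1 : Subalgebra k Ω) (t : Fin m → Ω) (x : Ω) : Prop :=
  ∃ c : Fin m → Ω, (∀ j, c j ∈ S1) ∧ x = ∑ j, t j * c j

theorem J.zero : J S1 t 0 := ⟨fun _ => 0, fun _ => S1.zero_mem, by simp⟩

theorem J.add {x y : Ω} (hx : J S1 t x) (hy : J S1 t y) : J S1 t (x + y) := by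
  obtain ⟨c, hc, rfl⟩ := hx
  obtain ⟨d, hd, rfl⟩ := hy
  exact ⟨fun j => c j + d j, fun j => S1.add_mem (hc j) (hd j), by
    rw [← Finset.sum_add_distrib]
    exact Finset.sum_congr rfl fun j _ => by ring⟩

theorem J.mul {x a : Ω} (hx : J S1 t x) (ha : a ∈ S1) : J S1 t (x * a) := by
  obtain ⟨c, hc, rfl⟩ := hx
  exact ⟨fun j => c j * a, fun j => S1.mul_mem (hc j) ha, by
    rw [Finset.sum_mul]
    exact Finset.sum_congr rfl fun j _ => by ring⟩

theorem J.neg {x : Ω} (hx : J S1 t x) : J S1 t (-x) := by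
  have := hx.mul (S1.neg_mem S1.one_mem)
  rwa [mul_neg, mul_one] at this

theorem J.sub {x y : Ω} (hx : J S1 t x) (hy : J S1 t y) : J S1 t (x - y) := by
  rw [sub_eq_add_neg]
  exact hx.add hy.neg

theorem J.mem {x : Ω} (hx : J S1 t x) (ht : ∀ j, t j ∈ S1) : x ∈ S1 := by
  obtain ⟨c, hc, rfl⟩ := hx
  exact S1.sum_mem fun j _ => S1.mul_mem (ht j) (hc j)

theorem J.vpos {x : Ω} (hx : J S1 t x) (ht : ∀ j, VPos v (t j)) (hS1 : ∀ f ∈ S1, v.Ge 0 f) :
    VPos v x := by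
  obtain ⟨c, hc, rfl⟩ := hx
  refine Finset.sum_induction _ (VPos v) (fun a b ha hb => ha.add hb) VPos.zero ?_
  intro j _
  exact (ht j).mul (hS1 _ (hc j))

/-- Iteration of `S1 = S0 + t S1`. -/
theorem iterate {S0 : Subalgebra k Ω} (ht : ∀ j, t j ∈ S0)
    (h : ∀ f ∈ S1, ∃ g ∈ S0, J S1 t (f - g)) (n : ℕ) :
    ∀ f ∈ S1, ∃ g ∈ S0, Q S1 t n (f - g) := by
  induction n with
  | zero =>
    intro f hf
    refine ⟨0, S0.zero_mem, fun _ => f, fun _ => hf, ?_⟩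
    simp
  | succ n ih =>
    intro f hf
    obtain ⟨g, hg, c, hc, hfg⟩ := ih f hf
    choose g' hg' hJ using fun e => h (c e) (hc e)
    choose d hd hcd using hJ
    refine ⟨g + ∑ e : Fin n → Fin m, (∏ i, t (e i)) * g' e, S0.add_mem hg
      (S0.sum_mem fun e _ => S0.mul_mem (S0.prod_mem fun i _ => ht _) (hg' e)),
      fun e => d (Fin.init e) (e (Fin.last n)), fun e => hd _ _, ?_⟩
    have h1 : f - (g + ∑ e : Fin n → Fin m, (∏ i, t (e i)) * g' e) =
        ∑ e : Fin n → Fin m, ∑ j, (∏ i, t (e i)) * t j * d e j := by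
      have h2 : ∀ e, c e = g' e + ∑ j, t j * d e j := fun e => by rw [← hcd e]; ring
      have h3 : f = g + ∑ e : Fin n → Fin m, (∏ i, t (e i)) * c e := by rw [← hfg]; ring
      rw [h3, add_sub_add_left_eq_sub, ← Finset.sum_sub_distrib]
      refine Finset.sum_congr rfl fun e _ => ?_
      rw [h2 e, mul_add, add_sub_cancel_left, Finset.mul_sum]
      exact Finset.sum_congr rfl fun j _ => by ring
    rw [h1, ← Fintype.sum_prod_type' (f := fun (e : Fin n → Fin m) (j : Fin m) =>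
      (∏ i, t (e i)) * t j * d e j)]
    refine (Fintype.sum_equiv ((Equiv.prodComm _ _).trans (Fin.snocEquiv fun _ => Fin m)) _ _
      fun p => ?_)
    obtain ⟨e, j⟩ := p
    change _ = (∏ i, t ((Fin.snoc (α := fun _ => Fin m) e j : Fin (n + 1) → Fin m) i)) *
      d (Fin.init (Fin.snoc (α := fun _ => Fin m) e j : Fin (n + 1) → Fin m))
        ((Fin.snoc (α := fun _ => Fin m) e j : Fin (n + 1) → Fin m) (Fin.last n))
    rw [Fin.init_snoc (α := fun _ => Fin m), Fin.snoc_last (α := fun _ => Fin m),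
      Fin.prod_univ_castSucc]
    simp only [Fin.snoc_castSucc, Fin.snoc_last]

/-- The elements of `k[A, θ]` that are congruent to elements of `S0`. -/
theorem approx_adj {S : Subalgebra k Ω} {θ c : Ω} (hS : ∀ f ∈ adjA S θ, f ∈ S1) (hc : c ∈ S)
    (hθ : J S1 t (θ - c)) : ∀ f ∈ adjA S θ, ∃ g ∈ S, J S1 t (f - g) := by
  intro f hf
  have h1 : adjA S θ = Algebra.adjoin k ((S : Set Ω) ∪ {θ}) := by
    rw [adjA, Algebra.adjoin_union, Algebra.adjoin_eq]
  have hS' : ∀ f ∈ S, f ∈ S1 := fun f hf => hS f ((le_sup_left : S ≤ adjA S θ) hf)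
  rw [h1] at hf
  induction hf using Algebra.adjoin_induction with
  | mem x hx =>
    rcases hx with hx | hx
    · exact ⟨x, hx, by rw [sub_self]; exact J.zero⟩
    · rw [Set.mem_singleton_iff.1 hx]
      exact ⟨c, hc, hθ⟩
  | algebraMap a => exact ⟨_, S.algebraMap_mem a, by rw [sub_self]; exact J.zero⟩
  | add x y _ _ hx hy =>
    obtain ⟨a, ha, ha'⟩ := hx
    obtain ⟨b, hb, hb'⟩ := hy
    refine ⟨a + b, S.add_mem ha hb, ?_⟩
    have := ha'.add hb'
    rwa [sub_add_sub_comm] at this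
  | mul x y hx0 hy0 hx hy =>
    obtain ⟨a, ha, ha'⟩ := hx
    obtain ⟨b, hb, hb'⟩ := hy
    refine ⟨a * b, S.mul_mem ha hb, ?_⟩
    rw [← h1] at hx0
    have h2 : x * y - a * b = (y - b) * x + (x - a) * b := by ring
    rw [h2]
    exact (hb'.mul (hS _ hx0)).add (ha'.mul (hS' _ hb))

/-- The same for the localisation. -/
theorem approx_loc {S : Subalgebra k Ω} {θ c : Ω} (hS1 : S1 = locv v (adjA S θ)) (hc : c ∈ S)
    (hθ : J S1 t (θ - c)) (ht : ∀ j, VPos v (t j)) (hnn : ∀ f ∈ S1, v.Ge 0 f) :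
    ∀ f ∈ S1, ∃ g ∈ locv v S, J S1 t (f - g) := by
  intro f hf
  have hle : ∀ f ∈ adjA S θ, f ∈ S1 := by
    rw [hS1]
    exact fun f hf => le_locv _ hf
  have hle' : ∀ f ∈ S, f ∈ S1 := fun f hf => hle f ((le_sup_left : S ≤ adjA S θ) hf)
  have hinv : ∀ f ∈ S1, f ≠ 0 → v f = 0 → f⁻¹ ∈ S1 := by
    rw [hS1]
    exact fun f hf h0 h1 => locv_inv hf h0 h1
  have hf' := hf
  rw [hS1] at hf'
  obtain ⟨a, ha, b, hb, hb0, hvb, rfl⟩ := hf'
  obtain ⟨a0, ha0, haJ⟩ := approx_adj hle hc hθ a ha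
  obtain ⟨b0, hb0', hbJ⟩ := approx_adj hle hc hθ b hb
  have h1 : b0 ≠ 0 ∧ v b0 = 0 := by
    have h2 : b0 = b + -(b - b0) := by ring
    rw [h2]
    exact val_add_vpos hb0 hvb (hbJ.vpos ht hnn).neg
  refine ⟨a0 / b0, ⟨a0, ha0, b0, hb0', h1.1, h1.2, rfl⟩, ?_⟩
  have h3 : a / b - a0 / b0 = ((a - a0) * b0 - (b - b0) * a0) * (b⁻¹ * b0⁻¹) := by
    have := h1.1
    field_simp
    ring
  rw [h3]
  exact ((haJ.mul (hle' _ hb0')).sub (hbJ.mul (hle' _ ha0))).mul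
    (S1.mul_mem (hinv _ (hle _ hb) hb0 hvb) (hinv _ (hle' _ hb0') h1.1 h1.2))

/-- `θ - c` is in the ideal. -/
theorem theta_J {S : Subalgebra k Ω} {θ c : Ω} (hS1 : S1 = locv v (adjA S θ)) (hc : c ∈ S)
    (hnn : ∀ f ∈ S1, v.Ge 0 f) (hJ : ∀ s ∈ S, VPos v s → J S1 t s) (hcv : VPos v (θ - c))
    (P : S[X]) (h0 : aeval θ P = 0) (h1 : aeval θ (derivative P) ≠ 0)
    (h2 : v (aeval θ (derivative P)) = 0) : J S1 t (θ - c) := by
  have hle : ∀ f ∈ adjA S θ, f ∈ S1 := by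
    rw [hS1]
    exact fun f hf => le_locv _ hf
  have hle' : ∀ f ∈ S, f ∈ S1 := fun f hf => hle f ((le_sup_left : S ≤ adjA S θ) hf)
  have hinv : ∀ f ∈ S1, f ≠ 0 → v f = 0 → f⁻¹ ∈ S1 := by
    rw [hS1]
    exact fun f hf h0 h1 => locv_inv hf h0 h1
  have hθA : θ ∈ adjA S θ := (le_sup_right : Algebra.adjoin k {θ} ≤ adjA S θ)
    (Algebra.subset_adjoin rfl)
  have hθ : v.Ge 0 θ := hnn θ (hle θ hθA)
  have hS0 : ∀ f ∈ S, v.Ge 0 f := fun f hf => hnn f (hle' f hf)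
  obtain ⟨c', hc'⟩ : ∃ c' : S, c' = ⟨c, hc⟩ := ⟨_, rfl⟩
  obtain ⟨q, hq⟩ := X_sub_C_dvd_sub_C_eval (a := c') (p := P)
  obtain ⟨τ, hτ⟩ : ∃ τ, τ = θ - c := ⟨_, rfl⟩
  rw [← hτ] at hcv ⊢
  have hct : aeval θ (X - C c' : S[X]) = τ := by
    rw [map_sub, aeval_X, aeval_C, hc', hτ]
    rfl
  have hP : P = C (P.eval c') + (X - C c') * q := by
    rw [← hq]
    ring
  have h3 : ((P.eval c' : S) : Ω) = -(τ * aeval θ q) := by
    have := congrArg (aeval θ) hP
    rw [h0, map_add, map_mul, hct, aeval_C] at this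
    have h4 : (algebraMap S Ω) (P.eval c') = ((P.eval c' : S) : Ω) := rfl
    rw [h4] at this
    exact eq_neg_of_add_eq_zero_left this.symm
  have h4 : aeval θ q = aeval θ (derivative P) - τ * aeval θ (derivative q) := by
    have h5 : derivative P = q + (X - C c') * derivative q := by
      conv_lhs => rw [hP]
      rw [derivative_add, derivative_C, zero_add, derivative_mul, derivative_sub, derivative_X,
        derivative_C, sub_zero, one_mul]
    rw [h5, map_add, map_mul, hct]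
    ring
  have hqv : aeval θ q ≠ 0 ∧ v (aeval θ q) = 0 := by
    rw [h4, sub_eq_add_neg]
    exact val_add_vpos h1 h2 ((hcv.mul (ge_aeval hS0 _ hθ)).neg)
  have hqS : aeval θ q ∈ S1 := by
    refine hle _ ?_
    rw [aeval_eq_sum_range]
    refine Subalgebra.sum_mem _ fun i _ => ?_
    exact (adjA S θ).mul_mem ((le_sup_left : S ≤ adjA S θ) (q.coeff i).2)
      ((adjA S θ).pow_mem hθA i)
  have hev : VPos v ((P.eval c' : S) : Ω) := by
    rw [h3]
    exact (hcv.mul (ge_aeval hS0 q hθ)).neg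
  have h6 : τ = -((P.eval c' : S) : Ω) * (aeval θ q)⁻¹ := by
    rw [h3, neg_neg, mul_inv_cancel_right₀ hqv.1]
  rw [h6]
  exact ((hJ _ (P.eval c').2 hev).neg).mul (hinv _ hqS hqv.1 hqv.2)

end EDA

end Pool.Agent.LU1
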