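import Pool.Agent.Lib.LU2_h80.EDA

/-! # LU2, ED: étale descent, part B (auxiliary facts) -/

set_option autoImplicit false

open Polynomial

namespace Pool.Agent.LU1

open Pool.Agent.H15JM (RVal)

universe u

variable {k Ω : Type u} [Field k] [Field Ω] [Algebra k Ω] {v : RVal Ω}

namespace EDB

/-- Coordinates in a basis of `Γ` of positive numbers. -/
theorem exists_coords (B : BF k v) : ∃ (l : ℕ) (u : Fin l → ℝ) (ρ : ℝ → Fin l → ℤ),
    (∀ j, u j ∈ B.Γ ∧ 0 < u j) ∧ (∀ γ ∈ B.Γ, γ = ∑ j, (ρ γ j : ℝ) * u j) ∧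
    ∀ γ ∈ B.Γ, ∀ δ ∈ B.Γ, ∀ j, ρ (γ + δ) j = ρ γ j + ρ δ j := by
  classical
  have : Module.Finite ℤ B.Γ := by
    rw [Module.Finite.iff_addGroup_fg]
    exact (AddGroup.fg_iff_addSubgroup_fg B.Γ).2 B.fg
  obtain ⟨l, b⟩ : ∃ l, Nonempty (Module.Basis (Fin l) ℤ B.Γ) := ⟨_, ⟨Module.finBasis ℤ B.Γ⟩⟩
  obtain ⟨b⟩ := b
  have hb0 : ∀ j, ((b j : B.Γ) : ℝ) ≠ 0 := by
    intro j h
    exact b.ne_zero j (Subtype.ext h)
  let s : Fin l → ℤ := fun j => if 0 < ((b j : B.Γ) : ℝ) then 1 else -1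
  have hs : ∀ j, s j * s j = 1 := by
    intro j
    simp only [s]
    split_ifs <;> norm_num
  have hsp : ∀ j, 0 < (s j : ℝ) * ((b j : B.Γ) : ℝ) := by
    intro j
    simp only [s]
    split_ifs with h
    · simpa using h
    · have := lt_of_le_of_ne (not_lt.1 h) (hb0 j)
      push_cast
      linarith
  refine ⟨l, fun j => (s j : ℝ) * ((b j : B.Γ) : ℝ),
    fun γ j => if h : γ ∈ B.Γ then s j * b.repr ⟨γ, h⟩ j else 0, ?_, ?_, ?_⟩
  · intro j
    refine ⟨?_, hsp j⟩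
    change (s j : ℝ) * ((b j : B.Γ) : ℝ) ∈ B.Γ
    rw [← zsmul_eq_mul]
    exact B.Γ.zsmul_mem (b j).2 _
  · intro γ hγ
    have h1 : (⟨γ, hγ⟩ : B.Γ) = ∑ j, b.repr ⟨γ, hγ⟩ j • b j := (b.sum_repr _).symm
    have h2 := congrArg (fun x : B.Γ => (x : ℝ)) h1
    simp only [AddSubgroup.val_finsetSum, AddSubgroup.coe_zsmul] at h2
    conv_lhs => rw [h2]
    refine Finset.sum_congr rfl fun j _ => ?_
    simp only [dif_pos hγ]
    rw [zsmul_eq_mul]
    have h3 : ((s j : ℤ) : ℝ) * (s j : ℝ) = 1 := by exact_mod_cast hs j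
    push_cast
    calc ((b.repr ⟨γ, hγ⟩ j : ℤ) : ℝ) * ((b j : B.Γ) : ℝ)
        = ((b.repr ⟨γ, hγ⟩ j : ℤ) : ℝ) * ((b j : B.Γ) : ℝ) * 1 := by ring
      _ = _ := by
        rw [← h3]
        ring
  · intro γ hγ δ hδ j
    have h1 : (⟨γ + δ, B.Γ.add_mem hγ hδ⟩ : B.Γ) = ⟨γ, hγ⟩ + ⟨δ, hδ⟩ := rfl
    simp only [dif_pos hγ, dif_pos hδ, dif_pos (B.Γ.add_mem hγ hδ)]
    rw [h1, map_add, Finsupp.add_apply, mul_add]

/-- `χ` in coordinates. -/
theorem χ_sum (B : BF k v) {l : ℕ} {u : Fin l → ℝ} (hu : ∀ j, u j ∈ B.Γ) (n : Fin l → ℤ)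
    (s : Finset (Fin l)) : (∑ j ∈ s, (n j : ℝ) * u j) ∈ B.Γ ∧
      B.χ (∑ j ∈ s, (n j : ℝ) * u j) = ∏ j ∈ s, B.χ (u j) ^ n j := by
  classical
  induction s using Finset.induction_on with
  | empty => exact ⟨by rw [Finset.sum_empty]; exact B.Γ.zero_mem, by
      rw [Finset.sum_empty, Finset.prod_empty, B.χ_zero]⟩
  | insert j s hj ih =>
    rw [Finset.sum_insert hj, Finset.prod_insert hj]
    have h1 : (n j : ℝ) * u j ∈ B.Γ := by
      rw [← zsmul_eq_mul]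
      exact B.Γ.zsmul_mem (hu j) _
    exact ⟨B.Γ.add_mem h1 ih.1, by rw [B.χ_add _ h1 _ ih.1, ih.2, B.χ_zsmul (hu j)]⟩

/-- A monomial minus something small. -/
theorem mono_sub (B : BF k v) {b d : Ω} {κ : ℝ} (hb : B.Mono b) (hκ : κ ∈ B.Γ) (hlt : v b < κ)
    (hd : d ∈ B.R) : B.Mono (b - B.χ κ * d) ∧ v (b - B.χ κ * d) = v b ∧
      B.Un ((b - B.χ κ * d) / b) := by
  have hb0 := hb.ne
  have h1 : B.Mono (B.χ κ / b) := (BF.Mono.χ hκ).div hb
  have h2 : v (B.χ κ / b) = κ - v b := by rw [v.map_div (B.χ_ne κ hκ) hb0, B.χ_val κ hκ]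
  have h3 : B.χ κ / b ∈ B.R := h1.mem (by rw [h2]; linarith)
  have h4 : B.Un ((b - B.χ κ * d) / b) := by
    have h5 : (b - B.χ κ * d) / b = 1 + -(B.χ κ / b * d) := by
      field_simp
      ring
    rw [h5]
    refine BF.Un.one.add_vpos (B.R.neg_mem (B.R.mul_mem h3 hd)) ?_
    refine VPos.neg (VPos.mul (fun _ => ?_) (B.nonneg d hd))
    rw [h2]
    linarith
  have h6 : b - B.χ κ * d = (b - B.χ κ * d) / b * b := by field_simp
  refine ⟨?_, ?_, h4⟩
  · rw [h6]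
    exact (BF.Mono.un h4).mul hb
  · conv_lhs => rw [h6]
    rw [v.map_mul h4.2.1 hb0, h4.2.2, zero_add]

/-- Approximation of a quotient. -/
theorem quot_sub (B : BF k v) {a b α β : Ω} {κ : ℝ} (hb : B.Mono b) (hbR : b ∈ B.R)
    (haR : a ∈ B.R) (hκ : κ ∈ B.Γ) (hlt : 2 * v b < κ) (hα : α ∈ B.R) (hβ : β ∈ B.R) :
    κ - 2 * v b ∈ B.Γ ∧ ∃ r ∈ B.R, (a - B.χ κ * α) / (b - B.χ κ * β) =
      a / b + B.χ (κ - 2 * v b) * r := by
  have hb0 := hb.ne
  have hvb : 0 ≤ v b := B.nonneg b hbR hb0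
  obtain ⟨h1, h2, h3⟩ := mono_sub B hb hκ (by linarith) hβ
  set b' := b - B.χ κ * β with hb'
  have hb'0 : b' ≠ 0 := h1.ne
  have h2v : 2 * v b ∈ B.Γ := by
    have := B.Γ.add_mem hb.2.1 hb.2.1
    rwa [← two_mul] at this
  have hκ' : κ - 2 * v b ∈ B.Γ := B.Γ.sub_mem hκ h2v
  have h4 : B.Mono (B.χ κ / (b * b')) := (BF.Mono.χ hκ).div (hb.mul h1)
  have h5 : v (B.χ κ / (b * b')) = κ - 2 * v b := by
    rw [v.map_div (B.χ_ne κ hκ) (mul_ne_zero hb0 hb'0), B.χ_val κ hκ, v.map_mul hb0 hb'0, h2]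
    ring
  have h6 : B.Un (B.χ κ / (b * b') / B.χ (κ - 2 * v b)) := by
    have := h4.2.2
    rwa [h5] at this
  refine ⟨hκ', B.χ κ / (b * b') / B.χ (κ - 2 * v b) * (a * β - α * b),
    B.R.mul_mem h6.1 (B.R.sub_mem (B.R.mul_mem haR hβ) (B.R.mul_mem hα hbR)), ?_⟩
  have h7 := B.χ_ne _ hκ'
  have h8 : B.χ κ * (a * β - α * b) = (a - B.χ κ * α) * b - a * b' := by
    rw [hb']
    ring
  have h9 : B.χ (κ - 2 * v b) * (B.χ κ / (b * b') / B.χ (κ - 2 * v b) * (a * β - α * b)) =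
      (B.χ κ * (a * β - α * b)) / (b * b') := by
    field_simp
  rw [h9, h8]
  field_simp
  ring

theorem div_aux {ga gb a b f : Ω} (hf : f = a / b) (ha : a ≠ 0) (hb : b ≠ 0) (hgb : gb ≠ 0) :
    ga / gb / f = (ga / a) / (gb / b) := by
  rw [hf]
  field_simp

/-- An element algebraic over a ring of elements of `E(θ)` is algebraic over `E`. -/
theorem alg_down {E : IntermediateField k Ω} {θ : Ω} (hint : IsIntegral E θ)
    {R : Subalgebra k Ω} (hR : ∀ f ∈ R, f ∈ adj E θ) {g : Ω} (hg : IsAlgebraic R g) :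
    IsAlgebraic E g := by
  obtain ⟨K, hK⟩ : ∃ K : IntermediateField E Ω, K = algebraicClosure E Ω := ⟨_, rfl⟩
  have hKalg : ∀ x : Ω, x ∈ K ↔ IsAlgebraic E x := fun x => by
    rw [hK]
    exact mem_algebraicClosure_iff
  have h1 : adj E θ ≤ K.restrictScalars k := by
    unfold adj
    refine sup_le ?_ ?_
    · intro x hx
      exact IntermediateField.algebraMap_mem K (⟨x, hx⟩ : E)
    · rw [IntermediateField.adjoin_le_iff, Set.singleton_subset_iff]
      exact (hKalg θ).2 hint.isAlgebraic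
  have hRK : ∀ f ∈ R, f ∈ K := fun f hf => h1 (hR f hf)
  have hgK : IsAlgebraic K g := by
    obtain ⟨P, hP0, hP⟩ := hg
    let ι : R →+* K :=
      { toFun := fun f => ⟨f, hRK f f.2⟩
        map_one' := rfl
        map_mul' := fun _ _ => rfl
        map_zero' := rfl
        map_add' := fun _ _ => rfl }
    have hι : Function.Injective ι := fun x y h => Subtype.ext (congrArg (fun z : K => (z : Ω)) h)
    refine ⟨P.map ι, (Polynomial.map_ne_zero_iff hι).2 hP0, ?_⟩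
    rw [aeval_def, eval₂_map]
    exact hP
  have : Algebra.IsAlgebraic E K := ⟨fun x => by
    have := (hKalg x).1 x.2
    exact (isAlgebraic_algebraMap_iff (algebraMap K Ω).injective).1 this⟩
  exact hgK.restrictScalars E

/-- An element of the field whose ring of fractions is `E` is algebraic over the ring. -/
theorem alg_of_frac {R : Subalgebra k Ω} {E : IntermediateField k Ω}
    (hR : FracIs R E) {g : Ω} (hg : IsAlgebraic E g) : IsAlgebraic R g := by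
  let iA : Algebra R E := (Subalgebra.inclusion (S := R) (T := E.toSubalgebra) hR.1).toRingHom.toAlgebra
  have iT : IsScalarTower R E Ω := IsScalarTower.of_algebraMap_eq' rfl
  have iF : FaithfulSMul R E := by
    rw [faithfulSMul_iff_algebraMap_injective]
    exact Subalgebra.inclusion_injective (S := R) (T := E.toSubalgebra) hR.1
  have iR : IsFractionRing R E := IsFractionRing.of_field R E fun z => by
    obtain ⟨a, ha, b, hb, -, h⟩ := hR.2 z z.2
    refine ⟨⟨a, ha⟩, ⟨b, hb⟩, Subtype.ext ?_⟩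
    rw [h]
    rfl
  exact (IsFractionRing.isAlgebraic_iff R E Ω).2 hg

end EDB

end Pool.Agent.LU1
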