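import Pool.Agent.Lib.LU2_h80.CoefF
import Pool.Agent.Lib.LU1_h15.Etale

/-! # LU2, EX1, EX2, EX3: étale steps -/

set_option autoImplicit false

open Polynomial

namespace Pool.Agent.LU1

open Pool.Agent.H15JM (RVal)

universe u

section Base

variable {k Ω : Type u} [Field k] [Field Ω] [Algebra k Ω] {v : RVal Ω} {r d : ℕ}

/-- The ring `locv (R[θ])` with the data of `B`. -/
theorem EX1Aux.pre (h : Ctx2 k v r) (B : BF k v) {θ : Ω} (hθ : v.Ge 0 θ) :
    Pre v B.Γ B.χ B.y (locv v (Algebra.adjoin k ((B.R : Set Ω) ∪ {θ}))) :=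
  { full := B.full
    χ_ne := B.χ_ne
    χ_add := B.χ_add
    χ_val := B.χ_val
    y_ne := B.y_ne
    y_pos := B.y_pos
    nonneg := by
      refine locv_nonneg (adjoin_nonneg2 h ?_)
      rintro f (hf | rfl)
      · exact B.nonneg f hf
      · exact hθ
    loc := fun f hf h0 h1 => locv_inv hf h0 h1
    χ_mem := fun γ hγ h0 => le_locv _ (Algebra.subset_adjoin (Or.inl (B.χ_mem γ hγ h0)))
    y_mem := le_locv _ (Algebra.subset_adjoin (Or.inl B.y_mem)) }

/-- The value at `θ` of a polynomial over `R` with coefficients of positive value. -/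
theorem EX1Aux.mm_aeval (h : Ctx2 k v r) (B : BF k v) {θ : Ω} (hθ : v.Ge 0 θ) (P : B.R[X])
    (hP : ∀ i, VPos v (P.coeff i : Ω)) :
    MM B.Γ B.χ B.y (locv v (Algebra.adjoin k ((B.R : Set Ω) ∪ {θ}))) (aeval θ P) := by
  have H := EX1Aux.pre h B hθ
  have hRR : ∀ f ∈ B.R, f ∈ locv v (Algebra.adjoin k ((B.R : Set Ω) ∪ {θ})) := fun f hf =>
    le_locv _ (Algebra.subset_adjoin (Or.inl hf))
  have hθR : θ ∈ locv v (Algebra.adjoin k ((B.R : Set Ω) ∪ {θ})) :=
    le_locv _ (Algebra.subset_adjoin (Or.inr rfl))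
  rw [Polynomial.aeval_eq_sum_range]
  have hsum : ∀ t : Finset ℕ, MM B.Γ B.χ B.y
      (locv v (Algebra.adjoin k ((B.R : Set Ω) ∪ {θ}))) (∑ i ∈ t, P.coeff i • θ ^ i) := by
    intro t
    classical
    induction t using Finset.induction_on with
    | empty => rw [Finset.sum_empty]; exact H.mm_zero
    | insert a t ha ih =>
      rw [Finset.sum_insert ha]
      refine H.mm_add ?_ ih
      rw [Algebra.smul_def]
      refine H.mm_mul ?_ (Subalgebra.pow_mem _ hθR a)
      obtain ⟨γ, hγ, h0, c, hc, b, hb, h1⟩ := B.gen _ (P.coeff a).2 (hP a)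
      exact ⟨γ, hγ, h0, c, hRR c hc, b, hRR b hb, h1⟩
  exact hsum _

/-- EX1. `M` a monic lift of the minimal polynomial of the residue of `θ`, `M(θ)` in the ideal
generated by `I` and `y`: then `(Γ, χ, y, locv(R[θ]))` is a frame. -/
theorem BF.exists_ext_min (h : Ctx2 k v r) (B : BF k v) {θ : Ω} (hθ : v.Ge 0 θ) {M : B.R[X]}
    (hM : B.IsMin θ M)
    (hm : MM B.Γ B.χ B.y (locv v (Algebra.adjoin k ((B.R : Set Ω) ∪ {θ}))) (aeval θ M)) :
    ∃ B' : BF k v, B'.Γ = B.Γ ∧ B'.χ = B.χ ∧ B'.y = B.y ∧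
      B'.R = locv v (Algebra.adjoin k ((B.R : Set Ω) ∪ {θ})) := by
  have H := EX1Aux.pre h B hθ
  obtain ⟨B', h1, h2, h3, h4, -⟩ := B.exists_extend2 h.triv hθ B.y_ne B.y_pos
    (le_locv _ (Algebra.subset_adjoin (Or.inl B.y_mem))) (by
      intro c hc hv
      obtain ⟨P, rfl⟩ := exists_aeval_of_mem_adjoin_base _ _ hc
      have hdiv := congrArg (aeval θ) (Polynomial.modByMonic_add_div P M)
      rw [map_add, map_mul] at hdiv
      have hQ : aeval θ (P /ₘ M) ∈ locv v (Algebra.adjoin k ((B.R : Set Ω) ∪ {θ})) :=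
        le_locv _ (aeval_mem_adjoin_base _ _ _)
      have hy1 := H.mm_mul hm hQ
      have hvr : VPos v (aeval θ (P %ₘ M)) := by
        have h5 : aeval θ (P %ₘ M) = aeval θ P - aeval θ M * aeval θ (P /ₘ M) := by
          rw [← hdiv]; exact (add_sub_cancel_right _ _).symm
        rw [h5]
        exact hv.sub (H.mm_vpos hy1)
      have hdeg : (P %ₘ M).natDegree < M.natDegree := by
        refine Polynomial.natDegree_modByMonic_lt P hM.monic ?_
        intro h6
        have h7 := hM.vpos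
        rw [h6, map_one] at h7
        have h8 := h7 one_ne_zero
        rw [v.map_one] at h8
        exact lt_irrefl _ h8
      have hcoef := hM.min _ hdeg hvr
      rw [← hdiv]
      exact H.mm_add (EX1Aux.mm_aeval h B hθ _ hcoef) hy1)
  exact ⟨B', h1, h2, h3, h4⟩

/-- EX2. `θ` a root of a monic polynomial over `R` with unit derivative: `M(θ)` is in the ideal
generated by the maximal ideal of `R`.  [`f ≡ M Q` modulo the maximal ideal, `Q(θ)` is a unit since
`f'(θ) ≡ M'(θ) Q(θ)`.] -/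
theorem BF.mm_of_etale (h : Ctx2 k v r) (B : BF k v) {θ : Ω} (f : B.R[X]) (hf : f.Monic)
    (h0 : aeval θ f = 0) (h1 : aeval θ (derivative f) ≠ 0) (h2 : v (aeval θ (derivative f)) = 0)
    {M : B.R[X]} (hM : B.IsMin θ M) :
    MM B.Γ B.χ B.y (locv v (Algebra.adjoin k ((B.R : Set Ω) ∪ {θ}))) (aeval θ M) := by
  have hθ : v.Ge 0 θ := by
    refine ge_of_root (f := f.map (algebraMap B.R Ω)) (hf.map _) ?_ ?_
    · intro i
      rw [coeff_map]
      exact B.nonneg _ (f.coeff i).2
    · rw [eval_map_algebraMap]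
      exact h0
  have H := EX1Aux.pre h B hθ
  have hne1 : M ≠ 1 := by
    intro h6
    have h7 := hM.vpos
    rw [h6, map_one] at h7
    have h8 := h7 one_ne_zero
    rw [v.map_one] at h8
    exact lt_irrefl _ h8
  have hdiv := Polynomial.modByMonic_add_div f M
  set Q := f /ₘ M with hQdef
  set S := f %ₘ M with hSdef
  have hdeg : S.natDegree < M.natDegree := Polynomial.natDegree_modByMonic_lt f hM.monic hne1
  have hge : ∀ P : B.R[X], v.Ge 0 (aeval θ P) := fun P => B.nonneg_aeval hθ P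
  -- `S(θ) + M(θ) Q(θ) = 0`
  have e1 : aeval θ S + aeval θ M * aeval θ Q = 0 := by
    have := congrArg (aeval θ) hdiv
    rw [map_add, map_mul, h0] at this
    exact this
  have hMv : VPos v (aeval θ M) := hM.vpos
  have hSv : VPos v (aeval θ S) := by
    have : aeval θ S = -(aeval θ M * aeval θ Q) := eq_neg_of_add_eq_zero_left e1
    rw [this]
    exact (hMv.mul (hge Q)).neg
  have hScoef := hM.min S hdeg hSv
  -- the derivative
  have hS' : VPos v (aeval θ (derivative S)) := by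
    refine B.vpos_aeval hθ ?_
    intro i
    rw [coeff_derivative]
    have e2 : ((S.coeff (i + 1) * ((i : B.R) + 1) : B.R) : Ω) =
        (S.coeff (i + 1) : Ω) * (((i : B.R) + 1 : B.R) : Ω) := rfl
    rw [e2]
    exact (hScoef (i + 1)).mul (B.nonneg _ ((i : B.R) + 1).2)
  have e3 : aeval θ (derivative f) = aeval θ (derivative S) +
      (aeval θ (derivative M) * aeval θ Q + aeval θ M * aeval θ (derivative Q)) := by
    rw [← hdiv, derivative_add, derivative_mul, map_add, map_add, map_mul, map_mul]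
  -- `Q(θ)` is a unit
  have hQ0 : ¬ VPos v (aeval θ Q) := by
    intro hc
    have : VPos v (aeval θ (derivative f)) := by
      rw [e3]
      exact hS'.add ((VPos.mul' (hge _) hc).add (hMv.mul (hge _)))
    have := this h1
    rw [h2] at this
    exact lt_irrefl _ this
  unfold VPos at hQ0
  push Not at hQ0
  obtain ⟨hQne, hQle⟩ := hQ0
  have hQv : v (aeval θ Q) = 0 := le_antisymm hQle (hge Q hQne)
  have hQR : aeval θ Q ∈ locv v (Algebra.adjoin k ((B.R : Set Ω) ∪ {θ})) :=
    le_locv _ (aeval_mem_adjoin_base _ _ _)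
  have hQi := locv_inv hQR hQne hQv
  have e4 : aeval θ M = aeval θ S * (-(aeval θ Q)⁻¹) := by
    have : aeval θ M * aeval θ Q = -aeval θ S := eq_neg_of_add_eq_zero_right e1
    field_simp
    rw [this]
  rw [e4]
  exact H.mm_mul (EX1Aux.mm_aeval h B hθ S hScoef) (Subalgebra.neg_mem _ hQi)

/-- EX3. -/
theorem BF.exists_etale2 (h : Ctx2 k v r) (B : BF k v) {θ : Ω} (f : B.R[X]) (hf : f.Monic)
    (h0 : aeval θ f = 0) (h1 : aeval θ (derivative f) ≠ 0)
    (h2 : v (aeval θ (derivative f)) = 0) :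
    ∃ B' : BF k v, B'.Γ = B.Γ ∧ B'.χ = B.χ ∧ B'.y = B.y ∧
      B'.R = locv v (Algebra.adjoin k ((B.R : Set Ω) ∪ {θ})) := by
  have hθ : v.Ge 0 θ := by
    refine ge_of_root (f := f.map (algebraMap B.R Ω)) (hf.map _) ?_ ?_
    · intro i
      rw [coeff_map]
      exact B.nonneg _ (f.coeff i).2
    · rw [eval_map_algebraMap]
      exact h0
  obtain ⟨M, hM⟩ := B.exists_isMin h hθ
  exact B.exists_ext_min h hθ hM (B.mm_of_etale h f hf h0 h1 h2 hM)

end Base

end Pool.Agent.LU1
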