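import Pool.Agent.Lib.LU2_h80.CoefF
import Pool.Agent.Lib.LU2_PI.Coef

/-! # LU2, EX4: coefficient fields -/

set_option autoImplicit false

open Polynomial

namespace Pool.Agent.LU1

open Pool.Agent.H15JM (RVal)

universe u

attribute [local instance] BF.isLocalRing

namespace EX_4Aux

variable {k Ω : Type u} [Field k] [Field Ω] [Algebra k Ω] {v : RVal Ω} {r d : ℕ}

theorem vpos_multiset_prod (s : Multiset Ω) (hs : ∀ x ∈ s, ¬ VPos v x) : ¬ VPos v s.prod := by
  induction s using Multiset.induction_on with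
  | empty =>
    rw [Multiset.prod_zero]
    intro h
    have := h one_ne_zero
    rw [v.map_one] at this
    exact lt_irrefl _ this
  | cons a s ih =>
    rw [Multiset.prod_cons]
    intro h
    have h1 := hs a (Multiset.mem_cons_self _ _)
    have h2 := ih fun x hx => hs x (Multiset.mem_cons_of_mem hx)
    unfold VPos at h1 h2 h
    push Not at h1 h2
    have h3 := h (mul_ne_zero h1.1 h2.1)
    rw [v.map_mul h1.1 h2.1] at h3
    linarith [h1.2, h2.2]

/-- A root close to an approximate root. -/
theorem exists_root [IsAlgClosed Ω] {E : Type u} [Field E] [Algebra E Ω] {μ : E[X]} (hμ : μ.Monic)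
    {a : Ω} (ha : VPos v (aeval a μ)) : ∃ θ : Ω, aeval θ μ = 0 ∧ VPos v (θ - a) := by
  by_contra hcon
  push Not at hcon
  have hsp : (μ.map (algebraMap E Ω)).Splits := IsAlgClosed.splits _
  have h1 : (μ.map (algebraMap E Ω)).eval a = ((μ.map (algebraMap E Ω)).roots.map
      (fun b => a - b)).prod := by
    conv_lhs => rw [hsp.eq_prod_roots_of_monic (hμ.map _)]
    rw [eval_multiset_prod, Multiset.map_map]
    congr 1
    apply Multiset.map_congr rfl
    intro b _
    simp
  rw [eval_map_algebraMap] at h1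
  rw [h1] at ha
  refine vpos_multiset_prod _ ?_ ha
  intro x hx
  rw [Multiset.mem_map] at hx
  obtain ⟨b, hb, rfl⟩ := hx
  have hb' : aeval b μ = 0 := by
    have := (mem_roots (hμ.map (algebraMap E Ω)).ne_zero).1 hb
    rwa [IsRoot, eval_map_algebraMap] at this
  intro h2
  refine hcon b hb' ?_
  have := h2.neg
  rwa [neg_sub] at this

theorem pow_ge {a : Ω} (ha : v.Ge 0 a) (n : ℕ) : v.Ge 0 (a ^ n) := by
  induction n with
  | zero => rw [pow_zero]; intro _; rw [v.map_one]
  | succ n ih =>
    have := ih.mul ha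
    rwa [add_zero, ← pow_succ] at this

theorem aeval_mem_adj {E : IntermediateField k Ω} (θ : Ω) (P : E[X]) : aeval θ P ∈ adj E θ := by
  rw [aeval_eq_sum_range]
  refine sum_mem fun i _ => ?_
  rw [Algebra.smul_def]
  exact mul_mem (le_adj E θ (P.coeff i).2) (pow_mem (mem_adj E θ) i)

/-- Algebraic extensions do not change the transcendence degree. -/
theorem trdeg_of_algebraic {E E' : IntermediateField k Ω} (hle : E ≤ E')
    (halg : ∀ c ∈ E', IsAlgebraic E c) : Algebra.trdeg k E' = Algebra.trdeg k E := by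
  let σ : E →ₐ[k] E' := IntermediateField.inclusion hle
  let _ : Algebra E E' := σ.toRingHom.toAlgebra
  have htow : IsScalarTower k E E' := IsScalarTower.of_algebraMap_eq fun x => (σ.commutes x).symm
  have htow2 : IsScalarTower E E' Ω := IsScalarTower.of_algebraMap_eq fun x => rfl
  have halg2 : Algebra.IsAlgebraic E E' := by
    constructor
    intro x
    exact (isAlgebraic_algebraMap_iff (algebraMap E' Ω).injective).1 (halg x x.2)
  have h1 := trdeg_add_eq k E (A := E')
  rw [trdeg_eq_zero_iff.2 halg2, add_zero] at h1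
  exact h1.symm

end EX_4Aux

section Coeff

variable {k Ω : Type u} [Field k] [Field Ω] [Algebra k Ω] {v : RVal Ω} {r d : ℕ}
variable {C : IntermediateField k Ω}

/-- The residue field of a frame over a field `C` has the transcendence degree of `C`. -/
theorem EX_4Aux.trdeg_residue (hC : Ctx2 C v r) (B : BF C v) (B0 : BF k v)
    (hR : ∀ f, f ∈ B0.R ↔ f ∈ B.R) :
    Algebra.trdeg k (IsLocalRing.ResidueField B0.R) = Algebra.trdeg k C := by
  set κ := IsLocalRing.ResidueField B0.R with hκ
  have hCR : ∀ c : C, (c : Ω) ∈ B0.R := fun c => (hR _).2 (B.R.algebraMap_mem c)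
  let ι : C →ₐ[k] B0.R :=
    { toFun := fun x => ⟨x, hCR x⟩
      map_one' := rfl
      map_mul' := fun _ _ => rfl
      map_zero' := rfl
      map_add' := fun _ _ => rfl
      commutes' := fun _ => rfl }
  let ρ : B0.R →ₐ[k] κ := IsScalarTower.toAlgHom k B0.R κ
  let σ : C →ₐ[k] κ := ρ.comp ι
  let _ : Algebra C κ := σ.toRingHom.toAlgebra
  have htow : IsScalarTower k C κ := IsScalarTower.of_algebraMap_eq fun x => (σ.commutes x).symm
  have halg : Algebra.IsAlgebraic C κ := by
    constructor
    intro x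
    obtain ⟨f, rfl⟩ := IsLocalRing.residue_surjective x
    obtain ⟨P, hP, hv⟩ := hC.res' (B0.nonneg _ f.2)
    refine ⟨P, hP.ne_zero, ?_⟩
    have h1 : (eval₂ ι.toRingHom f P : B0.R) = (aeval (f : Ω) P : Ω) := by
      rw [aeval_def]
      exact Polynomial.hom_eval₂ P ι.toRingHom B0.R.val.toRingHom f
    have h2 : IsLocalRing.residue B0.R (eval₂ ι.toRingHom f P) = 0 := by
      rw [B0.residue_eq_zero, h1]
      exact hv
    rw [Polynomial.hom_eval₂] at h2
    exact h2
  have h1 := trdeg_add_eq k C (A := κ)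
  rw [trdeg_eq_zero_iff.2 halg, add_zero] at h1
  exact h1.symm

/-- EX4. Lifting a separating transcendence basis of the residue field and a primitive element.
[The residue field of `B.R` is finitely generated over `k`, of transcendence degree `d`.] -/
theorem BF.exists_coeff [PerfectField k] [IsAlgClosed Ω] (h : CtxD k v r d) (hfg : C.FG)
    (hC : Ctx2 C v r) (B : BF C v) :
    ∃ (C₁ : IntermediateField k Ω) (θ : Ω), C₁.FG ∧ (∀ c ∈ C₁, c ∈ B.R) ∧ IsSeparable C₁ θ ∧
      (∃ c ∈ B.R, VPos v (θ - c)) ∧ (∀ f ∈ B.R, ∃ c ∈ adj C₁ θ, VPos v (f - c)) ∧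
      Algebra.trdeg k (adj C₁ θ) = d := by
  obtain ⟨B0, -, -, -, hR⟩ := BF.exists_down C hfg
    (fun c hc h0 => hC.triv ⟨c, hc⟩ (fun h1 => h0 (congrArg Subtype.val h1))) B
  obtain ⟨K0, a, μ, hfg0, hKR, htr, haR, hμ, hirr, h1, h2, h3⟩ := B0.exists_coef
  obtain ⟨θ, hθ, hθa⟩ := EX_4Aux.exists_root hμ h1
  have hmin : minpoly K0 θ = μ := (minpoly.eq_of_irreducible_of_monic hirr hθ hμ).symm
  have hsep : IsSeparable K0 θ := by
    unfold IsSeparable
    rw [hmin, separable_iff_derivative_ne_zero hirr]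
    intro h4
    rw [h4, map_zero] at h2
    exact h2 VPos.zero
  have hint : IsIntegral K0 θ := ⟨μ, hμ, hθ⟩
  have hKge : ∀ c : K0, v.Ge 0 (algebraMap K0 Ω c) := fun c => B0.nonneg _ (hKR _ c.2)
  have haθ : v.Ge 0 a := B0.nonneg _ haR
  have hθge : v.Ge 0 θ := by
    have := haθ.add (hθa.ge)
    rwa [add_sub_cancel] at this
  have hcong : ∀ P : K0[X], VPos v (aeval θ P - aeval a P) := by
    intro P
    induction P using Polynomial.induction_on' with
    | add p q hp hq =>
      have := hp.add hq
      rw [map_add, map_add]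
      convert this using 1
      ring
    | monomial n c =>
      rw [aeval_monomial, aeval_monomial, ← mul_sub]
      have h5 : VPos v (θ ^ n - a ^ n) := by
        induction n with
        | zero => rw [pow_zero, pow_zero, sub_self]; exact VPos.zero
        | succ n ih =>
          have h6 : θ ^ (n + 1) - a ^ (n + 1) = (θ ^ n - a ^ n) * θ + (θ - a) * a ^ n := by ring
          rw [h6]
          have h7 : v.Ge 0 (a ^ n) := EX_4Aux.pow_ge haθ n
          exact (VPos.mul ih hθge).add (VPos.mul hθa h7)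
      rw [mul_comm]
      exact VPos.mul h5 (hKge c)
  refine ⟨K0, θ, hfg0, fun c hc => (hR c).1 (hKR c hc), hsep, ⟨a, (hR a).1 haR, hθa⟩, ?_, ?_⟩
  · intro f hf
    obtain ⟨P, hP⟩ := h3 f ((hR f).2 hf)
    refine ⟨aeval θ P, ?_, ?_⟩
    · exact EX_4Aux.aeval_mem_adj θ P
    · have := hP.sub (hcong P)
      convert this using 1
      ring
  · rw [EX_4Aux.trdeg_of_algebraic (le_adj K0 θ) (adj_algebraic hint.isAlgebraic), htr,
      EX_4Aux.trdeg_residue hC B B0 hR, h.trdeg_eq C hC]

end Coeff

end Pool.Agent.LU1
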