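import Pool.Agent.Lib.LU2_h80.EX_1
import Pool.Agent.Lib.LU2_h80.EX_4
import Pool.Agent.Lib.LU2_base.BaseChange
import Pool.Agent.Lib.LU1_h15.EtDescA

/-! # LU2, EX5: existence of étale steps -/

set_option autoImplicit false

open Polynomial

namespace Pool.Agent.LU1

open Pool.Agent.H15JM (RVal)

universe u

variable {k Ω : Type u} [Field k] [Field Ω] [Algebra k Ω] {v : RVal Ω} {r d : ℕ}
variable {C : IntermediateField k Ω}

namespace EX_5Aux

/-- A field contained in the ring of a frame is trivially valued. -/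
theorem trivOn_of_le (B : BF C v) {C₁ : IntermediateField k Ω} (h : ∀ c ∈ C₁, c ∈ B.R) :
    TrivOn v C₁ := by
  intro c hc h0
  have h1 := B.nonneg c (h c hc) h0
  have h2 := B.nonneg c⁻¹ (h _ (inv_mem hc)) (inv_ne_zero h0)
  rw [v.map_inv h0] at h2
  linarith

/-- The elements of `E(θ)` are polynomials in `θ`. -/
theorem mem_of_mem_adj {E : IntermediateField k Ω} {θ : Ω} (hint : IsIntegral E θ)
    {K : Type u} [Field K] [Algebra K Ω] (R : Subalgebra K Ω) (hE : ∀ c ∈ E, c ∈ R) (hθ : θ ∈ R) :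
    ∀ c ∈ adj E θ, c ∈ R := by
  intro c hc
  obtain ⟨P, rfl⟩ := edA_exists_poly E θ hint hc
  rw [aeval_eq_sum_range]
  refine sum_mem fun i _ => ?_
  rw [Algebra.smul_def]
  exact mul_mem (hE _ (P.coeff i).2) (pow_mem hθ i)

/-- Residues of the elements of `R[θ]`. -/
theorem res_locv (C' : IntermediateField k Ω) (hC' : TrivOn v C') (B : BF C v) {θ : Ω}
    (hθ : θ ∈ C') (hB : ∀ f ∈ B.R, ∃ c ∈ C', VPos v (f - c)) :
    ∀ f ∈ locv v (Algebra.adjoin C ((B.R : Set Ω) ∪ {θ})), ∃ c ∈ C', VPos v (f - c) := by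
  have hge : ∀ c ∈ C', v.Ge 0 c := fun c hc h0 => (hC' c hc h0).ge
  have hR : ∀ f ∈ B.R, v.Ge 0 f := B.nonneg
  have key : ∀ f ∈ Algebra.adjoin C ((B.R : Set Ω) ∪ {θ}), ∃ c ∈ C', VPos v (f - c) := by
    intro f hf
    induction hf using Algebra.adjoin_induction with
    | mem x hx =>
      rcases hx with hx | rfl
      · exact hB x hx
      · exact ⟨x, hθ, by rw [sub_self]; exact VPos.zero⟩
    | algebraMap c => exact hB _ (B.R.algebraMap_mem c)
    | add x y _ _ hx hy =>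
      obtain ⟨a, ha, h1⟩ := hx
      obtain ⟨b, hb, h2⟩ := hy
      refine ⟨a + b, add_mem ha hb, ?_⟩
      have := h1.add h2
      convert this using 1
      ring
    | mul x y _ _ hx hy =>
      obtain ⟨a, ha, h1⟩ := hx
      obtain ⟨b, hb, h2⟩ := hy
      refine ⟨a * b, mul_mem ha hb, ?_⟩
      have hy : v.Ge 0 y := by
        have := h2.ge.add (hge b hb)
        rwa [sub_add_cancel] at this
      have := (h1.mul hy).add (VPos.mul' (hge a ha) h2)
      convert this using 1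
      ring
  rintro f ⟨a, ha, b, hb, hb0, hvb, rfl⟩
  obtain ⟨c, hc, h1⟩ := key a ha
  obtain ⟨e, he, h2⟩ := key b hb
  have he0 : e ≠ 0 := by
    rintro rfl
    rw [sub_zero] at h2
    have := h2 hb0
    rw [hvb] at this
    exact lt_irrefl _ this
  refine ⟨c / e, div_mem hc he, ?_⟩
  have h3 : a / b - c / e = (a - c) * b⁻¹ - (b - e) * (c * e⁻¹ * b⁻¹) := by
    field_simp
    ring
  rw [h3]
  have hbi : v.Ge 0 b⁻¹ := fun _ => by rw [v.map_inv hb0, hvb, neg_zero]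
  refine (h1.mul hbi).sub (h2.mul ?_)
  have h4 := ((hge c hc).mul (hge e⁻¹ (inv_mem he))).mul hbi
  simpa using h4

end EX_5Aux

open EX_5Aux in
/-- EX5. -/
theorem BF.exists_estep [PerfectField k] [IsAlgClosed Ω] (h : CtxD k v r d) (hfg : C.FG)
    (hC : Ctx2 C v r) (B : BF C v) :
    ∃ (Y : CF k v r) (C₁ : IntermediateField k Ω) (θ : Ω), IsEStep B Y C₁ θ := by
  obtain ⟨C₁, θ, hfg1, hC₁, hsep, hnear, hres, htr⟩ := BF.exists_coeff h hfg hC B
  have hint : IsIntegral C₁ θ := hsep.isIntegral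
  have htriv1 : TrivOn v C₁ := trivOn_of_le B hC₁
  have htriv : TrivOn v (adj C₁ θ) := htriv1.alg (adj_algebraic hint.isAlgebraic)
  -- the minimal polynomial over `B.R`
  let ι : C₁ →+* B.R :=
    { toFun := fun c => ⟨c, hC₁ c c.2⟩
      map_one' := rfl
      map_mul' := fun _ _ => rfl
      map_zero' := rfl
      map_add' := fun _ _ => rfl }
  have hev : ∀ P : C₁[X], aeval θ (P.map ι) = aeval θ P := by
    intro P
    rw [aeval_def, aeval_def, eval₂_map]
    rfl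
  obtain ⟨B1, hΓ1, hχ1, hy1, hR1⟩ := B.exists_etale2 hC (θ := θ) ((minpoly C₁ θ).map ι)
    ((minpoly.monic hint).map ι) (by rw [hev, minpoly.aeval])
    (by
      rw [derivative_map, hev]
      exact hsep.aeval_derivative_ne_zero (minpoly.aeval _ _))
    (by
      rw [derivative_map, hev]
      refine htriv _ ?_ (hsep.aeval_derivative_ne_zero (minpoly.aeval _ _))
      rw [aeval_eq_sum_range]
      refine sum_mem fun i _ => ?_
      rw [Algebra.smul_def]
      exact mul_mem (le_adj C₁ θ (SetLike.coe_mem _)) (pow_mem (mem_adj C₁ θ) i))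
  have hBR : ∀ f ∈ B.R, f ∈ B1.R := fun f hf => by
    rw [hR1]; exact le_locv _ (Algebra.subset_adjoin (Or.inl hf))
  have hθR : θ ∈ B1.R := by
    rw [hR1]; exact le_locv _ (Algebra.subset_adjoin (Or.inr rfl))
  have hCtriv : ∀ c ∈ C, c ≠ 0 → v c = 0 := fun c hc h0 =>
    hC.triv ⟨c, hc⟩ (fun h1 => h0 (congrArg Subtype.val h1))
  obtain ⟨B2, hΓ2, hχ2, hy2, hR2⟩ := BF.exists_down C hfg hCtriv B1
  obtain ⟨B3, hΓ3, hχ3, hy3, hR3⟩ := B2.exists_over (adj C₁ θ) (fun c hc => by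
    rw [hR2]
    exact mem_of_mem_adj hint B1.R (fun c hc => hBR _ (hC₁ c hc)) hθR c hc)
  refine ⟨⟨adj C₁ θ, adj_fg θ hfg1, h.ctx2 _ htriv htr, B3, ?_⟩, C₁, θ,
    ⟨hC₁, hsep, rfl, hnear, hΓ3.trans (hΓ2.trans hΓ1), hχ3.trans (hχ2.trans hχ1),
      hy3.trans (hy2.trans hy1), fun f => by rw [hR3, hR2, hR1]⟩⟩
  intro f hf
  rw [hR3, hR2, hR1] at hf
  obtain ⟨c, hc, h1⟩ := res_locv (adj C₁ θ) htriv B (mem_adj C₁ θ) hres f hf
  exact ⟨⟨c, hc⟩, h1⟩

end Pool.Agent.LU1
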