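import Pool.Agent.Lib.LU2_h80.Defs
import Pool.Agent.Lib.LU1_h15.Etale

/-! # LU2, EX7: near étale generators -/

set_option autoImplicit false

open Polynomial

namespace Pool.Agent.LU1

open Pool.Agent.H15JM (RVal)

universe u

variable {k Ω : Type u} [Field k] [Field Ω] [Algebra k Ω] {v : RVal Ω} {r d : ℕ}

namespace EX7Aux

/-- The valuation ring of `E`. -/
def vring (v : RVal Ω) (E : IntermediateField k Ω) : ValuationSubring E where
  carrier := {e | v.Ge 0 (e : Ω)}
  mul_mem' {a b} ha hb := by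
    have := RVal.Ge.mul (v := v) ha hb
    rw [add_zero] at this
    exact this
  one_mem' := fun _ => by
    show (0 : ℝ) ≤ v ((1 : E) : Ω)
    rw [show ((1 : E) : Ω) = 1 from rfl, v.map_one]
  add_mem' {a b} ha hb := RVal.Ge.add (v := v) ha hb
  zero_mem' := RVal.Ge.zero
  neg_mem' {a} ha := RVal.Ge.neg (v := v) ha
  mem_or_inv_mem' e := by
    by_cases h0 : (e : Ω) = 0
    · left
      intro h
      exact absurd h0 h
    · rcases le_total 0 (v (e : Ω)) with h | h
      · exact Or.inl fun _ => h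
      · refine Or.inr fun _ => ?_
        show (0 : ℝ) ≤ v ((e⁻¹ : E) : Ω)
        rw [show ((e⁻¹ : E) : Ω) = (e : Ω)⁻¹ from rfl, v.map_inv h0]
        linarith

theorem mem_vring {E : IntermediateField k Ω} {e : E} : e ∈ vring v E ↔ v.Ge 0 (e : Ω) := Iff.rfl

theorem ge_eval {p : Polynomial Ω} (hc : ∀ i, v.Ge 0 (p.coeff i)) {θ : Ω} (hθ : v.Ge 0 θ) :
    v.Ge 0 (p.eval θ) := by
  rw [eval_eq_sum_range]
  refine RVal.Ge.sum _ _ fun i _ => ?_
  have h1 : v.Ge 0 (θ ^ i) := by
    intro h
    by_cases h0 : θ = 0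
    · subst h0
      rcases Nat.eq_zero_or_pos i with rfl | hi
      · rw [pow_zero, v.map_one]
      · exact absurd (zero_pow hi.ne') h
    · rw [v.map_pow h0]
      exact mul_nonneg (Nat.cast_nonneg _) (hθ h0)
  have := (hc i).mul h1
  rwa [add_zero] at this

theorem ge_aeval {E : IntermediateField k Ω} {p : E[X]} (hc : ∀ i, v.Ge 0 (p.coeff i : Ω)) {θ : Ω}
    (hθ : v.Ge 0 θ) : v.Ge 0 (aeval θ p) := by
  rw [aeval_def, eval₂_eq_eval_map]
  refine ge_eval (fun i => ?_) hθ
  rw [coeff_map]
  exact hc i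

end EX7Aux

open EX7Aux

/-- EX7. The valuation ring of `E` is integrally closed. -/
theorem NearGen.of_root {E : IntermediateField k Ω} {θ : Ω} (f : E[X]) (hf : f.Monic)
    (hc : ∀ i, v.Ge 0 (f.coeff i : Ω)) (h0 : aeval θ f = 0)
    (h1 : aeval θ (derivative f) ≠ 0) (h2 : v (aeval θ (derivative f)) = 0)
    (hn : ∃ c ∈ E, VPos v (θ - c)) : NearGen v E θ := by
  have hθ : v.Ge 0 θ := by
    refine ge_of_root (f := f.map (algebraMap E Ω)) (hf.map _) (fun i => ?_) ?_
    · rw [coeff_map]; exact hc i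
    · rw [eval_map_algebraMap]; exact h0
  set O := vring v E with hO
  -- lift of `f`
  have hlift : f ∈ lifts (algebraMap O E) := by
    rw [lifts_iff_coeff_lifts]
    intro i
    exact ⟨⟨f.coeff i, hc i⟩, rfl⟩
  obtain ⟨F, hFmap, hFdeg, hFm⟩ := lifts_and_natDegree_eq_and_monic hlift hf
  have hF0 : aeval θ F = 0 := by
    rw [← h0, ← hFmap, aeval_map_algebraMap]
  have hint : IsIntegral O θ := ⟨F, hFm, by rw [← aeval_def, hF0]⟩
  have hmin : minpoly E θ = (minpoly O θ).map (algebraMap O E) :=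
    minpoly.isIntegrallyClosed_eq_field_fractions' E hint
  have hintE : IsIntegral E θ := ⟨f, hf, by rw [← aeval_def, h0]⟩
  have hmc : ∀ i, v.Ge 0 ((minpoly E θ).coeff i : Ω) := by
    intro i
    rw [hmin, coeff_map]
    exact ((minpoly O θ).coeff i).2
  have htf : Module.IsTorsionFree O Ω := by
    rw [Module.isTorsionFree_iff_algebraMap_injective, IsScalarTower.algebraMap_eq O E Ω]
    exact (algebraMap E Ω).injective.comp Subtype.val_injective
  obtain ⟨G, hG⟩ := minpoly.isIntegrallyClosed_dvd hint hF0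
  have hfG : f = minpoly E θ * G.map (algebraMap O E) := by
    rw [← hFmap, hG, Polynomial.map_mul, hmin]
  have hGc : ∀ i, v.Ge 0 ((G.map (algebraMap O E)).coeff i : Ω) := by
    intro i
    rw [coeff_map]
    exact (G.coeff i).2
  have hder : aeval θ (derivative f) =
      aeval θ (derivative (minpoly E θ)) * aeval θ (G.map (algebraMap O E)) := by
    conv_lhs => rw [hfG]
    rw [derivative_mul, map_add, map_mul, map_mul, minpoly.aeval, zero_mul, add_zero]
  have hmd : v.Ge 0 (aeval θ (derivative (minpoly E θ))) := by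
    refine ge_aeval (fun i => ?_) hθ
    rw [coeff_derivative]
    have h3 : v.Ge 0 (((i : ℕ) + 1 : E) : Ω) := by
      have h4 : (((i : ℕ) + 1 : E)) ∈ O := add_mem (natCast_mem O i) (one_mem O)
      exact h4
    have := (hmc (i + 1)).mul h3
    rw [add_zero] at this
    exact this
  have hGe := ge_aeval hGc hθ
  rw [hder] at h1 h2
  have hm1 := left_ne_zero_of_mul h1
  have hg1 := right_ne_zero_of_mul h1
  rw [v.map_mul hm1 hg1] at h2
  refine ⟨hintE, hmc, hm1, ?_, hn⟩
  have h5 := hmd hm1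
  have h6 := hGe hg1
  linarith

theorem NearGen.mono {E E' : IntermediateField k Ω} {θ : Ω} (h : NearGen v E θ) (hle : E ≤ E') :
    NearGen v E' θ := by
  have hcomp : ∀ p : E[X], aeval θ (p.map (IntermediateField.inclusion hle).toRingHom) =
      aeval θ p := by
    intro p
    rw [aeval_def, aeval_def, eval₂_map]
    rfl
  refine NearGen.of_root ((minpoly E θ).map (IntermediateField.inclusion hle).toRingHom)
    ((minpoly.monic h.int).map _) (fun i => ?_) ?_ ?_ ?_ ?_
  · rw [coeff_map]
    exact h.coeff i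
  · rw [hcomp, minpoly.aeval]
  · rw [derivative_map, hcomp]
    exact h.der_ne
  · rw [derivative_map, hcomp]
    exact h.der
  · obtain ⟨c, hc, hv⟩ := h.near
    exact ⟨c, hle hc, hv⟩

theorem EX7Aux.adj_comm (E : IntermediateField k Ω) (θ g : Ω) :
    LU1.adj (LU1.adj E θ) g = LU1.adj (LU1.adj E g) θ := by
  simp only [LU1.adj]
  rw [sup_assoc, sup_assoc, sup_comm (IntermediateField.adjoin k {θ})]

theorem NearEt.adj {E E' : IntermediateField k Ω} (h : NearEt v E E') (g : Ω) :
    NearEt v (LU1.adj E g) (LU1.adj E' g) := by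
  obtain ⟨θ, hθ, rfl⟩ := h
  exact ⟨θ, hθ.mono le_sup_left, EX7Aux.adj_comm E θ g⟩

theorem NearTow.adj {E E' : IntermediateField k Ω} (h : NearTow v E E') (g : Ω) :
    NearTow v (LU1.adj E g) (LU1.adj E' g) := by
  induction h with
  | refl => exact Relation.ReflTransGen.refl
  | tail _ h2 ih => exact ih.tail (h2.adj g)

theorem NearTow.le {E E' : IntermediateField k Ω} (h : NearTow v E E') : E ≤ E' := by
  induction h with
  | refl => exact le_rfl
  | tail _ h2 ih =>
    obtain ⟨θ, -, rfl⟩ := h2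
    exact ih.trans le_sup_left

end Pool.Agent.LU1
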