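import Pool.Agent.Lib.LU2_h80.EX_5
import Pool.Agent.Lib.LU2_h80.EX_7

/-! # LU2, EX6: first facts about étale steps -/

set_option autoImplicit false

open Polynomial

namespace Pool.Agent.LU1

open Pool.Agent.H15JM (RVal)

universe u

variable {k Ω : Type u} [Field k] [Field Ω] [Algebra k Ω] {v : RVal Ω} {r d : ℕ}
variable {C : IntermediateField k Ω}

namespace IsEStep

variable {B : BF C v} {Y : CF k v r} {C₁ : IntermediateField k Ω} {θ : Ω}

/-- EX6. -/
theorem extK (h : IsEStep B Y C₁ θ) : ExtK B Y.B where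
  le := fun f hf => (h.R_eq f).2 (le_locv _ (Algebra.subset_adjoin (Or.inl hf)))
  Γ_le := fun γ hγ => by rw [h.Γ_eq]; exact hγ
  χ_un := fun γ hγ => by
    rw [h.χ_eq, div_self (B.χ_ne γ hγ)]
    exact ⟨Y.B.R.one_mem, one_ne_zero, v.map_one⟩

theorem E_eq (_hC : Ctx2 C v r) (h : IsEStep B Y C₁ θ) : Y.E = adj (quoK B.R) θ := by
  refine le_antisymm ?_ (adj_le ?_ ?_)
  · have h1 : ∀ f ∈ Algebra.adjoin C ((B.R : Set Ω) ∪ {θ}), f ∈ adj (quoK B.R) θ := by
      intro f hf
      have hR : ∀ f ∈ B.R, f ∈ adj (quoK B.R) θ := fun f hf =>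
        le_adj _ _ (mem_quoK.2 ⟨f, hf, 1, B.R.one_mem, one_ne_zero, (div_one f).symm⟩)
      induction hf using Algebra.adjoin_induction with
      | mem x hx =>
        rcases hx with hx | rfl
        · exact hR x hx
        · exact mem_adj _ _
      | algebraMap c => exact hR _ (B.R.algebraMap_mem c)
      | add x y _ _ hx hy => exact add_mem hx hy
      | mul x y _ _ hx hy => exact mul_mem hx hy
    have h2 : ∀ f ∈ Y.B.R, f ∈ adj (quoK B.R) θ := by
      intro f hf
      obtain ⟨a, ha, b, hb, hb0, _, rfl⟩ := (h.R_eq f).1 hf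
      exact div_mem (h1 a ha) (h1 b hb)
    intro g hg
    obtain ⟨a, ha, b, hb, _, rfl⟩ := mem_quoK.1 hg
    exact div_mem (h2 a ha) (h2 b hb)
  · intro g hg
    obtain ⟨a, ha, b, hb, hb0, rfl⟩ := mem_quoK.1 hg
    exact mem_quoK.2 ⟨a, h.extK.le a ha, b, h.extK.le b hb, hb0, rfl⟩
  · exact mem_quoK.2 ⟨θ, (h.R_eq θ).2 (le_locv _ (Algebra.subset_adjoin (Or.inr rfl))), 1,
      Y.B.R.one_mem, one_ne_zero, (div_one θ).symm⟩

theorem nearGen (_hC : Ctx2 C v r) (h : IsEStep B Y C₁ θ) : NearGen v (quoK B.R) θ := by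
  have hle : C₁ ≤ quoK B.R := fun c hc =>
    mem_quoK.2 ⟨c, h.C₁_le c hc, 1, B.R.one_mem, one_ne_zero, (div_one c).symm⟩
  have hint : IsIntegral C₁ θ := h.sep.isIntegral
  have htriv1 : TrivOn v C₁ := EX_5Aux.trivOn_of_le B h.C₁_le
  have htriv : TrivOn v (adj C₁ θ) := htriv1.alg (adj_algebraic hint.isAlgebraic)
  let ι : C₁ →+* quoK B.R := (IntermediateField.inclusion hle).toRingHom
  have hev : ∀ P : C₁[X], aeval θ (P.map ι) = aeval θ P := by
    intro P
    rw [aeval_def, aeval_def, eval₂_map]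
    rfl
  obtain ⟨c, hc, hcn⟩ := h.near
  refine NearGen.of_root ((minpoly C₁ θ).map ι) ((minpoly.monic hint).map ι) ?_ ?_ ?_ ?_
    ⟨c, mem_quoK.2 ⟨c, hc, 1, B.R.one_mem, one_ne_zero, (div_one c).symm⟩, hcn⟩
  · intro i h0
    rw [coeff_map] at h0 ⊢
    exact (htriv1 _ ((minpoly C₁ θ).coeff i).2 h0).ge
  · rw [hev, minpoly.aeval]
  · rw [derivative_map, hev]
    exact h.sep.aeval_derivative_ne_zero (minpoly.aeval _ _)
  · rw [derivative_map, hev]
    refine htriv _ ?_ (h.sep.aeval_derivative_ne_zero (minpoly.aeval _ _))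
    rw [aeval_eq_sum_range]
    refine sum_mem fun i _ => ?_
    rw [Algebra.smul_def]
    exact mul_mem (le_adj C₁ θ (SetLike.coe_mem _)) (pow_mem (mem_adj C₁ θ) i)

/-- Same residue field. -/
theorem res_mem (h : IsEStep B Y C₁ θ) : ∀ f ∈ Y.B.R, ∃ g ∈ B.R, VPos v (f - g) := by
  have hR : ∀ f ∈ B.R, v.Ge 0 f := B.nonneg
  have key : ∀ f ∈ Algebra.adjoin C ((B.R : Set Ω) ∪ {θ}), ∃ c ∈ B.R, VPos v (f - c) := by
    intro f hf
    induction hf using Algebra.adjoin_induction with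
    | mem x hx =>
      rcases hx with hx | rfl
      · exact ⟨x, hx, by rw [sub_self]; exact VPos.zero⟩
      · exact h.near
    | algebraMap c => exact ⟨_, B.R.algebraMap_mem c, by rw [sub_self]; exact VPos.zero⟩
    | add x y _ _ hx hy =>
      obtain ⟨a, ha, h1⟩ := hx
      obtain ⟨b, hb, h2⟩ := hy
      refine ⟨a + b, add_mem ha hb, ?_⟩
      have := h1.add h2
      convert this using 1
      ring
    | mul x y _ _ hx hy =>
      obtain ⟨a, ha, h1⟩ := hx
      obtain ⟨b, hb, h2⟩ := hy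
      refine ⟨a * b, mul_mem ha hb, ?_⟩
      have hy : v.Ge 0 y := by
        have := h2.ge.add (hR b hb)
        rwa [sub_add_cancel] at this
      have := (h1.mul hy).add (VPos.mul' (hR a ha) h2)
      convert this using 1
      ring
  intro f hf
  obtain ⟨a, ha, b, hb, hb0, hvb, rfl⟩ := (h.R_eq f).1 hf
  obtain ⟨c, hc, h1⟩ := key a ha
  obtain ⟨e, he, h2⟩ := key b hb
  have he0 : e ≠ 0 := by
    rintro rfl
    rw [sub_zero] at h2
    have := h2 hb0
    rw [hvb] at this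
    exact lt_irrefl _ this
  have hve : v e = 0 := by
    by_contra hne
    have h3 : VPos v e := fun _ => lt_of_le_of_ne (hR e he he0) (Ne.symm hne)
    have h4 := h2.add h3
    rw [sub_add_cancel] at h4
    have := h4 hb0
    rw [hvb] at this
    exact lt_irrefl _ this
  have hei : e⁻¹ ∈ B.R := B.loc e he he0 hve
  refine ⟨c * e⁻¹, mul_mem hc hei, ?_⟩
  have h3 : a / b - c * e⁻¹ = (a - c) * b⁻¹ - (b - e) * (c * e⁻¹ * b⁻¹) := by
    field_simp
    ring
  rw [h3]
  have hbi : v.Ge 0 b⁻¹ := fun _ => by rw [v.map_inv hb0, hvb, neg_zero]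
  refine (h1.mul hbi).sub (h2.mul ?_)
  have h4 := ((hR c hc).mul (hR e⁻¹ hei)).mul hbi
  simpa using h4

end IsEStep

end Pool.Agent.LU1
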