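import Pool.Agent.Lib.LU2_h80.CoefF
import Pool.Agent.Lib.LU2_h80.EX_1
import Pool.Agent.Lib.LU2_h80.EX_4
import Pool.Agent.Lib.LU2_h80.EX_5
import Pool.Agent.Lib.LU2_h80.EX_6
import Pool.Agent.Lib.LU2_h80.EX_7

/-! # LU2, EX: étale steps and coefficient fields -/
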