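import Pool.Agent.Lib.LU2_h80.GR_Q

/-! # LU2, GR: facts about G-steps and growth steps -/

set_option autoImplicit false

open Polynomial

namespace Pool.Agent.LU1

open Pool.Agent.H15JM (RVal)

universe u

section Base

variable {k Ω : Type u} [Field k] [Field Ω] [Algebra k Ω] {v : RVal Ω} {r d : ℕ}
variable {B B' : BF k v} {q : ℕ} {M : B.R[X]} {s : ℝ → ℤ → ℤ}

namespace IsGStep

/-- GR1. -/
theorem vpos_mem (h : IsGStep B B' q M s) {f : Ω} (hf : f ∈ B.R) (hv : VPos v f) :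
    ∃ γ ∈ B'.Γ, 0 < γ ∧ ∃ a ∈ B'.R, f = B'.χ γ * a := by
  obtain ⟨g, hg, hg0, a, ha, b, hb, rfl⟩ := B.gen f hf hv
  have h1 := h.χ_mul hg 0
  rw [zpow_zero, mul_one, Int.cast_zero, zero_mul, add_zero] at h1
  have h2 := h.χ_mul B.Γ.zero_mem 1
  rw [B.χ_zero, one_mul, zpow_one, Int.cast_one, one_mul, zero_add] at h2
  obtain ⟨c, hc, h3⟩ := B'.ideal_add (h.Γ_le hg) h.β_mem
    (B'.R.mul_mem (h.un_w.zpow (s g 0)).1 (h.R_le ha))
    (B'.R.mul_mem (h.un_w.zpow (s 0 1)).1 (h.R_le hb))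
  refine ⟨min g (v B.y), ?_, lt_min hg0 B.y_pos, c, hc, ?_⟩
  · rcases min_choice g (v B.y) with h4 | h4 <;> rw [h4]
    · exact h.Γ_le hg
    · exact h.β_mem
  · rw [← h3, ← mul_assoc, ← mul_assoc, ← h1, ← h2]

end IsGStep

/-- GR2. A G-step is always possible. -/
theorem BF.exists_gstep (h : Ctx2 k v r) (B : BF k v) : ∃ B' q M s, IsGStep (B' := B') B q M s := by
  classical
  have hex : ∃ m : ℕ, 0 < m ∧ (m : ℝ) * v B.y ∈ B.Γ := B.full B.y B.y_ne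
  obtain ⟨s, hs, -, -⟩ := exists_s B.Γ B.fg (v B.y) B.y_pos (Nat.find hex)
    (Nat.find_spec hex).1 (Nat.find_spec hex).2
    (fun m hm hmΓ => Nat.find_min' hex ⟨hm, hmΓ⟩) ∅ (by simp) 1 (Or.inl rfl)
  have hw : B.y ^ (Nat.find hex) = B.χ ((Nat.find hex : ℕ) * v B.y) * B.w (Nat.find hex) := by
    rw [BF.w, mul_div_cancel₀ _ (B.χ_ne _ hs.q_mem)]
  have hvw : v (B.w (Nat.find hex)) = 0 := BF.v_w_zero B.y_ne hs hw
  obtain ⟨M, hM⟩ := B.exists_isMin h (w := B.w (Nat.find hex)) (fun _ => hvw.ge)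
  obtain ⟨B', hB'⟩ := B.exists_gstep_of h hs hM
  exact ⟨B', _, M, s, hB'⟩

end Base

section Tower

variable {k Ω : Type u} [Field k] [Field Ω] [Algebra k Ω] {v : RVal Ω} {r d : ℕ}

theorem BF.mulSet {C : IntermediateField k Ω} (B : BF C v) : MulSet {f | B.Mono f} where
  one := BF.Mono.un BF.Un.one
  mul := fun _ hf _ hg => BF.Mono.mul hf hg
  inv := fun _ hf => BF.Mono.inv hf

theorem ExtK.refl {C : IntermediateField k Ω} (B : BF C v) : ExtK B B where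
  le := fun _ h => h
  Γ_le := fun _ h => h
  χ_un := fun γ h => by rw [div_self (B.χ_ne γ h)]; exact BF.Un.one

theorem ExtK.trans {C C' C'' : IntermediateField k Ω} {B : BF C v} {B' : BF C' v}
    {B'' : BF C'' v} (h : ExtK B B') (h' : ExtK B' B'') : ExtK B B'' where
  le := fun f hf => h'.le f (h.le f hf)
  Γ_le := fun γ hγ => h'.Γ_le γ (h.Γ_le γ hγ)
  χ_un := fun γ hγ => by
    have h0 := h.χ_un γ hγ
    have h1 : B''.Un (B.χ γ / B'.χ γ) := ⟨h'.le _ h0.1, h0.2.1, h0.2.2⟩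
    have h2 := h'.χ_un γ (h.Γ_le γ hγ)
    have h3 := h1.mul h2
    rwa [div_mul_div_cancel₀ (B'.χ_ne γ (h.Γ_le γ hγ))] at h3

theorem ExtK.mono {C C' : IntermediateField k Ω} {B : BF C v} {B' : BF C' v} (h : ExtK B B')
    {f : Ω} (hf : B.Mono f) : B'.Mono f := by
  rw [BF.mono_iff] at hf
  obtain ⟨γ, hγ, u, hu, rfl⟩ := hf
  refine BF.mono_iff.2 ⟨γ, h.Γ_le γ hγ, (B.χ γ / B'.χ γ) * u,
    (h.χ_un γ hγ).mul ⟨h.le _ hu.1, hu.2.1, hu.2.2⟩, ?_⟩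
  rw [← mul_assoc, mul_div_cancel₀ _ (B'.χ_ne γ (h.Γ_le γ hγ))]

/-- GR7. -/
theorem IsGrow.extK {X Y : CF k v r} {B : BF X.C v} {C₁ : IntermediateField k Ω} {θ : Ω}
    (h : IsGrow X Y B C₁ θ) : ExtK X.B B ∧ ExtK B Y.B := by
  obtain ⟨q, M, s, hG⟩ := h.gstep
  exact ⟨⟨fun f hf => hG.ext.le hf, hG.ext.Γ_le, hG.ext.χ_un⟩, h.estep.extK⟩

theorem IsGrow.E_eq {X Y : CF k v r} {B : BF X.C v} {C₁ : IntermediateField k Ω} {θ : Ω}
    (h : IsGrow X Y B C₁ θ) : Y.E = adj X.E θ := by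
  obtain ⟨q, M, s, hG⟩ := h.gstep
  rw [h.estep.E_eq X.ctx, hG.quoK_eq]
  rfl

theorem IsGrow.nearGen {X Y : CF k v r} {B : BF X.C v} {C₁ : IntermediateField k Ω} {θ : Ω}
    (h : IsGrow X Y B C₁ θ) : NearGen v X.E θ := by
  obtain ⟨q, M, s, hG⟩ := h.gstep
  have h1 := h.estep.nearGen X.ctx
  rw [hG.quoK_eq] at h1
  exact h1

/-- GR8. A growth step is always possible. -/
theorem CF.exists_grow [PerfectField k] [IsAlgClosed Ω] (h : CtxD k v r d) (X : CF k v r) :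
    ∃ Y, Grow X Y := by
  obtain ⟨B, q, M, s, hG⟩ := BF.exists_gstep X.ctx X.B
  obtain ⟨Y, C₁, θ, hE⟩ := B.exists_estep h X.fg X.ctx
  exact ⟨Y, B, C₁, θ, ⟨q, M, s, hG⟩, hE⟩

theorem grow_tow {X Y : CF k v r} (h : Relation.ReflTransGen Grow X Y) :
    ExtK X.B Y.B ∧ NearTow v X.E Y.E := by
  induction h with
  | refl => exact ⟨ExtK.refl _, Relation.ReflTransGen.refl⟩
  | tail _ hg ih =>
    obtain ⟨B, C₁, θ, hG⟩ := hg
    exact ⟨ih.1.trans (hG.extK.1.trans hG.extK.2), ih.2.tail ⟨θ, hG.nearGen, hG.E_eq⟩⟩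

/-- GR9. A frame over the small field `k` with the same ring. -/
theorem CF.exists_down (X : CF k v r) (B : BF X.C v) :
    ∃ B' : BF k v, B'.Γ = B.Γ ∧ B'.χ = B.χ ∧ B'.y = B.y ∧ ∀ f, f ∈ B'.R ↔ f ∈ B.R :=
  BF.exists_down X.C X.fg X.ctx.trivOn B

end Tower

end Pool.Agent.LU1
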