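import Pool.Agent.Lib.LU2_h80.ST_3

/-! # LU2, GR_Q: quotients with denominators in a multiplicative set -/

set_option autoImplicit false

open Polynomial

namespace Pool.Agent.LU1

open Pool.Agent.H15JM (RVal)

universe u

section Tower

variable {k Ω : Type u} [Field k] [Field Ω] [Algebra k Ω] {v : RVal Ω} {r d : ℕ}

/-- `M` is a set of non-zero elements closed under products and inverses. -/
structure MulSet (M : Set Ω) : Prop where
  one : (1 : Ω) ∈ M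
  mul : ∀ f ∈ M, ∀ g ∈ M, f * g ∈ M
  inv : ∀ f ∈ M, f⁻¹ ∈ M

theorem MulSet.pow {M : Set Ω} (hM : MulSet M) {f : Ω} (hf : f ∈ M) (n : ℕ) : f ^ n ∈ M := by
  induction n with
  | zero => rw [pow_zero]; exact hM.one
  | succ n ih => rw [pow_succ]; exact hM.mul _ ih _ hf

theorem QR.of_mem {A : Subalgebra k Ω} {M : Set Ω} (hM : MulSet M) {f : Ω} (hf : f ∈ A) :
    QR A M f := ⟨f, hf, 1, A.one_mem, one_ne_zero, hM.one, by rw [div_one]⟩

/-- GR3. The quotients form a ring. -/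
theorem QR.add {A : Subalgebra k Ω} {M : Set Ω} (hM : MulSet M) {f g : Ω} (hf : QR A M f)
    (hg : QR A M g) : QR A M (f + g) := by
  obtain ⟨a, ha, b, hb, hb0, hbM, rfl⟩ := hf
  obtain ⟨c, hc, e, he, he0, heM, rfl⟩ := hg
  exact ⟨a * e + b * c, A.add_mem (A.mul_mem ha he) (A.mul_mem hb hc), b * e, A.mul_mem hb he,
    mul_ne_zero hb0 he0, hM.mul _ hbM _ heM, by rw [div_add_div _ _ hb0 he0]⟩

theorem QR.mul {A : Subalgebra k Ω} {M : Set Ω} (hM : MulSet M) {f g : Ω} (hf : QR A M f)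
    (hg : QR A M g) : QR A M (f * g) := by
  obtain ⟨a, ha, b, hb, hb0, hbM, rfl⟩ := hf
  obtain ⟨c, hc, e, he, he0, heM, rfl⟩ := hg
  exact ⟨a * c, A.mul_mem ha hc, b * e, A.mul_mem hb he,
    mul_ne_zero hb0 he0, hM.mul _ hbM _ heM, by rw [div_mul_div_comm]⟩

theorem QR.inv {A : Subalgebra k Ω} {M : Set Ω} (hM : MulSet M) {f : Ω} (hf : QR A M f)
    (h0 : f ≠ 0) (hfM : f ∈ M) : QR A M f⁻¹ := by
  obtain ⟨a, ha, b, hb, hb0, hbM, rfl⟩ := hf
  have ha0 : a ≠ 0 := by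
    rintro rfl
    rw [zero_div] at h0
    exact h0 rfl
  refine ⟨b, hb, a, ha, ha0, ?_, by rw [inv_div]⟩
  have h1 := hM.mul _ hfM _ hbM
  rwa [div_mul_cancel₀ _ hb0] at h1

theorem QR.mono {A A' : Subalgebra k Ω} {M : Set Ω} (h : A ≤ A') {f : Ω} (hf : QR A M f) :
    QR A' M f := by
  obtain ⟨a, ha, b, hb, hb0, hbM, rfl⟩ := hf
  exact ⟨a, h ha, b, h hb, hb0, hbM, rfl⟩

theorem QR.pow {A : Subalgebra k Ω} {M : Set Ω} (hM : MulSet M) {f : Ω} (hf : QR A M f)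
    (n : ℕ) : QR A M (f ^ n) := by
  induction n with
  | zero => rw [pow_zero]; exact QR.of_mem hM A.one_mem
  | succ n ih => rw [pow_succ]; exact ih.mul hM hf

theorem QR.zpow {A : Subalgebra k Ω} {M : Set Ω} (hM : MulSet M) {f : Ω} (hf : QR A M f)
    (h0 : f ≠ 0) (hfM : f ∈ M) (n : ℤ) : QR A M (f ^ n) := by
  cases n with
  | ofNat n => simpa using hf.pow hM n
  | negSucc n =>
    rw [zpow_negSucc]
    exact (hf.pow hM _).inv hM (pow_ne_zero _ h0) (hM.pow hfM _)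

/-- GR4. If the elements of a set `S` that generates `R` are quotients, all elements of `R`
are. -/
theorem QR.locv {C : IntermediateField k Ω} {A : Subalgebra k Ω} {M : Set Ω} (hM : MulSet M)
    {S : Set Ω} (hS : ∀ f ∈ S, QR A M f) (hC : ∀ c ∈ C, QR A M c)
    (hun : ∀ f ∈ Algebra.adjoin C S, f ≠ 0 → v f = 0 → f ∈ M) :
    ∀ f ∈ locv v (Algebra.adjoin C S), QR A M f := by
  have key : ∀ f ∈ Algebra.adjoin C S, QR A M f := by
    intro f hf
    induction hf using Algebra.adjoin_induction with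
    | mem x hx => exact hS x hx
    | algebraMap c => exact hC _ c.2
    | add x y _ _ hx hy => exact hx.add hM hy
    | mul x y _ _ hx hy => exact hx.mul hM hy
  rintro f ⟨a, ha, b, hb, hb0, hvb, rfl⟩
  rw [div_eq_mul_inv]
  exact (key a ha).mul hM ((key b hb).inv hM hb0 (hun b hb hb0 hvb))

/-- GR5. Persistence for a G-step. -/
theorem IsGStep.qr {C : IntermediateField k Ω} {B B' : BF C v} {q : ℕ} {M : B.R[X]}
    {s : ℝ → ℤ → ℤ} (h : IsGStep B B' q M s) {A : Subalgebra k Ω} {N : Set Ω} (hN : MulSet N)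
    (hB : ∀ f, B'.Mono f → f ∈ N) (hR : ∀ f ∈ B.R, QR A N f) : ∀ f ∈ B'.R, QR A N f := by
  have hχN : ∀ γ ∈ B.Γ, B.χ γ ∈ N := fun γ hγ => hB _ (h.ext.mono (BF.Mono.χ hγ))
  have hχ : ∀ γ ∈ B.Γ, QR A N (B.χ γ) := by
    intro γ hγ
    rcases le_total 0 γ with h0 | h0
    · exact hR _ (B.χ_mem γ hγ h0)
    · have h1 := (hR _ (B.χ_mem (-γ) (B.Γ.neg_mem hγ) (neg_nonneg.2 h0))).inv hN
        (B.χ_ne _ (B.Γ.neg_mem hγ)) (hχN _ (B.Γ.neg_mem hγ))
      rwa [B.χ_neg hγ, inv_inv] at h1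
  have hy : QR A N B.y := hR _ B.y_mem
  have hyN : B.y ∈ N := hB _ h.mono_y
  have hw : QR A N (B.w q) := by
    rw [BF.w, div_eq_mul_inv]
    exact (hy.pow hN q).mul hN ((hχ _ h.q_mem).inv hN (B.χ_ne _ h.q_mem) (hχN _ h.q_mem))
  have hwN : B.w q ∈ N := hB _ (BF.Mono.un h.un_w)
  intro f hf
  rw [h.R_eq] at hf
  refine QR.locv hN ?_ (fun c hc => hR c (B.R.algebraMap_mem ⟨c, hc⟩)) ?_ f hf
  · rintro x ((hx | ⟨γ', ⟨hγ', -⟩, rfl⟩) | rfl)
    · exact hR x hx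
    · obtain ⟨γ, hγ, l, rfl⟩ := h.mem_Γ' hγ'
      rw [h.χ_eq γ hγ l]
      exact ((hχ γ hγ).mul hN (hy.zpow hN B.y_ne hyN l)).mul hN (hw.zpow hN h.w_ne hwN _)
    · exact hw
  · intro g hg h0 h1
    refine hB _ (BF.Mono.un ⟨?_, h0, h1⟩)
    rw [h.R_eq]
    exact le_locv _ hg

/-- GR6. Persistence for an étale step. -/
theorem IsEStep.qr {C : IntermediateField k Ω} {B : BF C v} {Y : CF k v r}
    {C₁ : IntermediateField k Ω} {θ : Ω} (h : IsEStep B Y C₁ θ) {A : Subalgebra k Ω}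
    {N : Set Ω} (hN : MulSet N) (hB : ∀ f, Y.B.Mono f → f ∈ N) (hR : ∀ f ∈ B.R, QR A N f) :
    ∀ f ∈ Y.B.R, QR (adjA A θ) N f := by
  have hle : A ≤ adjA A θ := le_sup_left
  have hθ : θ ∈ adjA A θ := by
    have h1 : Algebra.adjoin k {θ} ≤ adjA A θ := le_sup_right
    exact h1 (Algebra.subset_adjoin rfl)
  intro f hf
  rw [h.R_eq] at hf
  refine QR.locv hN ?_ (fun c hc => (hR c (B.R.algebraMap_mem ⟨c, hc⟩)).mono hle) ?_ f hf
  · rintro x (hx | rfl)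
    · exact (hR x hx).mono hle
    · exact QR.of_mem hN hθ
  · intro g hg h0 h1
    refine hB _ (BF.Mono.un ⟨?_, h0, h1⟩)
    rw [h.R_eq]
    exact le_locv _ hg

end Tower

end Pool.Agent.LU1
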