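import Pool.Agent.Lib.LU2_h80.Defs
import Pool.Agent.Lib.LU1_h15.GalTheta

/-! # LU2, IN3 and IN4: the finite group of restrictions -/

set_option autoImplicit false

open Polynomial

namespace Pool.Agent.LU1

open Pool.Agent.H15JM (RVal)

universe u

variable {k Ω : Type u} [Field k] [Field Ω] [Algebra k Ω] {v : RVal Ω} {r d : ℕ}

namespace IN3

/-- the elements where two automorphisms agree -/
def eqz {K : IntermediateField k Ω} (σ τ : Ω ≃ₐ[K] Ω) : IntermediateField k Ω where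
  carrier := {c | σ c = τ c}
  mul_mem' := fun {a b} (ha : σ a = τ a) (hb : σ b = τ b) => by
    show σ (a * b) = τ (a * b)
    rw [map_mul, map_mul, ha, hb]
  add_mem' := fun {a b} (ha : σ a = τ a) (hb : σ b = τ b) => by
    show σ (a + b) = τ (a + b)
    rw [map_add, map_add, ha, hb]
  algebraMap_mem' := fun c => by
    have h : algebraMap k Ω c = algebraMap K Ω (algebraMap k K c) :=
      IsScalarTower.algebraMap_apply k K Ω c
    show σ (algebraMap k Ω c) = τ (algebraMap k Ω c)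
    rw [h, AlgEquiv.commutes, AlgEquiv.commutes]
  inv_mem' := fun a (ha : σ a = τ a) => by
    show σ a⁻¹ = τ a⁻¹
    rw [map_inv₀, map_inv₀, ha]

lemma mem_eqz {K : IntermediateField k Ω} {σ τ : Ω ≃ₐ[K] Ω} {c : Ω} :
    c ∈ eqz σ τ ↔ σ c = τ c := Iff.rfl

lemma le_eqz {K : IntermediateField k Ω} (σ τ : Ω ≃ₐ[K] Ω) : K ≤ eqz σ τ := by
  intro c hc
  rw [mem_eqz]
  have h1 : algebraMap K Ω ⟨c, hc⟩ = c := rfl
  rw [← h1, AlgEquiv.commutes, AlgEquiv.commutes]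

lemma agree_sup {K C : IntermediateField k Ω} {σ τ : Ω ≃ₐ[K] Ω} (h : ∀ c ∈ C, σ c = τ c) :
    ∀ g ∈ K ⊔ C, σ g = τ g := by
  have h1 : K ⊔ C ≤ eqz σ τ := sup_le (le_eqz σ τ) fun c hc => h c hc
  exact fun g hg => h1 hg

lemma agree_adjoin {K : IntermediateField k Ω} {σ τ : Ω ≃ₐ[K] Ω} {T : Set Ω}
    (h : ∀ c ∈ T, σ c = τ c) : ∀ g ∈ IntermediateField.adjoin k T, σ g = τ g := by
  have h1 : IntermediateField.adjoin k T ≤ eqz σ τ :=
    IntermediateField.adjoin_le_iff.2 fun c hc => h c hc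
  exact fun g hg => h1 hg

/-- representatives of the restrictions to `C` -/
lemma exists_repr {C₀ K C : IntermediateField k Ω} (hKC : C₀ ≤ K)
    (hfg : C.FG) (halg : ∀ c ∈ C, IsAlgebraic C₀ c) (A : Set (Ω ≃ₐ[K] Ω)) :
    ∃ S : Finset (Ω ≃ₐ[K] Ω), (∀ σ ∈ S, σ ∈ A) ∧ (∀ σ ∈ A, ∃ τ ∈ S, ∀ c ∈ C, σ c = τ c) ∧
      ∀ σ ∈ S, ∀ τ ∈ S, (∀ c ∈ C, σ c = τ c) → σ = τ := by
  classical
  obtain ⟨T, hT⟩ := hfg
  obtain ⟨F, hF⟩ : ∃ F : (Ω ≃ₐ[K] Ω) → T → Ω, F = fun σ t => σ t := ⟨_, rfl⟩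
  have hfin : (F '' A).Finite := by
    have h1 : (Set.univ.pi fun t : T => (minpoly K (t : Ω)).rootSet Ω).Finite :=
      Set.Finite.pi fun t => Polynomial.rootSet_finite _ _
    refine h1.subset ?_
    rintro f ⟨σ, -, rfl⟩
    intro t _
    rw [hF]
    have htC : (t : Ω) ∈ C := by
      rw [← hT]
      exact IntermediateField.subset_adjoin k _ t.2
    have halgK : IsAlgebraic K (t : Ω) :=
      IsAlgebraic.tower_top_of_subalgebra_le (A := C₀.toSubalgebra) (B := K.toSubalgebra) hKC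
        (halg t htC)
    have hne : minpoly K (t : Ω) ≠ 0 := minpoly.ne_zero halgK.isIntegral
    show σ (t : Ω) ∈ (minpoly K (t : Ω)).rootSet Ω
    rw [Polynomial.mem_rootSet]
    refine ⟨hne, ?_⟩
    have h2 : aeval (σ (t : Ω)) (minpoly K (t : Ω)) = σ (aeval (t : Ω) (minpoly K (t : Ω))) :=
      Polynomial.aeval_algHom_apply (σ : Ω →ₐ[K] Ω) (t : Ω) _
    rw [h2, minpoly.aeval, map_zero]
  obtain ⟨s, hsA, hbij⟩ := Set.exists_subset_bijOn A F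
  have hsf : s.Finite := Set.Finite.of_finite_image (hbij.image_eq ▸ hfin) hbij.injOn
  have hag : ∀ σ τ : Ω ≃ₐ[K] Ω, F σ = F τ → ∀ c ∈ C, σ c = τ c := by
    intro σ τ h c hc
    rw [← hT] at hc
    refine agree_adjoin (fun t ht => ?_) c hc
    have h3 := congrFun h ⟨t, ht⟩
    rw [hF] at h3
    exact h3
  refine ⟨hsf.toFinset, fun σ hσ => hsA (hsf.mem_toFinset.1 hσ), fun σ hσ => ?_, ?_⟩
  · obtain ⟨τ, hτ, heq⟩ := hbij.surjOn ⟨σ, hσ, rfl⟩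
    exact ⟨τ, hsf.mem_toFinset.2 hτ, hag σ τ heq.symm⟩
  · intro σ hσ τ hτ h
    refine hbij.injOn (hsf.mem_toFinset.1 hσ) (hsf.mem_toFinset.1 hτ) ?_
    funext t
    rw [hF]
    refine h t ?_
    rw [← hT]
    exact IntermediateField.subset_adjoin k _ t.2

/-- functions on the group given by elements of `C ⊗ C` -/
def Ten (K C : IntermediateField k Ω) (f : (Ω ≃ₐ[K] Ω) → Ω) : Prop :=
  ∃ (ι : Type) (_ : Fintype ι) (a b : ι → Ω), (∀ i, a i ∈ C ∧ b i ∈ C) ∧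
    ∀ σ, f σ = ∑ i, b i * σ (a i)

lemma Ten.mul {K C : IntermediateField k Ω} {f g : (Ω ≃ₐ[K] Ω) → Ω} (hf : Ten K C f)
    (hg : Ten K C g) : Ten K C fun σ => f σ * g σ := by
  obtain ⟨ι, _, a, b, hab, hf⟩ := hf
  obtain ⟨ι', _, a', b', hab', hg⟩ := hg
  refine ⟨ι × ι', inferInstance, fun x => a x.1 * a' x.2, fun x => b x.1 * b' x.2,
    fun x => ⟨mul_mem (hab _).1 (hab' _).1, mul_mem (hab _).2 (hab' _).2⟩, fun σ => ?_⟩
  show f σ * g σ = ∑ x : ι × ι', b x.1 * b' x.2 * σ (a x.1 * a' x.2)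
  rw [hf, hg, Finset.sum_mul_sum, Fintype.sum_prod_type]
  refine Finset.sum_congr rfl fun i _ => Finset.sum_congr rfl fun j _ => ?_
  rw [map_mul]
  ring

lemma Ten.one {K C : IntermediateField k Ω} : Ten K C fun _ => 1 :=
  ⟨Unit, inferInstance, fun _ => 1, fun _ => 1, fun _ => ⟨one_mem _, one_mem _⟩,
    fun σ => by simp⟩

lemma Ten.prod {K C : IntermediateField k Ω} {α : Type u} (s : Finset α)
    {f : α → (Ω ≃ₐ[K] Ω) → Ω} (h : ∀ x ∈ s, Ten K C (f x)) :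
    Ten K C fun σ => ∏ x ∈ s, f x σ := by
  classical
  induction s using Finset.induction_on with
  | empty => simpa using Ten.one
  | insert x s hx ih =>
    have h1 := (h x (Finset.mem_insert_self x s)).mul
      (ih fun y hy => h y (Finset.mem_insert_of_mem hy))
    simpa only [Finset.prod_insert hx] using h1

/-- the basic factor -/
lemma Ten.lin {K C : IntermediateField k Ω} {x c w : Ω} (hx : x ∈ C) (hc : c ∈ C) (hw : w ∈ C) :
    Ten K C fun σ => (x - σ c) * w := by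
  refine ⟨Fin 2, inferInstance, ![1, c], ![x * w, -w], ?_, ?_⟩
  · intro i
    fin_cases i
    · exact ⟨one_mem _, mul_mem hx hw⟩
    · exact ⟨hc, neg_mem hw⟩
  · intro σ
    rw [Fin.sum_univ_two]
    simp
    ring

end IN3

open IN3

/-- IN3. Artin: elements `λ_i, μ_i` of `C` with `∑ μ_i σ(λ_i) = 0` for `σ` in the group, not
trivial on `C`, and `= 1` for `σ` trivial on `C`. -/
theorem exists_dual_aux {C₀ K C : IntermediateField k Ω} (hKC : C₀ ≤ K) (_ : C₀ ≤ C)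
    (hfg : C.FG) (hsep : ∀ c ∈ C, IsSeparable C₀ c) (hst : ∀ σ : Ω ≃ₐ[C₀] Ω, ∀ c ∈ C, σ c ∈ C) :
    ∃ (m : ℕ) (a b : Fin m → Ω), (∀ i, a i ∈ C ∧ b i ∈ C) ∧ ∑ i, b i * a i = 1 ∧
      ∀ σ : Ω ≃ₐ[K] Ω, (∃ c ∈ C, σ c ≠ c) → ∑ i, b i * σ (a i) = 0 := by
  classical
  -- automorphisms over `K` preserve `C`
  have hstK : ∀ σ : Ω ≃ₐ[K] Ω, ∀ c ∈ C, σ c ∈ C := by
    intro σ c hc
    let σ' : Ω ≃ₐ[C₀] Ω := AlgEquiv.ofRingEquiv (f := (σ : Ω ≃+* Ω)) fun x =>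
      σ.commutes ⟨x, hKC x.2⟩
    exact hst σ' c hc
  obtain ⟨S, -, hS, -⟩ := exists_repr hKC hfg (fun c hc => (hsep c hc).isIntegral.isAlgebraic)
    (Set.univ : Set (Ω ≃ₐ[K] Ω))
  -- choose moved elements
  have hch : ∀ τ : Ω ≃ₐ[K] Ω, ∃ c ∈ C, (∃ c ∈ C, τ c ≠ c) → τ c ≠ c := by
    intro τ
    by_cases h : ∃ c ∈ C, τ c ≠ c
    · obtain ⟨c, hc, hne⟩ := h
      exact ⟨c, hc, fun _ => hne⟩
    · exact ⟨0, zero_mem _, fun h' => absurd h' h⟩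
  choose c hc hne using hch
  obtain ⟨S', hS'⟩ : ∃ S', S' = S.filter (fun τ => ∃ c ∈ C, τ c ≠ c) := ⟨_, rfl⟩
  obtain ⟨ι, _, a, b, hab, hf⟩ : Ten K C fun σ =>
      ∏ τ ∈ S', (τ (c τ) - σ (c τ)) * (τ (c τ) - c τ)⁻¹ :=
    Ten.prod S' fun τ _ => Ten.lin (hstK τ _ (hc τ)) (hc τ)
      (inv_mem (sub_mem (hstK τ _ (hc τ)) (hc τ)))
  obtain ⟨e⟩ : Nonempty (ι ≃ Fin (Fintype.card ι)) := ⟨Fintype.equivFin ι⟩
  refine ⟨Fintype.card ι, fun i => a (e.symm i), fun i => b (e.symm i), fun i => hab _, ?_, ?_⟩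
  · have h1 := hf AlgEquiv.refl
    have h2 : ∑ i, b (e.symm i) * a (e.symm i) = ∑ i, b i * a i :=
      e.symm.sum_comp fun i => b i * a i
    rw [h2]
    have h3 : ∑ i, b i * a i = ∑ i, b i * (AlgEquiv.refl : Ω ≃ₐ[K] Ω) (a i) := rfl
    rw [h3, ← h1]
    refine Finset.prod_eq_one fun τ hτ => ?_
    rw [hS', Finset.mem_filter] at hτ
    have h4 := hne τ hτ.2
    exact mul_inv_cancel₀ (sub_ne_zero.2 h4)
  · intro σ hσ
    have h2 : ∑ i, b (e.symm i) * σ (a (e.symm i)) = ∑ i, b i * σ (a i) :=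
      e.symm.sum_comp fun i => b i * σ (a i)
    rw [h2, ← hf σ]
    obtain ⟨τ, hτ, hag⟩ := hS σ (Set.mem_univ _)
    refine Finset.prod_eq_zero (i := τ) ?_ ?_
    · rw [hS', Finset.mem_filter]
      obtain ⟨x, hx, hxne⟩ := hσ
      exact ⟨hτ, x, hx, by rw [← hag x hx]; exact hxne⟩
    · rw [hag _ (hc τ), sub_self, zero_mul]

/-- IN4. The finite group: representatives `τ` of the restrictions to `K ⊔ C`. -/
theorem exists_reps_aux {C₀ K C : IntermediateField k Ω} (hKC : C₀ ≤ K)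
    (hfg : C.FG) (halg : ∀ c ∈ C, IsAlgebraic C₀ c) (A : Set (Ω ≃ₐ[K] Ω)) :
    ∃ S : Finset (Ω ≃ₐ[K] Ω), (∀ σ ∈ S, σ ∈ A) ∧
      (∀ σ ∈ A, ∃ τ ∈ S, ∀ g ∈ K ⊔ C, σ g = τ g) ∧
      ∀ σ ∈ S, ∀ τ ∈ S, (∀ c ∈ C, σ c = τ c) → σ = τ := by
  obtain ⟨S, h1, h2, h3⟩ := exists_repr hKC hfg halg A
  refine ⟨S, h1, fun σ hσ => ?_, h3⟩
  obtain ⟨τ, hτ, h⟩ := h2 σ hσ
  exact ⟨τ, hτ, agree_sup h⟩

end Pool.Agent.LU1
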