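import Pool.Agent.Lib.LU2_h80.CoefF
import Pool.Agent.Lib.LU1_h15.GalTheta

/-! # LU2, IN6: fixed constants are near the base field -/

set_option autoImplicit false

open Polynomial

namespace Pool.Agent.LU1

open Pool.Agent.H15JM (RVal)

universe u

variable {k Ω : Type u} [Field k] [Field Ω] [Algebra k Ω] {v : RVal Ω} {r d : ℕ}

namespace IN6Aux

open GalThetaAux

/-- `exists_theta` without the standing assumptions. -/
theorem exists_theta (F : IntermediateField k Ω) (N : IntermediateField F Ω)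
    [FiniteDimensional F N] [IsGalois F N] :
    ∃ θ : N, (∀ σ ∈ decG v F N, σ θ = θ) ∧ VPos v ((θ : Ω) - 1) ∧
      ∀ σ : N ≃ₐ[F] N, σ ∉ decG v F N → VPos v ((σ θ : N) : Ω) := by
  classical
  by_cases htr : ∀ n : N, n ≠ 0 → v (n : Ω) = 0
  · refine ⟨1, fun σ _ => _root_.map_one σ, ?_, ?_⟩
    · rw [OneMemClass.coe_one, sub_self]; exact VPos.zero
    · intro σ hσ
      exfalso
      apply hσ
      intro n
      by_cases hn : n = 0
      · rw [hn, _root_.map_zero]
      · rw [htr n hn, htr (σ n) (by simpa using hn)]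
  push Not at htr
  obtain ⟨n0, hn0, hv0⟩ := htr
  obtain ⟨a, ha0, hva, hσa⟩ := exists_sep F N n0 hn0 hv0
  have ha0' : (a : Ω) ≠ 0 := by simpa using ha0
  -- `α = a / (1 + a)`
  have h1a : (a : Ω) + 1 ≠ 0 ∧ v ((a : Ω) + 1) = v (a : Ω) :=
    v.add_of_lt ha0' one_ne_zero (by rw [v.map_one]; exact hva)
  let α : N := a / (a + 1)
  have hα : (α : Ω) = (a : Ω) / ((a : Ω) + 1) := rfl
  have hα1 : VPos v ((α : Ω) - 1) := by
    have h2 : (α : Ω) - 1 = -((a : Ω) + 1)⁻¹ := by
      rw [hα]; field_simp [h1a.1]; ring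
    rw [h2]
    apply VPos.neg
    intro _
    rw [v.map_inv h1a.1, h1a.2]
    linarith
  have hσα : ∀ σ : N ≃ₐ[F] N, σ ∉ decG v F N → VPos v (σ α : Ω) := by
    intro σ hσ
    have h3 : (σ α : Ω) = (σ a : Ω) * ((σ a : Ω) + 1)⁻¹ := by
      show ((σ (a / (a + 1)) : N) : Ω) = _
      rw [map_div₀, _root_.map_add, _root_.map_one, div_eq_mul_inv]
      rfl
    have h4 : VPos v (σ a : Ω) := fun _ => hσa σ hσ
    have h5 := val_add_vpos (one_ne_zero (α := Ω)) v.map_one h4
    rw [add_comm] at h5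
    rw [h3]
    apply h4.mul
    intro _
    rw [v.map_inv h5.1, h5.2, neg_zero]
  have hDα : ∀ σ : N ≃ₐ[F] N, σ ∈ decG v F N → VPos v ((σ α : Ω) - 1) := by
    intro σ hσ h6
    have h7 : ((σ α : Ω) - 1) = (σ (α - 1) : Ω) := by
      rw [_root_.map_sub, _root_.map_one]; rfl
    rw [h7] at h6 ⊢
    rw [hσ (α - 1)]
    have h8 : ((α - 1 : N) : Ω) = (α : Ω) - 1 := rfl
    rw [h8]
    apply hα1
    rw [← h8]
    intro h9
    have h10 : (α - 1 : N) = 0 := Subtype.ext h9
    rw [h10, _root_.map_zero] at h6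
    exact h6 rfl
  have hfin : Finite (N ≃ₐ[F] N) := inferInstance
  have hft : Fintype (decG v F N) := Fintype.ofFinite _
  have hprod : ∀ s : Finset (decG v F N),
      VPos v (((∏ τ ∈ s, (τ : N ≃ₐ[F] N) α : N) : Ω) - 1) := by
    intro s
    induction s using Finset.induction_on with
    | empty =>
      rw [Finset.prod_empty, OneMemClass.coe_one, sub_self]; exact VPos.zero
    | insert τ s hτ ih =>
      rw [Finset.prod_insert hτ]
      have h11 : (((τ : N ≃ₐ[F] N) α * ∏ τ ∈ s, (τ : N ≃ₐ[F] N) α : N) : Ω) - 1 =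
          ((((τ : N ≃ₐ[F] N) α : N) : Ω) - 1) *
            ((∏ τ ∈ s, (τ : N ≃ₐ[F] N) α : N) : Ω) +
          (((∏ τ ∈ s, (τ : N ≃ₐ[F] N) α : N) : Ω) - 1) := by
        rw [MulMemClass.coe_mul]; ring
      rw [h11]
      refine ((hDα τ τ.2).mul ?_).add ih
      have h12 : ((∏ τ ∈ s, (τ : N ≃ₐ[F] N) α : N) : Ω) =
          (((∏ τ ∈ s, (τ : N ≃ₐ[F] N) α : N) : Ω) - 1) + 1 := by ring
      rw [h12]
      exact ih.ge.add fun _ => by rw [v.map_one]
  refine ⟨∏ τ : decG v F N, (τ : N ≃ₐ[F] N) α, ?_, hprod _, ?_⟩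
  · intro σ hσD
    rw [_root_.map_prod]
    refine Fintype.prod_equiv (Equiv.mulLeft (⟨σ, hσD⟩ : decG v F N)) _ _ ?_
    intro τ
    rfl
  · intro σ hσ
    rw [_root_.map_prod]
    have h13 : ∀ τ : decG v F N, σ * (τ : N ≃ₐ[F] N) ∉ decG v F N := by
      intro τ h14
      apply hσ
      have h15 := (decG v F N).mul_mem h14 ((decG v F N).inv_mem τ.2)
      rwa [mul_inv_cancel_right] at h15
    have h16 : ∀ s : Finset (decG v F N), s.Nonempty →
        VPos v ((∏ τ ∈ s, σ ((τ : N ≃ₐ[F] N) α) : N) : Ω) := by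
      intro s hs
      induction hs using Finset.Nonempty.cons_induction with
      | singleton τ =>
        rw [Finset.prod_singleton]
        exact hσα _ (h13 τ)
      | cons τ s hτ hs ih =>
        rw [Finset.prod_cons, MulMemClass.coe_mul]
        exact (hσα _ (h13 τ)).mul ih.ge
    exact h16 _ Finset.univ_nonempty

/-- The field generated by `C` over `K`. -/
theorem galois_adjoin [IsAlgClosed Ω] {C₀ K C : IntermediateField k Ω} (hKC : C₀ ≤ K)
    (hfg : C.FG) (hsep : ∀ c ∈ C, IsSeparable C₀ c)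
    (hst : ∀ σ : Ω ≃ₐ[K] Ω, ∀ c ∈ C, σ c ∈ C) (halg : ∀ g : Ω, IsAlgebraic K g) :
    ∃ N : IntermediateField K Ω, FiniteDimensional K N ∧ IsGalois K N ∧ (∀ c ∈ C, c ∈ N) ∧
      Normal K Ω := by
  have hclos : IsAlgClosure K Ω := ⟨inferInstance, ⟨halg⟩⟩
  have hnorm : Normal K Ω := IsAlgClosure.normal K Ω
  letI : Algebra C₀ K := (IntermediateField.inclusion hKC).toAlgebra
  have htow : IsScalarTower C₀ K Ω := IsScalarTower.of_algebraMap_eq fun _ => rfl
  have hsepK : ∀ c ∈ C, IsSeparable K c := fun c hc => IsSeparable.tower_top K (hsep c hc)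
  obtain ⟨T, hT⟩ := hfg
  have hTC : ∀ t ∈ T, t ∈ C := by
    intro t ht
    rw [← hT]
    exact IntermediateField.subset_adjoin k _ ht
  refine ⟨IntermediateField.adjoin K (T : Set Ω), ?_, ?_, ?_, hnorm⟩
  · exact IntermediateField.finiteDimensional_adjoin fun t ht => (hsepK t (hTC t ht)).isIntegral
  · have h1 : Algebra.IsSeparable K (IntermediateField.adjoin K (T : Set Ω)) :=
      (IntermediateField.isSeparable_adjoin_iff_isSeparable (F := K) (E := Ω)).2
        fun t ht => hsepK t (hTC t ht)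
    have h3 : ∀ c ∈ C, c ∈ IntermediateField.adjoin K (T : Set Ω) := by
      intro c hc
      rw [← hT] at hc
      have h4 : IntermediateField.adjoin k (T : Set Ω) ≤
          (IntermediateField.adjoin K (T : Set Ω)).restrictScalars k := by
        rw [IntermediateField.adjoin_le_iff]
        exact IntermediateField.subset_adjoin K _
      exact h4 hc
    have h2 : Normal K (IntermediateField.adjoin K (T : Set Ω)) := by
      rw [IntermediateField.normal_iff_forall_map_le']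
      intro σ
      rw [IntermediateField.adjoin_map, IntermediateField.adjoin_le_iff]
      rintro _ ⟨t, ht, rfl⟩
      exact h3 _ (hst σ t (hTC t ht))
    exact ⟨⟩
  · intro c hc
    rw [← hT] at hc
    have h4 : IntermediateField.adjoin k (T : Set Ω) ≤
        (IntermediateField.adjoin K (T : Set Ω)).restrictScalars k := by
      rw [IntermediateField.adjoin_le_iff]
      exact IntermediateField.subset_adjoin K _
    exact h4 hc

end IN6Aux

open IN6Aux in
/-- IN6. The fixed elements are near `K`. -/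
theorem near_of_fixed_aux [IsAlgClosed Ω] {C₀ K C : IntermediateField k Ω} (hC₀ : TrivOn v C₀)
    (hKC : C₀ ≤ K) (hfg : C.FG) (hsep : ∀ c ∈ C, IsSeparable C₀ c)
    (hst : ∀ σ : Ω ≃ₐ[C₀] Ω, ∀ c ∈ C, σ c ∈ C) (halg : ∀ g : Ω, IsAlgebraic K g) {c : Ω}
    (hc : c ∈ C)
    (hfix : ∀ σ : Ω ≃ₐ[K] Ω, (∀ g ∈ K ⊔ C, g ≠ 0 → v (σ g) = v g) → σ c = c) :
    ∃ b ∈ K, VPos v (c - b) := by
  classical
  have htriv : TrivOn v C := hC₀.alg fun c hc => (hsep c hc).isIntegral.isAlgebraic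
  letI : Algebra C₀ K := (IntermediateField.inclusion hKC).toAlgebra
  have htow : IsScalarTower C₀ K Ω := IsScalarTower.of_algebraMap_eq fun _ => rfl
  have hst' : ∀ σ : Ω ≃ₐ[K] Ω, ∀ c ∈ C, σ c ∈ C := fun σ c hc =>
    hst (σ.restrictScalars C₀) c hc
  obtain ⟨N, hfd, hgal, hCN, hnorm⟩ := galois_adjoin hKC hfg hsep hst' halg
  obtain ⟨θ, hθD, hθ1, hθ⟩ := IN6Aux.exists_theta (v := v) K N
  have hle : K ⊔ C ≤ N.restrictScalars k := by
    refine sup_le ?_ ?_
    · intro x hx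
      exact N.algebraMap_mem ⟨x, hx⟩
    · intro x hx
      exact hCN x hx
  -- extension of automorphisms
  have hext : ∀ σ : N ≃ₐ[K] N, ∀ n : N, (σ.liftNormal Ω (n : Ω)) = ((σ n : N) : Ω) :=
    fun σ n => AlgEquiv.liftNormal_commutes σ Ω n
  let n : N := ⟨c, hCN c hc⟩
  let e : N := n * θ
  have hnD : ∀ σ ∈ decG v K N, σ n = n := by
    intro σ hσ
    apply Subtype.ext
    rw [← hext σ n]
    refine hfix _ fun g hg _ => ?_
    have h1 := hext σ ⟨g, hle hg⟩
    change σ.liftNormal Ω g = _ at h1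
    rw [h1]
    exact hσ ⟨g, hle hg⟩
  have heD : ∀ σ ∈ decG v K N, σ e = e := by
    intro σ hσ
    rw [_root_.map_mul, hnD σ hσ, hθD σ hσ]
  have hge : ∀ σ : N ≃ₐ[K] N, v.Ge 0 ((σ n : N) : Ω) := by
    intro σ h0
    rw [← hext σ n] at h0 ⊢
    exact (htriv _ (hst' _ c hc) h0).ge
  have hpos : ∀ σ : N ≃ₐ[K] N, σ e ≠ e → VPos v ((σ e : N) : Ω) := by
    intro σ hσ
    have h1 : σ ∉ decG v K N := fun h => hσ (heD σ h)
    rw [_root_.map_mul, MulMemClass.coe_mul, mul_comm]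
    exact (hθ σ h1).mul (hge σ)
  have hfin : Fintype (N ≃ₐ[K] N) := Fintype.ofFinite _
  let O : Finset N := Finset.univ.image fun σ : N ≃ₐ[K] N => σ e
  have heO : e ∈ O := Finset.mem_image.2 ⟨1, Finset.mem_univ _, rfl⟩
  have hsum : ∀ τ : N ≃ₐ[K] N, τ (∑ x ∈ O, x) = ∑ x ∈ O, x := by
    intro τ
    rw [_root_.map_sum]
    refine Finset.sum_bij (fun x _ => τ x) ?_ ?_ ?_ ?_
    · intro x hx
      obtain ⟨σ, -, rfl⟩ := Finset.mem_image.1 hx
      exact Finset.mem_image.2 ⟨τ * σ, Finset.mem_univ _, rfl⟩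
    · intro x _ y _ h
      exact τ.injective h
    · intro x hx
      obtain ⟨σ, -, rfl⟩ := Finset.mem_image.1 hx
      refine ⟨τ⁻¹ (σ e), Finset.mem_image.2 ⟨τ⁻¹ * σ, Finset.mem_univ _, rfl⟩, ?_⟩
      rw [← AlgEquiv.mul_apply, mul_inv_cancel, AlgEquiv.one_apply]
    · intro x _
      rfl
  obtain ⟨b, hb⟩ := (IsGalois.mem_range_algebraMap_iff_fixed (F := K) (∑ x ∈ O, x)).2 hsum
  refine ⟨b, b.2, ?_⟩
  have hb' : (b : Ω) = ((∑ x ∈ O, x : N) : Ω) := by
    rw [← hb]
    rfl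
  have h2 : ∀ s : Finset N, s ⊆ O.erase e → VPos v ((∑ x ∈ s, x : N) : Ω) := by
    intro s
    induction s using Finset.induction_on with
    | empty =>
      intro _
      rw [Finset.sum_empty, ZeroMemClass.coe_zero]
      exact VPos.zero
    | insert x s hx ih =>
      intro hs
      rw [Finset.sum_insert hx, AddMemClass.coe_add]
      refine VPos.add ?_ (ih ((Finset.subset_insert _ _).trans hs))
      have h3 := hs (Finset.mem_insert_self x s)
      rw [Finset.mem_erase] at h3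
      obtain ⟨σ, -, hσ⟩ := Finset.mem_image.1 h3.2
      rw [← hσ]
      exact hpos σ (by rw [hσ]; exact h3.1)
  have h3 : c - (b : Ω) = -(c * ((θ : Ω) - 1) + ((∑ x ∈ O.erase e, x : N) : Ω)) := by
    rw [hb', ← Finset.add_sum_erase O (fun x => x) heO, AddMemClass.coe_add]
    have h4 : (e : Ω) = c * (θ : Ω) := rfl
    rw [h4]
    ring
  rw [h3]
  refine VPos.neg (VPos.add ?_ (h2 _ subset_rfl))
  rw [mul_comm]
  refine hθ1.mul ?_
  intro h0
  exact (htriv c hc h0).ge

end Pool.Agent.LU1
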