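import Pool.Agent.Lib.LU2_h80.InvD
import Pool.Agent.Lib.LU2_h80.IN3
import Pool.Agent.Lib.LU2_h80.IN6

/-! # LU2, IN: the group and its dual elements -/

set_option autoImplicit false

open Polynomial

namespace Pool.Agent.LU1

open Pool.Agent.H15JM (RVal)

universe u

variable {k Ω : Type u} [Field k] [Field Ω] [Algebra k Ω] {v : RVal Ω} {r d : ℕ}

/-- IN3. Artin: elements `λ_i, μ_i` of `C` with `∑ μ_i σ(λ_i) = 0` for `σ` in the group, not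
trivial on `C`, and `= 1` for `σ` trivial on `C`. -/
theorem exists_dual {C₀ K C : IntermediateField k Ω} (hKC : C₀ ≤ K) (hC : C₀ ≤ C)
    (hfg : C.FG) (hsep : ∀ c ∈ C, IsSeparable C₀ c) (hst : ∀ σ : Ω ≃ₐ[C₀] Ω, ∀ c ∈ C, σ c ∈ C) :
    ∃ (m : ℕ) (a b : Fin m → Ω), (∀ i, a i ∈ C ∧ b i ∈ C) ∧ ∑ i, b i * a i = 1 ∧
      ∀ σ ∈ decA v K (K ⊔ C), (∃ c ∈ C, σ c ≠ c) → ∑ i, b i * σ (a i) = 0 := by
  obtain ⟨m, a, b, h1, h2, h3⟩ := exists_dual_aux (K := K) hKC hC hfg hsep hst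
  exact ⟨m, a, b, h1, h2, fun s _ h => h3 s h⟩

/-- IN4. The finite group: representatives `τ` of the restrictions to `K ⊔ C`. -/
theorem exists_reps {C₀ K C : IntermediateField k Ω} (hKC : C₀ ≤ K) (_hC : C₀ ≤ C)
    (hfg : C.FG) (halg : ∀ c ∈ C, IsAlgebraic C₀ c)
    (_hst : ∀ σ : Ω ≃ₐ[C₀] Ω, ∀ c ∈ C, σ c ∈ C) :
    ∃ S : Finset (Ω ≃ₐ[K] Ω), (∀ σ ∈ S, σ ∈ decA v K (K ⊔ C)) ∧
      (∀ σ ∈ decA v K (K ⊔ C), ∃ τ ∈ S, ∀ g ∈ K ⊔ C, σ g = τ g) ∧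
      ∀ σ ∈ S, ∀ τ ∈ S, (∀ c ∈ C, σ c = τ c) → σ = τ :=
  exists_reps_aux (C₀ := C₀) hKC hfg halg (decA v K (K ⊔ C))

/-- IN6. The fixed elements are near `K`.  [`exists_theta` for `K ≤ K ⊔ C`.] -/
theorem near_of_fixed [IsAlgClosed Ω] {C₀ K C : IntermediateField k Ω} (hC₀ : TrivOn v C₀) (hKC : C₀ ≤ K)
    (_hC : C₀ ≤ C) (hfg : C.FG) (hsep : ∀ c ∈ C, IsSeparable C₀ c)
    (hst : ∀ σ : Ω ≃ₐ[C₀] Ω, ∀ c ∈ C, σ c ∈ C) (halg : ∀ g : Ω, IsAlgebraic K g) :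
    ∀ c ∈ fixC v K C, ∃ b ∈ K, VPos v (c - b) := by
  intro c hc
  exact near_of_fixed_aux hC₀ hKC hfg hsep hst halg hc.1 hc.2

end Pool.Agent.LU1
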