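import Pool.Agent.Lib.LU2_h80.CE_4
import Pool.Agent.Lib.LU2_h80.IN_346
import Pool.Agent.Lib.LU1_h15.Final

/-! # LU2, IN5: descent of a stable C-frame -/

set_option autoImplicit false

open Polynomial

namespace Pool.Agent.LU1

open Pool.Agent.H15JM (RVal)

universe u

variable {k Ω : Type u} [Field k] [Field Ω] [Algebra k Ω] {v : RVal Ω} {r d : ℕ}

namespace IN5Aux

/-! ### multiplicative choices -/

theorem exists_char {Γ : AddSubgroup ℝ} (hfg : Γ.FG) (P : ℝ → Ω → Prop)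
    (hP : ∀ γ ∈ Γ, ∃ f, f ≠ 0 ∧ P γ f) (h0 : P 0 1)
    (hmul : ∀ γ ∈ Γ, ∀ δ ∈ Γ, ∀ f g, f ≠ 0 → g ≠ 0 → P γ f → P δ g → P (γ + δ) (f * g))
    (hinv : ∀ γ ∈ Γ, ∀ f, f ≠ 0 → P γ f → P (-γ) f⁻¹) :
    ∃ χ : ℝ → Ω, (∀ γ ∈ Γ, χ γ ≠ 0) ∧ (∀ γ ∈ Γ, P γ (χ γ)) ∧
      ∀ γ ∈ Γ, ∀ δ ∈ Γ, χ (γ + δ) = χ γ * χ δ := by
  classical
  have hfin : Module.Finite ℤ Γ := by
    have h1 : AddGroup.FG Γ := (AddGroup.fg_iff_addSubgroup_fg Γ).2 hfg
    exact Module.Finite.iff_addGroup_fg.2 h1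
  have hfree : Module.Free ℤ Γ := Module.free_of_finite_type_torsion_free'
  let b := Module.Free.chooseBasis ℤ Γ
  choose f hf0 hf using fun γ : Γ => hP γ.1 γ.2
  let φ : Γ →ₗ[ℤ] Additive Ωˣ := b.constr ℤ fun i => Additive.ofMul (Units.mk0 (f (b i)) (hf0 _))
  have hφ : ∀ x : Γ, P x.1 ((Additive.toMul (φ x) : Ωˣ) : Ω) := by
    intro x
    have hx : x ∈ Submodule.span ℤ (Set.range b) := by rw [b.span_eq]; trivial
    have hneg : ∀ x : Γ, P x.1 ((Additive.toMul (φ x) : Ωˣ) : Ω) →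
        P (-x : Γ).1 ((Additive.toMul (φ (-x)) : Ωˣ) : Ω) := by
      intro x hx
      have h1 := hinv x.1 x.2 _ (Units.ne_zero _) hx
      rw [map_neg, toMul_neg, Units.val_inv_eq_inv_val]
      exact h1
    have hadd : ∀ x y : Γ, P x.1 ((Additive.toMul (φ x) : Ωˣ) : Ω) →
        P y.1 ((Additive.toMul (φ y) : Ωˣ) : Ω) →
        P (x + y : Γ).1 ((Additive.toMul (φ (x + y)) : Ωˣ) : Ω) := by
      intro x y hx hy
      have h1 := hmul x.1 x.2 y.1 y.2 _ _ (Units.ne_zero _) (Units.ne_zero _) hx hy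
      rw [map_add, toMul_add, Units.val_mul]
      exact h1
    have hz : P (0 : Γ).1 ((Additive.toMul (φ 0) : Ωˣ) : Ω) := by
      rw [map_zero, toMul_zero, Units.val_one]; exact h0
    induction hx using Submodule.span_induction with
    | mem x hx =>
      obtain ⟨i, rfl⟩ := hx
      have h1 : φ (b i) = Additive.ofMul (Units.mk0 (f (b i)) (hf0 _)) := b.constr_basis ℤ _ i
      rw [h1, toMul_ofMul, Units.val_mk0]
      exact hf (b i)
    | zero => exact hz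
    | add x y _ _ hx hy => exact hadd x y hx hy
    | smul n x _ hx =>
      have hn : ∀ n : ℕ, P ((n : ℤ) • x : Γ).1 ((Additive.toMul (φ ((n : ℤ) • x)) : Ωˣ) : Ω) := by
        intro n
        induction n with
        | zero => simpa using hz
        | succ n ih =>
          have h1 : ((n + 1 : ℕ) : ℤ) • x = (n : ℤ) • x + x := by
            push_cast; rw [add_smul, one_smul]
          rw [h1]
          exact hadd _ _ ih hx
      cases n with
      | ofNat n => exact hn n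
      | negSucc n =>
        have h1 : (Int.negSucc n) • x = -(((n + 1 : ℕ) : ℤ) • x) := by
          rw [Int.negSucc_eq, neg_smul]; push_cast; rfl
        rw [h1]
        exact hneg _ (hn _)
  refine ⟨fun γ => if h : γ ∈ Γ then ((Additive.toMul (φ ⟨γ, h⟩) : Ωˣ) : Ω) else 1, ?_, ?_, ?_⟩
  · intro γ hγ
    beta_reduce
    rw [dif_pos hγ]; exact Units.ne_zero _
  · intro γ hγ
    beta_reduce
    rw [dif_pos hγ]; exact hφ ⟨γ, hγ⟩
  · intro γ hγ δ hδ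
    beta_reduce
    rw [dif_pos hγ, dif_pos hδ, dif_pos (Γ.add_mem hγ hδ), ← Units.val_mul, ← toMul_add,
      ← map_add]
    rfl

/-- The data of a trace. -/
structure TD (v : RVal Ω) (K C L D : IntermediateField k Ω) (R : Subalgebra C Ω)
    (T : Ω → Ω) {m : ℕ} (a b : Fin m → Ω) (e : Ω) : Prop where
  sum : ∃ S : Finset (Ω ≃ₐ[K] Ω), (∀ σ ∈ S, σ ∈ decA v K (K ⊔ C)) ∧ ∀ f, T f = ∑ σ ∈ S, σ f
  add : ∀ f g, T (f + g) = T f + T g
  mul : ∀ f g, (∀ σ ∈ decA v K (K ⊔ C), σ f = f) → T (f * g) = f * T g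
  fix : ∀ f ∈ K ⊔ C, ∀ σ ∈ decA v K (K ⊔ C), σ (T f) = T f
  memR : ∀ f ∈ R, T f ∈ R
  memL : ∀ f ∈ L ⊔ C, T f ∈ L ⊔ D
  memD : ∀ c ∈ C, T c ∈ D
  a_mem : ∀ i, a i ∈ C
  b_mem : ∀ i, b i ∈ C
  dual : ∀ f ∈ K ⊔ C, ∑ i, b i * T (a i * f) = f
  e_mem : e ∈ C
  e_one : T e = 1

theorem VPos.sum {ι : Type*} (s : Finset ι) {f : ι → Ω} (hf : ∀ i ∈ s, VPos v (f i)) :
    VPos v (∑ i ∈ s, f i) := by
  classical
  induction s using Finset.induction_on with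
  | empty => rw [Finset.sum_empty]; exact VPos.zero
  | insert i s hi ih =>
    rw [Finset.sum_insert hi]
    exact (hf i (Finset.mem_insert_self _ _)).add
      (ih fun j hj => hf j (Finset.mem_insert_of_mem hj))

section frame

variable {K C L D : IntermediateField k Ω}

theorem un_or_vpos (B : BF C v) {f : Ω} (hf : f ∈ B.R) : B.Un f ∨ VPos v f := by
  by_cases h0 : f = 0
  · right; rw [h0]; exact VPos.zero
  rcases (B.nonneg f hf h0).lt_or_eq with h1 | h1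
  · right; exact fun _ => h1
  · left; exact ⟨hf, h0, h1.symm⟩

theorem exists_un_of_sum (B : BF C v) {m : ℕ} {b e : Fin m → Ω} (hb : ∀ i, b i ∈ B.R)
    (he : ∀ i, e i ∈ B.R) (h : ¬ VPos v (∑ i, b i * e i)) : ∃ i, B.Un (e i) := by
  by_contra hcon
  push Not at hcon
  refine h (VPos.sum _ fun i _ => VPos.mul' (B.nonneg _ (hb i)) ?_)
  exact (un_or_vpos B (he i)).resolve_left (hcon i)

theorem const_mem (B : BF C v) {c : Ω} (hc : c ∈ C) : c ∈ B.R :=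
  B.R.algebraMap_mem (⟨c, hc⟩ : C)

/-- The image of a monomial under `σ` is the monomial times a unit. -/
theorem chi_unit (h : Ctx2 C v r) (B : BF C v) (σ : Ω →+* Ω) (hσ : ∀ f ∈ B.R, σ f ∈ B.R)
    (hval : ∀ f ∈ B.R, f ≠ 0 → v (σ f) = v f)
    (hX : ∃ X : Fin r → Ω, (∀ i, σ (X i) = X i ∧ B.Mono (X i)) ∧
      LinearIndependent ℚ fun i => v (X i)) :
    ∀ γ ∈ B.Γ, B.Un (σ (B.χ γ) / B.χ γ) := by
  obtain ⟨X, hX, hind⟩ := hX
  have key : ∀ γ ∈ B.Γ, 0 ≤ γ → B.Un (σ (B.χ γ) / B.χ γ) := by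
    intro γ hγ h0
    have hχ0 := B.χ_ne γ hγ
    have hσχ0 : σ (B.χ γ) ≠ 0 := (map_ne_zero σ).2 hχ0
    have hχR := B.χ_mem γ hγ h0
    obtain ⟨m, hm, h1⟩ := full_grp2 h hind (fun i => ⟨X i, (hX i).2.1, rfl⟩) (B.χ γ) hχ0
    obtain ⟨n, hn⟩ := NFA.mem_grp.1 h1
    rw [B.χ_val γ hγ] at hn
    set Y : Ω := ∏ i, X i ^ n i with hY
    have hYM : B.Mono Y := by
      rw [hY]
      exact Finset.prod_induction _ (fun f => B.Mono f) (fun _ _ => BF.Mono.mul)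
        (BF.Mono.un BF.Un.one) fun i _ => (hX i).2.zpow _
    have hYσ : σ Y = Y := by
      rw [hY, map_prod]
      exact Finset.prod_congr rfl fun i _ => by rw [map_zpow₀, (hX i).1]
    have hYv : v Y = m * γ := by
      rw [hn, hY, v.map_prod _ _ fun i _ => zpow_ne_zero _ (hX i).2.1]
      exact Finset.sum_congr rfl fun i _ => by rw [v.map_zpow (hX i).2.1]
    have hu : B.Un (B.χ γ ^ m / Y) := by
      have h2 : B.Mono (B.χ γ ^ m / Y) := ((BF.Mono.χ hγ).pow m).div hYM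
      have h3 : v (B.χ γ ^ m / Y) = 0 := by
        rw [v.map_div (pow_ne_zero _ hχ0) hYM.1, v.map_pow hχ0, B.χ_val γ hγ, hYv, sub_self]
      have h4 := h2.2.2
      rwa [h3, B.χ_zero, div_one] at h4
    have hu' : B.Un (σ (B.χ γ ^ m / Y)) :=
      ⟨hσ _ hu.1, (map_ne_zero σ).2 hu.2.1, by rw [hval _ hu.1 hu.2.1, hu.2.2]⟩
    have h5 : σ (B.χ γ) ^ m = B.χ γ ^ m * (σ (B.χ γ ^ m / Y) / (B.χ γ ^ m / Y)) := by
      rw [map_div₀, hYσ, map_pow]
      have := hYM.1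
      field_simp
    obtain ⟨κ, D, -, hrep⟩ := B.rep_exists2 h (hσ _ hχR) hσχ0
    have h6 : B.Mono (σ (B.χ γ) ^ m) := by
      rw [h5]
      exact ((BF.Mono.χ hγ).pow m).mul (BF.Mono.un (hu'.div hu))
    have h7 := (hrep.pow m).unique2 h h6.rep
    have hD : D = 0 := (Nat.mul_eq_zero.1 h7.2).resolve_left hm.ne'
    subst hD
    have h8 := hrep.val_zero.2.2.2.2
    rwa [hval _ hχR hχ0, B.χ_val γ hγ] at h8
  intro γ hγ
  rcases le_total 0 γ with h0 | h0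
  · exact key γ hγ h0
  · have h1 := key (-γ) (B.Γ.neg_mem hγ) (neg_nonneg.2 h0)
    rw [B.χ_neg hγ, map_inv₀, ← inv_div_inv, inv_inv, inv_inv, ← inv_div] at h1
    have h2 := h1.inv
    rwa [inv_inv] at h2

variable {T : Ω → Ω} {m : ℕ} {a b : Fin m → Ω} {e : Ω}

theorem chi_mem_sup (B : BF C v) {F : IntermediateField k Ω} (hR : ∀ f ∈ B.R, f ∈ F) {γ : ℝ}
    (hγ : γ ∈ B.Γ) : B.χ γ ∈ F := by
  rcases le_total 0 γ with h0 | h0
  · exact hR _ (B.χ_mem γ hγ h0)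
  · have h1 := hR _ (B.χ_mem (-γ) (B.Γ.neg_mem hγ) (neg_nonneg.2 h0))
    rw [B.χ_neg hγ] at h1
    have h2 := inv_mem h1
    rwa [inv_inv] at h2

/-- Fixed monomials. -/
theorem exists_fixed_mono (B : BF C v) (H : TD v K C L D B.R T a b e)
    (hχ : ∀ σ ∈ decA v K (K ⊔ C), ∀ γ ∈ B.Γ, B.Un (σ (B.χ γ) / B.χ γ))
    (hR : ∀ f ∈ B.R, f ∈ K ⊔ C) (hst : ∀ σ ∈ decA v K (K ⊔ C), ∀ c ∈ C, σ c ∈ C)
    {γ : ℝ} (hγ : γ ∈ B.Γ) :
    ∃ f, f ≠ 0 ∧ (∀ σ ∈ decA v K (K ⊔ C), σ f = f) ∧ B.Un (f / B.χ γ) := by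
  have hχ0 := B.χ_ne γ hγ
  obtain ⟨S, hS, hT⟩ := H.sum
  have hχK := chi_mem_sup B hR hγ
  let w : Fin m → Ω := fun i => ∑ σ ∈ S, σ (a i) * (σ (B.χ γ) / B.χ γ)
  have hw : ∀ i, T (a i * B.χ γ) = B.χ γ * w i := by
    intro i
    rw [hT, Finset.mul_sum]
    refine Finset.sum_congr rfl fun σ _ => ?_
    rw [map_mul]
    field_simp
  have h1 := H.dual _ hχK
  have h2 : ∑ i, b i * w i = 1 := by
    refine mul_left_cancel₀ hχ0 ?_
    rw [mul_one, Finset.mul_sum]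
    rw [← h1]
    refine Finset.sum_congr rfl fun i _ => ?_
    rw [h1, hw i]; ring
  have hwR : ∀ i, w i ∈ B.R := fun i => sum_mem fun σ hσ =>
    B.R.mul_mem (const_mem B (hst σ (hS σ hσ) _ (H.a_mem i))) (hχ σ (hS σ hσ) γ hγ).1
  obtain ⟨i, hi⟩ := exists_un_of_sum B (fun i => const_mem B (H.b_mem i)) hwR (by
    rw [h2]
    intro h3
    have h4 := h3 one_ne_zero
    rw [v.map_one] at h4
    exact lt_irrefl _ h4)
  refine ⟨T (a i * B.χ γ), ?_, H.fix _ (mul_mem ((le_sup_right : C ≤ K ⊔ C) (H.a_mem i)) hχK), ?_⟩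
  · rw [hw i]; exact mul_ne_zero hχ0 hi.2.1
  · rw [hw i, mul_div_cancel_left₀ _ hχ0]; exact hi

open RepAux in
/-- A fixed last parameter. -/
theorem exists_fixed_y (h : Ctx2 C v r) (B : BF C v) (H : TD v K C L D B.R T a b e)
    (hR : ∀ f ∈ B.R, f ∈ K ⊔ C) :
    ∃ y', (∀ σ ∈ decA v K (K ⊔ C), σ y' = y') ∧ B.Rep y' 0 1 := by
  obtain ⟨S, hS, hT⟩ := H.sum
  have hyK := hR _ B.y_mem
  have hmem : ∀ i, T (a i * B.y) ∈ B.R := fun i =>
    H.memR _ (B.R.mul_mem (const_mem B (H.a_mem i)) B.y_mem)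
  have hpos : ∀ i, VPos v (T (a i * B.y)) := by
    intro i
    rw [hT]
    refine VPos.sum _ fun σ hσ => ?_
    have h1 : a i * B.y ∈ K ⊔ C := mul_mem ((le_sup_right : C ≤ K ⊔ C) (H.a_mem i)) hyK
    intro h0
    have h2 : a i * B.y ≠ 0 := by
      intro h3; rw [h3, map_zero] at h0; exact h0 rfl
    rw [hS σ hσ _ h1 h2]
    exact VPos.mul' (B.nonneg _ (const_mem B (H.a_mem i))) B.vpos_y h2
  choose γ hγ hγ0 c hc w hw heq using fun i => B.gen _ (hmem i) (hpos i)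
  have hex : ∃ i, B.Un (w i) := by
    by_contra hcon
    have h1 : VPos v (∑ i, b i * w i) := by
      by_contra h2
      exact hcon (exists_un_of_sum B (fun i => const_mem B (H.b_mem i)) hw h2)
    have hsR : ∑ i, b i * w i ∈ B.R := sum_mem fun i _ =>
      B.R.mul_mem (const_mem B (H.b_mem i)) (hw i)
    have hu : B.Un (1 + -∑ i, b i * w i) :=
      (BF.Un.one (B := B)).add_vpos (B.R.neg_mem hsR) h1.neg
    refine not_hi2 h B 1 hu ?_
    have h3 : (1 + -∑ i, b i * w i) * B.y ^ 1 = ∑ i, b i * (B.χ (γ i) * c i) := by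
      have h4 := H.dual _ hyK
      have h5 : ∑ i, b i * T (a i * B.y) =
          ∑ i, b i * (B.χ (γ i) * c i) + (∑ i, b i * w i) * B.y := by
        rw [Finset.sum_mul, ← Finset.sum_add_distrib]
        refine Finset.sum_congr rfl fun i _ => ?_
        rw [heq i]; ring
      rw [h5] at h4
      rw [pow_one]
      linear_combination -h4
    rw [h3]
    refine Finset.sum_induction _ (fun z => Hi B 0 z) (fun _ _ => Hi.add)
      (Hi.zero B B.Γ.zero_mem) fun i _ => ?_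
    exact Hi.mul ⟨γ i, hγ i, hγ0 i, c i, hc i, rfl⟩ (const_mem B (H.b_mem i))
  obtain ⟨i, hi⟩ := hex
  refine ⟨T (a i * B.y), H.fix _ (mul_mem ((le_sup_right : C ≤ K ⊔ C) (H.a_mem i)) hyK),
    (rep_iff B.Γ.zero_mem).2 ⟨w i, hi, γ i, hγ i, hγ0 i, c i, hc i, ?_⟩⟩
  rw [heq i, B.χ_zero]; ring

/-- The fixed elements of a ring. -/
def fixS (v : RVal Ω) (K C : IntermediateField k Ω) (R : Subalgebra C Ω) :
    Subalgebra (fixC v K C) Ω where
  carrier := {f | f ∈ R ∧ ∀ σ ∈ decA v K (K ⊔ C), σ f = f}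
  mul_mem' := by
    rintro f g ⟨hf, hf'⟩ ⟨hg, hg'⟩
    exact ⟨R.mul_mem hf hg, fun σ hσ => by rw [map_mul, hf' σ hσ, hg' σ hσ]⟩
  add_mem' := by
    rintro f g ⟨hf, hf'⟩ ⟨hg, hg'⟩
    exact ⟨R.add_mem hf hg, fun σ hσ => by rw [map_add, hf' σ hσ, hg' σ hσ]⟩
  algebraMap_mem' := fun c => ⟨R.algebraMap_mem (⟨c.1, c.2.1⟩ : C), c.2.2⟩

theorem mem_fixS {R : Subalgebra C Ω} {f : Ω} :
    f ∈ fixS v K C R ↔ f ∈ R ∧ ∀ σ ∈ decA v K (K ⊔ C), σ f = f := Iff.rfl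

theorem alg_of_le {A B : Type*} [CommRing A] [CommRing B] [Algebra A Ω] [Algebra B Ω]
    (φ : A →+* B) (hφ : ∀ x, algebraMap B Ω (φ x) = algebraMap A Ω x)
    (hinj : Function.Injective φ) {g : Ω} (hg : IsAlgebraic A g) : IsAlgebraic B g := by
  obtain ⟨P, hP, h0⟩ := hg
  refine ⟨P.map φ, ?_, ?_⟩
  · rwa [Ne, Polynomial.map_eq_zero_iff hinj]
  · rw [Polynomial.aeval_def, Polynomial.eval₂_map]
    rw [Polynomial.aeval_def] at h0
    have h1 : (algebraMap B Ω).comp φ = algebraMap A Ω := RingHom.ext hφ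
    rw [h1]
    exact h0

theorem exists_inv_main (h : Ctx2 C v r) (B : BF C v) (hB : B.Res) (hq : quoK B.R = L ⊔ C)
    (hLK : L ≤ K) (hLalg : ∀ g : Ω, IsAlgebraic L g)
    (hst : ∀ σ ∈ decA v K (K ⊔ C), ∀ c ∈ C, σ c ∈ C)
    (H : TD v K C L (fixC v K C) B.R T a b e)
    (hχ : ∀ σ ∈ decA v K (K ⊔ C), ∀ γ ∈ B.Γ, B.Un (σ (B.χ γ) / B.χ γ)) :
    ∃ B' : BF (fixC v K C) v, B'.Res ∧ quoK B'.R = L ⊔ fixC v K C := by
  classical
  set G := decA v K (K ⊔ C) with hG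
  set D := fixC v K C with hD
  have hRq : ∀ f ∈ B.R, f ∈ L ⊔ C := by
    intro f hf
    rw [← hq]
    exact mem_quoK.2 ⟨f, hf, 1, B.R.one_mem, one_ne_zero, by rw [div_one]⟩
  have hLC : L ⊔ C ≤ K ⊔ C := sup_le_sup_right hLK C
  have hR : ∀ f ∈ B.R, f ∈ K ⊔ C := fun f hf => hLC (hRq f hf)
  have hCR : ∀ c ∈ C, c ∈ B.R := fun c hc => const_mem B hc
  have haR : ∀ i, a i ∈ B.R := fun i => hCR _ (H.a_mem i)
  have hbR : ∀ i, b i ∈ B.R := fun i => hCR _ (H.b_mem i)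
  have hT0 : T 0 = 0 := by
    have h1 := H.mul 0 1 (fun σ _ => map_zero σ)
    rwa [zero_mul, zero_mul] at h1
  have hTe : ∀ f, (∀ σ ∈ G, σ f = f) → T (f * e) = f := by
    intro f hf
    rw [H.mul f e hf, H.e_one, mul_one]
  have hTfix : ∀ f ∈ B.R, T f ∈ fixS v K C B.R := fun f hf => ⟨H.memR f hf, H.fix f (hR f hf)⟩
  -- the new parameter
  obtain ⟨y', hy', hyrep⟩ := exists_fixed_y h B H hR
  obtain ⟨B₁, hΓ₁, hχ₁, hy₁, hR₁⟩ := B.change_y2 h hyrep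
  -- the new monomials
  obtain ⟨χ', hχ0, hχP, hχadd⟩ := exists_char B.fg
    (fun γ f => (∀ σ ∈ G, σ f = f) ∧ B.Un (f / B.χ γ))
    (fun γ hγ => exists_fixed_mono B H hχ hR hst hγ)
    ⟨fun σ _ => map_one σ, by rw [B.χ_zero, div_one]; exact BF.Un.one⟩
    (by
      rintro γ hγ δ hδ f g - - ⟨hf, hf'⟩ ⟨hg, hg'⟩
      refine ⟨fun σ hσ => by rw [map_mul, hf σ hσ, hg σ hσ], ?_⟩
      rw [B.χ_add γ hγ δ hδ, ← div_mul_div_comm]
      exact hf'.mul hg')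
    (by
      rintro γ hγ f - ⟨hf, hf'⟩
      refine ⟨fun σ hσ => by rw [map_inv₀, hf σ hσ], ?_⟩
      rw [B.χ_neg hγ, inv_div_inv, ← inv_div]
      exact hf'.inv)
  have hχ'0 : χ' 0 = 1 := by
    have h1 := hχadd 0 B.Γ.zero_mem 0 B.Γ.zero_mem
    rw [add_zero] at h1
    exact (mul_right_cancel₀ (hχ0 0 B.Γ.zero_mem) (by rw [one_mul]; exact h1)).symm
  have hχ'neg : ∀ γ ∈ B.Γ, χ' (-γ) = (χ' γ)⁻¹ := by
    intro γ hγ
    have h1 := hχadd γ hγ (-γ) (B.Γ.neg_mem hγ)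
    rw [add_neg_cancel, hχ'0] at h1
    exact (inv_eq_of_mul_eq_one_right h1.symm).symm
  have hun : ∀ γ ∈ B.Γ, B.Un (B.χ γ / χ' γ) := by
    intro γ hγ
    have h1 := (hχP γ hγ).2.inv
    rwa [inv_div] at h1
  have hχ'val : ∀ γ ∈ B.Γ, v (χ' γ) = γ := by
    intro γ hγ
    have h1 := (hχP γ hγ).2.2.2
    rw [v.map_div (hχ0 γ hγ) (B.χ_ne γ hγ), B.χ_val γ hγ] at h1
    linarith
  have hχ'R : ∀ γ ∈ B.Γ, 0 ≤ γ → χ' γ ∈ fixS v K C B.R := by
    intro γ hγ h0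
    refine ⟨?_, (hχP γ hγ).1⟩
    have h1 : χ' γ = B.χ γ * (χ' γ / B.χ γ) := by rw [mul_div_cancel₀ _ (B.χ_ne γ hγ)]
    rw [h1]
    exact B.R.mul_mem (B.χ_mem γ hγ h0) (hχP γ hγ).2.1
  have hy'R : y' ∈ fixS v K C B.R := ⟨hyrep.mem le_rfl, hy'⟩
  have hgen : ∀ f ∈ fixS v K C B.R, VPos v f → ∃ γ ∈ B.Γ, 0 < γ ∧ ∃ a ∈ fixS v K C B.R,
      ∃ b ∈ fixS v K C B.R, f = χ' γ * a + y' * b := by
    rintro f ⟨hf, hfσ⟩ hv
    obtain ⟨γ, hγ, hγ0, c, hc, c', hc', hfc⟩ := B₁.gen f (by rw [hR₁]; exact hf) hv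
    rw [hΓ₁] at hγ
    rw [hR₁] at hc hc'
    rw [hχ₁, hy₁] at hfc
    refine ⟨γ, hγ, hγ0, T ((B.χ γ / χ' γ) * c * e), hTfix _ ?_, T (c' * e), hTfix _ ?_, ?_⟩
    · exact B.R.mul_mem (B.R.mul_mem (hun γ hγ).1 hc) (hCR _ H.e_mem)
    · exact B.R.mul_mem hc' (hCR _ H.e_mem)
    · rw [← H.mul _ _ (hχP γ hγ).1, ← H.mul _ _ hy', ← H.add, ← hTe f hfσ]
      congr 1
      rw [hfc]
      have := hχ0 γ hγ
      field_simp
  -- finite generation
  obtain ⟨F, hF⟩ := B.fgen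
  obtain ⟨S₀, hS₀⟩ := B.fg
  have hS₀Γ : ∀ γ ∈ S₀, γ ∈ B.Γ := by
    intro γ hγ
    rw [← hS₀]
    exact AddSubgroup.subset_closure hγ
  set F₂ : Finset Ω := F ∪ S₀.image fun γ => B.χ γ / χ' γ with hF₂
  have hFR : ∀ f ∈ F, f ∈ B.R := by
    intro f hf
    rw [hF]
    exact le_locv _ (Algebra.subset_adjoin (Or.inl hf))
  have hF₂R : ∀ f ∈ F₂, f ∈ B.R := by
    intro f hf
    rcases Finset.mem_union.1 hf with hf | hf
    · exact hFR f hf
    · obtain ⟨γ, hγ, rfl⟩ := Finset.mem_image.1 hf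
      exact (hun γ (hS₀Γ γ hγ)).1
  set F' : Finset Ω := (Finset.univ ×ˢ F₂).image fun q => T (a q.1 * q.2) with hF'
  have hF'mem : ∀ i, ∀ f ∈ F₂, T (a i * f) ∈ F' := fun i f hf =>
    Finset.mem_image.2 ⟨(i, f), Finset.mem_product.2 ⟨Finset.mem_univ _, hf⟩, rfl⟩
  have hF'R : ∀ f ∈ F', f ∈ fixS v K C B.R := by
    intro f hf
    obtain ⟨⟨i, g⟩, hg, rfl⟩ := Finset.mem_image.1 hf
    exact hTfix _ (B.R.mul_mem (haR i) (hF₂R g (Finset.mem_product.1 hg).2))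
  set Gs : Set Ω := (F' : Set Ω) ∪ χ' '' {γ | γ ∈ B.Γ ∧ 0 ≤ γ} with hGs
  have hGsR : ∀ f ∈ Gs, f ∈ fixS v K C B.R := by
    rintro f (hf | ⟨γ, ⟨hγ, h0⟩, rfl⟩)
    · exact hF'R f hf
    · exact hχ'R γ hγ h0
  have hA'R : Algebra.adjoin D Gs ≤ fixS v K C B.R := Algebra.adjoin_le hGsR
  have hCAR : Algebra.adjoin C Gs ≤ B.R := Algebra.adjoin_le fun f hf => (hGsR f hf).1
  -- the trace maps `C[A']` to `A'`
  have hTA : ∀ f ∈ Algebra.adjoin C Gs, ∀ c ∈ C, T (c * f) ∈ Algebra.adjoin D Gs := by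
    intro f hf
    have h1 : f ∈ Submodule.span C (Submonoid.closure Gs : Set Ω) := by
      rw [← Algebra.adjoin_eq_span]; exact hf
    have h2 : ∀ x ∈ Submonoid.closure Gs, x ∈ Algebra.adjoin D Gs := by
      intro x hx
      have h3 : Submonoid.closure Gs ≤ (Algebra.adjoin D Gs).toSubmonoid :=
        Submonoid.closure_le.2 Algebra.subset_adjoin
      exact h3 hx
    induction h1 using Submodule.span_induction with
    | mem x hx =>
      intro c hc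
      have hxA := h2 x hx
      rw [mul_comm, H.mul x c (hA'R hxA).2]
      exact mul_mem hxA ((Algebra.adjoin D Gs).algebraMap_mem (⟨T c, H.memD c hc⟩ : D))
    | zero =>
      intro c _
      rw [mul_zero, hT0]; exact zero_mem _
    | add x y hx hy hx' hy' =>
      intro c hc
      have h3 : ∀ z ∈ Submodule.span C (Submonoid.closure Gs : Set Ω),
          z ∈ Algebra.adjoin C Gs := by
        intro z hz
        rw [← Algebra.adjoin_eq_span] at hz; exact hz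
      rw [mul_add, H.add]
      exact add_mem (hx' (h3 x hx) c hc) (hy' (h3 y hy) c hc)
    | smul c' x hx hx' =>
      intro c hc
      have h3 : ∀ z ∈ Submodule.span C (Submonoid.closure Gs : Set Ω),
          z ∈ Algebra.adjoin C Gs := by
        intro z hz
        rw [← Algebra.adjoin_eq_span] at hz; exact hz
      have h4 : c * (c' • x) = (c * (c' : Ω)) * x := by
        have h5 : c' • x = (c' : Ω) * x := rfl
        rw [h5, mul_assoc]
      rw [h4]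
      exact hx' (h3 x hx) _ (mul_mem hc c'.2)
  -- `R ⊆ locv C[A']`
  have hF₂A : ∀ f ∈ F₂, f ∈ Algebra.adjoin C Gs := by
    intro f hf
    rw [← H.dual f (hR f (hF₂R f hf))]
    exact sum_mem fun i _ => mul_mem
      ((Algebra.adjoin C Gs).algebraMap_mem (⟨b i, H.b_mem i⟩ : C))
      (Algebra.subset_adjoin (Or.inl (hF'mem i f hf)))
  have hw : ∀ γ ∈ B.Γ, B.χ γ / χ' γ ∈ locv v (Algebra.adjoin C Gs) ∧
      (B.χ γ / χ' γ)⁻¹ ∈ locv v (Algebra.adjoin C Gs) := by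
    intro γ hγ
    have hγ' : γ ∈ AddSubgroup.closure (S₀ : Set ℝ) := by rw [hS₀]; exact hγ
    have hcl : ∀ δ, δ ∈ AddSubgroup.closure (S₀ : Set ℝ) → δ ∈ B.Γ := by
      intro δ hδ
      rwa [hS₀] at hδ
    induction hγ' using AddSubgroup.closure_induction with
    | mem x hx =>
      have h1 : B.χ x / χ' x ∈ locv v (Algebra.adjoin C Gs) :=
        le_locv _ (hF₂A _ (Finset.mem_union_right _ (Finset.mem_image_of_mem _ hx)))
      exact ⟨h1, locv_inv h1 (hun x hγ).2.1 (hun x hγ).2.2⟩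
    | zero => rw [B.χ_zero, hχ'0, div_one, inv_one]; exact ⟨one_mem _, one_mem _⟩
    | add x y hx hy hx' hy' =>
      obtain ⟨h1, h2⟩ := hx' (hcl x hx)
      obtain ⟨h3, h4⟩ := hy' (hcl y hy)
      rw [B.χ_add x (hcl x hx) y (hcl y hy), hχadd x (hcl x hx) y (hcl y hy),
        ← div_mul_div_comm, mul_inv]
      exact ⟨mul_mem h1 h3, mul_mem h2 h4⟩
    | neg x hx hx' =>
      obtain ⟨h1, h2⟩ := hx' (hcl x hx)
      rw [B.χ_neg (hcl x hx), hχ'neg x (hcl x hx), inv_div_inv, inv_div]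
      rw [inv_div] at h2
      exact ⟨h2, h1⟩
  have hRle : B.R ≤ locv v (Algebra.adjoin C Gs) := by
    rw [hF]
    refine locv_le (Algebra.adjoin_le ?_) (fun f hf h0 h1 => locv_inv hf h0 h1)
    rintro f (hf | ⟨γ, ⟨hγ, h0⟩, rfl⟩)
    · exact le_locv _ (hF₂A f (Finset.mem_union_left _ hf))
    · have h1 : B.χ γ = χ' γ * (B.χ γ / χ' γ) := by rw [mul_div_cancel₀ _ (hχ0 γ hγ)]
      have h2 : B.χ γ ∈ locv v (Algebra.adjoin C Gs) := by
        rw [h1]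
        exact mul_mem (le_locv _ (Algebra.subset_adjoin (Or.inr ⟨γ, ⟨hγ, h0⟩, rfl⟩)))
          (hw γ hγ).1
      exact h2
  have hfgen : fixS v K C B.R = locv v (Algebra.adjoin D Gs) := by
    apply le_antisymm
    · rintro f ⟨hf, hfσ⟩
      obtain ⟨α, hα, β, hβ, hβ0, hvβ, rfl⟩ := hRle hf
      have hβR := hCAR hβ
      obtain ⟨i, hi⟩ := exists_un_of_sum B hbR
        (fun i => H.memR _ (B.R.mul_mem (haR i) hβR)) (by
          rw [H.dual β (hR β hβR)]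
          intro h1
          exact absurd (h1 hβ0) (by rw [hvβ]; exact lt_irrefl _))
      refine ⟨T (a i * α), hTA α hα _ (H.a_mem i), T (a i * β), hTA β hβ _ (H.a_mem i),
        hi.2.1, hi.2.2, ?_⟩
      rw [eq_div_iff hi.2.1, ← H.mul _ _ hfσ]
      congr 1
      field_simp
    · refine locv_le hA'R ?_
      rintro f ⟨hf, hf'⟩ h0 h1
      exact ⟨B.loc f hf h0 h1, fun σ hσ => by rw [map_inv₀, hf' σ hσ]⟩
  -- the field of fractions
  have hLq : L ⊔ D ≤ quoK (fixS v K C B.R) := by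
    refine sup_le ?_ ?_
    · intro g hg
      have h1 : g ∈ quoK B.R := by rw [hq]; exact (le_sup_left : L ≤ L ⊔ C) hg
      obtain ⟨α, hα, β, hβ, hβ0, rfl⟩ := mem_quoK.1 h1
      have hgσ : ∀ σ ∈ G, σ (α / β) = α / β := by
        intro σ _
        exact σ.commutes (⟨α / β, hLK hg⟩ : K)
      have h2 : ∃ i, T (a i * β) ≠ 0 := by
        by_contra hcon
        push Not at hcon
        apply hβ0
        rw [← H.dual β (hR β hβ)]
        exact Finset.sum_eq_zero fun i _ => by rw [hcon i, mul_zero]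
      obtain ⟨i, hi⟩ := h2
      refine mem_quoK.2 ⟨T (a i * α), hTfix _ (B.R.mul_mem (haR i) hα), T (a i * β),
        hTfix _ (B.R.mul_mem (haR i) hβ), hi, ?_⟩
      rw [eq_div_iff hi, ← H.mul _ _ hgσ]
      congr 1
      field_simp
    · intro c hc
      exact mem_quoK.2 ⟨c, ⟨hCR c hc.1, hc.2⟩, 1, (fixS v K C B.R).one_mem, one_ne_zero, by
        rw [div_one]⟩
  have halg : ∀ g : Ω, IsAlgebraic (fixS v K C B.R) g := by
    intro g
    have h1 : FracIs (fixS v K C B.R) (quo (fixS v K C B.R)) :=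
      fracIs_iff.2 ⟨fun f hf => le_quo hf, le_rfl⟩
    rw [SigF0.alg_iff h1]
    have hLq' : ∀ g ∈ L, g ∈ quo (fixS v K C B.R) := fun g hg =>
      hLq ((le_sup_left : L ≤ L ⊔ D) hg)
    let φ : L →+* quo (fixS v K C B.R) :=
      { toFun := fun x => ⟨x, hLq' x x.2⟩
        map_one' := rfl
        map_mul' := fun _ _ => rfl
        map_zero' := rfl
        map_add' := fun _ _ => rfl }
    exact alg_of_le φ (fun x => rfl) φ.injective (hLalg g)
  refine ⟨⟨B.Γ, B.fg, B.full, χ', hχ0, hχadd, hχ'val, y', hyrep.ne_zero2 h,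
    hyrep.val_pos2 h le_rfl, fixS v K C B.R, fun f hf => B.nonneg f hf.1, ?_, hχ'R, hy'R,
    ⟨F', hfgen⟩, hgen, halg⟩, ?_, le_antisymm ?_ hLq⟩
  · rintro f ⟨hf, hf'⟩ h0 h1
    exact ⟨B.loc f hf h0 h1, fun σ hσ => by rw [map_inv₀, hf' σ hσ]⟩
  · -- residues
    rintro f ⟨hf, hfσ⟩
    obtain ⟨c, hc⟩ := hB f hf
    have hfc : f - algebraMap C Ω c ∈ K ⊔ C :=
      sub_mem (hR f hf) ((le_sup_right : C ≤ K ⊔ C) c.2)
    refine ⟨⟨c, c.2, fun σ hσ => ?_⟩, hc⟩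
    have h1 : VPos v (f - σ (c : Ω)) := by
      have h2 : f - σ (c : Ω) = σ (f - algebraMap C Ω c) := by
        rw [map_sub, hfσ σ hσ]; rfl
      rw [h2]
      intro h0
      have h3 : f - algebraMap C Ω c ≠ 0 := by
        intro h4; rw [h4, map_zero] at h0; exact h0 rfl
      rw [hσ _ hfc h3]
      exact hc h3
    have h2 : VPos v (σ (c : Ω) - c) := by
      have h3 : σ (c : Ω) - c = (f - algebraMap C Ω c) - (f - σ (c : Ω)) := by
        have h4 : algebraMap C Ω c = (c : Ω) := rfl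
        rw [h4]; ring
      rw [h3]
      exact hc.sub h1
    have h3 : (⟨σ (c : Ω), hst σ hσ c c.2⟩ : C) - c = 0 := h.const_eq_zero h2
    exact congrArg Subtype.val (sub_eq_zero.1 h3)
  · intro g hg
    obtain ⟨α, hα, β, hβ, -, rfl⟩ := mem_quoK.1 hg
    have key : ∀ x ∈ fixS v K C B.R, x ∈ L ⊔ D := by
      rintro x ⟨hx, hxσ⟩
      rw [← hTe x hxσ]
      exact H.memL _ (mul_mem (hRq x hx) ((le_sup_right : C ≤ L ⊔ C) H.e_mem))
    exact div_mem (key α hα) (key β hβ)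

end frame

end IN5Aux

end Pool.Agent.LU1
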