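import Pool.Agent.Lib.LU2_h80.IN5

/-! # LU2, IN5: the trace -/

set_option autoImplicit false

open Polynomial

namespace Pool.Agent.LU1

open Pool.Agent.H15JM (RVal)

universe u

variable {k Ω : Type u} [Field k] [Field Ω] [Algebra k Ω] {v : RVal Ω} {r d : ℕ}

namespace IN5Aux

variable {C₀ K C L : IntermediateField k Ω}

theorem stab_C (hKC : C₀ ≤ K) (hst : ∀ σ : Ω ≃ₐ[C₀] Ω, ∀ c ∈ C, σ c ∈ C)
    (σ : Ω ≃ₐ[K] Ω) : ∀ c ∈ C, σ c ∈ C := by
  intro c hc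
  have h1 : ∀ x : C₀, (σ : Ω ≃+* Ω) (algebraMap C₀ Ω x) = algebraMap C₀ Ω x := fun x =>
    σ.commutes (⟨x, hKC x.2⟩ : K)
  exact hst (AlgEquiv.ofRingEquiv (f := (σ : Ω ≃+* Ω)) h1) c hc

theorem fix_K (σ : Ω ≃ₐ[K] Ω) {g : Ω} (hg : g ∈ K) : σ g = g := σ.commutes (⟨g, hg⟩ : K)

theorem stab_sup (hC : ∀ σ : Ω ≃ₐ[K] Ω, ∀ c ∈ C, σ c ∈ C) (σ : Ω ≃ₐ[K] Ω) :
    ∀ g ∈ K ⊔ C, σ g ∈ K ⊔ C := by
  intro g hg
  let M : IntermediateField k Ω :=
    { carrier := {x | σ x ∈ K ⊔ C}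
      mul_mem' := fun {a b} (ha : σ a ∈ K ⊔ C) (hb : σ b ∈ K ⊔ C) => by
        show σ (a * b) ∈ K ⊔ C
        rw [map_mul]; exact mul_mem ha hb
      add_mem' := fun {a b} (ha : σ a ∈ K ⊔ C) (hb : σ b ∈ K ⊔ C) => by
        show σ (a + b) ∈ K ⊔ C
        rw [map_add]; exact add_mem ha hb
      algebraMap_mem' := fun c => by
        show σ (algebraMap k Ω c) ∈ K ⊔ C
        rw [fix_K σ (K.algebraMap_mem c)]
        exact (K ⊔ C).algebraMap_mem c
      inv_mem' := fun a (ha : σ a ∈ K ⊔ C) => by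
        show σ a⁻¹ ∈ K ⊔ C
        rw [map_inv₀]; exact inv_mem ha }
  have h1 : K ⊔ C ≤ M := sup_le
    (fun x hx => by
      show σ x ∈ K ⊔ C
      rw [fix_K σ hx]; exact (le_sup_left : K ≤ K ⊔ C) hx)
    (fun x hx => (le_sup_right : C ≤ K ⊔ C) (hC σ x hx))
  exact h1 hg

theorem decA_mul (hC : ∀ σ : Ω ≃ₐ[K] Ω, ∀ c ∈ C, σ c ∈ C) {σ τ : Ω ≃ₐ[K] Ω}
    (hσ : σ ∈ decA v K (K ⊔ C)) (hτ : τ ∈ decA v K (K ⊔ C)) :
    (τ.trans σ) ∈ decA v K (K ⊔ C) := by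
  intro g hg h0
  rw [AlgEquiv.trans_apply, hσ _ (stab_sup hC τ g hg) ((map_ne_zero τ).2 h0), hτ g hg h0]

theorem one_decA : (AlgEquiv.refl : Ω ≃ₐ[K] Ω) ∈ decA v K (K ⊔ C) := fun _ _ _ => rfl

theorem mem_span_of_sup (hLalg : ∀ g : Ω, IsAlgebraic L g) {f : Ω} (hf : f ∈ L ⊔ C) :
    f ∈ Submodule.span L (C : Set Ω) := by
  have h1 : L ⊔ C ≤ (IntermediateField.adjoin L (C : Set Ω)).restrictScalars k := by
    refine sup_le (fun x hx => ?_) (fun x hx => ?_)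
    · exact (IntermediateField.adjoin L (C : Set Ω)).algebraMap_mem (⟨x, hx⟩ : L)
    · exact IntermediateField.subset_adjoin L (C : Set Ω) hx
  have h2 : f ∈ (IntermediateField.adjoin L (C : Set Ω)).toSubalgebra := h1 hf
  rw [IntermediateField.adjoin_toSubalgebra_of_isAlgebraic (fun x _ => hLalg x)] at h2
  have h3 : f ∈ Subalgebra.toSubmodule (Algebra.adjoin L (C : Set Ω)) := h2
  rw [Algebra.adjoin_eq_span] at h3
  refine Submodule.span_mono ?_ h3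
  intro x hx
  have h4 : Submonoid.closure (C : Set Ω) ≤ C.toSubalgebra.toSubmonoid :=
    Submonoid.closure_le.2 fun _ h => h
  exact h4 hx

theorem exists_TD (hKC : C₀ ≤ K) (hC : C₀ ≤ C) (hfg : C.FG) (hsep : ∀ c ∈ C, IsSeparable C₀ c)
    (hst : ∀ σ : Ω ≃ₐ[C₀] Ω, ∀ c ∈ C, σ c ∈ C) (hLK : L ≤ K)
    (hLalg : ∀ g : Ω, IsAlgebraic L g) (R : Subalgebra C Ω)
    (hstab : ∀ σ ∈ decA v K (K ⊔ C), ∀ f ∈ R, σ f ∈ R) :
    ∃ (T : Ω → Ω) (m : ℕ) (a b : Fin m → Ω) (e : Ω), TD v K C L (fixC v K C) R T a b e := by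
  classical
  obtain ⟨m, a, b, hab, hab1, hab0⟩ := exists_dual (v := v) hKC hC hfg hsep hst
  obtain ⟨S, hSd, hSr, hSu⟩ := exists_reps (v := v) hKC hC hfg
    (fun c hc => (hsep c hc).isIntegral.isAlgebraic) hst
  have hCs : ∀ σ : Ω ≃ₐ[K] Ω, ∀ c ∈ C, σ c ∈ C := stab_C hKC hst
  have hleC : C ≤ K ⊔ C := le_sup_right
  let T : Ω → Ω := fun f => ∑ σ ∈ S, σ f
  have hT : ∀ f, T f = ∑ σ ∈ S, σ f := fun f => rfl
  have hadd : ∀ f g, T (f + g) = T f + T g := by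
    intro f g
    rw [hT, hT, hT, ← Finset.sum_add_distrib]
    exact Finset.sum_congr rfl fun σ _ => map_add σ f g
  have hmul : ∀ f g, (∀ σ ∈ decA v K (K ⊔ C), σ f = f) → T (f * g) = f * T g := by
    intro f g hf
    rw [hT, hT, Finset.mul_sum]
    exact Finset.sum_congr rfl fun σ hσ => by rw [map_mul, hf σ (hSd σ hσ)]
  have hfix : ∀ f ∈ K ⊔ C, ∀ σ ∈ decA v K (K ⊔ C), σ (T f) = T f := by
    intro f hf σ hσ
    choose π hπS hπ using fun τ : S => hSr _ (decA_mul hCs hσ (hSd τ.1 τ.2))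
    let PP : S → S := fun τ => ⟨π τ, hπS τ⟩
    have hinj : Function.Injective PP := by
      intro τ₁ τ₂ h12
      have h1 : π τ₁ = π τ₂ := congrArg Subtype.val h12
      refine Subtype.ext (hSu τ₁.1 τ₁.2 τ₂.1 τ₂.2 fun c hc => ?_)
      have h2 := hπ τ₁ c (hleC hc)
      have h3 := hπ τ₂ c (hleC hc)
      rw [h1, ← h3, AlgEquiv.trans_apply, AlgEquiv.trans_apply] at h2
      exact σ.injective h2
    have hfinS : Finite S := @Finite.of_fintype S (Finset.fintypeCoeSort S)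
    have hbij : Function.Bijective PP := Finite.injective_iff_bijective.1 hinj
    rw [hT, map_sum, ← Finset.sum_coe_sort S (fun τ => σ (τ f)),
      ← Finset.sum_coe_sort S (fun τ => τ f)]
    rw [← hbij.sum_comp (fun τ : S => (τ : Ω ≃ₐ[K] Ω) f)]
    refine Finset.sum_congr rfl fun τ _ => ?_
    exact hπ τ f hf
  have hTC : ∀ c ∈ C, T c ∈ C := fun c hc => sum_mem fun σ _ => hCs σ c hc
  have hmemD : ∀ c ∈ C, T c ∈ fixC v K C := fun c hc => ⟨hTC c hc, hfix c (hleC hc)⟩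
  have hdual : ∀ f ∈ K ⊔ C, ∑ i, b i * T (a i * f) = f := by
    intro f hf
    obtain ⟨τ₀, hτ₀, hτ⟩ := hSr _ (one_decA (v := v) (K := K) (C := C))
    have hτ' : ∀ g ∈ K ⊔ C, τ₀ g = g := fun g hg => (hτ g hg).symm
    have h1 : ∑ i, b i * T (a i * f) = ∑ σ ∈ S, (∑ i, b i * σ (a i)) * σ f := by
      simp only [hT, map_mul, Finset.mul_sum, Finset.sum_mul]
      rw [Finset.sum_comm]
      refine Finset.sum_congr rfl fun σ _ => Finset.sum_congr rfl fun i _ => ?_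
      ring
    rw [h1, Finset.sum_eq_single τ₀]
    · rw [hτ' f hf]
      have h2 : ∑ i, b i * τ₀ (a i) = 1 := by
        rw [← hab1]
        exact Finset.sum_congr rfl fun i _ => by rw [hτ' _ (hleC (hab i).1)]
      rw [h2, one_mul]
    · intro σ hσ hne
      have h2 : ∃ c ∈ C, σ c ≠ c := by
        by_contra hcon
        push Not at hcon
        exact hne (hSu σ hσ τ₀ hτ₀ fun c hc => by rw [hcon c hc, hτ' c (hleC hc)])
      rw [hab0 σ (hSd σ hσ) h2, zero_mul]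
    · intro h2; exact absurd hτ₀ h2
  have hT0 : T 0 = 0 := by
    have h1 := hmul 0 1 (fun σ _ => map_zero σ)
    rwa [zero_mul, zero_mul] at h1
  have hmemL : ∀ f ∈ L ⊔ C, T f ∈ L ⊔ fixC v K C := by
    intro f hf
    have h1 := mem_span_of_sup hLalg hf
    induction h1 using Submodule.span_induction with
    | mem x hx => exact (le_sup_right : fixC v K C ≤ L ⊔ fixC v K C) (hmemD x hx)
    | zero => rw [hT0]; exact zero_mem _
    | add x y hx hy hx' hy' =>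
      have h2 : ∀ z ∈ Submodule.span L (C : Set Ω), z ∈ L ⊔ C := by
        intro z hz
        induction hz using Submodule.span_induction with
        | mem x hx => exact (le_sup_right : C ≤ L ⊔ C) hx
        | zero => exact zero_mem _
        | add x y _ _ hx hy => exact add_mem hx hy
        | smul l x _ hx => exact mul_mem ((le_sup_left : L ≤ L ⊔ C) l.2) hx
      rw [hadd]
      exact add_mem (hx' (h2 x hx)) (hy' (h2 y hy))
    | smul l x hx hx' =>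
      have h2 : ∀ z ∈ Submodule.span L (C : Set Ω), z ∈ L ⊔ C := by
        intro z hz
        induction hz using Submodule.span_induction with
        | mem x hx => exact (le_sup_right : C ≤ L ⊔ C) hx
        | zero => exact zero_mem _
        | add x y _ _ hx hy => exact add_mem hx hy
        | smul l x _ hx => exact mul_mem ((le_sup_left : L ≤ L ⊔ C) l.2) hx
      have h3 : T (l • x) = (l : Ω) * T x := hmul l x fun σ _ => fix_K σ (hLK l.2)
      rw [h3]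
      exact mul_mem ((le_sup_left : L ≤ L ⊔ fixC v K C) l.2) (hx' (h2 x hx))
  obtain ⟨i, hi⟩ : ∃ i, T (a i) ≠ 0 := by
    by_contra hcon
    push Not at hcon
    have h1 := hdual 1 (one_mem _)
    simp only [mul_one, hcon, mul_zero, Finset.sum_const_zero] at h1
    exact zero_ne_one h1
  refine ⟨T, m, a, b, (T (a i))⁻¹ * a i, ⟨S, hSd, hT⟩, hadd, hmul, hfix,
    fun f hf => sum_mem fun σ hσ => hstab σ (hSd σ hσ) f hf, hmemL, hmemD, fun i => (hab i).1,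
    fun i => (hab i).2, hdual, mul_mem (inv_mem (hTC _ (hab i).1)) (hab i).1, ?_⟩
  rw [hmul _ _ (fun σ hσ => by rw [map_inv₀, hfix _ (hleC (hab i).1) σ hσ]), inv_mul_cancel₀ hi]

/-- IN5. Descent of a stable C-frame to the fixed field of the constants. -/
theorem exists_inv {C₀ K C L : IntermediateField k Ω} (h : Ctx2 C₀ v r) (hKC : C₀ ≤ K)
    (hC : C₀ ≤ C) (hfg : C.FG) (hsep : ∀ c ∈ C, IsSeparable C₀ c)
    (hst : ∀ σ : Ω ≃ₐ[C₀] Ω, ∀ c ∈ C, σ c ∈ C) (hLK : L ≤ K)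
    (hLalg : ∀ g : Ω, IsAlgebraic L g) (B : BF C v) (hB : B.Res) (hq : quoK B.R = L ⊔ C)
    (hstab : ∀ σ ∈ decA v K (K ⊔ C), ∀ f ∈ B.R, σ f ∈ B.R)
    (hX : ∃ X : Fin r → Ω, (∀ i, X i ∈ L ∧ B.Mono (X i)) ∧
      LinearIndependent ℚ fun i => v (X i)) :
    ∃ B' : BF (fixC v K C) v, B'.Res ∧ quoK B'.R = L ⊔ fixC v K C := by
  have h2 : Ctx2 C v r := h.of_alg hC fun c hc => (hsep c hc).isIntegral.isAlgebraic
  obtain ⟨T, m, a, b, e, H⟩ := exists_TD (v := v) hKC hC hfg hsep hst hLK hLalg B.R hstab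
  have hR : ∀ f ∈ B.R, f ∈ K ⊔ C := by
    intro f hf
    refine (sup_le_sup_right hLK C : L ⊔ C ≤ K ⊔ C) ?_
    rw [← hq]
    exact mem_quoK.2 ⟨f, hf, 1, B.R.one_mem, one_ne_zero, by rw [div_one]⟩
  refine exists_inv_main h2 B hB hq hLK hLalg (fun σ _ => stab_C hKC hst σ) H ?_
  intro σ hσ
  obtain ⟨X, hX, hind⟩ := hX
  exact chi_unit h2 B (σ : Ω →+* Ω) (hstab σ hσ) (fun f hf h0 => hσ f (hR f hf) h0)
    ⟨X, fun i => ⟨fix_K σ (hLK (hX i).1), (hX i).2⟩, hind⟩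

end IN5Aux

end Pool.Agent.LU1
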