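import Pool.Agent.Lib.LU2_h80.InvD
import Pool.Agent.Lib.LU2_h80.CoefF

/-! # LU2, IN1: the image of a C-frame under a power of Frobenius -/

set_option autoImplicit false

open Polynomial

namespace Pool.Agent.LU1

open Pool.Agent.H15JM (RVal)

universe u

variable {k Ω : Type u} [Field k] [Field Ω] [Algebra k Ω] {v : RVal Ω} {r d : ℕ}

theorem mem_frobK (p : ℕ) (hp : p.Prime) [CharP k p] [PerfectField k] (n : ℕ)
    {K : IntermediateField k Ω} {g : Ω} : g ∈ frobK p n K ↔ ∃ a ∈ K, g = a ^ p ^ n := by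
  have : Fact p.Prime := ⟨hp⟩
  have hchar : CharP Ω p := charP_of_injective_algebraMap (algebraMap k Ω).injective p
  have : ExpChar Ω p := ExpChar.prime hp
  have : ExpChar k p := ExpChar.prime hp
  have : PerfectRing k p := PerfectField.toPerfectRing p
  constructor
  · intro hg
    let F : IntermediateField k Ω :=
      { carrier := {g | ∃ a ∈ K, g = a ^ p ^ n}
        mul_mem' := by
          rintro _ _ ⟨a, ha, rfl⟩ ⟨b, hb, rfl⟩
          exact ⟨a * b, mul_mem ha hb, (mul_pow a b _).symm⟩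
        add_mem' := by
          rintro _ _ ⟨a, ha, rfl⟩ ⟨b, hb, rfl⟩
          exact ⟨a + b, add_mem ha hb, (add_pow_expChar_pow a b p n).symm⟩
        algebraMap_mem' := by
          intro c
          refine ⟨algebraMap k Ω ((iterateFrobeniusEquiv k p n).symm c), K.algebraMap_mem _, ?_⟩
          rw [← map_pow]
          congr 1
          exact ((iterateFrobeniusEquiv k p n).apply_symm_apply c).symm
        inv_mem' := by
          rintro _ ⟨a, ha, rfl⟩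
          exact ⟨a⁻¹, inv_mem ha, (inv_pow a _).symm⟩ }
    have hle : frobK p n K ≤ F := by
      rw [frobK, IntermediateField.adjoin_le_iff]
      rintro _ ⟨a, ha, rfl⟩
      exact ⟨a, ha, rfl⟩
    exact hle hg
  · rintro ⟨a, ha, rfl⟩
    exact IntermediateField.subset_adjoin _ _ ⟨a, ha, rfl⟩

/-- IN1. The Frobenius image of a C-frame. -/
theorem BF.exists_frob (p : ℕ) (hp : p.Prime) [CharP k p] [PerfectField k] (n : ℕ)
    {C : IntermediateField k Ω} (_h : Ctx2 C v r) (B : BF C v) (hB : B.Res) :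
    ∃ B' : BF (frobK p n C) v, B'.Res ∧ (∀ f, f ∈ B'.R ↔ ∃ g ∈ B.R, f = g ^ p ^ n) ∧
      ∀ f, B.Mono f → B'.Mono (f ^ p ^ n) := by
  classical
  have : Fact p.Prime := ⟨hp⟩
  have hchar : CharP Ω p := charP_of_injective_algebraMap (algebraMap k Ω).injective p
  have : ExpChar Ω p := ExpChar.prime hp
  obtain ⟨q, hq⟩ : ∃ q : ℕ, q = p ^ n := ⟨_, rfl⟩
  have hq0 : 0 < q := by rw [hq]; exact pow_pos hp.pos n
  have hqR : (0 : ℝ) < q := by exact_mod_cast hq0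
  have hqne : (q : ℝ) ≠ 0 := hqR.ne'
  have hadd : ∀ a b : Ω, (a + b) ^ q = a ^ q + b ^ q := fun a b => by
    rw [hq]; exact add_pow_expChar_pow a b p n
  have hsub : ∀ a b : Ω, (a - b) ^ q = a ^ q - b ^ q := fun a b => by
    rw [hq]; exact sub_pow_expChar_pow a b n
  have hmemK : ∀ g, g ∈ frobK p n C ↔ ∃ a ∈ C, g = a ^ q := fun g => by
    rw [mem_frobK p hp n, hq]
  have hvpos : ∀ {g : Ω}, VPos v (g ^ q) → VPos v g := fun {g} hg h0 => by
    have h1 := hg (pow_ne_zero _ h0)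
    rw [v.map_pow h0] at h1
    exact (mul_pos_iff_of_pos_left hqR).1 h1
  have hvpos' : ∀ {g : Ω}, VPos v g → VPos v (g ^ q) := fun {g} hg h0 => by
    have h1 : g ≠ 0 := fun h => h0 (by rw [h, zero_pow hq0.ne'])
    rw [v.map_pow h1]
    exact mul_pos hqR (hg h1)
  let R' : Subalgebra (frobK p n C) Ω :=
    { carrier := {f | ∃ g ∈ B.R, f = g ^ q}
      mul_mem' := by
        rintro _ _ ⟨a, ha, rfl⟩ ⟨b, hb, rfl⟩
        exact ⟨a * b, mul_mem ha hb, (mul_pow a b _).symm⟩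
      add_mem' := by
        rintro _ _ ⟨a, ha, rfl⟩ ⟨b, hb, rfl⟩
        exact ⟨a + b, add_mem ha hb, (hadd a b).symm⟩
      algebraMap_mem' := by
        rintro ⟨c, hc⟩
        obtain ⟨a, ha, h1⟩ := (hmemK c).1 hc
        exact ⟨a, B.R.algebraMap_mem ⟨a, ha⟩, h1⟩ }
  have hR' : ∀ f, f ∈ R' ↔ ∃ g ∈ B.R, f = g ^ q := fun f => Iff.rfl
  let m : ℝ →+ ℝ := AddMonoidHom.mulLeft (q : ℝ)
  have hm : ∀ x, m x = q * x := fun x => rfl
  let Γ' : AddSubgroup ℝ := B.Γ.map m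
  have hΓ' : ∀ γ, γ ∈ Γ' ↔ ∃ δ ∈ B.Γ, q * δ = γ := fun γ => Iff.rfl
  have hdiv : ∀ δ : ℝ, q * δ / q = δ := fun δ => mul_div_cancel_left₀ δ hqne
  have hloc : ∀ S : Subalgebra (frobK p n C) Ω, S ≤ R' → locv v S ≤ R' := by
    rintro S hS _ ⟨a, ha, b, hb, hb0, hvb, rfl⟩
    obtain ⟨a', ha', rfl⟩ := hS ha
    obtain ⟨b', hb', rfl⟩ := hS hb
    have hb1 : b' ≠ 0 := fun h => hb0 (by rw [h, zero_pow hq0.ne'])
    have hb2 : v b' = 0 := by
      rw [v.map_pow hb1] at hvb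
      exact (mul_eq_zero.1 hvb).resolve_left hqne
    refine ⟨a' * b'⁻¹, mul_mem ha' (B.loc b' hb' hb1 hb2), ?_⟩
    rw [mul_pow, inv_pow, div_eq_mul_inv]
  refine ⟨
    { Γ := Γ'
      fg := ?_
      full := ?_
      χ := fun γ => B.χ (γ / q) ^ q
      χ_ne := ?_
      χ_add := ?_
      χ_val := ?_
      y := B.y ^ q
      y_ne := pow_ne_zero _ B.y_ne
      y_pos := ?_
      R := R'
      nonneg := ?_
      loc := ?_
      χ_mem := ?_
      y_mem := ⟨B.y, B.y_mem, rfl⟩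
      fgen := ?_
      gen := ?_
      alg := ?_ }, ?_, ?_, ?_⟩
  · obtain ⟨S, hS⟩ := B.fg
    refine ⟨S.image m, ?_⟩
    rw [Finset.coe_image, ← AddMonoidHom.map_closure, hS]
  · intro g hg
    obtain ⟨l, hl, h1⟩ := B.full g hg
    refine ⟨q * l, Nat.mul_pos hq0 hl, l * v g, h1, ?_⟩
    rw [hm]
    push_cast
    ring
  · rintro _ ⟨δ, hδ, rfl⟩
    rw [hm, hdiv]
    exact pow_ne_zero _ (B.χ_ne δ hδ)
  · rintro _ ⟨δ, hδ, rfl⟩ _ ⟨ε, hε, rfl⟩
    rw [hm, hm, ← mul_add, hdiv, hdiv, hdiv, B.χ_add δ hδ ε hε, mul_pow]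
  · rintro _ ⟨δ, hδ, rfl⟩
    rw [hm, hdiv, v.map_pow (B.χ_ne δ hδ), B.χ_val δ hδ]
  · rw [v.map_pow B.y_ne]
    exact mul_pos hqR B.y_pos
  · rintro _ ⟨g, hg, rfl⟩ h0
    have h1 : g ≠ 0 := fun h => h0 (by rw [h, zero_pow hq0.ne'])
    rw [v.map_pow h1]
    exact mul_nonneg hqR.le (B.nonneg g hg h1)
  · rintro _ ⟨g, hg, rfl⟩ h0 hv
    have h1 : g ≠ 0 := fun h => h0 (by rw [h, zero_pow hq0.ne'])
    rw [v.map_pow h1] at hv
    exact ⟨g⁻¹, B.loc g hg h1 ((mul_eq_zero.1 hv).resolve_left hqne), (inv_pow g _).symm⟩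
  · rintro _ ⟨δ, hδ, rfl⟩ h0
    rw [hm] at h0 ⊢
    rw [hdiv]
    exact ⟨_, B.χ_mem δ hδ (nonneg_of_mul_nonneg_right h0 hqR), rfl⟩
  · obtain ⟨F, hF⟩ := B.fgen
    refine ⟨F.image (fun g => g ^ q), le_antisymm ?_ (hloc _ ?_)⟩
    · rintro _ ⟨g, hg, rfl⟩
      rw [hF] at hg
      have key : ∀ a ∈ Algebra.adjoin C ((F : Set Ω) ∪ B.χ '' {γ | γ ∈ B.Γ ∧ 0 ≤ γ}),
          a ^ q ∈ Algebra.adjoin (frobK p n C) (((F.image (fun g => g ^ q) : Finset Ω) : Set Ω) ∪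
            (fun γ => B.χ (γ / q) ^ q) '' {γ | γ ∈ Γ' ∧ 0 ≤ γ}) := by
        intro a ha
        induction ha using Algebra.adjoin_induction with
        | mem x hx =>
          refine Algebra.subset_adjoin ?_
          rcases hx with hx | ⟨γ, ⟨hγ, h0⟩, rfl⟩
          · exact Or.inl (Finset.mem_coe.2 (Finset.mem_image_of_mem _ hx))
          · refine Or.inr ⟨q * γ, ⟨⟨γ, hγ, rfl⟩, mul_nonneg hqR.le h0⟩, ?_⟩
            simp only [hdiv]
        | algebraMap c =>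
          have h1 : (algebraMap C Ω c) ^ q ∈ frobK p n C := (hmemK _).2 ⟨c, c.2, rfl⟩
          exact Subalgebra.algebraMap_mem _ (⟨_, h1⟩ : frobK p n C)
        | add x y _ _ hx hy => rw [hadd]; exact add_mem hx hy
        | mul x y _ _ hx hy => rw [mul_pow]; exact mul_mem hx hy
      obtain ⟨a, ha, b, hb, hb0, hvb, rfl⟩ := hg
      refine ⟨a ^ q, key a ha, b ^ q, key b hb, pow_ne_zero _ hb0, ?_, div_pow a b q⟩
      rw [v.map_pow hb0, hvb, mul_zero]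
    · refine Algebra.adjoin_le ?_
      rintro x (hx | ⟨γ, ⟨⟨δ, hδ, rfl⟩, h0⟩, rfl⟩)
      · obtain ⟨g, hg, rfl⟩ := Finset.mem_image.1 (Finset.mem_coe.1 hx)
        refine ⟨g, ?_, rfl⟩
        rw [hF]
        exact le_locv _ (Algebra.subset_adjoin (Or.inl (Finset.mem_coe.2 hg)))
      · rw [hm] at h0
        refine ⟨B.χ δ, B.χ_mem δ hδ (nonneg_of_mul_nonneg_right h0 hqR), ?_⟩
        simp only [hm, hdiv]
  · rintro _ ⟨g, hg, rfl⟩ hv
    obtain ⟨γ, hγ, h0, a, ha, b, hb, rfl⟩ := B.gen g hg (hvpos hv)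
    refine ⟨q * γ, ⟨γ, hγ, rfl⟩, mul_pos hqR h0, a ^ q, ⟨a, ha, rfl⟩, b ^ q, ⟨b, hb, rfl⟩, ?_⟩
    rw [hdiv, hadd, mul_pow, mul_pow]
  · intro g
    obtain ⟨P, hP0, hP⟩ := B.alg g
    let ψ : B.R →+* R' :=
      { toFun := fun a => ⟨(a : Ω) ^ q, a, a.2, rfl⟩
        map_one' := Subtype.ext (one_pow _)
        map_mul' := fun a b => Subtype.ext (mul_pow (a : Ω) b _)
        map_zero' := Subtype.ext (zero_pow hq0.ne')
        map_add' := fun a b => Subtype.ext (hadd a b) }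
    let φ : Ω →+* Ω :=
      { toFun := fun a => a ^ q
        map_one' := one_pow _
        map_mul' := fun a b => mul_pow a b _
        map_zero' := zero_pow hq0.ne'
        map_add' := hadd }
    have hinj : Function.Injective ψ := by
      intro a b hab
      have h1 : φ (a : Ω) = φ (b : Ω) := congrArg Subtype.val hab
      exact Subtype.ext (φ.injective h1)
    have h1 : IsAlgebraic R' (g ^ q) := by
      refine ⟨P.map ψ, (Polynomial.map_ne_zero_iff hinj).2 hP0, ?_⟩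
      have h2 : (algebraMap R' Ω).comp ψ = φ.comp (algebraMap B.R Ω) := rfl
      have h3 : g ^ q = φ g := rfl
      rw [aeval_def, eval₂_map, h2, h3, ← Polynomial.hom_eval₂, ← aeval_def, hP, map_zero]
    exact h1.of_pow hq0
  · rintro _ ⟨g, hg, rfl⟩
    obtain ⟨c, hc⟩ := hB g hg
    have h1 : ((c : Ω)) ^ q ∈ frobK p n C := (hmemK _).2 ⟨c, c.2, rfl⟩
    refine ⟨⟨_, h1⟩, ?_⟩
    have h2 := hvpos' hc
    rw [hsub] at h2
    exact h2
  · intro f
    rw [hR', hq]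
  · rintro f ⟨h0, hv, hu⟩
    have hvf : v (f ^ q) = q * v f := v.map_pow h0 q
    rw [← hq]
    refine ⟨pow_ne_zero _ h0, ⟨v f, hv, hvf.symm⟩, ?_⟩
    have h1 : f ^ q / B.χ (v (f ^ q) / q) ^ q = (f / B.χ (v f)) ^ q := by
      rw [hvf, hdiv, div_pow]
    show _ ∈ R' ∧ _ ≠ 0 ∧ _ = 0
    rw [h1]
    refine ⟨⟨_, hu.1, rfl⟩, pow_ne_zero _ hu.2.1, ?_⟩
    rw [v.map_pow hu.2.1, hu.2.2, mul_zero]

end Pool.Agent.LU1
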