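import Pool.Agent.Lib.LU2_h80.SB_5
import Pool.Agent.Lib.LU2_h80.IN_1

/-! # LU2, IN2: the Frobenius image of a stable C-frame -/

set_option autoImplicit false

open Polynomial

namespace Pool.Agent.LU1

open Pool.Agent.H15JM (RVal)

universe u

variable {k Ω : Type u} [Field k] [Field Ω] [Algebra k Ω] {v : RVal Ω} {r d : ℕ}

namespace IN2Aux

/-- A power of an algebraic element is separable. -/
theorem exists_pow_sep {F E : Type*} [Field F] [Field E] [Algebra F E] (q : ℕ) [ExpChar F q]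
    {x : E} (hx : IsAlgebraic F x) : ∃ n : ℕ, IsSeparable F (x ^ q ^ n) := by
  obtain ⟨g, h1, n, h2⟩ := (minpoly.irreducible hx.isIntegral).hasSeparableContraction q
  refine ⟨n, ?_⟩
  have h3 : aeval (x ^ q ^ n) g = 0 := by
    rw [← expand_aeval, h2, minpoly.aeval]
  exact Polynomial.Separable.of_dvd h1 (minpoly.dvd F _ h3)

/-- The intermediate field of the separable elements. -/
noncomputable def sepC (C₀ : IntermediateField k Ω) : IntermediateField k Ω :=
  (separableClosure C₀ Ω).restrictScalars k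

theorem mem_sepC {C₀ : IntermediateField k Ω} {g : Ω} : g ∈ sepC C₀ ↔ IsSeparable C₀ g :=
  Iff.rfl

theorem charP_omega (p : ℕ) [CharP k p] : CharP Ω p :=
  charP_of_injective_algebraMap (algebraMap k Ω).injective p

theorem add_pow_frob (p : ℕ) (hp : p.Prime) [CharP k p] (n : ℕ) (x y : Ω) :
    (x + y) ^ p ^ n = x ^ p ^ n + y ^ p ^ n := by
  have : Fact p.Prime := ⟨hp⟩
  have : CharP Ω p := charP_omega (k := k) p
  exact add_pow_char_pow x y p n

/-- A field that contains the powers of the generators contains all powers. -/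
theorem pow_mem_of_gens (p : ℕ) (hp : p.Prime) [CharP k p] (n : ℕ) {S : Set Ω}
    {L : IntermediateField k Ω} (hS : ∀ g ∈ S, g ^ p ^ n ∈ L) :
    ∀ g ∈ IntermediateField.adjoin k S, g ^ p ^ n ∈ L := by
  intro g hg
  induction hg using IntermediateField.adjoin_induction with
  | mem x hx => exact hS x hx
  | algebraMap c => rw [← map_pow]; exact L.algebraMap_mem _
  | add x y _ _ hx hy => rw [add_pow_frob (k := k) p hp]; exact add_mem hx hy
  | inv x _ hx => rw [inv_pow]; exact inv_mem hx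
  | mul x y _ _ hx hy => rw [mul_pow]; exact mul_mem hx hy

theorem pow_mem_frobK (p n : ℕ) {K : IntermediateField k Ω} {g : Ω} (hg : g ∈ K) :
    g ^ p ^ n ∈ frobK p n K := IntermediateField.subset_adjoin k _ ⟨g, hg, rfl⟩

theorem frobK_le {p n : ℕ} {K L : IntermediateField k Ω} (h : ∀ g ∈ K, g ^ p ^ n ∈ L) :
    frobK p n K ≤ L := by
  rw [frobK, IntermediateField.adjoin_le_iff]
  rintro _ ⟨g, hg, rfl⟩
  exact h g hg

theorem frobK_fg (p : ℕ) (hp : p.Prime) [CharP k p] (n : ℕ) {K : IntermediateField k Ω}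
    (hK : K.FG) : (frobK p n K).FG := by
  classical
  obtain ⟨G, rfl⟩ := hK
  refine ⟨G.image fun g => g ^ p ^ n, le_antisymm ?_ ?_⟩
  · rw [IntermediateField.adjoin_le_iff]
    intro x hx
    rw [Finset.coe_image] at hx
    obtain ⟨g, hg, rfl⟩ := hx
    exact pow_mem_frobK p n (IntermediateField.subset_adjoin k _ hg)
  · refine frobK_le ?_
    refine pow_mem_of_gens p hp n fun g hg => ?_
    refine IntermediateField.subset_adjoin k _ ?_
    rw [Finset.coe_image]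
    exact ⟨g, hg, rfl⟩

theorem fg_sup_field {K L : IntermediateField k Ω} (hK : K.FG) (hL : L.FG) : (K ⊔ L).FG := by
  classical
  obtain ⟨S, hS⟩ := hK
  obtain ⟨T, hT⟩ := hL
  exact ⟨S ∪ T, by rw [Finset.coe_union, IntermediateField.adjoin_union, hS, hT]⟩

theorem frobK_sup_le (p : ℕ) (hp : p.Prime) [CharP k p] (n : ℕ) (K L : IntermediateField k Ω) :
    frobK p n (K ⊔ L) ≤ frobK p n K ⊔ frobK p n L := by
  refine frobK_le fun g hg => ?_
  have h1 : g ∈ IntermediateField.adjoin k ((K : Set Ω) ∪ (L : Set Ω)) := by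
    rw [IntermediateField.adjoin_union, IntermediateField.adjoin_self,
      IntermediateField.adjoin_self]
    exact hg
  refine pow_mem_of_gens p hp n ?_ g h1
  rintro x (hx | hx)
  · exact (le_sup_left : frobK p n K ≤ _) (pow_mem_frobK p n hx)
  · exact (le_sup_right : frobK p n L ≤ _) (pow_mem_frobK p n hx)

end IN2Aux

open IN2Aux

theorem exists_galois (p : ℕ) (hp : p.Prime) [CharP k p] [PerfectField k] [IsAlgClosed Ω]
    {C₀ K : IntermediateField k Ω} (h : Ctx2 C₀ v r) (hC₀ : C₀.FG) (hK : K.FG) (hKC : C₀ ≤ K)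
    (halg : ∀ g : Ω, IsAlgebraic K g) :
    ∃ (n : ℕ) (C : IntermediateField k Ω), C₀ ≤ C ∧ C.FG ∧ (∀ c ∈ C, IsSeparable C₀ c) ∧
      (∀ σ : Ω ≃ₐ[C₀] Ω, ∀ c ∈ C, σ c ∈ C) ∧
      ∃ B : BF C v, B.Res ∧ quoK B.R = frobK p n K ⊔ C ∧
        (∀ σ : Ω ≃ₐ[K] Ω, (∀ g ∈ K ⊔ C, g ≠ 0 → v (σ g) = v g) → ∀ f ∈ B.R, σ f ∈ B.R) ∧
        ∃ X : Fin r → Ω, (∀ i, X i ∈ frobK p n K ∧ B.Mono (X i)) ∧
          LinearIndependent ℚ fun i => v (X i) := by
  classical
  obtain ⟨Cs, hle, hfg, hCsalg, hCsst, Bs, hBres, hBq, hBst, X, hX, hXind⟩ :=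
    exists_stable p hp h hC₀ hK hKC halg
  have hp0 : (0 : ℝ) < p := by exact_mod_cast hp.pos
  -- the exponent
  have hch : CharP C₀ p := charP_of_injective_algebraMap (algebraMap k C₀).injective p
  have hexp : ExpChar C₀ p := ExpChar.prime hp
  obtain ⟨G, hG⟩ := hfg
  have hGCs : ∀ g ∈ G, g ∈ Cs := fun g hg => by
    rw [← hG]
    exact IntermediateField.subset_adjoin k _ hg
  have hn0 : ∀ g ∈ G, ∃ n : ℕ, IsSeparable C₀ (g ^ p ^ n) := fun g hg =>
    exists_pow_sep p (hCsalg g (hGCs g hg))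
  choose! N hN using hn0
  obtain ⟨n, hn⟩ : ∃ n : ℕ, ∀ g ∈ G, N g ≤ n := ⟨G.sup N, fun g hg => Finset.le_sup hg⟩
  have hsep : ∀ c ∈ Cs, c ^ p ^ n ∈ sepC C₀ := by
    rw [← hG]
    refine pow_mem_of_gens p hp n fun g hg => ?_
    obtain ⟨j, hj⟩ := Nat.exists_eq_add_of_le (hn g hg)
    have h1 : g ^ p ^ N g ∈ sepC C₀ := mem_sepC.2 (hN g hg)
    have h2 : g ^ p ^ n = (g ^ p ^ N g) ^ p ^ j := by rw [hj, pow_add, pow_mul]
    rw [h2]
    exact pow_mem h1 _
  have hfg : Cs.FG := ⟨G, hG⟩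
  -- the constants
  set C : IntermediateField k Ω := C₀ ⊔ frobK p n Cs with hC
  have hfrobC : frobK p n Cs ≤ C := le_sup_right
  have hC₀C : C₀ ≤ C := le_sup_left
  have hCCs : C ≤ Cs := sup_le hle (frobK_le fun g hg => pow_mem hg _)
  have hCsep : ∀ c ∈ C, IsSeparable C₀ c := by
    have h1 : C ≤ sepC C₀ := by
      refine sup_le ?_ (frobK_le hsep)
      intro c hc
      rw [mem_sepC]
      exact isSeparable_algebraMap (⟨c, hc⟩ : C₀)
    exact fun c hc => h1 hc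
  have hCst : ∀ σ : Ω ≃ₐ[C₀] Ω, ∀ c ∈ C, σ c ∈ C := by
    intro σ
    let σk : Ω →ₐ[k] Ω := (σ.restrictScalars k).toAlgHom
    have hσk : ∀ x, σk x = σ x := fun x => rfl
    have h1 : C ≤ C.comap σk := by
      refine sup_le ?_ ?_
      · intro c hc
        change σk c ∈ C
        rw [hσk]
        have h2 : σ c = c := σ.commutes (⟨c, hc⟩ : C₀)
        rw [h2]
        exact hC₀C hc
      · refine frobK_le fun g hg => ?_
        change σk (g ^ p ^ n) ∈ C
        rw [hσk, map_pow]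
        exact hfrobC (pow_mem_frobK p n (hCsst σ g hg))
    exact fun c hc => h1 hc
  have hctxs : Ctx2 Cs v r := h.of_alg hle hCsalg
  have hfrobCs : frobK p n Cs ≤ Cs := frobK_le fun g hg => pow_mem hg _
  have halgf : ∀ c ∈ Cs, IsAlgebraic (frobK p n Cs) c := by
    intro c hc
    have h1 : IsAlgebraic (frobK p n Cs) (c ^ p ^ n) :=
      isAlgebraic_algebraMap (⟨c ^ p ^ n, pow_mem_frobK p n hc⟩ : frobK p n Cs)
    exact IsAlgebraic.of_pow (pow_pos hp.pos n) h1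
  have hctxf : Ctx2 (frobK p n Cs) v r := hctxs.of_alg_down hfrobCs halgf
  obtain ⟨B', hB'res, hB'R, hB'mono⟩ := BF.exists_frob p hp n hctxs Bs hBres
  obtain ⟨B, hCE, hBres'⟩ := BF.exists_ce hfrobC (fun c hc => halgf c (hCCs hc)) hctxf B' hB'res
  have hBq' : quoK B.R = quoK B'.R ⊔ C := hCE.quoK_eq hfrobC
  have hB'q : quoK B'.R = frobK p n (K ⊔ Cs) := by
    rw [← hBq]
    ext g
    rw [mem_frobK p hp n, mem_quoK]
    constructor
    · rintro ⟨a, ha, b, hb, hb0, rfl⟩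
      obtain ⟨a', ha', rfl⟩ := (hB'R a).1 ha
      obtain ⟨b', hb', rfl⟩ := (hB'R b).1 hb
      refine ⟨a' / b', mem_quoK.2 ⟨a', ha', b', hb', ?_, rfl⟩, by rw [div_pow]⟩
      rintro rfl
      exact hb0 (zero_pow (pow_pos hp.pos n).ne')
    · rintro ⟨a, ha, rfl⟩
      obtain ⟨a', ha', b', hb', hb0, rfl⟩ := mem_quoK.1 ha
      exact ⟨a' ^ p ^ n, (hB'R _).2 ⟨a', ha', rfl⟩, b' ^ p ^ n, (hB'R _).2 ⟨b', hb', rfl⟩,
        pow_ne_zero _ hb0, by rw [div_pow]⟩
  have hBq'' : quoK B.R = frobK p n K ⊔ C := by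
    rw [hBq', hB'q]
    refine le_antisymm (sup_le ?_ le_sup_right) (sup_le ?_ le_sup_right)
    · exact (frobK_sup_le p hp n K Cs).trans (sup_le_sup_left hfrobC _)
    · refine (frobK_le fun g hg => ?_).trans le_sup_left
      exact pow_mem_frobK p n ((le_sup_left : K ≤ K ⊔ Cs) hg)
  have hfrobKK : frobK p n K ≤ K := frobK_le fun g hg => pow_mem hg _
  have hqK : quoK B.R ≤ K ⊔ C := by
    rw [hBq'']
    exact sup_le_sup_right hfrobKK _
  have hB'B : ∀ f ∈ B'.R, f ∈ B.R := fun f hf => by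
    rw [hCE.R_eq]
    exact le_locv _ (Algebra.subset_adjoin hf)
  refine ⟨n, C, hC₀C, fg_sup_field hC₀ (frobK_fg p hp n hfg), hCsep, hCst, B, hBres', hBq'', ?_, ?_⟩
  · -- stability
    intro σ hσ
    have hσs : ∀ g ∈ K ⊔ Cs, g ≠ 0 → v (σ g) = v g := by
      intro g hg h0
      have h1 : g ^ p ^ n ∈ K ⊔ C := by
        refine hqK ?_
        rw [hBq', hB'q]
        exact (le_sup_left : frobK p n (K ⊔ Cs) ≤ _) (pow_mem_frobK p n hg)
      have h2 := hσ _ h1 (pow_ne_zero _ h0)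
      have h3 : σ g ≠ 0 := fun h => h0 (by simpa using h)
      rw [map_pow, v.map_pow h3, v.map_pow h0] at h2
      have h4 : ((p ^ n : ℕ) : ℝ) ≠ 0 := by
        exact_mod_cast (pow_pos hp.pos n).ne'
      exact mul_left_cancel₀ h4 h2
    have hσB' : ∀ f ∈ B'.R, σ f ∈ B'.R := by
      intro f hf
      obtain ⟨g, hg, rfl⟩ := (hB'R f).1 hf
      rw [map_pow]
      exact (hB'R _).2 ⟨σ g, hBst σ hσs g hg, rfl⟩
    let σ₀ : Ω ≃ₐ[C₀] Ω := AlgEquiv.ofRingEquiv (f := σ.toRingEquiv) (fun c => by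
      exact σ.commutes (⟨c, hKC c.2⟩ : K))
    have hσC : ∀ c ∈ C, σ c ∈ C := fun c hc => hCst σ₀ c hc
    have hσA : ∀ f ∈ Algebra.adjoin C (B'.R : Set Ω), σ f ∈ Algebra.adjoin C (B'.R : Set Ω) := by
      intro f hf
      induction hf using Algebra.adjoin_induction with
      | mem x hx => exact Algebra.subset_adjoin (hσB' x hx)
      | algebraMap c =>
        exact (Algebra.adjoin C (B'.R : Set Ω)).algebraMap_mem (⟨σ c, hσC c c.2⟩ : C)
      | add x y _ _ hx hy => rw [map_add]; exact Subalgebra.add_mem _ hx hy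
      | mul x y _ _ hx hy => rw [map_mul]; exact Subalgebra.mul_mem _ hx hy
    intro f hf
    rw [hCE.R_eq] at hf ⊢
    obtain ⟨a, ha, b, hb, hb0, hvb, rfl⟩ := hf
    refine ⟨σ a, hσA a ha, σ b, hσA b hb, fun h => hb0 (by simpa using h), ?_, by
      rw [map_div₀]⟩
    rw [hσ b ?_ hb0, hvb]
    refine hqK (mem_quoK.2 ⟨b, ?_, 1, B.R.one_mem, one_ne_zero, by rw [div_one]⟩)
    rw [hCE.R_eq]
    exact le_locv _ hb
  · -- monomials
    refine ⟨fun i => X i ^ p ^ n, fun i => ⟨pow_mem_frobK p n (hX i).1, ?_⟩, ?_⟩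
    · obtain ⟨h1, h2, h3⟩ := hB'mono _ (hX i).2
      refine ⟨h1, by rw [hCE.Γ_eq]; exact h2, ?_⟩
      rw [hCE.χ_eq]
      exact ⟨hB'B _ h3.1, h3.2⟩
    · have hX0 : ∀ i, X i ≠ 0 := fun i => (hX i).2.1
      have h1 : (fun i => v (X i ^ p ^ n)) = fun i => ((p : ℚ) ^ n) • v (X i) := by
        funext i
        rw [v.map_pow (hX0 i), Rat.smul_def]
        push_cast
        ring
      rw [h1]
      have h2 : ((p : ℚ) ^ n) ≠ 0 := pow_ne_zero _ (by exact_mod_cast hp.ne_zero)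
      exact hXind.units_smul fun _ => Units.mk0 _ h2

end Pool.Agent.LU1
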