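import Pool.Agent.Lib.LU2_h80.IN5b

/-! # LU2, IN5 -/

set_option autoImplicit false

open Polynomial

namespace Pool.Agent.LU1

open Pool.Agent.H15JM (RVal)

universe u

variable {k Ω : Type u} [Field k] [Field Ω] [Algebra k Ω] {v : RVal Ω} {r d : ℕ}

/-- IN5. Descent of a stable C-frame to the fixed field of the constants. -/
theorem BF.exists_inv {C₀ K C L : IntermediateField k Ω} (h : Ctx2 C₀ v r) (hKC : C₀ ≤ K)
    (hC : C₀ ≤ C) (hfg : C.FG) (hsep : ∀ c ∈ C, IsSeparable C₀ c)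
    (hst : ∀ σ : Ω ≃ₐ[C₀] Ω, ∀ c ∈ C, σ c ∈ C) (hLK : L ≤ K)
    (hLalg : ∀ g : Ω, IsAlgebraic L g) (B : BF C v) (hB : B.Res) (hq : quoK B.R = L ⊔ C)
    (hstab : ∀ σ ∈ decA v K (K ⊔ C), ∀ f ∈ B.R, σ f ∈ B.R)
    (hX : ∃ X : Fin r → Ω, (∀ i, X i ∈ L ∧ B.Mono (X i)) ∧
      LinearIndependent ℚ fun i => v (X i)) :
    ∃ B' : BF (fixC v K C) v, B'.Res ∧ quoK B'.R = L ⊔ fixC v K C :=
  IN5Aux.exists_inv h hKC hC hfg hsep hst hLK hLalg B hB hq hstab hX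

end Pool.Agent.LU1
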