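import Pool.Agent.Lib.LU2_h80.Defs

/-! # LU2: definitions for the descent along a residue extension -/

set_option autoImplicit false

open Polynomial

namespace Pool.Agent.LU1

open Pool.Agent.H15JM (RVal)

universe u

variable {k Ω : Type u} [Field k] [Field Ω] [Algebra k Ω] {v : RVal Ω} {r d : ℕ}

/-- The field generated by the `p^n`-th powers of the elements of `K`. -/
noncomputable def frobK (p n : ℕ) (K : IntermediateField k Ω) : IntermediateField k Ω :=
  IntermediateField.adjoin k ((fun g => g ^ p ^ n) '' (K : Set Ω))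

/-- The automorphisms of `Ω/K` that preserve `v` on `L`. -/
def decA (v : RVal Ω) (K L : IntermediateField k Ω) : Set (Ω ≃ₐ[K] Ω) :=
  {σ | ∀ g ∈ L, g ≠ 0 → v (σ g) = v g}

/-- The elements of `C` fixed by all these automorphisms. -/
def fixC (v : RVal Ω) (K C : IntermediateField k Ω) : IntermediateField k Ω where
  carrier := {c | c ∈ C ∧ ∀ σ ∈ decA v K (K ⊔ C), σ c = c}
  mul_mem' := fun {a b} ha hb => ⟨mul_mem ha.1 hb.1, fun σ hσ => by
    rw [map_mul, ha.2 σ hσ, hb.2 σ hσ]⟩
  add_mem' := fun {a b} ha hb => ⟨add_mem ha.1 hb.1, fun σ hσ => by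
    rw [map_add, ha.2 σ hσ, hb.2 σ hσ]⟩
  algebraMap_mem' := fun c => ⟨C.algebraMap_mem c, fun σ _ => by
    have h : algebraMap k Ω c = algebraMap K Ω (algebraMap k K c) :=
      IsScalarTower.algebraMap_apply k K Ω c
    rw [h, AlgEquiv.commutes]⟩
  inv_mem' := fun a ha => ⟨inv_mem ha.1, fun σ hσ => by rw [map_inv₀, ha.2 σ hσ]⟩

end Pool.Agent.LU1
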