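import Pool.Agent.Lib.LU2_h80.Stab
import Pool.Agent.Lib.LU2_h80.InvD
import Pool.Agent.Lib.LU2_h80.IN_1
import Pool.Agent.Lib.LU2_h80.IN_2
import Pool.Agent.Lib.LU2_h80.IN_346
import Pool.Agent.Lib.LU2_h80.IN_5

/-! # LU2, IN: Frobenius, Galois descent along a residue extension -/
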