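import Pool.Agent.Lib.LU2_h80.GR_A
import Pool.Agent.Lib.LU2_PI.Ends
import Pool.Agent.Lib.LU2_PI.Drop

/-! # LU2, PI7: purely inseparable ascent for towers -/

set_option autoImplicit false

open Polynomial

namespace Pool.Agent.LU1

open Pool.Agent.H15JM (RVal)

universe u

variable {k Ω : Type u} [Field k] [Field Ω] [Algebra k Ω] {v : RVal Ω} {r d : ℕ}

namespace PI_7Aux

/-- A finitely generated extension of a perfect field is finitely generated over the field of
`p`-th powers. -/
theorem finP (p : ℕ) (hp : p.Prime) [CharP k p] [PerfectField k] {C : IntermediateField k Ω}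
    (hC : C.FG) : LU2T.FinP C p := by
  classical
  have : Fact p.Prime := ⟨hp⟩
  have : PerfectRing k p := PerfectField.toPerfectRing p
  obtain ⟨S, hS⟩ := hC
  refine ⟨S.subtype (· ∈ C), fun N hN hT => ?_⟩
  have hk : ∀ c : k, algebraMap k C c ∈ N := by
    intro c
    obtain ⟨c', rfl⟩ := surjective_frobenius k p c
    rw [frobenius_def, map_pow]
    exact hN _
  let N' : IntermediateField k Ω :=
    { carrier := {x | ∃ hx : x ∈ C, (⟨x, hx⟩ : C) ∈ N}
      mul_mem' := by
        rintro a b ⟨ha, ha'⟩ ⟨hb, hb'⟩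
        exact ⟨mul_mem ha hb, N.mul_mem ha' hb'⟩
      add_mem' := by
        rintro a b ⟨ha, ha'⟩ ⟨hb, hb'⟩
        exact ⟨add_mem ha hb, N.add_mem ha' hb'⟩
      algebraMap_mem' := fun c => ⟨C.algebraMap_mem c, hk c⟩
      inv_mem' := by
        rintro a ⟨ha, ha'⟩
        exact ⟨inv_mem ha, N.inv_mem ha'⟩ }
  have hle : C ≤ N' := by
    rw [← hS, IntermediateField.adjoin_le_iff]
    intro x hx
    have hxC : x ∈ C := by rw [← hS]; exact IntermediateField.subset_adjoin k _ hx
    exact ⟨hxC, hT _ (Finset.mem_subtype.2 hx)⟩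
  rw [eq_top_iff]
  rintro ⟨x, hx⟩ -
  exact (hle hx).2

theorem adj_restrict (C : IntermediateField k Ω) (E : IntermediateField C Ω) (G : Ω) :
    (adj E G).restrictScalars k = adj (E.restrictScalars k) G := by
  apply le_antisymm
  · have hC : C ≤ adj (E.restrictScalars k) G := fun c hc =>
      le_adj (E.restrictScalars k) G (E.algebraMap_mem ⟨c, hc⟩)
    have h1 : adj E G ≤ IntermediateField.extendScalars hC :=
      adj_le (fun x hx => le_adj (E.restrictScalars k) G hx) (mem_adj (E.restrictScalars k) G)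
    intro x hx
    exact h1 hx
  · exact adj_le (fun x hx => le_adj E G hx) (mem_adj E G)

theorem quoK_of_fracIs {C : IntermediateField k Ω} {R R' : Subalgebra C Ω} {G : Ω}
    (h : FracIs R' (adj (quo R) G)) : quoK R' = adj (quoK R) G := by
  have h1 : quo R' = adj (quo R) G := by
    apply le_antisymm
    · rintro x ⟨a, ha, b, hb, -, rfl⟩
      exact div_mem (h.1 a ha) (h.1 b hb)
    · exact (fracIs_iff.1 h).2
  rw [quoK, h1, adj_restrict]
  rfl

theorem adj_eq_self {E : IntermediateField k Ω} {G : Ω} (h : G ∈ E) : adj E G = E :=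
  le_antisymm (adj_le le_rfl h) (le_adj E G)

variable {C C₁ : IntermediateField k Ω} {B : BF C v} {Y : CF k v r} {θ : Ω}

theorem le_of_estep (h : IsEStep B Y C₁ θ) : ∀ f ∈ B.R, f ∈ Y.B.R := fun f hf => by
  rw [h.R_eq]
  exact le_locv _ (Algebra.subset_adjoin (Or.inl hf))

/-- The strong form is preserved by étale steps. -/
theorem sf_estep (p : ℕ) (hp : p.Prime) [CharP k p] (h : IsEStep B Y C₁ θ) {f : Ω} {κ : ℝ} {D : ℕ}
    (hSF : LU2T.SF p B f κ D) : LU2T.SF p Y.B f κ D := by
  have : Fact p.Prime := ⟨hp⟩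
  have hchar : CharP Ω p := charP_of_injective_algebraMap (algebraMap k Ω).injective p
  obtain ⟨hκ, g, hg, u, hu, δ, hδ, hδ0, a, ha, hfe, hS⟩ := hSF
  have hle := le_of_estep h
  refine ⟨by rw [h.Γ_eq]; exact hκ, g, ?_, u, ⟨hle _ hu.1, hu.2⟩, δ, by rw [h.Γ_eq]; exact hδ, hδ0,
    a, hle _ ha, by rw [h.χ_eq, h.y_eq]; exact hfe, ?_⟩
  · obtain ⟨a, ha, b, hb, h0, rfl⟩ := hg
    exact ⟨a, hle _ ha, b, hle _ hb, h0, rfl⟩
  · rw [h.Γ_eq]
    rcases hS with h1 | h1 | h1
    · exact Or.inl h1
    · exact Or.inr (Or.inl h1)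
    · refine Or.inr (Or.inr fun t ht hv => ?_)
      obtain ⟨t', ht', hv'⟩ := h.res_mem t ht
      apply h1 t' ht'
      have h2 : u - t' ^ p = (u - t ^ p) + (t - t') ^ p := by
        rw [sub_pow_char]; ring
      rw [h2]
      refine hv.add ?_
      have h3 : (t - t') ^ p = (t - t') * (t - t') ^ (p - 1) := by
        rw [← pow_succ']
        congr 1
        have := hp.pos
        omega
      rw [h3]
      refine VPos.mul hv' ?_
      have h4 : ∀ n : ℕ, v.Ge 0 ((t - t') ^ n) := by
        intro n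
        induction n with
        | zero => rw [pow_zero]; intro _; rw [v.map_one]
        | succ n ih =>
          have := ih.mul hv'.ge
          rwa [add_zero, ← pow_succ] at this
      exact h4 _

theorem quo_of_ng {k' : Type u} [Field k'] [Algebra k' Ω] {B B' : BF k' v}
    (h : Relation.ReflTransGen LU2T.NG B B') : quo B'.R = quo B.R := by
  induction h with
  | refl => rfl
  | tail _ hN ih =>
    obtain ⟨c, hc⟩ := hN
    rw [hc.step.ext.quo_eq, ih]

/-- The last part: a frame with the right field. -/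
theorem finish [PerfectField k] [IsAlgClosed Ω] (h : CtxD k v r d) (X : CF k v r) {B : BF X.C v}
    (hB : quo B.R = quo X.B.R) {G : Ω} (hG : Good v (adj (quo B.R) G)) :
    ∃ Y : CF k v r, NearTow v (adj X.E G) Y.E := by
  obtain ⟨B1, hB1⟩ := hG
  obtain ⟨Y, C₁, θ, hE⟩ := BF.exists_estep h X.fg X.ctx B1
  refine ⟨Y, Relation.ReflTransGen.single ⟨θ, ?_, ?_⟩⟩
  · have h1 := hE.nearGen X.ctx
    rw [quoK_of_fracIs hB1, quoK, hB] at h1
    exact h1
  · have h1 := hE.E_eq X.ctx
    rw [quoK_of_fracIs hB1, quoK, hB] at h1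
    exact h1

/-- A step in the field, followed by an étale step. -/
theorem estep_near [PerfectField k] [IsAlgClosed Ω] (h : CtxD k v r d) (X : CF k v r)
    {B : BF X.C v} (hB : quo B.R = quo X.B.R) :
    ∃ (Y : CF k v r) (C₁ : IntermediateField k Ω) (θ : Ω), IsEStep B Y C₁ θ ∧
      NearEt v X.E Y.E := by
  obtain ⟨Y, C₁, θ, hE⟩ := BF.exists_estep h X.fg X.ctx B
  refine ⟨Y, C₁, θ, hE, θ, ?_, ?_⟩
  · have h1 := hE.nearGen X.ctx
    rw [quoK, hB] at h1
    exact h1
  · have h1 := hE.E_eq X.ctx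
    rw [quoK, hB] at h1
    exact h1

theorem main (p : ℕ) (hp : p.Prime) [CharP k p] [PerfectField k] [IsAlgClosed Ω]
    (h : CtxD k v r d) (D : ℕ) : ∀ (X : CF k v r) {f G : Ω} {κ : ℝ}, f ∈ X.E → G ^ p = f →
      LU2T.SF p X.B f κ D → ∃ Y : CF k v r, NearTow v (adj X.E G) Y.E := by
  induction D using Nat.strong_induction_on with
  | _ D ih =>
    intro X f G κ hf hG hSF
    have : Fact p.Prime := ⟨hp⟩
    have hchar : CharP Ω p := charP_of_injective_algebraMap (algebraMap k Ω).injective p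
    have hcharC : CharP X.C p := charP_of_injective_algebraMap (algebraMap k X.C).injective p
    by_cases hGE : G ∈ X.E
    · exact ⟨X, by rw [adj_eq_self hGE]; exact Relation.ReflTransGen.refl⟩
    by_cases hD : D ≤ 1
    · exact finish h X rfl (LU2T.ends p X.ctx X.B X.res hSF hD hG)
    have hf0 : ∀ g ∈ quo X.B.R, f ≠ g ^ p := by
      intro g hg h1
      apply hGE
      have h2 : G = g := frobenius_inj Ω p (by rw [frobenius_def, frobenius_def, hG, h1])
      rw [h2]
      exact hg
    obtain ⟨B1, B2, q, g, s, κ', D', h1, h2, h3, h4⟩ := LU2T.drop p X.ctx (finP p hp X.fg) X.B X.res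
      (f := f) hf hf0 hSF (by omega)
    obtain ⟨Y, C₁, θ, hE, hN⟩ := estep_near h X (B := B2) (by
      rw [h2.step.ext.quo_eq, quo_of_ng h1])
    obtain ⟨Y', hY'⟩ := ih D' h4 Y (f := f) (G := G) ((NearTow.le (Relation.ReflTransGen.single hN)) hf)
      hG (sf_estep p hp hE h3)
    exact ⟨Y', (NearTow.adj (Relation.ReflTransGen.single hN) G).trans hY'⟩

end PI_7Aux

open PI_7Aux in
/-- PI7. -/
theorem CF.pi (p : ℕ) (hp : p.Prime) [CharP k p] [PerfectField k] [IsAlgClosed Ω]
    (h : CtxD k v r d) (X : CF k v r) {g : Ω} (hg : g ^ p ∈ X.E) :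
    ∃ Y : CF k v r, NearTow v (adj X.E g) Y.E := by
  have : Fact p.Prime := ⟨hp⟩
  have hchar : CharP Ω p := charP_of_injective_algebraMap (algebraMap k Ω).injective p
  have hcharC : CharP X.C p := charP_of_injective_algebraMap (algebraMap k X.C).injective p
  by_cases hGE : g ∈ X.E
  · exact ⟨X, by rw [adj_eq_self hGE]; exact Relation.ReflTransGen.refl⟩
  obtain ⟨a, ha, b, hb, hb0, hab⟩ := id hg
  have hbE : b ∈ X.E := ⟨b, hb, 1, one_mem _, one_ne_zero, by rw [div_one]⟩
  have hG : (g * b) ^ p = a * b ^ (p - 1) := by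
    have h1 : b ^ p = b * b ^ (p - 1) := by
      rw [← pow_succ']
      congr 1
      have := hp.pos
      omega
    rw [mul_pow, hab, h1]
    field_simp
  have hadj : adj X.E (g * b) = adj X.E g := by
    refine adj_congr ?_ ?_
    · exact mul_mem (mem_adj X.E g) (le_adj X.E g hbE)
    · have h1 : g = g * b / b := by field_simp
      have h2 := div_mem (mem_adj X.E (g * b)) (le_adj X.E (g * b) hbE)
      rwa [← h1] at h2
  have hGE' : g * b ∉ X.E := by
    intro h1
    apply hGE
    have h2 : g = g * b / b := by field_simp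
    rw [h2]
    exact div_mem h1 hbE
  have hfR : a * b ^ (p - 1) ∈ X.B.R := mul_mem ha (pow_mem hb _)
  have hf0 : ∀ e ∈ quo X.B.R, a * b ^ (p - 1) ≠ e ^ p := by
    intro e he h1
    apply hGE'
    have h2 : g * b = e := frobenius_inj Ω p (by rw [frobenius_def, frobenius_def, hG, h1])
    rw [h2]
    exact he
  obtain ⟨B', q, m, s, hst, -⟩ := LU2T.exists_cstep X.ctx X.B X.res
  obtain ⟨κ, D, hSF⟩ := LU2T.start p X.ctx (finP p hp X.fg) X.B X.res hfR hf0 hst
  obtain ⟨Y, C₁, θ, hE, hN⟩ := estep_near h X (B := B') hst.step.ext.quo_eq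
  have hle := NearTow.le (Relation.ReflTransGen.single hN : NearTow v X.E Y.E)
  obtain ⟨Y', hY'⟩ := main p hp h D Y (f := a * b ^ (p - 1)) (G := g * b)
    (hle ⟨_, hfR, 1, one_mem _, one_ne_zero, by rw [div_one]⟩) hG (sf_estep p hp hE hSF)
  rw [← hadj]
  exact ⟨Y', (NearTow.adj (Relation.ReflTransGen.single hN) (g * b)).trans hY'⟩

namespace PI_7Aux

theorem adj_adj {E : IntermediateField k Ω} {g g' : Ω} (h : g' ∈ adj E g) :
    adj (adj E g') g = adj E g := by
  apply le_antisymm
  · exact adj_le (adj_le (le_adj E g) h) (mem_adj E g)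
  · exact adj_le ((le_adj E g').trans (le_adj _ g)) (mem_adj _ g)

/-- One element. -/
theorem pi_one (p : ℕ) (hp : p.Prime) [CharP k p] [PerfectField k] [IsAlgClosed Ω]
    (h : CtxD k v r d) (n : ℕ) : ∀ (X : CF k v r) {g : Ω}, g ^ p ^ n ∈ X.E →
      ∃ Y : CF k v r, NearTow v (adj X.E g) Y.E := by
  induction n with
  | zero =>
    intro X g hg
    rw [pow_zero, pow_one] at hg
    exact ⟨X, by rw [adj_eq_self hg]; exact Relation.ReflTransGen.refl⟩
  | succ n ih =>
    intro X g hg
    obtain ⟨Y1, hY1⟩ := CF.pi p hp h X (g := g ^ p ^ n) (by rw [← pow_mul, ← pow_succ]; exact hg)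
    obtain ⟨Y, hY⟩ := ih Y1 (g := g) (NearTow.le hY1 (mem_adj _ _))
    refine ⟨Y, ?_⟩
    have h1 := NearTow.adj hY1 g
    rw [adj_adj (pow_mem (mem_adj X.E g) _)] at h1
    exact h1.trans hY

theorem sup_insert [DecidableEq Ω] (E : IntermediateField k Ω) (g : Ω) (T : Finset Ω) :
    E ⊔ IntermediateField.adjoin k ((insert g T : Finset Ω) : Set Ω) =
      adj (E ⊔ IntermediateField.adjoin k (T : Set Ω)) g := by
  rw [adj, sup_assoc, ← IntermediateField.adjoin_union, Finset.coe_insert, Set.union_comm,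
    Set.singleton_union]

theorem tow_sup {E E' : IntermediateField k Ω} (h : NearTow v E E') (T : Finset Ω) :
    NearTow v (E ⊔ IntermediateField.adjoin k (T : Set Ω))
      (E' ⊔ IntermediateField.adjoin k (T : Set Ω)) := by
  classical
  induction T using Finset.induction_on with
  | empty =>
    rw [Finset.coe_empty, IntermediateField.adjoin_empty, sup_bot_eq, sup_bot_eq]
    exact h
  | insert g T _ ih =>
    rw [sup_insert, sup_insert]
    exact NearTow.adj ih g

theorem pi_many (p : ℕ) (hp : p.Prime) [CharP k p] [PerfectField k] [IsAlgClosed Ω]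
    (h : CtxD k v r d) (n : ℕ) (T : Finset Ω) : ∀ (X : CF k v r), (∀ g ∈ T, g ^ p ^ n ∈ X.E) →
      ∃ Y : CF k v r, NearTow v (X.E ⊔ IntermediateField.adjoin k (T : Set Ω)) Y.E := by
  classical
  induction T using Finset.induction_on with
  | empty =>
    intro X _
    refine ⟨X, ?_⟩
    rw [Finset.coe_empty, IntermediateField.adjoin_empty, sup_bot_eq]
    exact Relation.ReflTransGen.refl
  | insert g T _ ih =>
    intro X hX
    obtain ⟨Y1, hY1⟩ := pi_one p hp h n X (hX g (Finset.mem_insert_self _ _))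
    have hle : X.E ≤ Y1.E := (le_adj X.E g).trans (NearTow.le hY1)
    obtain ⟨Y, hY⟩ := ih Y1 fun g hg => hle (hX g (Finset.mem_insert_of_mem hg))
    refine ⟨Y, ?_⟩
    have h1 := tow_sup hY1 T
    have h2 : adj X.E g ⊔ IntermediateField.adjoin k (T : Set Ω) =
        X.E ⊔ IntermediateField.adjoin k ((insert g T : Finset Ω) : Set Ω) := by
      rw [sup_insert, adj, adj, sup_assoc, sup_assoc, sup_comm (IntermediateField.adjoin k {g})]
    rw [← h2]
    exact h1.trans hY

end PI_7Aux

open PI_7Aux in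
/-- PI8. -/
theorem CF.pi_iter (p : ℕ) (hp : p.Prime) [CharP k p] [PerfectField k] [IsAlgClosed Ω]
    (h : CtxD k v r d) (X : CF k v r) {L : IntermediateField k Ω} (hL : L.FG) (hle : X.E ≤ L)
    (n : ℕ) (hn : ∀ g ∈ L, g ^ p ^ n ∈ X.E) : ∃ Y : CF k v r, NearTow v L Y.E := by
  obtain ⟨S, hS⟩ := hL
  obtain ⟨Y, hY⟩ := pi_many p hp h n S X fun g hg => hn g (by
    rw [← hS]; exact IntermediateField.subset_adjoin k _ hg)
  refine ⟨Y, ?_⟩
  rwa [hS, sup_eq_right.2 hle] at hY

end Pool.Agent.LU1
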