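import Pool.Agent.Lib.LU2_h80.Start
import Pool.Agent.Lib.LU2_h80.PI7

/-! # LU2, MA0: a tower over `K` has a C-frame -/

set_option autoImplicit false

open Polynomial

namespace Pool.Agent.LU1

open Pool.Agent.H15JM (RVal)

universe u

variable {k Ω : Type u} [Field k] [Field Ω] [Algebra k Ω] {v : RVal Ω} {r d : ℕ}

/-- The elements whose `p ^ n`-th power lies in `E`. -/
theorem MA0_exists_frob_comap (p : ℕ) (hp : p.Prime) [CharP k p] (E : IntermediateField k Ω)
    (n : ℕ) : ∃ F : IntermediateField k Ω, ∀ g, g ∈ F ↔ g ^ p ^ n ∈ E := by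
  have : CharP Ω p := charP_of_injective_algebraMap (algebraMap k Ω).injective p
  have : Fact p.Prime := ⟨hp⟩
  refine ⟨{ toSubalgebra :=
              { carrier := {g | g ^ p ^ n ∈ E}
                mul_mem' := fun {a b} ha hb => ?_
                add_mem' := fun {a b} ha hb => ?_
                algebraMap_mem' := fun c => ?_ }
            inv_mem' := fun a ha => ?_ }, fun g => Iff.rfl⟩
  · change (a * b) ^ p ^ n ∈ E
    rw [mul_pow]
    exact E.mul_mem ha hb
  · change (a + b) ^ p ^ n ∈ E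
    rw [add_pow_char_pow]
    exact E.add_mem ha hb
  · change (algebraMap k Ω c) ^ p ^ n ∈ E
    rw [← map_pow]
    exact E.algebraMap_mem _
  · change (a⁻¹) ^ p ^ n ∈ E
    rw [inv_pow]
    exact E.inv_mem ha

/-- MA0. A tower over `K` has a C-frame. -/
theorem exists_goodT (p : ℕ) (hp : p.Prime) [CharP k p] [PerfectField k] [IsAlgClosed Ω]
    (h : CtxD k v r d) (K : IntermediateField k Ω) (hK : K.FG)
    (halg : ∀ g : Ω, IsAlgebraic K g) {z : Fin d → Ω} (hz : ResInd k v z)
    (hzK : ∀ i, z i ∈ K) : ∃ Y : CF k v r, NearTow v K Y.E := by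
  obtain ⟨X, n, θ, hN, hθ, hX, hf⟩ := exists_start p hp h K hK halg hz hzK
  obtain ⟨F, hF⟩ := MA0_exists_frob_comap p hp X.E n
  have hle : adj K θ ≤ F := by
    refine sup_le (fun g hg => (hF g).2 (hf g hg)) ?_
    rw [IntermediateField.adjoin_le_iff]
    rintro _ rfl
    exact (hF _).2 (pow_mem hθ _)
  obtain ⟨Y, hY⟩ := CF.pi_iter p hp h X (adj_fg θ hK) hX n fun g hg => (hF g).1 (hle hg)
  exact ⟨Y, Relation.ReflTransGen.head ⟨θ, hN, rfl⟩ hY⟩

end Pool.Agent.LU1
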