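import Pool.Agent.Lib.LU2_h80.EStep
import Pool.Agent.Lib.LU2_h15z.Normal

/-! # LU2, ST3: structure of growth steps -/

set_option autoImplicit false

open Polynomial

namespace Pool.Agent.LU1

open Pool.Agent.H15JM (RVal)

universe u

section Coeff

variable {k Ω : Type u} [Field k] [Field Ω] [Algebra k Ω] {v : RVal Ω} {r d : ℕ}

/-- An element algebraic over a field on which `v` is trivial does not have positive value. -/
theorem ST3Aux.eq_zero_of_vpos {K : Type u} [Field K] [Algebra K Ω]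
    (hK : ∀ c : K, c ≠ 0 → v (algebraMap K Ω c) = 0) {e : Ω} (halg : IsAlgebraic K e)
    (hv : VPos v e) : e = 0 := by
  by_contra h0
  have hint : IsIntegral K e := halg.isIntegral
  have hge : v.Ge 0 e := fun h => (hv h).le
  have hKge : ∀ c : K, v.Ge 0 (algebraMap K Ω c) := by
    intro c hc
    have : c ≠ 0 := by rintro rfl; exact hc (map_zero _)
    rw [hK c this]
  have hP := minpoly.aeval K e
  have hP0 : (minpoly K e).coeff 0 ≠ 0 := minpoly.coeff_zero_ne_zero hint h0
  have hX : minpoly K e = X * (minpoly K e).divX + C ((minpoly K e).coeff 0) :=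
    ((minpoly K e).X_mul_divX_add).symm
  rw [hX, map_add, map_mul, aeval_X, aeval_C] at hP
  have hQ : v.Ge 0 (aeval e (minpoly K e).divX) := by
    rw [Polynomial.aeval_eq_sum_range]
    have h1 : ∀ n : ℕ, v.Ge 0 (e ^ n) := by
      intro n
      induction n with
      | zero => rw [pow_zero]; intro _; rw [v.map_one]
      | succ n ih => rw [pow_succ]; simpa using ih.mul hge
    refine RVal.Ge.sum _ _ fun i _ => ?_
    rw [Algebra.smul_def]
    simpa using (hKge _).mul (h1 i)
  have h2 : VPos v (e * aeval e (minpoly K e).divX) := hv.mul hQ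
  have h3 : algebraMap K Ω ((minpoly K e).coeff 0) = -(e * aeval e (minpoly K e).divX) :=
    eq_neg_of_add_eq_zero_right hP
  have h4 : VPos v (algebraMap K Ω ((minpoly K e).coeff 0)) := by
    rw [h3]
    exact h2.neg
  have h5 := h4 (by simpa using hP0)
  rw [hK _ hP0] at h5
  exact lt_irrefl _ h5

/-- ST3. The coefficient field of a C-frame is algebraically closed in the field of the frame. -/
theorem CF.alg_mem (X : CF k v r) {e : Ω} (he : e ∈ X.E) (halg : IsAlgebraic X.C e) :
    e ∈ X.C := by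
  obtain ⟨a, ha, b, hb, hb0, hab⟩ := mem_quoK.1 he
  have hint : IsIntegral X.B.R e := by
    have h1 : IsIntegral X.C e := halg.isIntegral
    exact h1.tower_top
  have heR : e ∈ X.B.R := X.B.normal2 X.ctx hint ha hb hb0 hab
  obtain ⟨c, hc⟩ := X.res e heR
  have h2 : IsAlgebraic X.C (e - algebraMap X.C Ω c) := halg.sub (isAlgebraic_algebraMap c)
  have h3 := ST3Aux.eq_zero_of_vpos X.ctx.triv h2 hc
  rw [sub_eq_zero] at h3
  rw [h3]
  exact c.2

/-- ST4 (CL).  [`BF.normal2`.] -/
theorem BF.cl {C : IntermediateField k Ω} (h : Ctx2 C v r) (B : BF C v)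
    (C₁ : IntermediateField k Ω) (hC₁ : ∀ c ∈ C₁, c ∈ B.R) {e : Ω} (he : e ∈ quoK B.R)
    (hsep : IsSeparable C₁ e) : e ∈ B.R := by
  obtain ⟨a, ha, b, hb, hb0, hab⟩ := mem_quoK.1 he
  refine B.normal2 h ?_ ha hb hb0 hab
  obtain ⟨P, hP, h0⟩ := IsSeparable.isIntegral hsep
  let φ : C₁ →+* B.R := (algebraMap C₁ Ω).codRestrict B.R.toSubring (fun c => hC₁ _ c.2)
  refine ⟨P.map φ, hP.map _, ?_⟩
  rw [eval₂_map]
  exact h0

theorem IsGStep.quoK_eq {C : IntermediateField k Ω} {B B' : BF C v} {q : ℕ} {M : B.R[X]}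
    {s : ℝ → ℤ → ℤ} (h : IsGStep B B' q M s) : quoK B'.R = quoK B.R := by
  rw [quoK, quoK, h.ext.quo_eq]

end Coeff

end Pool.Agent.LU1
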