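import Pool.Agent.Lib.LU2_h80.ST_3
import Pool.Agent.Lib.LU2_h15z.Normal

/-! # LU2, ST: structure of growth steps -/

set_option autoImplicit false

open Polynomial

namespace Pool.Agent.LU1

open Pool.Agent.H15JM (RVal)

universe u

section Coeff

variable {k Ω : Type u} [Field k] [Field Ω] [Algebra k Ω] {v : RVal Ω} {r d : ℕ}

/-- ST5. -/
theorem IsGrow.coeff_mem {X Y : CF k v r} {B : BF X.C v} {C₁ : IntermediateField k Ω} {θ : Ω}
    (h : IsGrow X Y B C₁ θ) (i : ℕ) : ((minpoly X.E θ).coeff i : Ω) ∈ B.R := by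
  obtain ⟨q, M, s, hg⟩ := h.gstep
  have hE : quoK B.R = X.E := hg.quoK_eq
  have hle : C₁ ≤ X.E := by
    intro c hc
    rw [← hE, quoK, IntermediateField.mem_restrictScalars]
    exact le_quo (h.estep.C₁_le c hc)
  have hsep := h.estep.sep
  have hint : IsIntegral C₁ θ := hsep.isIntegral
  refine BF.cl X.ctx B C₁ h.estep.C₁_le ?_ ?_
  · rw [hE]
    exact ((minpoly X.E θ).coeff i).2
  -- separability of the coefficients
  let ι : C₁ →+* X.E := (IntermediateField.inclusion hle).toRingHom
  let N := AlgebraicClosure Ω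
  let j : Ω →+* N := algebraMap Ω N
  have hj : ∀ c : C₁, algebraMap C₁ N c = j (algebraMap C₁ Ω c) := fun c =>
    IsScalarTower.algebraMap_apply C₁ Ω N c
  let S : IntermediateField C₁ N := separableClosure C₁ N
  let P : N[X] := (minpoly X.E θ).map (j.comp (algebraMap X.E Ω))
  have hPm : P.Monic := (minpoly.monic (A := X.E) (x := θ) (by
    have h1 : IsIntegral X.E θ := by
      refine ⟨(minpoly C₁ θ).map ι, (minpoly.monic hint).map _, ?_⟩
      rw [eval₂_map]
      exact minpoly.aeval C₁ θ
    exact h1)).map _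
  have hdvd : P ∣ (minpoly C₁ θ).map (algebraMap C₁ N) := by
    have h1 : minpoly X.E θ ∣ (minpoly C₁ θ).map ι := by
      apply minpoly.dvd
      rw [aeval_def, eval₂_map]
      exact minpoly.aeval C₁ θ
    have h2 := Polynomial.map_dvd (j.comp (algebraMap X.E Ω)) h1
    rw [Polynomial.map_map] at h2
    have h3 : (j.comp (algebraMap X.E Ω)).comp ι = algebraMap C₁ N := RingHom.ext fun c =>
      (hj c).symm
    rw [h3] at h2
    exact h2
  have hroot : ∀ a ∈ P.roots, a ∈ S := by
    intro a ha
    have h1 : aeval a (minpoly C₁ θ) = 0 := by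
      have h2 : IsRoot ((minpoly C₁ θ).map (algebraMap C₁ N)) a :=
        (isRoot_of_mem_roots ha).dvd hdvd
      rw [IsRoot.def, eval_map, ← aeval_def] at h2
      exact h2
    rw [mem_separableClosure_iff]
    exact hsep.of_dvd (minpoly.dvd _ _ h1)
  have hsplit : P.Splits := IsAlgClosed.splits P
  have hcoeff : P.coeff i ∈ S := by
    rw [hsplit.eq_prod_roots_of_monic hPm]
    have h3 : ∀ m : Multiset N, (∀ a ∈ m, a ∈ S) → ∀ i,
        ((m.map fun a => (Polynomial.X - C a : N[X])).prod).coeff i ∈ S := by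
      intro m hm
      have h4 : (m.map fun a => (Polynomial.X - C a : N[X])).prod ∈ Polynomial.lifts S.val.toRingHom := by
        apply multiset_prod_mem
        intro f hf
        obtain ⟨a, ha, rfl⟩ := Multiset.mem_map.1 hf
        refine ⟨Polynomial.X - C ⟨a, hm a ha⟩, ?_⟩
        simp
      obtain ⟨f, hf⟩ := h4
      intro i
      rw [← hf]
      rw [Polynomial.coe_mapRingHom, coeff_map]
      exact (f.coeff i).2
    exact h3 _ hroot i
  have h5 : P.coeff i = j (((minpoly X.E θ).coeff i : X.E) : Ω) := by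
    rw [coeff_map]
    rfl
  rw [h5, mem_separableClosure_iff, IsSeparable] at hcoeff
  have h6 : minpoly C₁ (j (((minpoly X.E θ).coeff i : X.E) : Ω)) =
      minpoly C₁ (((minpoly X.E θ).coeff i : X.E) : Ω) :=
    minpoly.algebraMap_eq (B := Ω) (B' := N) j.injective _
  rw [h6] at hcoeff
  exact hcoeff

end Coeff

end Pool.Agent.LU1
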