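import Pool.Agent.Lib.LU2_h80.EStep
import Pool.Agent.Lib.LU2_h80.ST_3
import Pool.Agent.Lib.LU2_h80.ST_5

/-! # LU2, ST: structure of growth steps -/
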