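import Pool.Agent.Lib.LU2_h80.ED
import Pool.Agent.Lib.LU2_h80.Struct
import Pool.Agent.Lib.LU2_h80.EX_7

/-! # LU2, MA1, MA2, MA3: descent data for towers -/

set_option autoImplicit false

open Polynomial

namespace Pool.Agent.LU1

open Pool.Agent.H15JM (RVal)

universe u

variable {k Ω : Type u} [Field k] [Field Ω] [Algebra k Ω] {v : RVal Ω} {r d : ℕ}

/-- `B` contains `B₀`, the monomials of `B₀` are monomial in `B`, and the elements of positive
value of `B₀.R` are divisible by monomials of positive value in `B`. -/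
structure Above (B₀ B : BF k v) : Prop where
  le : B₀.R ≤ B.R
  mono : ∀ f, B₀.Mono f → B.Mono f
  pos : ∀ s ∈ B₀.R, VPos v s → ∃ γ ∈ B.Γ, 0 < γ ∧ ∃ a ∈ B.R, s = B.χ γ * a

/-- `A` is a finitely generated subalgebra of the valuation ring with field of fractions `E`. -/
structure Model (v : RVal Ω) (A : Subalgebra k Ω) (E : IntermediateField k Ω) : Prop where
  fg : A.FG
  mem : ∀ a ∈ A, a ∈ E
  ge : ∀ a ∈ A, v.Ge 0 a
  frac : ∀ g ∈ E, ∃ a ∈ A, ∃ b ∈ A, b ≠ 0 ∧ g = a / b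

theorem le_adjA (A : Subalgebra k Ω) (θ : Ω) : A ≤ adjA A θ := le_sup_left

theorem mem_adjA (A : Subalgebra k Ω) (θ : Ω) : θ ∈ adjA A θ :=
  (le_sup_right : Algebra.adjoin k {θ} ≤ adjA A θ) (Algebra.self_mem_adjoin_singleton k θ)

theorem adjA_le {A R : Subalgebra k Ω} {θ : Ω} (h : A ≤ R) (hθ : θ ∈ R) : adjA A θ ≤ R :=
  sup_le h (Algebra.adjoin_le (Set.singleton_subset_iff.2 hθ))

theorem le_adjZ (A : Subalgebra k Ω) (Z : Finset Ω) : A ≤ adjZ A Z := le_sup_left

theorem mem_adjZ (A : Subalgebra k Ω) {Z : Finset Ω} {z : Ω} (h : z ∈ Z) : z ∈ adjZ A Z :=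
  (le_sup_right : Algebra.adjoin k (Z : Set Ω) ≤ adjZ A Z) (Algebra.subset_adjoin h)

theorem adjZ_le {A R : Subalgebra k Ω} {Z : Finset Ω} (h : A ≤ R) (hZ : ∀ z ∈ Z, z ∈ R) :
    adjZ A Z ≤ R :=
  sup_le h (Algebra.adjoin_le fun z hz => hZ z hz)

/-- `θ` has value `≥ 0`. -/
theorem NearGen.ge {E : IntermediateField k Ω} {θ : Ω} (h : NearGen v E θ) : v.Ge 0 θ := by
  refine ge_of_root (f := (minpoly E θ).map (algebraMap E Ω)) ((minpoly.monic h.int).map _)
    (fun i => ?_) ?_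
  · rw [coeff_map]
    exact h.coeff i
  · rw [eval_map_algebraMap, minpoly.aeval]

theorem Model.extend (htriv : ∀ c : k, c ≠ 0 → v (algebraMap k Ω c) = 0)
    {A : Subalgebra k Ω} {E : IntermediateField k Ω} (hA : Model v A E) {θ : Ω}
    (hθ : v.Ge 0 θ) : Model v (adjA A θ) (adj E θ) where
  fg := hA.fg.sup (Subalgebra.fg_adjoin_finset {θ} |> fun h => by simpa using h)
  mem := by
    intro a ha
    have h1 : adjA A θ ≤ (adj E θ).toSubalgebra :=
      adjA_le (fun x hx => mem_adj_left (hA.mem x hx)) (mem_adj_self E θ)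
    exact h1 ha
  ge := by
    intro a ha
    have h2 : adjA A θ = Algebra.adjoin k ((A : Set Ω) ∪ {θ}) := by
      rw [adjA, Algebra.adjoin_union, Algebra.adjoin_eq]
    rw [h2] at ha
    induction ha using Algebra.adjoin_induction with
    | mem x hx =>
      rcases hx with hx | hx
      · exact hA.ge x hx
      · rw [Set.mem_singleton_iff.1 hx]
        exact hθ
    | algebraMap c =>
      intro h0
      have hc : c ≠ 0 := by
        rintro rfl
        simp at h0
      rw [htriv c hc]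
    | add x y _ _ hx hy => exact hx.add hy
    | mul x y _ _ hx hy => simpa using hx.mul hy
  frac := by
    have h := fracIs_of (R := A) (R' := adjA A θ) (E := E) ⟨hA.mem, hA.frac⟩ (le_adjA A θ)
      (θ := θ) ⟨θ, mem_adjA A θ, 1, (adjA A θ).one_mem, one_ne_zero, by rw [div_one]⟩
      (by
        intro a ha
        have h1 : adjA A θ ≤ (LU1.adj E θ).toSubalgebra :=
          adjA_le (fun x hx => mem_adj_left (hA.mem x hx)) (mem_adj_self E θ)
        exact h1 ha)
    exact h.2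

/-- Finitely many elements whose monomiality gives `A ≤ B₀.R`. -/
theorem Model.exists_T {A : Subalgebra k Ω} {E : IntermediateField k Ω} (hA : Model v A E) :
    ∃ T : Finset Ω, (∀ t ∈ T, t ∈ E ∧ t ≠ 0) ∧
      ∀ B₀ : BF k v, (∀ t ∈ T, B₀.Mono t) → A ≤ B₀.R := by
  classical
  obtain ⟨F, hF⟩ := hA.fg
  have hFA : ∀ f ∈ F, f ∈ A := fun f hf => by
    rw [← hF]
    exact Algebra.subset_adjoin hf
  refine ⟨F.filter (· ≠ 0), ?_, ?_⟩
  · intro t ht
    rw [Finset.mem_filter] at ht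
    exact ⟨hA.mem t (hFA t ht.1), ht.2⟩
  · intro B₀ hB
    rw [← hF, Algebra.adjoin_le_iff]
    intro f hf
    by_cases h0 : f = 0
    · rw [h0]
      exact B₀.R.zero_mem
    · exact (hB f (Finset.mem_filter.2 ⟨hf, h0⟩)).mem (hA.ge f (hFA f hf) h0)

/-- The coefficients of a polynomial as a finite set. -/
theorem exists_coeffs {E : IntermediateField k Ω} (P : E[X]) :
    ∃ Z : Finset Ω, (∀ i, (P.coeff i : Ω) ∈ Z) ∧ ∀ z ∈ Z, ∃ i, z = (P.coeff i : Ω) := by
  classical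
  refine ⟨(Finset.range (P.natDegree + 2)).image fun i => (P.coeff i : Ω), ?_, ?_⟩
  · intro i
    rw [Finset.mem_image]
    rcases lt_or_ge i (P.natDegree + 2) with h | h
    · exact ⟨i, Finset.mem_range.2 h, rfl⟩
    · refine ⟨P.natDegree + 1, Finset.mem_range.2 (by omega), ?_⟩
      rw [coeff_eq_zero_of_natDegree_lt (show P.natDegree < P.natDegree + 1 by omega),
        coeff_eq_zero_of_natDegree_lt (show P.natDegree < i by omega)]
  · intro z hz
    rw [Finset.mem_image] at hz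
    obtain ⟨i, -, rfl⟩ := hz
    exact ⟨i, rfl⟩

/-- MA1. The descent data for a near tower, from monomiality of finitely many elements. -/
theorem exists_chain_near (htriv : ∀ c : k, c ≠ 0 → v (algebraMap k Ω c) = 0)
    {E E' : IntermediateField k Ω} (hT : NearTow v E E') {A : Subalgebra k Ω}
    (hA : Model v A E) :
    ∃ (A' : Subalgebra k Ω) (T : Finset Ω), Model v A' E' ∧ (∀ t ∈ T, t ∈ E' ∧ t ≠ 0) ∧
      ∀ B₀ B : BF k v, Above B₀ B → (∀ t ∈ T, B₀.Mono t) →
        EDChain B E A E' A' ∧ A' ≤ B₀.R := by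
  classical
  unfold NearTow at hT
  induction hT using Relation.ReflTransGen.head_induction_on generalizing A with
  | refl =>
    obtain ⟨T, h1, h2⟩ := hA.exists_T
    exact ⟨A, T, hA, h1, fun B₀ B hB hT => ⟨EDChain.refl _ _, h2 B₀ hT⟩⟩
  | head hE hE' ih =>
    rename_i E E₁
    obtain ⟨θ, hθ, rfl⟩ := hE
    have hle : adj E θ ≤ E' := NearTow.le hE'
    obtain ⟨A', T₁, hA', hT₁, hch⟩ := ih (hA.extend htriv hθ.ge)
    obtain ⟨T₂, hT₂, hA2⟩ := hA.exists_T
    obtain ⟨Z₁, hZ₁, hZ₁'⟩ := exists_coeffs (minpoly E θ)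
    obtain ⟨c, hc, hcn⟩ := hθ.near
    -- the set of elements of `E` that occur
    set Z : Finset Ω := insert c Z₁ with hZ
    have hZE : ∀ z ∈ Z, z ∈ E ∧ v.Ge 0 z := by
      intro z hz
      rw [hZ, Finset.mem_insert] at hz
      rcases hz with rfl | hz
      · refine ⟨hc, ?_⟩
        have h1 := hθ.ge.add hcn.neg.ge
        have h2 : θ + -(θ - z) = z := by ring
        rwa [h2] at h1
      · obtain ⟨i, rfl⟩ := hZ₁' z hz
        exact ⟨((minpoly E θ).coeff i).2, hθ.coeff i⟩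
    -- denominators
    choose! a ha b hb hb0 hab using hA.frac
    refine ⟨A', T₁ ∪ T₂ ∪ Z.filter (· ≠ 0) ∪ Z.image b ∪ ({θ} : Finset Ω).filter (· ≠ 0),
      hA', ?_, ?_⟩
    · intro t ht
      simp only [Finset.mem_union, Finset.mem_filter, Finset.mem_image, Finset.mem_singleton] at ht
      rcases ht with (((ht | ht) | ht) | ht) | ht
      · exact hT₁ t ht
      · exact ⟨hle (mem_adj_left (hT₂ t ht).1), (hT₂ t ht).2⟩
      · exact ⟨hle (mem_adj_left (hZE t ht.1).1), ht.2⟩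
      · obtain ⟨z, hz, rfl⟩ := ht
        exact ⟨hle (mem_adj_left (hA.mem _ (hb z (hZE z hz).1))), hb0 z (hZE z hz).1⟩
      · exact ⟨by rw [ht.1]; exact hle (mem_adj_self E θ), ht.2⟩
    · intro B₀ B hB hT
      have hm1 : ∀ t ∈ T₁, B₀.Mono t := fun t ht => hT t (by simp [ht])
      have hm2 : ∀ t ∈ T₂, B₀.Mono t := fun t ht => hT t (by simp [ht])
      have hm3 : ∀ z ∈ Z, z ≠ 0 → B₀.Mono z := fun t ht h0 => hT t (by
        simp only [Finset.mem_union, Finset.mem_filter]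
        exact Or.inl (Or.inl (Or.inr ⟨ht, h0⟩)))
      have hm4 : ∀ z ∈ Z, B₀.Mono (b z) := fun t ht => hT _ (by
        simp only [Finset.mem_union, Finset.mem_image]
        exact Or.inl (Or.inr ⟨t, ht, rfl⟩))
      have hm5 : θ ≠ 0 → B₀.Mono θ := fun h0 => hT θ (by
        exact Finset.mem_union_right _ (Finset.mem_filter.2 ⟨Finset.mem_singleton_self θ, h0⟩))
      obtain ⟨hch1, hch2⟩ := hch B₀ B hB hm1
      refine ⟨EDChain.step θ Z ?_ hch1, hch2⟩
      have hAB := hA2 B₀ hm2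
      have hZB : ∀ z ∈ Z, z ∈ B₀.R := by
        intro z hz
        by_cases h0 : z = 0
        · rw [h0]
          exact B₀.R.zero_mem
        · exact (hm3 z hz h0).mem ((hZE z hz).2 h0)
      exact {
        fg := hA.fg
        A_le := fun f hf => ⟨hA.mem f hf, hB.le (hAB hf)⟩
        frac := hA.frac
        Z_mem := fun z hz => ⟨(hZE z hz).1, hB.le (hZB z hz), a z, ha z (hZE z hz).1, b z,
          hb z (hZE z hz).1, hb0 z (hZE z hz).1, hB.mono _ (hm4 z hz), hab z (hZE z hz).1⟩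
        int := hθ.int
        coeff := fun i => mem_adjZ A (by
          rw [hZ]
          exact Finset.mem_insert_of_mem (hZ₁ i))
        der_ne := hθ.der_ne
        der := hθ.der
        near := ⟨c, mem_adjZ A (by rw [hZ]; exact Finset.mem_insert_self _ _), hcn⟩
        θ_mem := by
          by_cases h0 : θ = 0
          · rw [h0]
            exact B.R.zero_mem
          · exact hB.le ((hm5 h0).mem (hθ.ge h0))
        pos := fun s hs hv => hB.pos s (adjZ_le hAB hZB hs) hv }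

/-- `v` is trivial on `k`. -/
theorem CF.triv (X : CF k v r) (c : k) (hc : c ≠ 0) : v (algebraMap k Ω c) = 0 := by
  have h := X.ctx.triv (algebraMap k X.C c) (by
    intro h0
    exact hc ((map_eq_zero (algebraMap k X.C)).1 h0))
  rwa [← IsScalarTower.algebraMap_apply] at h

/-- MA2. One growth step. -/
theorem IsGrow.edData {X Y : CF k v r} {B₁ : BF X.C v} {C₁ : IntermediateField k Ω} {θ : Ω}
    (hG : IsGrow X Y B₁ C₁ θ) {A : Subalgebra k Ω} (hA : Model v A X.E)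
    (B₀ B : BF k v) (hA0 : A ≤ B₀.R) (hB : Above B₀ B)
    (hY : ∀ f ∈ Y.B.R, f ∈ B₀.R) (hM : ∀ f, Y.B.Mono f → B₀.Mono f)
    (hQR : ∀ f ∈ X.B.R, QR A B.MonoS f) :
    ∃ Z : Finset Ω, EDData B X.E A θ Z ∧ Model v (adjA A θ) Y.E ∧
      adjA A θ ≤ B₀.R ∧ ∀ f ∈ Y.B.R, QR (adjA A θ) B.MonoS f := by
  classical
  obtain ⟨q, M, s, hg⟩ := hG.gstep
  have hE := hG.estep
  obtain ⟨h1, h2⟩ := hG.extK
  have hn : NearGen v X.E θ := hG.nearGen
  have hMB : ∀ f, B₁.Mono f → f ∈ B.MonoS := fun f hf => hB.mono f (hM f (h2.mono hf))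
  have hQ1 : ∀ f ∈ B₁.R, QR A B.MonoS f := hg.qr B.mulSet' hMB hQR
  have hMY : ∀ f, Y.B.Mono f → f ∈ B.MonoS := fun f hf => hB.mono f (hM f hf)
  have hQY : ∀ f ∈ Y.B.R, QR (adjA A θ) B.MonoS f := hE.qr B.mulSet' hMY hQ1
  have hB1 : ∀ f ∈ B₁.R, f ∈ B₀.R := fun f hf => hY f (h2.le f hf)
  obtain ⟨Z₁, hZ₁, hZ₁'⟩ := exists_coeffs (minpoly X.E θ)
  obtain ⟨c, hc, hcn⟩ := hE.near
  have hB1E : ∀ f ∈ B₁.R, f ∈ X.E := by
    intro f hf
    rw [CF.E, ← hg.quoK_eq, mem_quoK]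
    exact ⟨f, hf, 1, B₁.R.one_mem, one_ne_zero, by rw [div_one]⟩
  have hθY : θ ∈ Y.B.R := by
    rw [hE.R_eq]
    exact le_locv _ (Algebra.subset_adjoin (Or.inr rfl))
  set Z : Finset Ω := insert c Z₁ with hZ
  have hZ1 : ∀ z ∈ Z, z ∈ B₁.R := by
    intro z hz
    rw [hZ, Finset.mem_insert] at hz
    rcases hz with rfl | hz
    · exact hc
    · obtain ⟨i, rfl⟩ := hZ₁' z hz
      exact hG.coeff_mem i
  refine ⟨Z, ?_, ?_, adjA_le hA0 (hY θ hθY), hQY⟩
  · exact {
      fg := hA.fg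
      A_le := fun f hf => ⟨hA.mem f hf, hB.le (hA0 hf)⟩
      frac := hA.frac
      Z_mem := fun z hz => ⟨hB1E z (hZ1 z hz), hB.le (hB1 z (hZ1 z hz)), hQ1 z (hZ1 z hz)⟩
      int := hn.int
      coeff := fun i => mem_adjZ A (by
        rw [hZ]
        exact Finset.mem_insert_of_mem (hZ₁ i))
      der_ne := hn.der_ne
      der := hn.der
      near := ⟨c, mem_adjZ A (by rw [hZ]; exact Finset.mem_insert_self _ _), hcn⟩
      θ_mem := hB.le (hY θ hθY)
      pos := fun s hs hv => hB.pos s (adjZ_le hA0 (fun z hz => hB1 z (hZ1 z hz)) hs) hv }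
  · rw [hG.E_eq]
    exact hA.extend X.triv hn.ge

/-- MA3. Towers of growth steps. -/
theorem exists_chain_grow {X Y : CF k v r} (hG : Relation.ReflTransGen Grow X Y)
    {A : Subalgebra k Ω} (hA : Model v A X.E) (B₀ B : BF k v) (hA0 : A ≤ B₀.R)
    (hB : Above B₀ B) (hY : ∀ f ∈ Y.B.R, f ∈ B₀.R) (hM : ∀ f, Y.B.Mono f → B₀.Mono f)
    (hQR : ∀ f ∈ X.B.R, QR A B.MonoS f) :
    ∃ A' : Subalgebra k Ω, EDChain B X.E A Y.E A' ∧ ∀ f ∈ Y.B.R, QR A' B.MonoS f := by
  induction hG using Relation.ReflTransGen.head_induction_on generalizing A with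
  | refl => exact ⟨A, EDChain.refl _ _, hQR⟩
  | head h h' ih =>
    obtain ⟨B₁, C₁, θ, hG⟩ := h
    have hx := (grow_tow h').1
    obtain ⟨Z, hD, hMo, hle, hQ⟩ := hG.edData hA B₀ B hA0 hB (fun f hf => hY f (hx.le f hf))
      (fun f hf => hM f (hx.mono hf)) hQR
    obtain ⟨A', hch, hQ'⟩ := ih hMo hle hQ
    refine ⟨A', EDChain.step θ Z hD ?_, hQ'⟩
    rw [← hG.E_eq]
    exact hch

end Pool.Agent.LU1
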