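import Pool.Agent.Lib.LU2_h80.MA_12

/-! # LU2, MA: the real case -/

set_option autoImplicit false

open Polynomial

namespace Pool.Agent.LU1

open Pool.Agent.H15JM (RVal)

universe u

variable {k Ω : Type u} [Field k] [Field Ω] [Algebra k Ω] {v : RVal Ω} {r d : ℕ}

/-- MA4. Finitely many elements whose monomiality makes all elements of `X.B.R` quotients. -/
theorem CF.exists_qr (X : CF k v r) {A : Subalgebra k Ω} (hA : Model v A X.E) :
    ∃ T : Finset Ω, (∀ t ∈ T, t ∈ X.E ∧ t ≠ 0) ∧ ∀ M : Set Ω, MulSet M →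
      (∀ f, X.B.Mono f → f ∈ M) → (∀ t ∈ T, t ∈ M) → ∀ f ∈ X.B.R, QR A M f := by
  classical
  obtain ⟨F, hF⟩ := X.B.fgen
  obtain ⟨G, hG⟩ := X.fg
  obtain ⟨H, hH⟩ := X.B.fg
  have hRE : ∀ f ∈ X.B.R, f ∈ X.E := fun f hf => by
    rw [CF.E, quoK, IntermediateField.mem_restrictScalars]
    exact le_quo hf
  have hCR : ∀ c ∈ X.C, c ∈ X.B.R := fun c hc => X.B.R.algebraMap_mem ⟨c, hc⟩
  have hΓ : ∀ γ ∈ X.B.Γ, X.B.χ γ ∈ X.E := fun γ hγ => by
    rw [CF.E, quoK, IntermediateField.mem_restrictScalars]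
    by_cases h0 : 0 ≤ γ
    · exact le_quo (X.B.χ_mem γ hγ h0)
    · have h1 : X.B.χ γ = (X.B.χ (-γ))⁻¹ := by rw [BF.χ_neg X.B hγ, inv_inv]
      rw [h1]
      exact (quo X.B.R).inv_mem (le_quo (X.B.χ_mem _ (neg_mem hγ) (by linarith)))
  have hFR : ∀ f ∈ F, f ∈ X.B.R := by
    intro f hf
    rw [hF]
    exact le_locv _ (Algebra.subset_adjoin (Or.inl hf))
  have hGC : ∀ g ∈ G, g ∈ X.C := by
    intro g hg
    rw [← hG]
    exact IntermediateField.subset_adjoin _ _ hg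
  have hHΓ : ∀ γ ∈ H, γ ∈ X.B.Γ := by
    intro γ hγ
    rw [← hH]
    exact AddSubgroup.subset_closure hγ
  have hfrac : ∀ g : Ω, ∃ b : Ω, b ∈ A ∧ b ≠ 0 ∧ (g ∈ X.E → ∃ a ∈ A, g = a / b) := by
    intro g
    by_cases hg : g ∈ X.E
    · obtain ⟨a, ha, b, hb, hb0, hab⟩ := hA.frac g hg
      exact ⟨b, hb, hb0, fun _ => ⟨a, ha, hab⟩⟩
    · exact ⟨1, A.one_mem, one_ne_zero, fun h => absurd h hg⟩
  choose den hden1 hden2 hden3 using hfrac
  refine ⟨(F ∪ G ∪ H.image X.B.χ).image den, ?_, ?_⟩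
  · intro t ht
    obtain ⟨g, -, rfl⟩ := Finset.mem_image.1 ht
    exact ⟨hA.mem _ (hden1 g), hden2 g⟩
  intro M hM hMono hT
  have hQ : ∀ g ∈ F ∪ G ∪ H.image X.B.χ, g ∈ X.E → QR A M g := by
    intro g hg hgE
    obtain ⟨a, ha, hab⟩ := hden3 g hgE
    exact ⟨a, ha, den g, hden1 g, hden2 g, hT _ (Finset.mem_image_of_mem den hg), hab⟩
  have hQA : ∀ a ∈ A, QR A M a := fun a ha =>
    ⟨a, ha, 1, A.one_mem, one_ne_zero, hM.one, by rw [div_one]⟩
  have hunM : ∀ f ∈ X.B.R, f ≠ 0 → v f = 0 → f ∈ M := fun f hf h0 h1 =>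
    hMono f (BF.Mono.un (BF.un_of X.B hf h0 h1))
  have hCM : ∀ c ∈ X.C, c ≠ 0 → c ∈ M := fun c hc h0 =>
    hunM c (hCR c hc) h0 (X.ctx.triv ⟨c, hc⟩ (fun h => h0 (congrArg Subtype.val h)))
  have hC : ∀ c ∈ X.C, QR A M c := by
    intro c hc
    rw [← hG] at hc
    induction hc using IntermediateField.adjoin_induction with
    | mem x hx =>
      exact hQ x (by simp [Finset.mem_coe.1 hx]) (hRE x (hCR x (hGC x hx)))
    | algebraMap x => exact hQA _ (A.algebraMap_mem x)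
    | add x y _ _ hx hy => exact hx.add hM hy
    | mul x y _ _ hx hy => exact hx.mul hM hy
    | inv x hx' hx =>
      by_cases h0 : x = 0
      · subst h0
        rw [inv_zero]
        exact hQA _ A.zero_mem
      · rw [hG] at hx'
        exact hx.inv hM h0 (hCM x hx' h0)
  have hχ : ∀ γ ∈ X.B.Γ, QR A M (X.B.χ γ) := by
    intro γ hγ
    rw [← hH] at hγ
    induction hγ using AddSubgroup.closure_induction with
    | mem x hx =>
      refine hQ _ ?_ (hΓ x (hHΓ x hx))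
      exact Finset.mem_union_right _ (Finset.mem_image_of_mem _ hx)
    | zero =>
      rw [BF.χ_zero]
      exact hQA _ A.one_mem
    | add x y hx hy h1 h2 =>
      rw [hH] at hx hy
      rw [X.B.χ_add x hx y hy]
      exact h1.mul hM h2
    | neg x hx h1 =>
      rw [hH] at hx
      rw [BF.χ_neg X.B hx]
      exact h1.inv hM (X.B.χ_ne x hx) (hMono _ (BF.Mono.χ hx))
  intro f hf
  rw [hF] at hf
  refine QR.locv hM (S := (F : Set Ω) ∪ X.B.χ '' {γ | γ ∈ X.B.Γ ∧ 0 ≤ γ}) ?_ hC ?_ f hf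
  · rintro g (hg | ⟨γ, hγ, rfl⟩)
    · exact hQ g (by simp [Finset.mem_coe.1 hg]) (hRE g (hFR g hg))
    · exact hχ γ hγ.1
  · intro g hg h0 h1
    refine hunM g ?_ h0 h1
    rw [hF]
    exact le_locv _ hg


end Pool.Agent.LU1
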