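
import Pool.Agent.Lib.LU2_PI.RepStep

/-! # LU2, ML1: the order after a G-step -/

set_option autoImplicit false

open Polynomial

namespace Pool.Agent.LU1

open Pool.Agent.H15JM (RVal)

universe u

variable {k Ω : Type u} [Field k] [Field Ω] [Algebra k Ω] {v : RVal Ω} {r d : ℕ}

namespace ML_1Aux

/-- Divisible by a monomial of positive value. -/
def Dv (B' : BF k v) (f : Ω) : Prop := ∃ δ ∈ B'.Γ, 0 < δ ∧ ∃ b ∈ B'.R, f = B'.χ δ * b

theorem Dv.mul {B' : BF k v} {f g : Ω} (hf : Dv B' f) (hg : g ∈ B'.R) : Dv B' (f * g) := by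
  obtain ⟨δ, hδ, h0, b, hb, rfl⟩ := hf
  exact ⟨δ, hδ, h0, b * g, B'.R.mul_mem hb hg, by ring⟩

theorem Dv.zero (B' : BF k v) : Dv B' 0 := by
  obtain ⟨m, hm, h1⟩ := B'.full B'.y B'.y_ne
  exact ⟨_, h1, mul_pos (by exact_mod_cast hm) B'.y_pos, 0, B'.R.zero_mem, by rw [mul_zero]⟩

theorem Dv.add {B' : BF k v} {f g : Ω} (hf : Dv B' f) (hg : Dv B' g) : Dv B' (f + g) := by
  wlog hle : hf.choose ≤ hg.choose generalizing f g
  · rw [add_comm]
    exact this hg hf (le_of_not_ge hle)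
  obtain ⟨hδ, h0, b, hb, hfb⟩ := hf.choose_spec
  obtain ⟨hε, h1, c, hc, hgc⟩ := hg.choose_spec
  refine ⟨_, hδ, h0, b + B'.χ (hg.choose - hf.choose) * c, B'.R.add_mem hb
    (B'.R.mul_mem (B'.χ_mem _ (B'.Γ.sub_mem hε hδ) (sub_nonneg.2 hle)) hc), ?_⟩
  rw [mul_add, ← mul_assoc, ← B'.χ_add _ hδ _ (B'.Γ.sub_mem hε hδ), add_sub_cancel, ← hfb, ← hgc]

theorem Dv.sum {B' : BF k v} {ι : Type*} (s : Finset ι) (f : ι → Ω) (h : ∀ i ∈ s, Dv B' (f i)) :
    Dv B' (∑ i ∈ s, f i) := by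
  classical
  induction s using Finset.induction_on with
  | empty => rw [Finset.sum_empty]; exact Dv.zero B'
  | insert a s ha ih =>
    rw [Finset.sum_insert ha]
    exact (h a (Finset.mem_insert_self _ _)).add (ih fun i hi => h i (Finset.mem_insert_of_mem hi))

/-- Elements of positive value of the old ring become divisible by a monomial. -/
theorem dv_of_vpos {B B' : BF k v} {q : ℕ} {M : B.R[X]} {s : ℝ → ℤ → ℤ}
    (hG : IsGStep B B' q M s) {f : Ω} (hf : f ∈ B.R) (hv : VPos v f) : Dv B' f := by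
  obtain ⟨γ, hγ, h0, a, ha, b, hb, rfl⟩ := B.gen f hf hv
  refine Dv.add ⟨γ, hG.Γ_le hγ, h0, B.χ γ / B'.χ γ * a,
    B'.R.mul_mem (hG.ext.χ_un γ hγ).1 (hG.R_le ha), ?_⟩ ⟨v B.y, hG.β_mem, B.y_pos,
    (B.w q) ^ (s 0 1) * b, B'.R.mul_mem (hG.un_w.zpow _).1 (hG.R_le hb), ?_⟩
  · have := B'.χ_ne γ (hG.Γ_le hγ)
    field_simp
  · have h1 := hG.χ_mul B.Γ.zero_mem 1
    rw [B.χ_zero, one_mul, zpow_one, Int.cast_one, one_mul, zero_add] at h1
    calc B.y * b = B'.χ (v B.y) * B.w q ^ s 0 1 * b := by conv_lhs => rw [h1]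
      _ = _ := by ring

theorem natDegree_eq {B : BF k v} {w : Ω} {M M' : B.R[X]} (h : B.IsMin w M) (h' : B.IsMin w M') :
    M.natDegree = M'.natDegree := by
  wlog hle : M.natDegree ≤ M'.natDegree generalizing M M'
  · exact (this h' h (le_of_not_ge hle)).symm
  refine le_antisymm hle (le_of_not_gt fun hlt => ?_)
  have h1 := h'.min M hlt h.vpos M.natDegree
  rw [h.monic.coeff_natDegree, Subalgebra.coe_one] at h1
  exact LU2T.not_vpos_one h1

end ML_1Aux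

open ML_1Aux in
/-- ML1 (step). `f` of order `D ≥ 1` in a frame with residue field `k`; a G-step of ramification
index `q` and residue degree `m = deg M`: the new order is at most `D / (q m)`. -/
theorem BF.Rep.gstep (h : Ctx2 k v r) {B B' : BF k v} (hB : B.Res) {q : ℕ} {M : B.R[X]}
    {s : ℝ → ℤ → ℤ} (hG : IsGStep B B' q M s) {f : Ω} (_hf : f ∈ B.R) {κ : ℝ} {D : ℕ}
    (hR : B.Rep f κ D) : ∃ κ' D', B'.Rep f κ' D' ∧ D' * (q * M.natDegree) ≤ D := by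
  have hwge : v.Ge 0 (B.w q) := fun _ => hG.v_w.ge
  obtain ⟨h0, hm, hi, hv⟩ := LU2T.exists_irreducible h hwge
  have hmin := LU2T.isMin_of_irreducible h B hB hwge hm hi hv
  obtain ⟨B2, hB2⟩ := B.exists_gstep_of h hG.latData hmin
  obtain ⟨κ', D', h1, h2, -⟩ := LU2T.rep_step h hB ⟨hi, hm, hB2⟩ hR
  have hdeg : M.natDegree = h0.natDegree := by
    rw [natDegree_eq hG.isMin hmin, hm.natDegree_map]
  have hΓ : B2.Γ = B'.Γ := by rw [hB2.Γ_eq, hG.Γ_eq]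
  have hχ : ∀ γ ∈ B'.Γ, B2.χ γ = B'.χ γ := by
    intro γ hγ
    obtain ⟨γ0, hγ0, l, rfl⟩ := hG.mem_Γ' hγ
    rw [hG.χ_eq γ0 hγ0 l, hB2.χ_eq γ0 hγ0 l]
  have hRR : B2.R = B'.R := by
    have h3 : B2.χ '' {γ | γ ∈ B2.Γ ∧ 0 ≤ γ} = B'.χ '' {γ | γ ∈ B'.Γ ∧ 0 ≤ γ} := by
      rw [hΓ]
      exact Set.image_congr fun γ hγ => hχ γ hγ.1
    rw [hB2.R_eq, hG.R_eq, h3]
  have hy : Dv B' (B2.y - B'.y) := by
    rw [hB2.y_eq, hG.y_eq, ← map_sub, aeval_eq_sum_range]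
    refine Dv.sum _ _ fun i _ => ?_
    rw [Algebra.smul_def]
    refine Dv.mul ?_ (B'.R.pow_mem hG.un_w.1 i)
    refine dv_of_vpos hG (SetLike.coe_mem _) ?_
    refine hG.isMin.min _ ?_ ?_ i
    · have h3 : 0 < M.natDegree := by rw [hdeg]; exact hi.natDegree_pos
      by_cases h4 : h0.map (algebraMap k B.R) - M = 0
      · rw [h4, natDegree_zero]
        exact h3
      · refine natDegree_lt_natDegree h4 ?_
        rw [degree_eq_natDegree hG.isMin.monic.ne_zero, hdeg, ← hm.natDegree_map (algebraMap k B.R),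
          ← degree_eq_natDegree (hm.map _).ne_zero]
        refine degree_sub_lt_left ?_ (hm.map _).ne_zero ?_
        · rw [degree_eq_natDegree (hm.map _).ne_zero, degree_eq_natDegree hG.isMin.monic.ne_zero,
            hm.natDegree_map, hdeg]
        · rw [(hm.map _).leadingCoeff, hG.isMin.monic.leadingCoeff]
    · rw [map_sub]
      exact hmin.vpos.sub hG.isMin.vpos
  have hyp : ∀ n : ℕ, Dv B' (B2.y ^ n - B'.y ^ n) := by
    intro n
    induction n with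
    | zero => rw [pow_zero, pow_zero, sub_self]; exact Dv.zero B'
    | succ n ih =>
      have h3 : B2.y ^ (n + 1) - B'.y ^ (n + 1) =
          (B2.y ^ n - B'.y ^ n) * B2.y + (B2.y - B'.y) * B'.y ^ n := by ring
      rw [h3]
      exact (ih.mul (by rw [← hRR]; exact B2.y_mem)).add (hy.mul (B'.R.pow_mem B'.y_mem n))
  obtain ⟨hκ', u, hu, δ, hδ, hδ0, a, ha, hf⟩ := h1
  rw [hΓ] at hκ' hδ
  have huR : u ∈ B'.R := by rw [← hRR]; exact hu.1
  have haR : a ∈ B'.R := by rw [← hRR]; exact ha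
  obtain ⟨ε, hε, hε0, b, hb, he⟩ := ((hyp D').mul huR).add
    (⟨δ, hδ, hδ0, a, haR, rfl⟩ : Dv B' (B'.χ δ * a))
  refine ⟨κ', D', ⟨hκ', u, ⟨huR, hu.2⟩, ε, hε, hε0, b, hb, ?_⟩, ?_⟩
  · rw [hf, hχ _ hκ', hχ _ hδ, ← he]
    ring
  · rw [hdeg, mul_comm]
    exact h2

end Pool.Agent.LU1
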