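
import Pool.Agent.Lib.LU2_PI.RepStep

/-! # LU2, ML2: the order drops -/

set_option autoImplicit false

open Polynomial

namespace Pool.Agent.LU1

open Pool.Agent.H15JM (RVal)

universe u

variable {k Ω : Type u} [Field k] [Field Ω] [Algebra k Ω] {v : RVal Ω} {r d : ℕ}

/-- ML2 (stuck). In a frame with residue field `k`, an element of order `D ≥ 1` cannot keep its
order along an infinite chain of T-steps. -/
theorem BF.exists_drop (p : ℕ) (hp : p.Prime) [CharP k p] (h : Ctx2 k v r) (B : BF k v)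
    (hB : B.Res) {f : Ω} (_hf : f ∈ B.R) (_hf0 : f ≠ 0) {κ : ℝ} {D : ℕ} (hD : 0 < D)
    (hR : B.Rep f κ D) :
    ∃ B1 B2 : BF k v, Reach B B1 ∧ B1.Res ∧ (∃ q M s, IsGStep B1 B2 q M s) ∧
      ∃ κ' D', B2.Rep f κ' D' ∧ D' < D := by
  have : Fact p.Prime := ⟨hp⟩
  obtain ⟨B1, B2, q, g, s, κ', D', h1, h2, h3, h4⟩ := LU2T.rep_drop p h B hB hR hD
  have h5 : Reach B B1 ∧ B1.Res := by
    clear h2 h3 h4
    induction h1 with
    | refl => exact ⟨Relation.ReflTransGen.refl, hB⟩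
    | tail _ hN ih =>
      obtain ⟨c, hc⟩ := hN
      exact ⟨ih.1.tail ⟨1, c, _, LU2T.tstep_of_cstep h hc⟩, LU2T.NG.res h ⟨c, hc⟩ ih.2⟩
  exact ⟨B1, B2, h5.1, h5.2, ⟨q, _, s, h2.step⟩, κ', D', h3, h4⟩

end Pool.Agent.LU1
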