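import Pool.Agent.Lib.LU2_h80.GR_A
import Pool.Agent.Lib.LU2_h80.ML_1
import Pool.Agent.Lib.LU2_h80.ML_2

/-! # LU2, ML_3: monomialisation in towers of C-frames -/

set_option autoImplicit false

open Polynomial

namespace Pool.Agent.LU1

open Pool.Agent.H15JM (RVal)

universe u

section Base

variable {k Ω : Type u} [Field k] [Field Ω] [Algebra k Ω] {v : RVal Ω} {r d : ℕ}

/-- A T-step is a C-step of degree one. -/
theorem IsTStep.isCStep {B B' : BF k v} {q : ℕ} {c : k} {s : ℝ → ℤ → ℤ}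
    (h : IsTStep B B' q c s) : LU2T.IsCStep B B' q (X - C c) s := by
  have hw : ∀ P : k[X], aeval (B.w q) (P.map (algebraMap k B.R)) = aeval (B.w q) P :=
    fun P => aeval_map_algebraMap _ _ _
  have h1 : aeval (B.w q) ((X - C c : k[X]).map (algebraMap k B.R)) = B'.y := by
    rw [hw, map_sub, aeval_X, aeval_C, h.y_eq]
  refine ⟨irreducible_X_sub_C c, monic_X_sub_C c, ?_⟩
  refine ⟨h.q_pos, h.q_mem, h.q_min, h.Γ_eq, h.s_add, h.s_one, ⟨(monic_X_sub_C c).map _, ?_, ?_⟩,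
    h1.symm, h.χ_eq, h.R_eq⟩
  · rw [h1]
    exact fun _ => B'.y_pos
  · intro P hP hv i
    rw [(monic_X_sub_C c).natDegree_map, natDegree_X_sub_C, Nat.lt_one_iff] at hP
    rw [Polynomial.eq_C_of_natDegree_eq_zero hP] at hv ⊢
    rw [aeval_C] at hv
    rw [coeff_C]
    split_ifs
    · exact hv
    · exact VPos.zero

theorem TStep.res (hC : Ctx2 k v r) {B B' : BF k v} (hB : B.Res) (hT : TStep B B') :
    B'.Res := by
  obtain ⟨q, c, s, h⟩ := hT
  have hG := h.isCStep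
  intro f hf
  obtain ⟨T, hT⟩ := hG.exists_residue hC hB hf
  refine ⟨T.eval c, ?_⟩
  have h1 : (X - C c) ∣ T - C (T.eval c) := by
    rw [dvd_iff_isRoot, IsRoot.def, eval_sub, eval_C, sub_self]
  rw [← hG.vpos_iff hC, map_sub, aeval_C] at h1
  have := hT.add h1
  rwa [sub_add_sub_cancel] at this

/-- ML3. A frame reached by T-steps without growth from a C-frame is a C-frame. -/
theorem Reach.res (h : Ctx2 k v r) {B B' : BF k v} (hB : B.Res) (hR : Reach B B') : B'.Res := by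
  induction hR with
  | refl => exact hB
  | tail _ hT ih => exact TStep.res h ih hT

/-- An element of order `0` is a monomial. -/
theorem BF.Rep.mono_zero {B : BF k v} {f : Ω} {κ : ℝ} (h : B.Rep f κ 0) : B.Mono f := by
  obtain ⟨hκ, u, hu, δ, hδ, h0, a, ha, rfl⟩ := h
  rw [pow_zero, mul_one]
  refine BF.mono_iff.2 ⟨κ, hκ, u + B.χ δ * a, hu.add_vpos ?_ ?_, rfl⟩
  · exact B.R.mul_mem (B.χ_mem δ hδ h0.le) ha
  · exact (B.vpos_χ hδ h0).mul (B.nonneg a ha)

end Base

section Tower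

variable {k Ω : Type u} [Field k] [Field Ω] [Algebra k Ω] {v : RVal Ω} {r d : ℕ}

/-- ML4. A T-step of C-frames is a growth step (with `θ = 0`). -/
theorem CF.grow_of_tstep (X : CF k v r) {B : BF X.C v} (hT : TStep X.B B) (hB : B.Res) :
    Grow X ⟨X.C, X.fg, X.ctx, B, hB⟩ := by
  obtain ⟨q, c, s, h⟩ := hT
  refine ⟨B, X.C, 0, ⟨⟨q, _, s, h.isCStep.step⟩, ?_⟩⟩
  refine ⟨fun c hc => B.R.algebraMap_mem ⟨c, hc⟩, ?_, ?_, ⟨0, B.R.zero_mem, ?_⟩, rfl, rfl, rfl, ?_⟩
  · have h1 := isSeparable_algebraMap (F := X.C) (K := Ω) (0 : X.C)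
    rwa [map_zero] at h1
  · exact le_antisymm (le_adj _ _) (adj_le le_rfl X.C.zero_mem)
  · rw [sub_self]
    exact VPos.zero
  · intro f
    have h1 : Algebra.adjoin X.C ((B.R : Set Ω) ∪ {0}) = B.R := by
      apply le_antisymm
      · refine Algebra.adjoin_le ?_
        rintro x (hx | rfl)
        · exact hx
        · exact B.R.zero_mem
      · intro x hx
        exact Algebra.subset_adjoin (Or.inl hx)
    rw [h1, B.locv_R]

theorem CF.grow_of_reach (X : CF k v r) {B : BF X.C v} (hR : Reach X.B B) :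
    ∀ hB : B.Res, Relation.ReflTransGen Grow X ⟨X.C, X.fg, X.ctx, B, hB⟩ := by
  induction hR with
  | refl => exact fun _ => Relation.ReflTransGen.refl
  | tail hR hT ih =>
    intro hB
    have hB' := Reach.res X.ctx X.res hR
    exact (ih hB').tail (CF.grow_of_tstep ⟨X.C, X.fg, X.ctx, _, hB'⟩ hT hB)

/-- ML5. One element. -/
theorem CF.ml_one (p : ℕ) (hp : p.Prime) [CharP k p] [PerfectField k] [IsAlgClosed Ω]
    (h : CtxD k v r d) (X : CF k v r) {f : Ω} (hf : f ∈ X.B.R) (hf0 : f ≠ 0) :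
    ∃ Y, Relation.ReflTransGen Grow X Y ∧ Y.B.Mono f := by
  obtain ⟨κ, D, -, hrep⟩ := X.B.rep_exists2 X.ctx hf hf0
  induction D using Nat.strong_induction_on generalizing X κ with
  | _ D ih =>
    rcases Nat.eq_zero_or_pos D with rfl | hD
    · exact ⟨X, Relation.ReflTransGen.refl, hrep.mono_zero⟩
    · have hchar : CharP X.C p := charP_of_injective_algebraMap (algebraMap k X.C).injective p
      obtain ⟨B1, B2, hR1, hRes, ⟨q, M, s, hG⟩, κ', D', hrep', hlt⟩ :=
        BF.exists_drop p hp X.ctx X.B X.res hf hf0 hD hrep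
      obtain ⟨Y, C₁, θ, hE⟩ := BF.exists_estep h X.fg X.ctx B2
      have hle : ∀ g ∈ B2.R, g ∈ Y.B.R := by
        intro g hg
        rw [hE.R_eq]
        exact le_locv _ (Algebra.subset_adjoin (Or.inl hg))
      have hf2 : f ∈ B2.R := by
        have h1 : Ext X.B B1 := hR1.ext
        exact hG.R_le (h1.le hf)
      have hrepY : Y.B.Rep f κ' D' := by
        obtain ⟨hκ, u, hu, δ, hδ, h0, a, ha, h1⟩ := hrep'
        refine ⟨by rw [hE.Γ_eq]; exact hκ, u, ⟨hle u hu.1, hu.2⟩, δ, by rw [hE.Γ_eq]; exact hδ, h0,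
          a, hle a ha, ?_⟩
        rw [hE.χ_eq, hE.y_eq]
        exact h1
      obtain ⟨Z, hZ, hZM⟩ := ih D' hlt Y (hle f hf2) κ' hrepY
      refine ⟨Z, ?_, hZM⟩
      exact (CF.grow_of_reach X hR1 hRes).trans
        (Relation.ReflTransGen.head ⟨B2, C₁, θ, ⟨q, M, s, hG⟩, hE⟩ hZ)

/-- ML6. -/
theorem CF.ml (p : ℕ) (hp : p.Prime) [CharP k p] [PerfectField k] [IsAlgClosed Ω]
    (h : CtxD k v r d) (X : CF k v r) (T : Finset Ω) (hT : ∀ f ∈ T, f ∈ X.E ∧ f ≠ 0) :
    ∃ Y, Relation.ReflTransGen Grow X Y ∧ ∀ f ∈ T, Y.B.Mono f := by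
  classical
  induction T using Finset.induction_on with
  | empty => exact ⟨X, Relation.ReflTransGen.refl, by simp⟩
  | insert t T _ ih =>
    obtain ⟨Y, hY, hYM⟩ := ih fun f hf => hT f (Finset.mem_insert_of_mem hf)
    obtain ⟨htE, ht0⟩ := hT t (Finset.mem_insert_self t T)
    obtain ⟨a, ha, b, hb, hb0, rfl⟩ := mem_quoK.1 htE
    have ha0 : a ≠ 0 := by
      rintro rfl
      rw [zero_div] at ht0
      exact ht0 rfl
    have hE1 := (grow_tow hY).1
    obtain ⟨Y1, hY1, hY1M⟩ := CF.ml_one p hp h Y (hE1.le a ha) ha0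
    have hE2 := (grow_tow hY1).1
    obtain ⟨Y2, hY2, hY2M⟩ := CF.ml_one p hp h Y1 (hE2.le b (hE1.le b hb)) hb0
    have hE3 := (grow_tow hY2).1
    refine ⟨Y2, (hY.trans hY1).trans hY2, fun f hf => ?_⟩
    rcases Finset.mem_insert.1 hf with rfl | hf
    · exact (hE3.mono hY1M).div hY2M
    · exact hE3.mono (hE2.mono (hYM f hf))

end Tower

end Pool.Agent.LU1
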