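import Pool.Agent.Lib.LU2_h80.GrowF
import Pool.Agent.Lib.LU2_h80.ML_1
import Pool.Agent.Lib.LU2_h80.ML_2
import Pool.Agent.Lib.LU2_h80.ML_3

/-! # LU2, ML: monomialisation in towers of C-frames -/
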