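import Pool.Agent.Lib.LU2_h80.Start
import Pool.Agent.Lib.LU2_h80.PI7
import Pool.Agent.Lib.LU2_h80.ED
import Pool.Agent.Lib.LU2_h80.MLC
import Pool.Agent.Lib.LU2_h80.MA_0
import Pool.Agent.Lib.LU2_h80.MA_12
import Pool.Agent.Lib.LU2_h80.MA_4

/-! # LU2, MA: the real case -/

set_option autoImplicit false

open Polynomial

namespace Pool.Agent.LU1

open Pool.Agent.H15JM (RVal)

universe u

variable {k Ω : Type u} [Field k] [Field Ω] [Algebra k Ω] {v : RVal Ω} {r d : ℕ}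

-- uses exists_goodT, Above, Model, exists_chain_near, exists_chain_grow, CF.exists_qr of the same file

namespace MA_5Aux

/-- The monomial elements depend only on the group, the character and the ring. -/
theorem mono_iff {k k' Ω : Type u} [Field k] [Field k'] [Field Ω] [Algebra k Ω] [Algebra k' Ω]
    {v : RVal Ω} {B : BF k v} {B' : BF k' v} (hΓ : B'.Γ = B.Γ) (hχ : B'.χ = B.χ)
    (hR : ∀ f, f ∈ B'.R ↔ f ∈ B.R) (f : Ω) : B'.Mono f ↔ B.Mono f := by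
  unfold BF.Mono BF.Un
  rw [hΓ, hχ, hR]

theorem le_of_nearTow {E E' : IntermediateField k Ω} (h : NearTow v E E') : E ≤ E' := by
  induction h with
  | refl => exact le_rfl
  | tail _ h ih =>
    obtain ⟨θ, -, rfl⟩ := h
    exact ih.trans (le_adj _ _)

theorem le_of_chain {B : BF k v} {E E' : IntermediateField k Ω} {A A' : Subalgebra k Ω}
    (h : EDChain B E A E' A') : A ≤ A' := by
  induction h with
  | refl => exact le_rfl
  | step θ Z _ _ ih => exact le_trans le_sup_left ih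

/-- The monomials of a frame in a field that contains its ring are in the field. -/
theorem chi_mem {C : BF k v} {K : IntermediateField k Ω} (hC : ∀ f ∈ C.R, f ∈ K) {γ : ℝ}
    (hγ : γ ∈ C.Γ) : C.χ γ ∈ K := by
  rcases le_total 0 γ with h | h
  · exact hC _ (C.χ_mem γ hγ h)
  · have h1 : C.χ (-γ) ∈ K := hC _ (C.χ_mem (-γ) (C.Γ.neg_mem hγ) (by linarith))
    have h2 : C.χ γ * C.χ (-γ) = C.χ 0 := by
      rw [← C.χ_add γ hγ (-γ) (C.Γ.neg_mem hγ), add_neg_cancel]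
    have h3 : C.χ 0 ∈ K := hC _ (C.χ_mem 0 C.Γ.zero_mem le_rfl)
    have h4 : C.χ γ = C.χ 0 / C.χ (-γ) := by
      rw [eq_div_iff (C.χ_ne _ (C.Γ.neg_mem hγ)), h2]
    rw [h4]
    exact K.div_mem h3 h1

end MA_5Aux

open MA_5Aux in
/-- MA5. **The real case, defect one**: frames. -/
theorem exists_big_frame (p : ℕ) (hp : p.Prime) [CharP k p] [PerfectField k] [IsAlgClosed Ω]
    (h : CtxD k v r d) (K : IntermediateField k Ω) (hK : K.FG)
    (halg : ∀ g : Ω, IsAlgebraic K g) {z : Fin d → Ω} (hz : ResInd k v z)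
    (hzK : ∀ i, z i ∈ K) {A : Subalgebra k Ω} (hA : Model v A K) (T : Finset Ω)
    (hT : ∀ t ∈ T, t ∈ K ∧ t ≠ 0) :
    ∃ B : BF k v, FracIs B.R K ∧ (∀ a ∈ A, a ∈ B.R) ∧ (∀ t ∈ T, B.Mono t) ∧
      ∀ f ∈ B.R, QR A B.MonoS f := by
  classical
  have htriv : ∀ c : k, c ≠ 0 → v (algebraMap k Ω c) = 0 := h.triv
  obtain ⟨Y, hY⟩ := exists_goodT p hp h K hK halg hz hzK
  obtain ⟨A', T₁, hA', hT₁, hch⟩ := exists_chain_near htriv hY hA
  obtain ⟨T₂, hT₂, hqr⟩ := Y.exists_qr hA'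
  have hKY : K ≤ Y.E := le_of_nearTow hY
  obtain ⟨Y₁, hYY₁, hmono⟩ := Y.ml p hp h (T ∪ T₁ ∪ T₂) (by
    intro f hf
    rcases Finset.mem_union.mp hf with hf | hf
    · rcases Finset.mem_union.mp hf with hf | hf
      · exact ⟨hKY (hT f hf).1, (hT f hf).2⟩
      · exact hT₁ f hf
    · exact hT₂ f hf)
  have hmT : ∀ t ∈ T, Y₁.B.Mono t := fun t ht =>
    hmono t (Finset.mem_union_left _ (Finset.mem_union_left _ ht))
  have hmT₁ : ∀ t ∈ T₁, Y₁.B.Mono t := fun t ht =>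
    hmono t (Finset.mem_union_left _ (Finset.mem_union_right _ ht))
  have hmT₂ : ∀ t ∈ T₂, Y₁.B.Mono t := fun t ht => hmono t (Finset.mem_union_right _ ht)
  -- the frames over `k`
  obtain ⟨B₀, h0Γ, h0χ, h0y, h0R⟩ := Y₁.exists_down Y₁.B
  obtain ⟨Bm, q, M, s, hG⟩ := BF.exists_gstep Y₁.ctx Y₁.B
  obtain ⟨B, hΓ, hχ, hy, hR⟩ := Y₁.exists_down Bm
  have hmono0 : ∀ f, B₀.Mono f ↔ Y₁.B.Mono f := mono_iff h0Γ h0χ h0R
  have hmonoB : ∀ f, B.Mono f ↔ Bm.Mono f := mono_iff hΓ hχ hR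
  have habove : Above B₀ B := by
    refine ⟨fun f hf => (hR f).mpr (hG.R_le ((h0R f).mp hf)),
      fun f hf => (hmonoB f).mpr (hG.ext.mono ((hmono0 f).mp hf)), ?_⟩
    intro f hf hv
    obtain ⟨γ, hγ, hγ0, a, ha, he⟩ := hG.vpos_mem ((h0R f).mp hf) hv
    refine ⟨γ, by rw [hΓ]; exact hγ, hγ0, a, (hR a).mpr ha, ?_⟩
    rw [hχ]
    exact he
  -- the chains
  obtain ⟨hc1, hA'0⟩ := hch B₀ B habove fun t ht => (hmono0 t).mpr (hmT₁ t ht)
  have hYmono : ∀ f, Y.B.Mono f → B.Mono f := fun f hf =>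
    habove.mono f ((hmono0 f).mpr ((grow_tow hYY₁).1.mono hf))
  have hqr' : ∀ f ∈ Y.B.R, QR A' B.MonoS f :=
    hqr B.MonoS B.mulSet' hYmono fun t ht => habove.mono t ((hmono0 t).mpr (hmT₂ t ht))
  obtain ⟨A'', hc2, hqr2⟩ := exists_chain_grow hYY₁ hA' B₀ B hA'0 habove
    (fun f hf => (h0R f).mpr hf) (fun f hf => (hmono0 f).mpr hf) hqr'
  have hqr3 : ∀ f ∈ B.R, QR A'' B.MonoS f := fun f hf =>
    hG.qr B.mulSet' (fun g hg => (hmonoB g).mpr hg) hqr2 f ((hR f).mp hf)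
  have hfrac : FracIs B.R Y₁.E := by
    have hE : Y₁.E = quoK Bm.R := hG.quoK_eq.symm
    refine ⟨fun f hf => ?_, fun g hg => ?_⟩
    · rw [hE, mem_quoK]
      exact ⟨f, (hR f).mp hf, 1, Bm.R.one_mem, one_ne_zero, by rw [div_one]⟩
    · rw [hE, mem_quoK] at hg
      obtain ⟨a, ha, b, hb, hb0, he⟩ := hg
      exact ⟨a, (hR a).mpr ha, b, (hR b).mpr hb, hb0, he⟩
  obtain ⟨C, hCK, hCΓ, hCR, hCχ, hCy, hCqr⟩ := (hc1.trans hc2).desc htriv hfrac hqr3
  refine ⟨C, hCK, ?_, ?_, hCqr⟩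
  · intro a ha
    exact (hCR a).mpr ⟨habove.le (hA'0 (le_of_chain hc1 ha)), hA.mem a ha⟩
  · intro t ht
    have htK := (hT t ht).1
    have ht0 := (hT t ht).2
    obtain ⟨-, htΓ, htun⟩ := habove.mono t ((hmono0 t).mpr (hmT t ht))
    have hγC : v t ∈ C.Γ := by rw [hCΓ]; exact htΓ
    have hCne := C.χ_ne _ hγC
    have hBne := B.χ_ne _ htΓ
    refine ⟨ht0, hγC, ?_, div_ne_zero ht0 hCne, ?_⟩
    · refine (hCR _).mpr ⟨?_, K.div_mem htK (chi_mem hCK.1 hγC)⟩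
      have h1 := hCχ (v t) htΓ
      have h2 : t / C.χ (v t) = (t / B.χ (v t)) * (C.χ (v t) / B.χ (v t))⁻¹ := by
        field_simp
      rw [h2]
      exact B.R.mul_mem htun.1 (B.loc _ h1.1 h1.2.1 h1.2.2)
    · rw [v.map_div ht0 hCne, C.χ_val _ hγC, sub_self]

end Pool.Agent.LU1
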