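import Pool.Agent.Lib.LU2_h80.CE_4
import Pool.Agent.Lib.LU1_h15.Final

/-! # LU2, SB1 and SB4: the algebraic closure of a coefficient field, finite stable sets -/

set_option autoImplicit false

open Polynomial

namespace Pool.Agent.LU1

universe u

variable {k Ω : Type u} [Field k] [Field Ω] [Algebra k Ω]

/-- The field of the elements of `Ω` that are algebraic over `C₀`. -/
noncomputable def algC (C₀ : IntermediateField k Ω) : IntermediateField k Ω :=
  (algebraicClosure C₀ Ω).restrictScalars k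

theorem mem_algC {C₀ : IntermediateField k Ω} {g : Ω} : g ∈ algC C₀ ↔ IsAlgebraic C₀ g := by
  rw [algC, IntermediateField.mem_restrictScalars, mem_algebraicClosure_iff]

/-- SB1. -/
theorem algC_isAlgClosed [IsAlgClosed Ω] (C₀ : IntermediateField k Ω) :
    IsAlgClosed (algC C₀) :=
  (algebraicClosure.isAlgClosure C₀ Ω).isAlgClosed

/-- SB4. Finite sets of elements algebraic over `K` are contained in finite sets stable under
`Aut(Ω/K)`. -/
theorem exists_conj_finset {K : IntermediateField k Ω} (T : Finset Ω)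
    (hT : ∀ t ∈ T, IsAlgebraic K t) :
    ∃ T' : Finset Ω, T ⊆ T' ∧ (∀ σ : Ω ≃ₐ[K] Ω, ∀ t ∈ T', σ t ∈ T') ∧
      (∀ t ∈ T', ∃ σ : Ω ≃ₐ[K] Ω, ∃ t₀ ∈ T, t = σ t₀) := by
  classical
  let S : Set Ω := {t | ∃ σ : Ω ≃ₐ[K] Ω, ∃ t₀ ∈ T, t = σ t₀}
  have hS : S.Finite := by
    refine Set.Finite.subset (s := ⋃ t₀ ∈ T, (minpoly K t₀).rootSet Ω) ?_ ?_
    · exact Set.Finite.biUnion T.finite_toSet fun t₀ _ => Polynomial.rootSet_finite _ _
    · rintro t ⟨σ, t₀, h0, rfl⟩
      simp only [Set.mem_iUnion]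
      refine ⟨t₀, h0, ?_⟩
      have hint : IsIntegral K t₀ := (hT t₀ h0).isIntegral
      rw [Polynomial.mem_rootSet]
      refine ⟨minpoly.ne_zero hint, ?_⟩
      have h1 := Polynomial.aeval_algHom_apply (σ : Ω →ₐ[K] Ω) t₀ (minpoly K t₀)
      rw [minpoly.aeval, map_zero] at h1
      exact h1
  refine ⟨hS.toFinset, ?_, ?_, ?_⟩
  · intro t ht
    rw [Set.Finite.mem_toFinset]
    exact ⟨AlgEquiv.refl, t, ht, rfl⟩
  · intro σ t ht
    rw [Set.Finite.mem_toFinset] at ht ⊢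
    obtain ⟨τ, t₀, h0, h1⟩ := ht
    exact ⟨τ.trans σ, t₀, h0, by rw [h1]; rfl⟩
  · intro t ht
    rw [Set.Finite.mem_toFinset] at ht
    exact ht

end Pool.Agent.LU1
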