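import Pool.Agent.Lib.LU2_h80.CE_4
import Pool.Agent.Lib.LU1_h15.Final

/-! # LU2, SB2: the image of a frame -/

set_option autoImplicit false

open Polynomial

namespace Pool.Agent.LU1

open Pool.Agent.H15JM (RVal)

universe u

variable {k Ω : Type u} [Field k] [Field Ω] [Algebra k Ω] {v : RVal Ω} {r d : ℕ}

namespace SB2Aux

/-- The image of a subalgebra under a semilinear automorphism. -/
def imS {C : IntermediateField k Ω} (σ : Ω ≃ₐ[k] Ω) (hC : ∀ c, σ c ∈ C ↔ c ∈ C)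
    (S : Subalgebra C Ω) : Subalgebra C Ω where
  carrier := {f | σ.symm f ∈ S}
  mul_mem' := by
    intro f g hf hg
    change σ.symm (f * g) ∈ S
    rw [map_mul]
    exact S.mul_mem hf hg
  add_mem' := by
    intro f g hf hg
    change σ.symm (f + g) ∈ S
    rw [map_add]
    exact S.add_mem hf hg
  algebraMap_mem' := by
    intro c
    have h1 : σ.symm (c : Ω) ∈ C := by
      rw [← hC, AlgEquiv.apply_symm_apply]
      exact c.2
    exact S.algebraMap_mem ⟨_, h1⟩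

variable {C : IntermediateField k Ω} {σ : Ω ≃ₐ[k] Ω} {hC : ∀ c, σ c ∈ C ↔ c ∈ C}

theorem mem_imS {S : Subalgebra C Ω} {f : Ω} : f ∈ imS σ hC S ↔ σ.symm f ∈ S := Iff.rfl

theorem σ_mem_imS {S : Subalgebra C Ω} {f : Ω} : σ f ∈ imS σ hC S ↔ f ∈ S := by
  rw [mem_imS, AlgEquiv.symm_apply_apply]

theorem ne_zero_of {g : Ω} (h : g ≠ 0) : σ g ≠ 0 := (map_ne_zero_iff σ σ.injective).2 h

theorem imS_locv {S : Subalgebra C Ω} (hv : ∀ g ∈ S, g ≠ 0 → v (σ g) = v g) :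
    imS σ hC (locv v S) = locv v (imS σ hC S) := by
  ext f
  rw [mem_imS, mem_locv, mem_locv]
  constructor
  · rintro ⟨a, ha, b, hb, hb0, hvb, h⟩
    refine ⟨σ a, σ_mem_imS.2 ha, σ b, σ_mem_imS.2 hb, ne_zero_of hb0, (hv b hb hb0).trans hvb, ?_⟩
    rw [← map_div₀, ← h, AlgEquiv.apply_symm_apply]
  · rintro ⟨a', ha', b', hb', hb0, hvb, rfl⟩
    obtain ⟨b, rfl⟩ := σ.surjective b'
    obtain ⟨a, rfl⟩ := σ.surjective a'
    rw [σ_mem_imS] at ha' hb'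
    have hb00 : b ≠ 0 := by
      rintro rfl
      exact hb0 (map_zero σ)
    refine ⟨a, ha', b, hb', hb00, (hv b hb' hb00).symm.trans hvb, ?_⟩
    rw [← map_div₀, AlgEquiv.symm_apply_apply]

theorem adjoin_le_imS (T : Set Ω) :
    Algebra.adjoin C (σ '' T) ≤ imS σ hC (Algebra.adjoin C T) := by
  rw [Algebra.adjoin_le_iff]
  rintro _ ⟨t, ht, rfl⟩
  exact σ_mem_imS.2 (Algebra.subset_adjoin ht)

theorem imS_adjoin (T : Set Ω) :
    imS σ hC (Algebra.adjoin C T) = Algebra.adjoin C (σ '' T) := by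
  refine le_antisymm ?_ (adjoin_le_imS T)
  have hC' : ∀ c, σ.symm c ∈ C ↔ c ∈ C := by
    intro c
    rw [← hC, AlgEquiv.apply_symm_apply]
  have h1 : Algebra.adjoin C T ≤ imS σ.symm hC' (Algebra.adjoin C (σ '' T)) := by
    rw [Algebra.adjoin_le_iff]
    intro t ht
    change σ.symm.symm t ∈ Algebra.adjoin C (σ '' T)
    exact Algebra.subset_adjoin ⟨t, ht, rfl⟩
  intro f hf
  have h2 : σ.symm.symm (σ.symm f) ∈ Algebra.adjoin C (σ '' T) := h1 hf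
  rwa [AlgEquiv.symm_symm, AlgEquiv.apply_symm_apply] at h2

end SB2Aux

open SB2Aux

/-- SB2. The image of a C-frame of `L` under an automorphism that preserves `v` on `L`. -/
theorem BF.exists_image {C L : IntermediateField k Ω} (h : Ctx2 C v r) (B : BF C v)
    (hB : B.Res) (hL : quoK B.R = L) (halg : ∀ g : Ω, IsAlgebraic L g) (σ : Ω ≃ₐ[k] Ω)
    (hC : ∀ c, σ c ∈ C ↔ c ∈ C) (hσL : ∀ g, σ g ∈ L ↔ g ∈ L)
    (hv : ∀ g ∈ L, g ≠ 0 → v (σ g) = v g) :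
    ∃ B' : BF C v, B'.Γ = B.Γ ∧ (∀ γ ∈ B.Γ, B'.χ γ = σ (B.χ γ)) ∧ B'.y = σ B.y ∧
      (∀ f, σ f ∈ B'.R ↔ f ∈ B.R) ∧ B'.Res := by
  classical
  have hRL : ∀ f ∈ B.R, f ∈ L := by
    intro f hf
    rw [← hL]
    exact mem_quoK.2 ⟨f, hf, 1, B.R.one_mem, one_ne_zero, (div_one f).symm⟩
  have hne : ∀ {g : Ω}, σ g ≠ 0 → g ≠ 0 := by
    rintro g h rfl
    exact h (map_zero σ)
  have hχL : ∀ γ ∈ B.Γ, B.χ γ ∈ L := by
    intro γ hγ
    rcases le_total 0 γ with h0 | h0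
    · exact hRL _ (B.χ_mem γ hγ h0)
    · have h1 := hRL _ (B.χ_mem (-γ) (B.Γ.neg_mem hγ) (neg_nonneg.2 h0))
      rw [B.χ_neg hγ] at h1
      have h2 := L.inv_mem h1
      rwa [inv_inv] at h2
  have hpre : ∀ f ∈ imS σ hC B.R, ∃ g ∈ B.R, f = σ g := fun f hf =>
    ⟨σ.symm f, hf, (AlgEquiv.apply_symm_apply σ f).symm⟩
  obtain ⟨F, hF⟩ := B.fgen
  have hS : ∀ f ∈ Algebra.adjoin C ((F : Set Ω) ∪ B.χ '' {γ | γ ∈ B.Γ ∧ 0 ≤ γ}), f ∈ L := by
    intro f hf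
    apply hRL
    rw [hF]
    exact le_locv _ hf
  have hq : quoK (imS σ hC B.R) = L := by
    ext g
    rw [mem_quoK]
    constructor
    · rintro ⟨a, ha, b, hb, hb0, rfl⟩
      obtain ⟨a', ha', rfl⟩ := hpre a ha
      obtain ⟨b', hb', rfl⟩ := hpre b hb
      exact L.div_mem ((hσL _).2 (hRL _ ha')) ((hσL _).2 (hRL _ hb'))
    · intro hg
      obtain ⟨g', rfl⟩ := σ.surjective g
      rw [hσL, ← hL, mem_quoK] at hg
      obtain ⟨a, ha, b, hb, hb0, rfl⟩ := hg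
      exact ⟨σ a, σ_mem_imS.2 ha, σ b, σ_mem_imS.2 hb, ne_zero_of hb0, map_div₀ σ a b⟩
  refine ⟨{
    Γ := B.Γ
    fg := B.fg
    full := B.full
    χ := fun γ => σ (B.χ γ)
    χ_ne := fun γ hγ => ne_zero_of (B.χ_ne γ hγ)
    χ_add := fun γ hγ δ hδ => by rw [B.χ_add γ hγ δ hδ, map_mul]
    χ_val := fun γ hγ => by rw [hv _ (hχL γ hγ) (B.χ_ne γ hγ), B.χ_val γ hγ]
    y := σ B.y
    y_ne := ne_zero_of B.y_ne
    y_pos := by rw [hv _ (hRL _ B.y_mem) B.y_ne]; exact B.y_pos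
    R := imS σ hC B.R
    nonneg := ?_
    loc := ?_
    χ_mem := fun γ hγ h0 => σ_mem_imS.2 (B.χ_mem γ hγ h0)
    y_mem := σ_mem_imS.2 B.y_mem
    fgen := ?_
    gen := ?_
    alg := ?_ }, rfl, fun _ _ => rfl, rfl, fun f => σ_mem_imS (hC := hC), ?_⟩
  · rintro f hf h0
    obtain ⟨g, hg, rfl⟩ := hpre f hf
    have hg0 := hne h0
    rw [hv g (hRL g hg) hg0]
    exact B.nonneg g hg hg0
  · rintro f hf h0 hvf
    obtain ⟨g, hg, rfl⟩ := hpre f hf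
    have hg0 := hne h0
    rw [hv g (hRL g hg) hg0] at hvf
    rw [← map_inv₀, σ_mem_imS]
    exact B.loc g hg hg0 hvf
  · refine ⟨F.image σ, ?_⟩
    rw [Finset.coe_image, ← Set.image_image (g := σ) (f := B.χ), ← Set.image_union,
      ← imS_adjoin (hC := hC), ← imS_locv fun g hg => hv g (hS g hg), ← hF]
  · intro f hf hvf
    obtain ⟨g, hg, rfl⟩ := hpre f hf
    have hgv : VPos v g := by
      intro h0
      have h1 := hvf (ne_zero_of h0)
      rwa [hv g (hRL g hg) h0] at h1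
    obtain ⟨γ, hγ, h0, a, ha, b, hb, h1⟩ := B.gen g hg hgv
    refine ⟨γ, hγ, h0, σ a, σ_mem_imS.2 ha, σ b, σ_mem_imS.2 hb, ?_⟩
    rw [h1, map_add, map_mul, map_mul]
  · intro g
    have hfr : FracIs (imS σ hC B.R) (quo (imS σ hC B.R)) :=
      ⟨fun f hf => ⟨f, hf, 1, (imS σ hC B.R).one_mem, one_ne_zero, (div_one f).symm⟩,
        fun g hg => hg⟩
    rw [SigF0.alg_iff hfr]
    have h1 : IsAlgebraic (quoK (imS σ hC B.R)) g := by
      rw [hq]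
      exact halg g
    exact h1
  · intro f hf
    obtain ⟨g, hg, rfl⟩ := hpre f hf
    obtain ⟨c, hc⟩ := hB g hg
    have hcC : σ (c : Ω) ∈ C := (hC _).2 c.2
    refine ⟨⟨σ c, hcC⟩, ?_⟩
    change VPos v (σ g - σ (c : Ω))
    rw [← map_sub]
    intro h0
    have h1 := hne h0
    have h2 : g - (c : Ω) ∈ L := L.sub_mem (hRL g hg) (hRL _ (B.R.algebraMap_mem c))
    rw [hv _ h2 h1]
    exact hc h1

end Pool.Agent.LU1
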