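import Pool.Agent.Lib.LU2_h80.SB_1
import Pool.Agent.Lib.LU1_h15.Final

/-! # LU2, SB3: LU1 over the algebraic closure of the constants -/

set_option autoImplicit false

open Polynomial

namespace Pool.Agent.LU1

open Pool.Agent.H15JM (RVal)

universe u

variable {k Ω : Type u} [Field k] [Field Ω] [Algebra k Ω] {v : RVal Ω} {r d : ℕ}

/-- SB3. LU1 over the algebraically closed field `algC C₀`: a chain of T-steps of frames of
`K · algC C₀` that makes a finite set monomial. -/
theorem exists_closed_frame (p : ℕ) (hp : p.Prime) [CharP k p] [IsAlgClosed Ω]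
    {C₀ K : IntermediateField k Ω} (h : Ctx2 C₀ v r) (hK : K.FG) (hKC : C₀ ≤ K)
    (halg : ∀ g : Ω, IsAlgebraic K g) :
    ∃ B : BF (algC C₀) v, quoK B.R = K ⊔ algC C₀ ∧ Ctx (algC C₀) v r := by
  have hcl : IsAlgClosed (algC C₀) := algC_isAlgClosed C₀
  have hle : C₀ ≤ algC C₀ := fun c hc => mem_algC.2 (isAlgebraic_algebraMap (⟨c, hc⟩ : C₀))
  have h2 : Ctx2 (algC C₀) v r := h.of_alg hle (fun c hc => mem_algC.1 hc)
  have h3 : Ctx (algC C₀) v r := h2.ctx_of_isAlgClosed
  have hchar : CharP (algC C₀) p :=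
    charP_of_injective_algebraMap (algebraMap k (algC C₀)).injective p
  obtain ⟨S, hS⟩ := hK
  let K' : IntermediateField (algC C₀) Ω := IntermediateField.adjoin (algC C₀) (S : Set Ω)
  have hK' : K'.restrictScalars k = K ⊔ algC C₀ := by
    rw [← hS, sup_comm]
    exact IntermediateField.restrictScalars_adjoin_eq_sup k (algC C₀) (S : Set Ω)
  have hKle : ∀ g ∈ K, g ∈ K' := by
    intro g hg
    have h4 : g ∈ K'.restrictScalars k := by
      rw [hK']
      exact (le_sup_left : K ≤ K ⊔ algC C₀) hg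
    exact h4
  have halg' : ∀ g : Ω, IsAlgebraic K' g := by
    intro g
    obtain ⟨P, hP0, hP⟩ := halg g
    let φ : K →+* K' :=
      { toFun := fun x => ⟨x.1, hKle x.1 x.2⟩
        map_one' := rfl
        map_mul' := fun _ _ => rfl
        map_zero' := rfl
        map_add' := fun _ _ => rfl }
    refine ⟨P.map φ, (Polynomial.map_ne_zero_iff φ.injective).2 hP0, ?_⟩
    have h5 : (algebraMap K' Ω).comp φ = algebraMap K Ω := rfl
    rw [aeval_def, eval₂_map, h5, ← aeval_def]
    exact hP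
  obtain ⟨B, hB1, hB2⟩ := good_all p hp h3 K' ⟨S, rfl⟩ halg'
  refine ⟨B, ?_, h3⟩
  rw [← hK']
  ext g
  rw [mem_quoK]
  constructor
  · rintro ⟨a, ha, b, hb, -, rfl⟩
    exact div_mem (hB1 a ha) (hB1 b hb)
  · intro hg
    exact hB2 g hg

end Pool.Agent.LU1
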