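import Pool.Agent.Lib.LU2_h80.SB_1
import Pool.Agent.Lib.LU2_h80.SB_2
import Pool.Agent.Lib.LU2_h80.SB_3

/-! # LU2, SB5: a stable frame -/

set_option autoImplicit false

open Polynomial

namespace Pool.Agent.LU1

open Pool.Agent.H15JM (RVal)

universe u

variable {k Ω : Type u} [Field k] [Field Ω] [Algebra k Ω] {v : RVal Ω} {r d : ℕ}

namespace SB5

theorem sup_fin {K Cb : IntermediateField k Ω} {f : Ω} (hf : f ∈ K ⊔ Cb) :
    ∃ T : Finset Ω, (∀ t ∈ T, t ∈ Cb) ∧ f ∈ K ⊔ IntermediateField.adjoin k (T : Set Ω) := by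
  classical
  have h1 : K ⊔ Cb = IntermediateField.adjoin k ((K : Set Ω) ∪ (Cb : Set Ω)) := by
    rw [IntermediateField.adjoin_union, IntermediateField.adjoin_self,
      IntermediateField.adjoin_self]
  rw [h1] at hf
  obtain ⟨T, hT, hfT⟩ := IntermediateField.exists_finset_of_mem_adjoin hf
  refine ⟨T.filter (fun t => t ∈ Cb), fun t ht => (Finset.mem_filter.1 ht).2, ?_⟩
  have h2 : IntermediateField.adjoin k (T : Set Ω) ≤
      K ⊔ IntermediateField.adjoin k ((T.filter (fun t => t ∈ Cb) : Finset Ω) : Set Ω) := by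
    rw [IntermediateField.adjoin_le_iff]
    intro t ht
    rcases hT ht with h3 | h3
    · exact (le_sup_left : K ≤ _) h3
    · refine (le_sup_right : IntermediateField.adjoin k _ ≤ _) ?_
      refine IntermediateField.subset_adjoin k _ ?_
      rw [Finset.mem_coe, Finset.mem_filter]
      exact ⟨ht, h3⟩
  exact h2 hfT

theorem sup_fin' {K Cb : IntermediateField k Ω} (S : Finset Ω) (hS : ∀ f ∈ S, f ∈ K ⊔ Cb) :
    ∃ T : Finset Ω, (∀ t ∈ T, t ∈ Cb) ∧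
      ∀ f ∈ S, f ∈ K ⊔ IntermediateField.adjoin k (T : Set Ω) := by
  classical
  induction S using Finset.induction_on with
  | empty => exact ⟨∅, by simp, by simp⟩
  | insert a S ha ih =>
    obtain ⟨T, h1, h2⟩ := ih fun f hf => hS f (Finset.mem_insert_of_mem hf)
    obtain ⟨T', h3, h4⟩ := sup_fin (hS a (Finset.mem_insert_self a S))
    refine ⟨T ∪ T', fun t ht => ?_, fun f hf => ?_⟩
    · rcases Finset.mem_union.1 ht with h | h
      exacts [h1 t h, h3 t h]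
    · have h5 : IntermediateField.adjoin k (T : Set Ω) ≤
          IntermediateField.adjoin k ((T ∪ T' : Finset Ω) : Set Ω) :=
        IntermediateField.adjoin.mono k _ _ (by simp)
      have h6 : IntermediateField.adjoin k (T' : Set Ω) ≤
          IntermediateField.adjoin k ((T ∪ T' : Finset Ω) : Set Ω) :=
        IntermediateField.adjoin.mono k _ _ (by simp)
      rcases Finset.mem_insert.1 hf with rfl | h
      · exact (sup_le_sup_left h6 K) h4
      · exact (sup_le_sup_left h5 K) (h2 f h)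

theorem exists_pow (K : IntermediateField k Ω) (σ : Ω ≃ₐ[K] Ω) (S : Finset Ω)
    (hS : ∀ s ∈ S, σ s ∈ S) :
    ∃ n : ℕ, 0 < n ∧ ∀ g ∈ K ⊔ IntermediateField.adjoin k (S : Set Ω), (σ ^ n) g = g := by
  classical
  let f : S → S := fun s => ⟨σ s, hS s s.2⟩
  have hf : Function.Bijective f := by
    rw [← Finite.injective_iff_bijective]
    intro a b hab
    exact Subtype.ext (σ.injective (congrArg Subtype.val hab))
  let π : Equiv.Perm S := Equiv.ofBijective f hf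
  have hπ : ∀ m : ℕ, ∀ s : S, (((π ^ m) s : S) : Ω) = (σ ^ m) (s : Ω) := by
    intro m
    induction m with
    | zero => intro s; simp
    | succ m ih =>
      intro s
      rw [pow_succ, Equiv.Perm.mul_apply, ih, pow_succ, AlgEquiv.mul_apply]
      rfl
  refine ⟨orderOf π, orderOf_pos π, fun g hg => ?_⟩
  let F : IntermediateField k Ω :=
    { carrier := {g | (σ ^ orderOf π) g = g}
      mul_mem' := fun {a b} ha hb => by
        change (σ ^ orderOf π) (a * b) = a * b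
        rw [map_mul, show (σ ^ orderOf π) a = a from ha, show (σ ^ orderOf π) b = b from hb]
      add_mem' := fun {a b} ha hb => by
        change (σ ^ orderOf π) (a + b) = a + b
        rw [map_add, show (σ ^ orderOf π) a = a from ha, show (σ ^ orderOf π) b = b from hb]
      algebraMap_mem' := fun c => by
        change (σ ^ orderOf π) (algebraMap k Ω c) = algebraMap k Ω c
        have h : algebraMap k Ω c = algebraMap K Ω (algebraMap k K c) :=
          IsScalarTower.algebraMap_apply k K Ω c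
        rw [h, AlgEquiv.commutes]
      inv_mem' := fun a ha => by
        change (σ ^ orderOf π) a⁻¹ = a⁻¹
        rw [map_inv₀, show (σ ^ orderOf π) a = a from ha] }
  have hle : K ⊔ IntermediateField.adjoin k (S : Set Ω) ≤ F := by
    refine sup_le (fun g hg => ?_) ?_
    · exact (σ ^ orderOf π).commutes (⟨g, hg⟩ : K)
    · rw [IntermediateField.adjoin_le_iff]
      intro s hs
      change (σ ^ orderOf π) s = s
      have h1 := hπ (orderOf π) ⟨s, hs⟩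
      rw [pow_orderOf_eq_one] at h1
      exact h1.symm
  exact hle hg

/-- `σ` maps `K ⊔ C` into itself if it maps `C` into itself. -/
theorem map_sup {K C : IntermediateField k Ω} (σ : Ω ≃ₐ[K] Ω) (hC : ∀ c ∈ C, σ c ∈ C) :
    ∀ g ∈ K ⊔ C, σ g ∈ K ⊔ C := by
  have hle : K ⊔ C ≤ (K ⊔ C).comap ((σ : Ω →ₐ[K] Ω).restrictScalars k) := by
    refine sup_le (fun g hg => ?_) (fun g hg => ?_)
    · change σ g ∈ K ⊔ C
      rw [show σ g = g from σ.commutes (⟨g, hg⟩ : K)]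
      exact (le_sup_left : K ≤ _) hg
    · change σ g ∈ K ⊔ C
      exact (le_sup_right : C ≤ _) (hC g hg)
  exact fun g hg => hle hg

theorem alg_of_le {E F : IntermediateField k Ω} (h : E ≤ F) {g : Ω} (hg : IsAlgebraic E g) :
    IsAlgebraic F g := by
  obtain ⟨P, hP, hPg⟩ := hg
  refine ⟨P.map (IntermediateField.inclusion h).toRingHom, ?_, ?_⟩
  · rw [Polynomial.map_ne_zero_iff (IntermediateField.inclusion h).injective]
    exact hP
  · rw [Polynomial.aeval_def, Polynomial.eval₂_map]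
    exact hPg

theorem key {C₀ K C : IntermediateField k Ω} (h : Ctx2 C v r)
    (hctx : Ctx (algC C₀) v r) (hC0 : C₀ ≤ C)
    (halg : ∀ g : Ω, IsAlgebraic K g) (hCb : C ≤ algC C₀)
    {B0 B : BF (algC C₀) v} (hB0 : quoK B0.R = K ⊔ algC C₀) (hR : Reach B0 B)
    {BC : BF C v} (hCE : IsCE BC B) (hres : BC.Res) (hq : quoK BC.R = K ⊔ C)
    (F0 : Finset Ω) (hF0 : B0.R = locv v (Algebra.adjoin (algC C₀)
      ((F0 : Set Ω) ∪ B0.χ '' {γ | γ ∈ B0.Γ ∧ 0 ≤ γ})))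
    (G0 : Finset ℝ) (hG0 : AddSubgroup.closure (G0 : Set ℝ) = B0.Γ)
    (hF0C : ∀ f ∈ F0, f ∈ K ⊔ C) (hG0C : ∀ u ∈ G0, B0.χ u ∈ K ⊔ C)
    (σ : Ω ≃ₐ[K] Ω) (hσC : ∀ c, σ c ∈ C ↔ c ∈ C)
    (hv : ∀ g ∈ K ⊔ C, g ≠ 0 → v (σ g) = v g)
    (hTF : ∀ f ∈ F0, f ≠ 0 → B.Mono (σ.symm f)) (hTG : ∀ u ∈ G0, B.Mono (σ.symm (B0.χ u))) :
    (∀ f ∈ BC.R, σ f ∈ BC.R) ∨ ∀ f ∈ BC.R, σ.symm f ∈ BC.R := by
  classical
  have halgC : ∀ c ∈ algC C₀, IsAlgebraic C c := fun c hc => alg_of_le hC0 (mem_algC.1 hc)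
  have hσsymm : ∀ c ∈ C, σ.symm c ∈ C := fun c hc => by
    rw [← hσC, AlgEquiv.apply_symm_apply]; exact hc
  have hmap : ∀ g ∈ K ⊔ C, σ g ∈ K ⊔ C := map_sup σ fun c hc => (hσC c).2 hc
  have hmap' : ∀ g ∈ K ⊔ C, σ.symm g ∈ K ⊔ C := map_sup σ.symm hσsymm
  have hmapiff : ∀ g, σ g ∈ K ⊔ C ↔ g ∈ K ⊔ C := fun g => ⟨fun hg => by
    have := hmap' _ hg
    rwa [AlgEquiv.symm_apply_apply] at this, hmap g⟩
  have hvs : ∀ g ∈ K ⊔ C, g ≠ 0 → v (σ.symm g) = v g := fun g hg h0 => by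
    have h1 := hv (σ.symm g) (hmap' g hg) (by simpa using h0)
    rw [AlgEquiv.apply_symm_apply] at h1
    exact h1.symm
  obtain ⟨Bσ, hΓσ, hχσ, hyσ, hRσ, hresσ⟩ := BF.exists_image (L := K ⊔ C) h BC hres hq
    (fun g => alg_of_le le_sup_left (halg g)) (σ.restrictScalars k) hσC hmapiff hv
  have hRσ' : ∀ f, σ f ∈ Bσ.R ↔ f ∈ BC.R := hRσ
  have hχσ' : ∀ γ ∈ BC.Γ, Bσ.χ γ = σ (BC.χ γ) := hχσ
  have hqσ : quoK Bσ.R = K ⊔ C := by
    ext g
    rw [mem_quoK]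
    constructor
    · rintro ⟨a, ha, b, hb, -, rfl⟩
      have key2 : ∀ a ∈ Bσ.R, a ∈ K ⊔ C := by
        intro a ha
        have h1 : σ.symm a ∈ BC.R := by
          rw [← hRσ', AlgEquiv.apply_symm_apply]; exact ha
        have h2 : σ.symm a ∈ K ⊔ C := by
          rw [← hq, mem_quoK]
          exact ⟨_, h1, 1, BC.R.one_mem, one_ne_zero, (div_one _).symm⟩
        have h3 := hmap _ h2
        rwa [AlgEquiv.apply_symm_apply] at h3
      exact div_mem (key2 a ha) (key2 b hb)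
    · intro hg
      have h1 := hmap' g hg
      rw [← hq, mem_quoK] at h1
      obtain ⟨a, ha, b, hb, hb0, hab⟩ := h1
      refine ⟨σ a, (hRσ' a).2 ha, σ b, (hRσ' b).2 hb, by simpa using hb0, ?_⟩
      rw [← map_div₀, ← hab, AlgEquiv.apply_symm_apply]
  obtain ⟨Bs, hs, -⟩ := BF.exists_ce hCb halgC h Bσ hresσ
  have hχsb : ∀ γ ∈ B.Γ, Bs.χ γ = σ (B.χ γ) := by
    intro γ hγ
    rw [hs.χ_eq, hχσ' γ (by rw [← hCE.Γ_eq]; exact hγ), hCE.χ_eq]
  have hBχL : ∀ γ ∈ B.Γ, B.χ γ ∈ K ⊔ C := by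
    intro γ hγ
    have hγ' : γ ∈ BC.Γ := by rw [← hCE.Γ_eq]; exact hγ
    rw [hCE.χ_eq, ← hq, mem_quoK]
    rcases le_total 0 γ with h0 | h0
    · exact ⟨_, BC.χ_mem γ hγ' h0, 1, BC.R.one_mem, one_ne_zero, (div_one _).symm⟩
    · refine ⟨1, BC.R.one_mem, _, BC.χ_mem (-γ) (BC.Γ.neg_mem hγ') (neg_nonneg.2 h0),
        BC.χ_ne _ (BC.Γ.neg_mem hγ'), ?_⟩
      rw [BC.χ_neg hγ', one_div, inv_inv]
  -- `σ⁻¹ χ₀(γ)` is a monomial of `B`, and `χ₀(γ)` is in `K ⊔ C`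
  have hmonoχ : ∀ γ ∈ B0.Γ, B.Mono (σ.symm (B0.χ γ)) ∧ B0.χ γ ∈ K ⊔ C := by
    intro γ hγ
    have hγ' := hγ
    rw [← hG0] at hγ'
    induction hγ' using AddSubgroup.closure_induction with
    | mem x hx => exact ⟨hTG x hx, hG0C x hx⟩
    | zero => rw [B0.χ_zero, _root_.map_one]; exact ⟨BF.Mono.un BF.Un.one, one_mem _⟩
    | add x y hx hy ihx ihy =>
      rw [hG0] at hx hy
      rw [B0.χ_add x hx y hy, _root_.map_mul]
      exact ⟨(ihx hx).1.mul (ihy hy).1, mul_mem (ihx hx).2 (ihy hy).2⟩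
    | neg x hx ihx =>
      rw [hG0] at hx
      rw [B0.χ_neg hx, map_inv₀]
      exact ⟨(ihx hx).1.inv, inv_mem (ihx hx).2⟩
  have hmonov : ∀ γ ∈ B0.Γ, v (σ.symm (B0.χ γ)) = γ := fun γ hγ => by
    rw [hvs _ (hmonoχ γ hγ).2 (B0.χ_ne γ hγ), B0.χ_val γ hγ]
  have hunit : ∀ γ ∈ B0.Γ, σ.symm (B0.χ γ) / B.χ γ ∈ BC.R := by
    intro γ hγ
    have h1 := (hmonoχ γ hγ).1.2.2
    rw [hmonov γ hγ] at h1
    refine hCE.mem_of_mem hCb halgC h hres h1.1 ?_
    rw [hq]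
    exact div_mem (hmap' _ (hmonoχ γ hγ).2) (hBχL γ (hR.ext.Γ_le γ hγ))
  have hun : ∀ γ ∈ B0.Γ, Bs.Un (B0.χ γ / Bs.χ γ) := by
    intro γ hγ
    have hγB := hR.ext.Γ_le γ hγ
    have h1 : B0.χ γ / Bs.χ γ = σ (σ.symm (B0.χ γ) / B.χ γ) := by
      rw [map_div₀, AlgEquiv.apply_symm_apply, hχsb γ hγB]
    have hγs : γ ∈ Bs.Γ := by rw [hs.Γ_eq, hΓσ, ← hCE.Γ_eq]; exact hγB
    refine ⟨?_, div_ne_zero (B0.χ_ne γ hγ) (Bs.χ_ne γ hγs), ?_⟩
    · rw [h1]
      exact hs.extK.le _ ((hRσ' _).2 (hunit γ hγ))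
    · rw [v.map_div (B0.χ_ne γ hγ) (Bs.χ_ne γ hγs), B0.χ_val γ hγ, Bs.χ_val γ hγs, sub_self]
  have hle0 : B0.R ≤ Bs.R := by
    rw [hF0]
    refine locv_le ?_ Bs.loc
    refine Algebra.adjoin_le ?_
    rintro f (hf | ⟨γ, ⟨hγ, h0⟩, rfl⟩)
    · change f ∈ Bs.R
      by_cases hf0 : f = 0
      · rw [hf0]; exact Bs.R.zero_mem
      have hfR : f ∈ B0.R := by
        rw [hF0]; exact le_locv _ (Algebra.subset_adjoin (Or.inl hf))
      have h1 := hTF f hf hf0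
      have h2 : v (σ.symm f) = v f := hvs f (hF0C f hf) hf0
      have h3 : σ.symm f ∈ B.R := h1.mem (by rw [h2]; exact B0.nonneg f hfR hf0)
      have h4 : σ.symm f ∈ BC.R := hCE.mem_of_mem hCb halgC h hres h3
        (by rw [hq]; exact hmap' f (hF0C f hf))
      have h5 := (hRσ' _).2 h4
      rw [AlgEquiv.apply_symm_apply] at h5
      exact hs.extK.le _ h5
    · change B0.χ γ ∈ Bs.R
      have hγs : γ ∈ Bs.Γ := by
        rw [hs.Γ_eq, hΓσ, ← hCE.Γ_eq]; exact hR.ext.Γ_le γ hγ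
      have h1 : B0.χ γ = Bs.χ γ * (B0.χ γ / Bs.χ γ) := by
        rw [mul_div_cancel₀ _ (Bs.χ_ne γ hγs)]
      rw [h1]
      exact Bs.R.mul_mem (Bs.χ_mem γ hγs h0) (hun γ hγ).1
  have hExt : Ext B0 Bs := by
    refine ⟨hle0, fun γ hγ => ?_, hun, fun f hf => ?_⟩
    · rw [hs.Γ_eq, hΓσ, ← hCE.Γ_eq]; exact hR.ext.Γ_le γ hγ
    · have h1 : f ∈ quoK Bs.R :=
        mem_quoK.2 ⟨f, hf, 1, Bs.R.one_mem, one_ne_zero, (div_one _).symm⟩
      rw [hs.quoK_eq hCb, hqσ] at h1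
      have h2 : f ∈ K ⊔ algC C₀ := by
        have h3 : K ⊔ C ⊔ algC C₀ ≤ K ⊔ algC C₀ := by
          refine sup_le (sup_le_sup_left hCb K) le_sup_right
        exact h3 h1
      rw [← hB0, mem_quoK] at h2
      exact h2
  rcases cmp_reach hctx B0 B Bs hR hExt with h1 | h1
  · left
    intro f hf
    have h2 : σ f ∈ B.R := h1 (hs.extK.le _ ((hRσ' f).2 hf))
    refine hCE.mem_of_mem hCb halgC h hres h2 ?_
    rw [hq]
    refine hmap f ?_
    rw [← hq, mem_quoK]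
    exact ⟨f, hf, 1, BC.R.one_mem, one_ne_zero, (div_one _).symm⟩
  · right
    intro f hf
    have h2 : f ∈ Bs.R := h1.le (hCE.extK.le _ hf)
    have h3 : f ∈ K ⊔ C := by
      rw [← hq, mem_quoK]
      exact ⟨f, hf, 1, BC.R.one_mem, one_ne_zero, (div_one _).symm⟩
    have h4 : f ∈ Bσ.R := hs.mem_of_mem hCb halgC h hresσ h2 (by rw [hqσ]; exact h3)
    rw [← hRσ', AlgEquiv.apply_symm_apply]
    exact h4

end SB5

theorem exists_stable (p : ℕ) (hp : p.Prime) [CharP k p] [IsAlgClosed Ω]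
    {C₀ K : IntermediateField k Ω} (h : Ctx2 C₀ v r) (hC₀ : C₀.FG) (hK : K.FG) (hKC : C₀ ≤ K)
    (halg : ∀ g : Ω, IsAlgebraic K g) :
    ∃ C : IntermediateField k Ω, C₀ ≤ C ∧ C.FG ∧ (∀ c ∈ C, IsAlgebraic C₀ c) ∧
      (∀ σ : Ω ≃ₐ[C₀] Ω, ∀ c ∈ C, σ c ∈ C) ∧
      ∃ B : BF C v, B.Res ∧ quoK B.R = K ⊔ C ∧
        (∀ σ : Ω ≃ₐ[K] Ω, (∀ g ∈ K ⊔ C, g ≠ 0 → v (σ g) = v g) → ∀ f ∈ B.R, σ f ∈ B.R) ∧
        ∃ X : Fin r → Ω, (∀ i, X i ∈ K ∧ B.Mono (X i)) ∧
          LinearIndependent ℚ fun i => v (X i) := by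
  classical
  have hle : C₀ ≤ algC C₀ := fun c hc => mem_algC.2 (isAlgebraic_algebraMap (⟨c, hc⟩ : C₀))
  have halgb : ∀ c ∈ algC C₀, IsAlgebraic C₀ c := fun c hc => mem_algC.1 hc
  have hctx2 : Ctx2 (algC C₀) v r := h.of_alg hle halgb
  obtain ⟨B0, hB0, hctx⟩ := exists_closed_frame p hp h hK hKC halg
  obtain ⟨F0, hF0⟩ := B0.fgen
  obtain ⟨G0, hG0⟩ := B0.fg
  have hG0Γ : ∀ u ∈ G0, u ∈ B0.Γ := fun u hu => by
    rw [← hG0]; exact AddSubgroup.subset_closure hu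
  -- elements of `K` with independent values
  obtain ⟨X0, hX00, hX0i, -⟩ := h.rank
  choose Y hY0 m hm hmv using fun i => comm_value (v := v) K (X0 i) (hX00 i) (halg (X0 i))
  have hXi : LinearIndependent ℚ fun i => v ((Y i : K) : Ω) := by
    have hu : ∀ i, ((m i : ℕ) : ℚ) ≠ 0 := fun i => by exact_mod_cast (hm i).ne'
    have h2 := hX0i.units_smul (fun i => Units.mk0 _ (hu i))
    have h3 : (fun i => v ((Y i : K) : Ω)) = (fun i => Units.mk0 _ (hu i)) • fun i => v (X0 i) := by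
      funext i
      rw [hmv i, Pi.smul_apply', Units.smul_def, Units.val_mk0, Rat.smul_def]
      push_cast
      ring
    rw [h3]
    exact h2
  -- the set to be made monomial
  let T0 : Finset Ω := (F0.filter fun f => f ≠ 0) ∪ (G0.image B0.χ) ∪
    (Finset.univ.image fun i => ((Y i : K) : Ω))
  have hT0 : ∀ t ∈ T0, t ∈ K ⊔ algC C₀ ∧ t ≠ 0 := by
    intro t ht
    simp only [T0, Finset.mem_union, Finset.mem_image, Finset.mem_filter, Finset.mem_univ,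
      true_and] at ht
    rcases ht with (⟨hf, hf0⟩ | ⟨u, hu, rfl⟩) | ⟨i, rfl⟩
    · refine ⟨?_, hf0⟩
      rw [← hB0, mem_quoK]
      refine ⟨t, ?_, 1, B0.R.one_mem, one_ne_zero, (div_one _).symm⟩
      rw [hF0]; exact le_locv _ (Algebra.subset_adjoin (Or.inl hf))
    · refine ⟨?_, B0.χ_ne u (hG0Γ u hu)⟩
      rw [← hB0, mem_quoK]
      rcases le_total 0 u with h0 | h0
      · exact ⟨_, B0.χ_mem u (hG0Γ u hu) h0, 1, B0.R.one_mem, one_ne_zero, (div_one _).symm⟩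
      · refine ⟨1, B0.R.one_mem, _, B0.χ_mem (-u) (B0.Γ.neg_mem (hG0Γ u hu)) (neg_nonneg.2 h0),
          B0.χ_ne _ (B0.Γ.neg_mem (hG0Γ u hu)), ?_⟩
        rw [B0.χ_neg (hG0Γ u hu), one_div, inv_inv]
    · exact ⟨(le_sup_left : K ≤ _) (Y i).2, hY0 i⟩
  obtain ⟨T, hT0T, hTσ, hTc⟩ := exists_conj_finset T0 fun t _ => halg t
  have hσb : ∀ (σ : Ω ≃ₐ[K] Ω), ∀ c ∈ algC C₀, σ c ∈ algC C₀ := by
    intro σ c hc
    rw [mem_algC] at hc ⊢
    obtain ⟨P, hP, hPc⟩ := hc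
    refine ⟨P, hP, ?_⟩
    have h1 : ∀ a : C₀, σ (a : Ω) = (a : Ω) := fun a => σ.commutes (⟨a, hKC a.2⟩ : K)
    rw [Polynomial.aeval_eq_sum_range] at hPc ⊢
    have h2 := congrArg σ hPc
    rw [_root_.map_zero, map_sum] at h2
    rw [← h2]
    refine Finset.sum_congr rfl fun i _ => ?_
    rw [Algebra.smul_def, Algebra.smul_def, _root_.map_mul, _root_.map_pow]
    congr 1
    exact (h1 (P.coeff i)).symm
  have hT : ∀ t ∈ T, t ∈ K ⊔ algC C₀ ∧ t ≠ 0 := by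
    intro t ht
    obtain ⟨σ, t0, ht0, rfl⟩ := hTc t ht
    exact ⟨SB5.map_sup σ (hσb σ) _ (hT0 t0 ht0).1, by simpa using (hT0 t0 ht0).2⟩
  have hchar : CharP (algC C₀) p :=
    charP_of_injective_algebraMap (algebraMap k (algC C₀)).injective p
  obtain ⟨B, hR, hBT⟩ := ML p hp hctx B0 (quo B0.R)
    (fracIs_iff.2 ⟨fun f hf => le_quo hf, le_rfl⟩) T (by
      intro t ht
      refine ⟨?_, (hT t ht).2⟩
      have h1 := (hT t ht).1
      rw [← hB0] at h1
      exact h1)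
  have hqB : quoK B.R = K ⊔ algC C₀ := by
    rw [← hB0]
    ext g
    rw [mem_quoK, mem_quoK]
    have hf := hR.ext.fracIs (fracIs_iff.2 ⟨fun f hf => le_quo hf, le_rfl⟩ :
      FracIs B0.R (quo B0.R))
    constructor
    · rintro ⟨a, ha, b, hb, hb0, rfl⟩
      exact mem_quo.1 (div_mem (hf.1 a ha) (hf.1 b hb))
    · intro hg
      exact hf.2 g (mem_quo.2 hg)
  have hresB : B.Res := by
    intro f hf
    obtain ⟨c, hc, -⟩ := B.exists_const hctx hf
    exact ⟨c, hc⟩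
  -- spreading out
  obtain ⟨S, hS, hspread⟩ := B.spread hle halgb hctx2 hresB hK hKC hqB
  obtain ⟨S1, hS1, hS1T⟩ := SB5.sup_fin' T0 fun t ht => (hT0 t ht).1
  obtain ⟨S2, hS2, hS2σ, hS2c⟩ := exists_conj_finset (K := C₀) (S ∪ S1) (by
    intro t ht
    rcases Finset.mem_union.1 ht with h1 | h1
    · exact halgb t (hS t h1)
    · exact halgb t (hS1 t h1))
  have hS2b : ∀ t ∈ S2, IsAlgebraic C₀ t := by
    intro t ht
    obtain ⟨σ, t0, ht0, rfl⟩ := hS2c t ht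
    have h1 : IsAlgebraic C₀ t0 := by
      rcases Finset.mem_union.1 ht0 with h1 | h1
      · exact halgb _ (hS _ h1)
      · exact halgb _ (hS1 _ h1)
    obtain ⟨P, hP, hPt⟩ := h1
    refine ⟨P, hP, ?_⟩
    rw [← AlgEquiv.coe_toAlgHom, Polynomial.aeval_algHom_apply, hPt, _root_.map_zero]
  set C : IntermediateField k Ω := C₀ ⊔ IntermediateField.adjoin k (S2 : Set Ω) with hC
  have hC0 : C₀ ≤ C := le_sup_left
  have hS2C : ∀ t ∈ S2, t ∈ C := fun t ht =>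
    (le_sup_right : IntermediateField.adjoin k _ ≤ C) (IntermediateField.subset_adjoin k _ ht)
  have hCb : C ≤ algC C₀ := by
    refine sup_le hle ?_
    rw [IntermediateField.adjoin_le_iff]
    exact fun t ht => mem_algC.2 (hS2b t ht)
  have hCσ : ∀ σ : Ω ≃ₐ[C₀] Ω, ∀ c ∈ C, σ c ∈ C := by
    intro σ
    have h1 : C ≤ C.comap ((σ : Ω →ₐ[C₀] Ω).restrictScalars k) := by
      refine sup_le (fun c hc => ?_) ?_
      · change σ c ∈ C
        rw [show σ c = c from σ.commutes (⟨c, hc⟩ : C₀)]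
        exact hC0 hc
      · rw [IntermediateField.adjoin_le_iff]
        intro t ht
        change σ t ∈ C
        exact hS2C _ (hS2σ σ t ht)
    exact fun c hc => h1 hc
  have hCfg : C.FG := by
    obtain ⟨S0, hS0⟩ := hC₀
    refine ⟨S0 ∪ S2, ?_⟩
    rw [Finset.coe_union, IntermediateField.adjoin_union, hS0]
  obtain ⟨BC, hCE, hres, hq⟩ := hspread C hC0 hCb fun c hc =>
    hS2C c (hS2 (Finset.mem_union_left _ hc))
  have hCK : ∀ g ∈ K ⊔ IntermediateField.adjoin k (S1 : Set Ω), g ∈ K ⊔ C := by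
    intro g hg
    refine (sup_le_sup_left ?_ K) hg
    rw [IntermediateField.adjoin_le_iff]
    exact fun t ht => hS2C t (hS2 (Finset.mem_union_right _ ht))
  have hKC' : K ⊔ C = K ⊔ IntermediateField.adjoin k (S2 : Set Ω) := by
    rw [hC, ← sup_assoc, sup_eq_left.2 hKC]
  have hctxC : Ctx2 C v r := h.of_alg hC0 fun c hc => halgb c (hCb hc)
  refine ⟨C, hC0, hCfg, fun c hc => halgb c (hCb hc), hCσ, BC, hres, hq, ?_,
    fun i => ((Y i : K) : Ω), fun i => ⟨(Y i).2, ?_⟩, hXi⟩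
  · intro σ hv
    -- `σ` as an automorphism over `C₀`
    let σ0 : ∀ σ : Ω ≃ₐ[K] Ω, Ω ≃ₐ[C₀] Ω := fun σ =>
      AlgEquiv.ofRingEquiv (f := (σ : Ω ≃+* Ω)) fun c => σ.commutes (⟨c, hKC c.2⟩ : K)
    have hCK' : ∀ (σ : Ω ≃ₐ[K] Ω), ∀ c ∈ C, σ c ∈ C := fun σ c hc => hCσ (σ0 σ) c hc
    have hσC : ∀ c, σ c ∈ C ↔ c ∈ C := fun c => ⟨fun hc => by
      have := hCK' σ.symm _ hc
      rwa [AlgEquiv.symm_apply_apply] at this, hCK' σ c⟩
    have hkey := SB5.key hctxC hctx hC0 halg hCb hB0 hR hCE hres hq F0 hF0 G0 hG0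
      (fun f hf => by
        by_cases hf0 : f = 0
        · rw [hf0]; exact zero_mem _
        · exact hCK f (hS1T f (by simp [T0, hf, hf0])))
      (fun u hu => hCK _ (hS1T _ (by
        simp only [T0, Finset.mem_union, Finset.mem_image]
        exact Or.inl (Or.inr ⟨u, hu, rfl⟩)))) σ hσC hv
      (fun f hf hf0 => hBT _ (hTσ σ.symm _ (hT0T (by simp [T0, hf, hf0]))))
      (fun u hu => hBT _ (hTσ σ.symm _ (hT0T (by
        simp only [T0, Finset.mem_union, Finset.mem_image]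
        exact Or.inl (Or.inr ⟨u, hu, rfl⟩)))))
    rcases hkey with h1 | h1
    · exact h1
    · obtain ⟨n, hn, hn'⟩ := SB5.exists_pow K σ S2 fun s hs => hS2σ (σ0 σ) s hs
      rw [← hKC'] at hn'
      have h2 : ∀ j : ℕ, ∀ f ∈ BC.R, (σ.symm ^ j) f ∈ BC.R := by
        intro j
        induction j with
        | zero => intro f hf; simpa using hf
        | succ j ih =>
          intro f hf
          rw [pow_succ, AlgEquiv.mul_apply]
          exact ih _ (h1 f hf)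
      intro f hf
      obtain ⟨j, rfl⟩ : ∃ j, n = j + 1 := ⟨n - 1, (Nat.succ_pred hn.ne').symm⟩
      have hfL : f ∈ K ⊔ C := by
        rw [← hq, mem_quoK]
        exact ⟨f, hf, 1, BC.R.one_mem, one_ne_zero, (div_one _).symm⟩
      have h3 : (σ.symm ^ j) f = σ f := by
        have h4 := hn' (σ f) (SB5.map_sup σ (fun c hc => (hσC c).2 hc) f hfL)
        have h5 : (σ.symm ^ (j + 1)) ((σ ^ (j + 1)) (σ f)) = σ f := by
          rw [← AlgEquiv.mul_apply]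
          have h6 : σ.symm ^ (j + 1) * σ ^ (j + 1) = 1 := by
            have : σ.symm = σ⁻¹ := rfl
            rw [this, inv_pow, inv_mul_cancel]
          rw [h6, AlgEquiv.one_apply]
        rw [h4, pow_succ, AlgEquiv.mul_apply, AlgEquiv.symm_apply_apply] at h5
        exact h5
      rw [← h3]
      exact h2 j f hf
  · -- monomials
    have hYT : ((Y i : K) : Ω) ∈ T := hT0T (by
      simp only [T0, Finset.mem_union, Finset.mem_image]
      exact Or.inr ⟨i, Finset.mem_univ i, rfl⟩)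
    obtain ⟨h1, h2, h3⟩ := hBT _ hYT
    have h4 : v ((Y i : K) : Ω) ∈ BC.Γ := by rw [← hCE.Γ_eq]; exact h2
    have h5 : ((Y i : K) : Ω) / B.χ (v ((Y i : K) : Ω)) ∈ K ⊔ C := by
      refine div_mem ((le_sup_left : K ≤ _) (Y i).2) ?_
      rw [hCE.χ_eq, ← hq, mem_quoK]
      rcases le_total 0 (v ((Y i : K) : Ω)) with h0 | h0
      · exact ⟨_, BC.χ_mem _ h4 h0, 1, BC.R.one_mem, one_ne_zero, (div_one _).symm⟩
      · refine ⟨1, BC.R.one_mem, _, BC.χ_mem _ (BC.Γ.neg_mem h4) (neg_nonneg.2 h0),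
          BC.χ_ne _ (BC.Γ.neg_mem h4), ?_⟩
        rw [BC.χ_neg h4, one_div, inv_inv]
    refine ⟨h1, h4, ?_, ?_, ?_⟩
    · rw [← hCE.χ_eq]
      exact hCE.mem_of_mem hCb (fun c hc => SB5.alg_of_le hC0 (mem_algC.1 hc)) hctxC hres h3.1
        (by rw [hq]; exact h5)
    · rw [← hCE.χ_eq]; exact h3.2.1
    · rw [← hCE.χ_eq]; exact h3.2.2

end Pool.Agent.LU1
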