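import Pool.Agent.Lib.LU2_h80.EStep
import Pool.Agent.Lib.LU1_h15.Etale

/-! # LU2, S: the first C-frame -/

set_option autoImplicit false

open Polynomial

namespace Pool.Agent.LU1

open Pool.Agent.H15JM (RVal)

universe u

variable {k Ω : Type u} [Field k] [Field Ω] [Algebra k Ω] {v : RVal Ω} {r d : ℕ}

/-- S1. The base field `k(z)`. -/
theorem CtxD.base (h : CtxD k v r d) {z : Fin d → Ω} (hz : ResInd k v z) :
    Ctx2 (IntermediateField.adjoin k (Set.range z)) v r := by
  have hind : AlgebraicIndependent k z := by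
    rw [algebraicIndependent_iff]
    intro P hP
    by_contra h0
    exact (hz P h0).1 hP
  refine h.ctx2 _ ?_ ?_
  · intro c hc h0
    obtain ⟨P, Q, rfl⟩ := (IntermediateField.mem_adjoin_range_iff k z c).1 hc
    have hP : P ≠ 0 := by
      rintro rfl
      simp at h0
    have hQ : Q ≠ 0 := by
      rintro rfl
      simp at h0
    rw [v.map_div (hz P hP).1 (hz Q hQ).1, (hz P hP).2, (hz Q hQ).2, sub_zero]
  · set L := IntermediateField.adjoin k (Set.range z) with hL
    let x : Fin d → L := fun i => ⟨z i, IntermediateField.subset_adjoin _ _ ⟨i, rfl⟩⟩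
    have hx : AlgebraicIndependent k x := by
      apply AlgebraicIndependent.of_comp L.val
      exact hind
    have hval : ∀ P : MvPolynomial (Fin d) k,
        ((MvPolynomial.aeval x P : L) : Ω) = MvPolynomial.aeval z P := by
      intro P
      have h1 := MvPolynomial.comp_aeval_apply x L.val P
      exact h1
    have hbas : IsTranscendenceBasis k x := by
      rw [hx.isTranscendenceBasis_iff_isAlgebraic]
      constructor
      rintro ⟨g, hg⟩
      obtain ⟨P, Q, rfl⟩ := (IntermediateField.mem_adjoin_range_iff k z g).1 hg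
      have h1 : (⟨MvPolynomial.aeval z P / MvPolynomial.aeval z Q, hg⟩ : L) =
          MvPolynomial.aeval x P * (MvPolynomial.aeval x Q)⁻¹ := by
        apply Subtype.ext
        show MvPolynomial.aeval z P / MvPolynomial.aeval z Q =
          ((MvPolynomial.aeval x P : L) : Ω) * ((MvPolynomial.aeval x Q : L) : Ω)⁻¹
        rw [hval, hval, div_eq_mul_inv]
      have h2 : ∀ P : MvPolynomial (Fin d) k,
          IsAlgebraic (Algebra.adjoin k (Set.range x)) (MvPolynomial.aeval x P) := by
        intro P
        have h3 : MvPolynomial.aeval x P ∈ Algebra.adjoin k (Set.range x) := by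
          rw [Algebra.adjoin_range_eq_range_aeval]
          exact ⟨P, rfl⟩
        exact isAlgebraic_algebraMap (⟨_, h3⟩ : Algebra.adjoin k (Set.range x))
      rw [h1]
      exact (h2 P).mul (h2 Q).inv
    have h4 := hbas.lift_cardinalMk_eq_trdeg
    simp only [Cardinal.mk_fin, Cardinal.lift_natCast] at h4
    simpa using h4.symm

/-- S2. `θ` separable algebraic over a field `C₀ ≤ K` on which `v` is trivial, near `K`. -/
theorem nearGen_of_sep {C₀ K : IntermediateField k Ω} (hC₀ : TrivOn v C₀) (hle : C₀ ≤ K) {θ : Ω}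
    (hsep : IsSeparable C₀ θ) (hn : ∃ b ∈ K, VPos v (θ - b)) : NearGen v K θ := by
  have hint : IsIntegral C₀ θ := hsep.isIntegral
  let ι : C₀ →+* K := (IntermediateField.inclusion hle).toRingHom
  let f : K[X] := (minpoly C₀ θ).map ι
  have haev : ∀ P : C₀[X], aeval θ (P.map ι) = aeval θ P := by
    intro P
    rw [aeval_def, eval₂_map, aeval_def]
    rfl
  have hder : derivative f = (derivative (minpoly C₀ θ)).map ι := derivative_map _ _
  have h1 : aeval θ (derivative (minpoly C₀ θ)) ≠ 0 := by
    exact hsep.aeval_derivative_ne_zero (minpoly.aeval _ _)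
  have halg : TrivOn v (adj C₀ θ) := hC₀.alg (adj_algebraic hint.isAlgebraic)
  refine NearGen.of_root f ((minpoly.monic hint).map _) ?_ ?_ ?_ ?_ hn
  · intro i
    have h2 : ((f.coeff i : K) : Ω) = (((minpoly C₀ θ).coeff i : C₀) : Ω) := by
      rw [coeff_map]
      rfl
    rw [h2]
    intro h0
    rw [hC₀ _ ((minpoly C₀ θ).coeff i).2 h0]
  · rw [haev]
    exact minpoly.aeval _ _
  · rw [hder, haev]
    exact h1
  · rw [hder, haev]
    refine halg _ ?_ h1
    rw [aeval_eq_sum_range]
    refine sum_mem fun i _ => ?_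
    rw [Algebra.smul_def]
    exact mul_mem (mem_adj_left (Subtype.mem _)) (pow_mem (mem_adj_self C₀ θ) i)

end Pool.Agent.LU1
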