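import Pool.Agent.Lib.LU2_h80.Inv
import Pool.Agent.Lib.LU2_h80.S_12

/-! # LU2, S: the first C-frame -/

set_option autoImplicit false

open Polynomial

namespace Pool.Agent.LU1

open Pool.Agent.H15JM (RVal)

universe u

variable {k Ω : Type u} [Field k] [Field Ω] [Algebra k Ω] {v : RVal Ω} {r d : ℕ}

-- uses CtxD.base (S1) and nearGen_of_sep (S2) of the same file

namespace S_3Aux

/-- A finitely generated field, separable algebraic over `C₀`: intermediate fields are generated by
one element. -/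
theorem exists_prim {C₀ F C : IntermediateField k Ω} (h1 : C₀ ≤ F) (h2 : F ≤ C) (hC : C.FG)
    (hsep : ∀ c ∈ C, IsSeparable C₀ c) : ∃ θ ∈ F, F = adj C₀ θ := by
  obtain ⟨S, hS⟩ := hC
  set N : IntermediateField C₀ Ω := IntermediateField.adjoin C₀ (S : Set Ω) with hN
  have hSC : ∀ s ∈ (S : Set Ω), s ∈ C := by
    intro s hs
    rw [← hS]
    exact IntermediateField.subset_adjoin k _ hs
  have hNfin : FiniteDimensional C₀ N :=
    IntermediateField.finiteDimensional_adjoin fun s hs => (hsep s (hSC s hs)).isIntegral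
  have hCN : ∀ c ∈ C, c ∈ N := by
    intro c hc
    have h3 : C ≤ N.restrictScalars k := by
      rw [← hS, IntermediateField.adjoin_le_iff]
      intro s hs
      exact IntermediateField.subset_adjoin C₀ _ hs
    exact h3 hc
  set F' : IntermediateField C₀ Ω := IntermediateField.extendScalars h1 with hF'
  have hF'N : F' ≤ N := fun c hc => hCN c (h2 hc)
  have hfin : FiniteDimensional C₀ F' :=
    FiniteDimensional.of_injective (IntermediateField.inclusion hF'N).toLinearMap
      (IntermediateField.inclusion_injective hF'N)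
  have hsep' : Algebra.IsSeparable C₀ F' := by
    refine ⟨fun x => ?_⟩
    have h3 : IsSeparable C₀ (x : Ω) := hsep _ (h2 x.2)
    have h4 : minpoly C₀ (algebraMap F' Ω x) = minpoly C₀ x :=
      minpoly.algebraMap_eq (algebraMap F' Ω).injective x
    rw [IsSeparable, ← h4]
    exact h3
  obtain ⟨α, hα⟩ := Field.exists_primitive_element C₀ F'
  refine ⟨(α : Ω), α.2, le_antisymm ?_ ?_⟩
  · intro x hx
    have h5 : (⟨x, hx⟩ : F') ∈ (⊤ : IntermediateField C₀ F') := trivial
    rw [← hα] at h5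
    have h6 : IntermediateField.adjoin C₀ {α} ≤
        (IntermediateField.extendScalars (le_sup_left : C₀ ≤ adj C₀ (α : Ω))).comap F'.val := by
      rw [IntermediateField.adjoin_le_iff, Set.singleton_subset_iff]
      exact (le_sup_right : IntermediateField.adjoin k {(α : Ω)} ≤ adj C₀ (α : Ω))
        (IntermediateField.mem_adjoin_simple_self k (α : Ω))
    exact h6 h5
  · refine sup_le h1 ?_
    rw [IntermediateField.adjoin_le_iff, Set.singleton_subset_iff]
    exact α.2

/-- Transitivity of algebraicity. -/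
theorem alg_of_alg {L K : IntermediateField k Ω} (hLK : L ≤ K) (hKL : ∀ a ∈ K, IsAlgebraic L a)
    {g : Ω} (hg : IsAlgebraic K g) : IsAlgebraic L g := by
  let _ : Algebra L K := (IntermediateField.inclusion hLK).toRingHom.toAlgebra
  have _ : IsScalarTower L K Ω := IsScalarTower.of_algebraMap_eq fun x => rfl
  have _ : Algebra.IsAlgebraic L K := ⟨fun a =>
    (isAlgebraic_algebraMap_iff (R := L) (A := Ω) (algebraMap K Ω).injective).mp (hKL a a.2)⟩
  exact hg.restrictScalars L

end S_3Aux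

open S_3Aux in
/-- S3. A C-frame of `K^{p^n}(θ)`, `θ` near `K`. -/
theorem exists_start (p : ℕ) (hp : p.Prime) [CharP k p] [PerfectField k] [IsAlgClosed Ω]
    (h : CtxD k v r d) (K : IntermediateField k Ω) (hK : K.FG)
    (halg : ∀ g : Ω, IsAlgebraic K g) {z : Fin d → Ω} (hz : ResInd k v z)
    (hzK : ∀ i, z i ∈ K) :
    ∃ (X : CF k v r) (n : ℕ) (θ : Ω), NearGen v K θ ∧ θ ∈ X.E ∧ X.E ≤ adj K θ ∧
      ∀ g ∈ K, g ^ p ^ n ∈ X.E := by
  set C₀ : IntermediateField k Ω := IntermediateField.adjoin k (Set.range z) with hC₀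
  have h0 : Ctx2 C₀ v r := h.base hz
  have hC₀fg : C₀.FG := IntermediateField.fg_adjoin_of_finite (Set.finite_range z)
  have hKC : C₀ ≤ K := by
    rw [hC₀, IntermediateField.adjoin_le_iff]
    rintro _ ⟨i, rfl⟩
    exact hzK i
  obtain ⟨n, C, hC, hCfg, hsep, hst, B, hB, hq, hstab, hX⟩ :=
    exists_galois p hp h0 hC₀fg hK hKC halg
  have hLK : frobK p n K ≤ K := by
    rw [frobK, IntermediateField.adjoin_le_iff]
    rintro _ ⟨a, ha, rfl⟩
    exact pow_mem (show a ∈ K from ha) _
  have hpow : ∀ a ∈ K, a ^ p ^ n ∈ frobK p n K := fun a ha =>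
    IntermediateField.subset_adjoin k _ ⟨a, ha, rfl⟩
  have hLalg : ∀ g : Ω, IsAlgebraic (frobK p n K) g := fun g =>
    alg_of_alg hLK (fun a ha => by
      have h1 : IsAlgebraic (frobK p n K) (a ^ p ^ n) :=
        isAlgebraic_algebraMap (⟨a ^ p ^ n, hpow a ha⟩ : frobK p n K)
      exact IsAlgebraic.of_pow (pow_pos hp.pos n) h1) (halg g)
  obtain ⟨B', hB', hq'⟩ := BF.exists_inv h0 hKC hC hCfg hsep hst hLK hLalg B hB hq
    (fun σ hσ f hf => hstab σ hσ f hf) hX
  have hC0C' : C₀ ≤ fixC v K C := by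
    intro c hc
    refine ⟨hC hc, fun σ _ => ?_⟩
    exact σ.commutes (⟨c, hKC hc⟩ : K)
  have hC'C : fixC v K C ≤ C := fun c hc => hc.1
  obtain ⟨θ, hθ, hC'eq⟩ := exists_prim hC0C' hC'C hCfg hsep
  have hfg : (fixC v K C).FG := by
    rw [hC'eq]
    exact adj_fg θ hC₀fg
  have hctx : Ctx2 (fixC v K C) v r :=
    h0.of_alg hC0C' fun c hc => (hsep c hc.1).isIntegral.isAlgebraic
  refine ⟨⟨fixC v K C, hfg, hctx, B', hB'⟩, n, θ, ?_, ?_, ?_, ?_⟩
  · exact nearGen_of_sep h0.trivOn hKC (hsep θ hθ.1)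
      (near_of_fixed h0.trivOn hKC hC hCfg hsep hst halg θ hθ)
  · show θ ∈ quoK B'.R
    rw [hq']
    exact (le_sup_right : fixC v K C ≤ _) hθ
  · show quoK B'.R ≤ adj K θ
    rw [hq']
    refine sup_le (hLK.trans (le_adj K θ)) ?_
    rw [hC'eq]
    exact adj_le (hKC.trans (le_adj K θ)) (mem_adj K θ)
  · intro g hg
    show g ^ p ^ n ∈ quoK B'.R
    rw [hq']
    exact (le_sup_left : frobK p n K ≤ _) (hpow g hg)

end Pool.Agent.LU1
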