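import Pool.Agent.Lib.LU2_h80.Const
import Pool.Agent.Lib.LU2_h80.SB_1
import Pool.Agent.Lib.LU2_h80.SB_2
import Pool.Agent.Lib.LU2_h80.SB_3
import Pool.Agent.Lib.LU2_h80.SB_5

/-! # LU2, SB: a stable frame over a finite normal extension of the constants -/
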