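import Pool.Agent.Lib.LU2_h80.Inv
import Pool.Agent.Lib.LU2_h80.S_12
import Pool.Agent.Lib.LU2_h80.S_3

/-! # LU2, S: the first C-frame -/
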